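import Mathlib
import Pool.Agent.H77.Q1.Approach

set_option autoImplicit false
open Finset

/-! Module M3 of Q1: the comparison lemma, open half, in abstract form.

`E` random labels, `G` fixed open labels, `W ⊆ G` (the wired labels joined to `t`), all other labels are
closed; `O ⊆ E` is a set of labels which are opened. If every exit vertex of `O` has a short tie in `O`
to `W`, and no short dual path of labels of `E` (inner distance!) joins the tie to the closed arc on the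
left or to the closed arc on the right, then opening `O` does not change the crossing event `x ↔ t`
much. Exceptional exit vertices (near a corner) are allowed if they are far from `x` and from the frozen
open labels. -/

namespace Pool.Agent.H21.Q1

open Pool.Agent.H75.Perc Pool.Agent.H75.TwoArm Pool.Agent.H75.Four Pool.Agent.H77.Q1

/-- No dual path of labels of `E` inside the open square of radius `D` around `v` joins a face next to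
`T` to `S`. -/
def Iso (E T : Finset (ℤ × ℤ)) (D : ℤ) (v : ℤ × ℤ) (S : ℤ × ℤ → Prop) : Prop :=
  ∀ z z' h : ℤ × ℤ, IsUnit4 (z' - z) → lbf z z' ∈ T →
    CoX (du E ∅) (fun g => ¬ Far D v g) z h → ¬ S h

lemma Iso.mono {E T T' : Finset (ℤ × ℤ)} {D : ℤ} {v : ℤ × ℤ} {S : ℤ × ℤ → Prop} (hT : T' ⊆ T)
    (h : Iso E T D v S) : Iso E T' D v S := fun z z' g h1 h2 h3 => h z z' g h1 (hT h2) h3

lemma exit_far {κ κ' : Finset (ℤ × ℤ)} {X : ℤ × ℤ → Prop} {z h : ℤ × ℤ} (hsub : κ ⊆ κ')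
    (h1 : Co κ z h) (h2 : ¬ CoX κ' X z h) : ∃ w, ¬ X w ∧ Co κ z w := by
  have key : ∀ g, Co κ z g → CoX κ' X z g ∨ ∃ w, ¬ X w ∧ Co κ z w := by
    intro g hg
    induction hg with
    | refl => exact Or.inl Relation.ReflTransGen.refl
    | @tail a b ha hab ih =>
      rcases ih with ih | ih
      · by_cases hb : X b
        · exact Or.inl (Relation.ReflTransGen.tail ih ⟨⟨hab.1, hsub hab.2⟩, hb⟩)
        · exact Or.inr ⟨b, hb, Relation.ReflTransGen.tail ha hab⟩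
      · exact Or.inr ih
  exact (key h h1).resolve_left h2

/-- decay of the fresh dual arms which start next to `T` and end in `S`, inner distance -/
lemma iso_bound {δ : ℝ} (hδ : ∀ (E : Finset (ℤ × ℤ)),
    (∀ e ∈ E, (e.1 + e.2) % 2 = 1) → ∀ (x : ℤ × ℤ) (ρ : ℤ), 1 ≤ ρ → ∀ k : ℕ,
    Pr E (fun ω => ∃ u v : ℤ × ℤ, |u.1 - x.1| ≤ ρ ∧ |u.2 - x.2| ≤ ρ ∧
      (4 ^ k * ρ ≤ |v.1 - x.1| ∨ 4 ^ k * ρ ≤ |v.2 - x.2|) ∧ Co (du E ω) u v) ≤ (1 - δ) ^ k)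
    {E U : Finset (ℤ × ℤ)} (hE : ∀ e ∈ E, (e.1 + e.2) % 2 = 1)
    {v : ℤ × ℤ} {r D : ℤ} {k : ℕ} (hr : 1 ≤ r) (hk : 4 ^ k * r ≤ D) {T : Finset (ℤ × ℤ)}
    (hT : ∀ m ∈ T, |m.1 - 2 * v.1| ≤ 2 * r - 2 ∧ |m.2 - 2 * v.2| ≤ 2 * r - 2)
    {S : ℤ × ℤ → Prop} (hI : Iso E T D v S) :
    Pr E (fun ω => ∃ z z' h, IsUnit4 (z' - z) ∧ lbf z z' ∈ T ∧ S h ∧
      Co (du (E \ U) ω) z h) ≤ (1 - δ) ^ k := by
  refine le_trans (Pr_mono ?_) (arm_bound hδ hE (U := U) hr hk (v := v) (A := fun z h =>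
    (∃ z', IsUnit4 (z' - z) ∧ lbf z z' ∈ T) ∧ Far D v h) ?_)
  · rintro ω - ⟨z, z', h, h1, h2, h3, h4⟩
    obtain ⟨w, hw, hw'⟩ := exit_far (κ' := du E ∅) (X := fun g => ¬ Far D v g) (by
      intro l hl
      rw [mem_du'] at hl ⊢
      exact ⟨(mem_sdiff.1 hl.1).1, notMem_empty _⟩) h4 (fun h5 => hI z z' h h1 h2 h5 h3)
    exact ⟨z, w, ⟨⟨z', h1, h2⟩, not_not.1 hw⟩, hw'⟩
  · rintro z h ⟨⟨z', h1, h2⟩, h3⟩
    have h4 := near_label h1 (hT _ h2)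
    exact ⟨h4.1, h4.2, h3⟩

section
variable {M : ℤ} {e0 : ℤ × ℤ} {E G W O : Finset (ℤ × ℤ)} {f1 f2 x t : ℤ × ℤ}

/-- **General opening lemma.** `Tie v` is a set of opened labels joining `v` to `t`, `S` contains the
free faces on the side of `f2`; `q` bounds the probability of a fresh dual arm from `Tie v` to `S` for
`v` with `Good v`. -/
theorem open_gen2 (he0 : (e0.1 + e0.2) % 2 = 1) (he0M : e0 ∈ H75.TwoArm.BB (M - 1))
    (hE : E ⊆ H75.TwoArm.BB (M - 1)) (hGM : G ⊆ H75.TwoArm.BB (M - 1)) (heE : e0 ∉ E)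
    (heG : e0 ∉ G) (hO : O ⊆ E) (hWG : W ⊆ G) (hf : Fac e0 f1 f2) (hx : Ends e0 x t)
    (hW : ∀ w ∈ W, Co W (eu w) t) {S : ℤ × ℤ → Prop} (hS2 : S f2)
    (hS : ∀ g g', Dc M e0 G f2 g → ¬ Dc M e0 (E ∪ G) f1 g → IsUnit4 (g' - g) →
      lbf g g' ∉ E → lbf g g' ∉ G → lbf g g' ≠ e0 → S g)
    {Tie : ℤ × ℤ → Finset (ℤ × ℤ)}
    {Good : ℤ × ℤ → Prop}
    (hTie : ∀ v, Exit E G W O x v → Good v → Tie v ⊆ O ∧ Co (Tie v ∪ W) v t) {q : ℝ}
    (hq : ∀ v, Exit E G W O x v → Good v → ∀ U, U ⊆ E →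
      Pr E (fun ω => ∃ z z' h, IsUnit4 (z' - z) ∧ lbf z z' ∈ Tie v ∧ S h ∧
        Co (du (E \ U) ω) z h) ≤ q) (hq0 : 0 ≤ q) :
    Pr E (fun ω => (¬ Co (ω ∪ G) x t ∧ Good (exv O W (Kb M e0 G O f1 ω) x)) ∧
      Co (ω ∪ O ∪ G) x t) ≤ Pr E (fun ω => Co (ω ∪ O ∪ G) x t) * q := by
  classical
  have hη : ∀ ω, ω ⊆ E → ω ∪ O ∪ G ⊆ H75.TwoArm.BB (M - 1) := fun ω hω =>
    union_subset (union_subset (hω.trans hE) (hO.trans hE)) hGM
  have hen : ∀ ω, ω ⊆ E → e0 ∉ ω ∪ O ∪ G := by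
    intro ω hω h
    rw [mem_union, mem_union] at h
    rcases h with (h | h) | h
    · exact heE (hω h)
    · exact heE (hO h)
    · exact heG h
  refine resample_le E (Ex M e0 E G O f1) (fun ω ω' h1 h2 => ex_mix h1 h2) _ _
    (fun ω ω' => (Exit E G W O x (exv O W (Kb M e0 G O f1 ω) x) ∧
      Good (exv O W (Kb M e0 G O f1 ω) x)) ∧
      ∃ z z' h, IsUnit4 (z' - z) ∧ lbf z z' ∈ Tie (exv O W (Kb M e0 G O f1 ω) x) ∧ S h ∧
        Co (du (E \ Ex M e0 E G O f1 ω) ω') z h) _ ?_ ?_ ?_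
  · intro ω ω' h1 h2 h3
    by_contra h4
    have h5 := (dual_iff' he0 he0M (hη _ h1) (hen _ h1) hf hx).1 h4
    rw [← dc_mix h1 h2] at h5
    exact (dual_iff' he0 he0M (hη _ (mix_sub h1 h2)) (hen _ (mix_sub h1 h2)) hf hx).2 h5 h3
  · intro ω hω _
    by_cases hg : Exit E G W O x (exv O W (Kb M e0 G O f1 ω) x) ∧
      Good (exv O W (Kb M e0 G O f1 ω) x)
    · refine le_trans (Pr_mono fun ω' _ h => h.2) (hq _ hg.1 hg.2 _ ?_)
      exact (filter_subset _ _).trans sdiff_subset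
    · refine le_trans (Pr_mono (B := fun _ => False) fun ω' _ h => hg h.1) ?_
      refine le_trans (le_of_eq ?_) hq0
      rw [Pr_eq]
      simp
  · intro ω ω' h1 h2 h3 h4
    set U := Ex M e0 E G O f1 ω with hU
    set ω1 := mix U ω ω' with hω1
    have hω1E : ω1 ⊆ E := mix_sub h1 h2
    have hkb : Kb M e0 G O f1 ω1 = Kb M e0 G O f1 ω := kb_mix h1 h2
    have hex : Ex M e0 E G O f1 ω1 = U := ex_mix h1 h2
    have h5 : Co (ω1 ∪ O ∪ G) x t := by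
      by_contra h6
      have h7 := (dual_iff' he0 he0M (hη _ hω1E) (hen _ hω1E) hf hx).1 h6
      rw [hω1, dc_mix h1 h2] at h7
      exact (dual_iff' he0 he0M (hη _ h1) (hen _ h1) hf hx).2 h7 h3
    obtain ⟨h6, h7⟩ := h4
    obtain ⟨h8, o, ho, hov⟩ :=
      exv_spec' he0 he0M (hη ω1 hω1E) (hen ω1 hω1E) hf hx hWG hW h5 h6
    set v := exv O W (Kb M e0 G O f1 ω1) x with hv
    have hvv : exv O W (Kb M e0 G O f1 ω) x = v := by rw [hv, hkb]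
    have hEO : Exit E G W O x v := by
      refine ⟨⟨o, ho, hov⟩, h8.mono ?_⟩
      intro l hl
      rw [mem_sdiff] at hl ⊢
      have := filter_subset _ _ hl.1
      rw [mem_union, mem_union] at this
      refine ⟨?_, hl.2⟩
      rw [mem_union]
      rcases this with (h9 | h9) | h9
      · exact Or.inl (hω1E h9)
      · exact Or.inl (hO h9)
      · exact Or.inr h9
    obtain ⟨hT, hTv⟩ := hTie v hEO h7
    obtain ⟨z, z', g, hz1, hz2, hz3, hz4⟩ := arm_det' he0 he0M hω1E hO (hη ω1 hω1E)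
      (hen ω1 hω1E) hf hx hWG h6 h8 hT hTv hS2 hS
    rw [hvv]
    refine ⟨⟨hEO, h7⟩, z, z', g, hz1, hz2, hz3, ?_⟩
    rw [hex, hω1, du_mix] at hz4
    exact hz4

end

/-- **Comparison, open half**, general form. -/
theorem comp_gen {δ : ℝ} (hδ1 : δ < 1) (hδ : ∀ (E : Finset (ℤ × ℤ)),
    (∀ e ∈ E, (e.1 + e.2) % 2 = 1) → ∀ (x : ℤ × ℤ) (ρ : ℤ), 1 ≤ ρ → ∀ k : ℕ,
    Pr E (fun ω => ∃ u v : ℤ × ℤ, |u.1 - x.1| ≤ ρ ∧ |u.2 - x.2| ≤ ρ ∧
      (4 ^ k * ρ ≤ |v.1 - x.1| ∨ 4 ^ k * ρ ≤ |v.2 - x.2|) ∧ Co (du E ω) u v) ≤ (1 - δ) ^ k)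
    {M : ℤ} {e0 : ℤ × ℤ} {E G W O : Finset (ℤ × ℤ)} {fL fR x t : ℤ × ℤ} {SL SR : ℤ × ℤ → Prop}
    {r D : ℤ} {k : ℕ} {Bd : ℤ × ℤ → Prop}
    (he0 : (e0.1 + e0.2) % 2 = 1) (he0M : e0 ∈ H75.TwoArm.BB (M - 1))
    (hE : E ⊆ H75.TwoArm.BB (M - 1)) (hGM : G ⊆ H75.TwoArm.BB (M - 1)) (heE : e0 ∉ E)
    (heG : e0 ∉ G) (hO : O ⊆ E) (hWG : W ⊆ G) (hf : Fac e0 fL fR) (hx : Ends e0 x t)
    (hW : ∀ w ∈ W, Co W (eu w) t)
    (hSL : SL fL ∧ ∀ g g', Dc M e0 G fL g → ¬ Dc M e0 (E ∪ G) fR g → IsUnit4 (g' - g) →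
      lbf g g' ∉ E → lbf g g' ∉ G → lbf g g' ≠ e0 → SL g)
    (hSR : SR fR ∧ ∀ g g', Dc M e0 G fR g → ¬ Dc M e0 (E ∪ G) fL g → IsUnit4 (g' - g) →
      lbf g g' ∉ E → lbf g g' ∉ G → lbf g g' ≠ e0 → SR g)
    (hr : 1 ≤ r) (hk : 4 ^ k * r ≤ D)
    (hTie : ∀ v, Exit E G W O x v → ¬ Bd v → ∃ T, IsTie O W t r v T ∧
      (Iso E T D v SL ∨ Iso E T D v SR)) :
    Pr E (fun ω => Co (ω ∪ O ∪ G) x t ∧ ¬ Co (ω ∪ G) x t) ≤
      2 * (1 - δ) ^ k + Pr E (fun ω => ∃ v, Bd v ∧ (∃ o ∈ O, v = eu o ∨ v = ev o) ∧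
        Co ((ω ∪ G) \ (O ∪ W)) x v) := by
  classical
  have hodd : ∀ e ∈ E, (e.1 + e.2) % 2 = 1 := fun e he => (mem_Bx.1 (hE he)).2.2
  have hη : ∀ ω, ω ⊆ E → ω ∪ O ∪ G ⊆ H75.TwoArm.BB (M - 1) := fun ω hω =>
    union_subset (union_subset (hω.trans hE) (hO.trans hE)) hGM
  have hen : ∀ ω, ω ⊆ E → e0 ∉ ω ∪ O ∪ G := by
    intro ω hω h
    rw [mem_union, mem_union] at h
    rcases h with (h | h) | h
    · exact heE (hω h)
    · exact heE (hO h)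
    · exact heG h
  -- strong ties
  have hTS : ∀ v, ∃ T : Finset (ℤ × ℤ), Exit E G W O x v → ¬ Bd v →
      (IsTie O W t r v T ∧ ∀ l ∈ T, Co (T ∪ W) (eu l) t) ∧ (Iso E T D v SL ∨ Iso E T D v SR) := by
    intro v
    by_cases hv : Exit E G W O x v ∧ ¬ Bd v
    · obtain ⟨T, ⟨h1, h2, h3⟩, h4⟩ := hTie v hv.1 hv.2
      refine ⟨T.filter (fun l => Co (T ∪ W) (eu l) t), fun _ _ =>
        ⟨⟨⟨(filter_subset _ _).trans h1,
        fun m hm => h2 m (mem_filter.1 hm).1, co_strong h3 _ fun l _ h => h⟩, ?_⟩,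
        h4.imp (Iso.mono (filter_subset _ _)) (Iso.mono (filter_subset _ _))⟩⟩
      intro l hl
      exact co_strong (mem_filter.1 hl).2 _ fun l _ h => h
    · exact ⟨∅, fun h h' => absurd ⟨h, h'⟩ hv⟩
  choose TS hTS using hTS
  set GoodL : ℤ × ℤ → Prop := fun v => ¬ Bd v ∧ Iso E (TS v) D v SL with hGoodL
  set OL : Finset (ℤ × ℤ) := O.filter (fun l => ∃ v, Exit E G W O x v ∧ ¬ Bd v ∧
    ¬ Iso E (TS v) D v SL ∧ l ∈ TS v) with hOL
  have hOLO : OL ⊆ O := filter_subset _ _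
  have hTSOL : ∀ v, Exit E G W O x v → ¬ Bd v → ¬ Iso E (TS v) D v SL → TS v ⊆ OL :=
    fun v h1 h2 h3 l hl => mem_filter.2 ⟨(hTS v h1 h2).1.1.1 hl, v, h1, h2, h3, hl⟩
  have hq0 : (0 : ℝ) ≤ (1 - δ) ^ k := pow_nonneg (by linarith) k
  have hle1 : ∀ A : Finset (ℤ × ℤ) → Prop, Pr E A * (1 - δ) ^ k ≤ (1 - δ) ^ k := fun A =>
    mul_le_of_le_one_left hq0 (Pr_le_one E A)
  -- first part
  have P1 : Pr E (fun ω => (¬ Co (ω ∪ G) x t ∧ GoodL (exv O W (Kb M e0 G O fR ω) x)) ∧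
      Co (ω ∪ O ∪ G) x t) ≤ (1 - δ) ^ k := by
    refine le_trans (open_gen2 (Tie := TS) he0 he0M hE hGM heE heG hO hWG hf.symm hx hW hSL.1
      hSL.2 (fun v hv hg => ⟨(hTS v hv hg.1).1.1.1, (hTS v hv hg.1).1.1.2.2⟩) ?_ hq0) (hle1 _)
    intro v hv hg U _
    exact iso_bound hδ hodd hr hk (hTS v hv hg.1).1.1.2.1 hg.2
  -- second part
  have hTL : ∀ v', ∃ v, Exit E G W OL x v' →
      (Exit E G W O x v ∧ ¬ Bd v ∧ ¬ Iso E (TS v) D v SL) ∧ ∃ o ∈ TS v, v' = eu o ∨ v' = ev o := by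
    intro v'
    by_cases hv : Exit E G W OL x v'
    · obtain ⟨⟨o, ho, hov⟩, -⟩ := hv
      obtain ⟨-, v, h1, h2, h3, h4⟩ := mem_filter.1 ho
      exact ⟨v, fun _ => ⟨⟨h1, h2, h3⟩, o, h4, hov⟩⟩
    · exact ⟨v', fun h => absurd h hv⟩
  choose c hc using hTL
  have P2 : Pr E (fun ω => (¬ Co (ω ∪ G) x t ∧ True) ∧ Co (ω ∪ OL ∪ G) x t) ≤ (1 - δ) ^ k := by
    refine le_trans (open_gen2 (Tie := fun v' => TS (c v')) (Good := fun _ => True) he0 he0M hE hGM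
      heE heG (hOLO.trans hO) hWG hf hx hW hSR.1 hSR.2 ?_ ?_ hq0) (hle1 _)
    · intro v' hv' _
      obtain ⟨⟨h1, h2, h3⟩, o, ho, hov⟩ := hc v' hv'
      refine ⟨hTSOL _ h1 h2 h3, ?_⟩
      have h3 := (hTS _ h1 h2).1.2 o ho
      have h4 := PivAux.eu_ev (hodd o (hO ((hTS _ h1 h2).1.1.1 ho)))
      set T := TS (c v') with hT
      rcases hov with hov | hov
      · subst hov; exact h3
      · subst hov
        refine Co.trans (Co.symm (Relation.ReflTransGen.single ⟨h4.1, ?_⟩)) h3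
        rw [h4.2]
        exact mem_union_left _ ho
    · intro v' hv' _ U _
      obtain ⟨⟨h1, h2, h3⟩, -⟩ := hc v' hv'
      exact iso_bound hδ hodd hr hk (hTS _ h1 h2).1.1.2.1 ((hTS _ h1 h2).2.resolve_left h3)
  have P4 : Pr E (fun ω => Co (ω ∪ O ∪ G) x t ∧ ¬ Co (ω ∪ G) x t) ≤
      Pr E (fun ω => (¬ Co (ω ∪ G) x t ∧ GoodL (exv O W (Kb M e0 G O fR ω) x)) ∧
        Co (ω ∪ O ∪ G) x t) +
      Pr E (fun ω => (¬ Co (ω ∪ G) x t ∧ True) ∧ Co (ω ∪ OL ∪ G) x t) +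
      Pr E (fun ω => ∃ v, Bd v ∧ (∃ o ∈ O, v = eu o ∨ v = ev o) ∧
        Co ((ω ∪ G) \ (O ∪ W)) x v) := by
    refine le_trans (Pr_mono (B := fun ω => ((((¬ Co (ω ∪ G) x t ∧
      GoodL (exv O W (Kb M e0 G O fR ω) x)) ∧ Co (ω ∪ O ∪ G) x t) ∨
      ((¬ Co (ω ∪ G) x t ∧ True) ∧ Co (ω ∪ OL ∪ G) x t)) ∨
      ∃ v, Bd v ∧ (∃ o ∈ O, v = eu o ∨ v = ev o) ∧ Co ((ω ∪ G) \ (O ∪ W)) x v)) ?_)
      ((Pr_or_le E _ _).trans (add_le_add_left (Pr_or_le E _ _) _))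
    rintro ω hω ⟨h1, h2⟩
    obtain ⟨h8, o, ho, hov⟩ :=
      exv_spec' he0 he0M (hη ω hω) (hen ω hω) hf.symm hx hWG hW h1 h2
    set v := exv O W (Kb M e0 G O fR ω) x with hv
    have hEO : Exit E G W O x v := by
      refine ⟨⟨o, ho, hov⟩, h8.mono ?_⟩
      intro l hl
      rw [mem_sdiff] at hl ⊢
      have := filter_subset _ _ hl.1
      rw [mem_union, mem_union] at this
      refine ⟨?_, hl.2⟩
      rw [mem_union]
      rcases this with (h9 | h9) | h9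
      · exact Or.inl (hω h9)
      · exact Or.inl (hO h9)
      · exact Or.inr h9
    by_cases hB : Bd v
    · refine Or.inr ⟨v, hB, ⟨o, ho, hov⟩, h8.mono ?_⟩
      intro l hl
      rw [mem_sdiff, mem_union, not_or] at hl
      have := filter_subset _ _ hl.1
      rw [mem_union, mem_union] at this
      rw [mem_sdiff, mem_union, mem_union]
      tauto
    refine Or.inl ?_
    by_cases hg : Iso E (TS v) D v SL
    · exact Or.inl ⟨⟨h2, hB, hg⟩, h1⟩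
    · refine Or.inr ⟨⟨h2, trivial⟩, ?_⟩
      refine Co.trans (h8.mono ?_) ((hTS v hEO hB).1.1.2.2.mono ?_)
      · intro l hl
        rw [mem_sdiff, mem_union, not_or] at hl
        have := filter_subset _ _ hl.1
        rw [mem_union, mem_union] at this
        rw [mem_union, mem_union]
        tauto
      · intro l hl
        rw [mem_union] at hl
        rw [mem_union, mem_union]
        rcases hl with hl | hl
        · exact Or.inl (Or.inr (hTSOL v hEO hB hg hl))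
        · exact Or.inr (hWG hl)
  linarith

end Pool.Agent.H21.Q1
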