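import Mathlib
import Pool.Agent.H21.Q1.CompOpen

set_option autoImplicit false
open Finset

/-! Module M3 of Q1: the comparison lemma, both halves, in abstract form.

Quad environment: `E` random labels, `G` fixed open labels, all other labels closed, root edge `e0`
with ends `x`, `t` and faces `f1`, `f2`. `comp_open`: opening the labels `O` changes the event `x ↔ t`
only with small probability if every exit vertex of `O` has a tie to `t`, isolated (inner distance) from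
the closed labels on the side of `f2`; near the exceptional exit vertices there must be an open and a
dual arm. -/

namespace Pool.Agent.H21.Q1

open Pool.Agent.H75.Perc Pool.Agent.H75.TwoArm Pool.Agent.H75.Four Pool.Agent.H77.Q1

/-- Decay of arms of both colours in every finite set of labels, at density `1/2`. -/
def Dcy (δ : ℝ) : Prop := 0 < δ ∧ δ < 1 ∧
  (∀ (E : Finset (ℤ × ℤ)), (∀ e ∈ E, (e.1 + e.2) % 2 = 1) → ∀ (x : ℤ × ℤ) (ρ : ℤ), 1 ≤ ρ →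
    ∀ k : ℕ, Pr E (fun ω => ∃ u v : ℤ × ℤ, |u.1 - x.1| ≤ ρ ∧ |u.2 - x.2| ≤ ρ ∧
      (4 ^ k * ρ ≤ |v.1 - x.1| ∨ 4 ^ k * ρ ≤ |v.2 - x.2|) ∧ Co ω u v) ≤ (1 - δ) ^ k) ∧
  (∀ (E : Finset (ℤ × ℤ)), (∀ e ∈ E, (e.1 + e.2) % 2 = 1) → ∀ (x : ℤ × ℤ) (ρ : ℤ), 1 ≤ ρ →
    ∀ k : ℕ, Pr E (fun ω => ∃ u v : ℤ × ℤ, |u.1 - x.1| ≤ ρ ∧ |u.2 - x.2| ≤ ρ ∧
      (4 ^ k * ρ ≤ |v.1 - x.1| ∨ 4 ^ k * ρ ≤ |v.2 - x.2|) ∧ Co (du E ω) u v) ≤ (1 - δ) ^ k)

theorem exists_Dcy : ∃ δ : ℝ, Dcy δ := by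
  obtain ⟨δ, h0, h1, h⟩ := open_arm_decay
  refine ⟨δ, h0, h1, h, ?_⟩
  intro E hE x ρ hρ k
  refine le_trans (le_of_eq (Pr_du E (fun ω => ∃ u v : ℤ × ℤ, |u.1 - x.1| ≤ ρ ∧
    |u.2 - x.2| ≤ ρ ∧ (4 ^ k * ρ ≤ |v.1 - x.1| ∨ 4 ^ k * ρ ≤ |v.2 - x.2|) ∧ Co ω u v))) ?_
  refine h _ ?_ x ρ hρ k
  intro e he
  rw [mem_map] at he
  obtain ⟨y, hy, rfl⟩ := he
  have := hE y hy
  unfold sh1
  simp only [Function.Embedding.coeFn_mk]
  omega

/-- `g` is within `1` of `v`. -/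
def Nb (v g : ℤ × ℤ) : Prop := |g.1 - v.1| ≤ 1 ∧ |g.2 - v.2| ≤ 1

/-- The exceptional event: a crossing, an exceptional vertex `v` reached from `x` and next to the dual
cluster of `f1`. -/
def BadEv (M : ℤ) (e0 : ℤ × ℤ) (G W O : Finset (ℤ × ℤ)) (f1 x t : ℤ × ℤ) (Bd : ℤ × ℤ → Prop)
    (ω : Finset (ℤ × ℤ)) : Prop :=
  Co (ω ∪ O ∪ G) x t ∧ ∃ v, Bd v ∧ Co ((ω ∪ G) \ (O ∪ W)) x v ∧
    (v = x ∨ ∃ g, Nb v g ∧ Dc M e0 (ω ∪ O ∪ G) f1 g)

/-- A tie of the vertex `v`: `T ⊆ O` joins `v` to `t` (through the wired labels `W`), it is within `r`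
of `c`, and no dual path of labels of `E` inside the open square of radius `D` around `c` joins a face
next to `T` to `S`. -/
structure TieAt (E O W : Finset (ℤ × ℤ)) (t : ℤ × ℤ) (S : ℤ × ℤ → Prop) (k : ℕ) (v : ℤ × ℤ)
    (T : Finset (ℤ × ℤ)) (c : ℤ × ℤ) (r D : ℤ) : Prop where
  one : 1 ≤ r
  ratio : 4 ^ k * r ≤ D
  sub : T ⊆ O
  near : ∀ m ∈ T, |m.1 - 2 * c.1| ≤ 2 * r - 2 ∧ |m.2 - 2 * c.2| ≤ 2 * r - 2
  conn : Co (T ∪ W) v t
  iso : Iso E T D c S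

section
variable {M : ℤ} {e0 : ℤ × ℤ} {E G W O : Finset (ℤ × ℤ)} {f1 f2 x t : ℤ × ℤ}

/-- **Comparison, open half.** -/
theorem comp_open {δ : ℝ} (hδ : Dcy δ) {S : ℤ × ℤ → Prop} {k : ℕ} {Bd : ℤ × ℤ → Prop}
    (he0 : (e0.1 + e0.2) % 2 = 1) (he0M : e0 ∈ H75.TwoArm.BB (M - 1))
    (hE : E ⊆ H75.TwoArm.BB (M - 1)) (hGM : G ⊆ H75.TwoArm.BB (M - 1)) (heE : e0 ∉ E)
    (heG : e0 ∉ G) (hO : O ⊆ E) (hWG : W ⊆ G) (hf : Fac e0 f1 f2) (hx : Ends e0 x t)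
    (hW : ∀ w ∈ W, Co W (eu w) t) (hS2 : S f2)
    (hS : ∀ g g', Dc M e0 G f2 g → ¬ Dc M e0 (E ∪ G) f1 g → IsUnit4 (g' - g) →
      lbf g g' ∉ E → lbf g g' ∉ G → lbf g g' ≠ e0 → S g)
    (hTie : ∀ v, Exit E G W O x v → ¬ Bd v → ∃ T c r D, TieAt E O W t S k v T c r D) :
    Pr E (fun ω => Co (ω ∪ O ∪ G) x t ∧ ¬ Co (ω ∪ G) x t) ≤
      (1 - δ) ^ k + Pr E (BadEv M e0 G W O f1 x t Bd) := by
  classical
  obtain ⟨hδ0, hδ1, -, hδd⟩ := hδ
  have hodd : ∀ e ∈ E, (e.1 + e.2) % 2 = 1 := fun e he => (mem_Bx.1 (hE he)).2.2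
  have hη : ∀ ω, ω ⊆ E → ω ∪ O ∪ G ⊆ H75.TwoArm.BB (M - 1) := fun ω hω =>
    union_subset (union_subset (hω.trans hE) (hO.trans hE)) hGM
  have hen : ∀ ω, ω ⊆ E → e0 ∉ ω ∪ O ∪ G := by
    intro ω hω h
    rw [mem_union, mem_union] at h
    rcases h with (h | h) | h
    · exact heE (hω h)
    · exact heE (hO h)
    · exact heG h
  have hTS : ∀ v, ∃ T : Finset (ℤ × ℤ), Exit E G W O x v → ¬ Bd v →
      ∃ c r D, TieAt E O W t S k v T c r D := by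
    intro v
    by_cases hv : Exit E G W O x v ∧ ¬ Bd v
    · obtain ⟨T, h⟩ := hTie v hv.1 hv.2
      exact ⟨T, fun _ _ => h⟩
    · exact ⟨∅, fun h h' => absurd ⟨h, h'⟩ hv⟩
  choose TS hTS using hTS
  have hq0 : (0 : ℝ) ≤ (1 - δ) ^ k := pow_nonneg (by linarith) k
  have P1 : Pr E (fun ω => (¬ Co (ω ∪ G) x t ∧ ¬ Bd (exv O W (Kb M e0 G O f1 ω) x)) ∧
      Co (ω ∪ O ∪ G) x t) ≤ (1 - δ) ^ k := by
    refine le_trans (open_gen2 (Tie := TS) (Good := fun v => ¬ Bd v) he0 he0M hE hGM heE heG hO hWG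
      hf hx hW hS2 hS ?_ ?_ hq0) (mul_le_of_le_one_left hq0 (Pr_le_one E _))
    · intro v hv hg
      obtain ⟨c, r, D, h⟩ := hTS v hv hg
      exact ⟨h.sub, h.conn⟩
    · intro v hv hg U _
      obtain ⟨c, r, D, h⟩ := hTS v hv hg
      exact iso_bound hδd hodd h.one h.ratio h.near h.iso
  have P4 : Pr E (fun ω => Co (ω ∪ O ∪ G) x t ∧ ¬ Co (ω ∪ G) x t) ≤
      Pr E (fun ω => (¬ Co (ω ∪ G) x t ∧ ¬ Bd (exv O W (Kb M e0 G O f1 ω) x)) ∧
        Co (ω ∪ O ∪ G) x t) + Pr E (BadEv M e0 G W O f1 x t Bd) := by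
    refine le_trans (Pr_mono (B := fun ω => ((¬ Co (ω ∪ G) x t ∧
      ¬ Bd (exv O W (Kb M e0 G O f1 ω) x)) ∧ Co (ω ∪ O ∪ G) x t) ∨
      BadEv M e0 G W O f1 x t Bd ω) ?_) (Pr_or_le E _ _)
    rintro ω hω ⟨h1, h2⟩
    obtain ⟨h8, o, ho, hov⟩ :=
      exv_spec' he0 he0M (hη ω hω) (hen ω hω) hf hx hWG hW h1 h2
    set v := exv O W (Kb M e0 G O f1 ω) x with hv
    by_cases hB : Bd v
    · refine Or.inr ⟨h1, v, hB, h8.mono ?_, ?_⟩
      · intro l hl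
        rw [mem_sdiff, mem_union, not_or] at hl
        have := filter_subset _ _ hl.1
        rw [mem_union, mem_union] at this
        rw [mem_sdiff, mem_union, mem_union]
        tauto
      · rcases Relation.ReflTransGen.cases_tail h8 with h9 | ⟨u, -, h9⟩
        · exact Or.inl h9
        · right
          have h10 := (mem_sdiff.1 h9.2).1
          obtain ⟨g, g', hg1, hg2, hg3, -⟩ := (mem_filter.1 h10).2
          refine ⟨g, ?_, hg3⟩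
          have h11 := unit_cases hg1
          have h12 := unit_cases h9.1
          unfold lbf at hg2
          have h13 := congrArg Prod.fst hg2
          have h14 := congrArg Prod.snd hg2
          simp only [Prod.fst_sub, Prod.fst_add, Prod.snd_sub, Prod.snd_add] at h13 h14
          unfold Nb
          rw [abs_le, abs_le]
          omega
    · exact Or.inl ⟨⟨h2, hB⟩, h1⟩
  linarith

/-- one arm of a union: a path in `κ ∪ F`, none of the labels of `F` near `p`, ends far away: it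
contains an arm in `κ` -/
lemma arm_far {κ κ' : Finset (ℤ × ℤ)} {p u v : ℤ × ℤ} {R : ℤ} (h : Co κ' u v)
    (hsub : ∀ a b, ¬ Far R p a → Ad κ' a b → Ad κ a b) (hv : Far R p v) :
    ∃ w, Far R p w ∧ Co κ u w := by
  classical
  have key : ∀ b, Co κ' u b → (¬ Far R p b ∧ Co κ u b) ∨ ∃ w, Far R p w ∧ Co κ u w := by
    intro b hb
    induction hb with
    | refl =>
      by_cases h1 : Far R p u
      · exact Or.inr ⟨u, h1, Co.refl _ _⟩
      · exact Or.inl ⟨h1, Co.refl _ _⟩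
    | @tail a b _ hab ih =>
      rcases ih with ⟨h1, h2⟩ | h1
      · have h3 : Co κ u b := Relation.ReflTransGen.tail h2 (hsub a b h1 hab)
        by_cases h4 : Far R p b
        · exact Or.inr ⟨b, h4, h3⟩
        · exact Or.inl ⟨h4, h3⟩
      · exact Or.inr h1
  rcases key v h with ⟨h1, -⟩ | h1
  · exact absurd hv h1
  · exact h1

/-- The exceptional event is unlikely if `x` and the frozen open labels are far from `p`. -/
theorem bad_open {δ : ℝ} (hδ : Dcy δ) {Bd : ℤ × ℤ → Prop} {p : ℤ × ℤ} {ρ R : ℤ} {k : ℕ}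
    (hE : ∀ e ∈ E, (e.1 + e.2) % 2 = 1) (hρ : 1 ≤ ρ) (hk : 4 ^ k * ρ ≤ R)
    (hBd : ∀ v, Bd v → |v.1 - p.1| ≤ ρ ∧ |v.2 - p.2| ≤ ρ) (hx : Far R p x)
    (hG : ∀ a b, IsUnit4 (b - a) → a + b ∈ G \ W → Far R p a) :
    Pr E (BadEv M e0 G W O f1 x t Bd) ≤ (1 - δ) ^ k := by
  refine le_trans (Pr_mono ?_) (hδ.2.2.1 E hE p ρ hρ k)
  rintro ω hω ⟨-, v, hv, hxv, -⟩
  obtain ⟨w, hw1, hw2⟩ := arm_far (κ := ω) (R := R) hxv.symm (by
    rintro a b ha ⟨hab1, hab2⟩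
    refine ⟨hab1, ?_⟩
    rw [mem_sdiff, mem_union, mem_union, not_or] at hab2
    rcases hab2.1 with h | h
    · exact h
    · exact absurd (hG a b hab1 (mem_sdiff.2 ⟨h, hab2.2.2⟩)) ha) hx
  refine ⟨v, w, (hBd v hv).1, (hBd v hv).2, ?_, hw2⟩
  exact hw1.imp hk.trans hk.trans

/-- The exceptional event is unlikely if `f1` and the closed labels on its side are far from `p`. -/
theorem bad_dual {δ : ℝ} (hδ : Dcy δ) {Bd : ℤ × ℤ → Prop} {p : ℤ × ℤ} {ρ R : ℤ} {k : ℕ}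
    (he0 : (e0.1 + e0.2) % 2 = 1) (he0M : e0 ∈ H75.TwoArm.BB (M - 1))
    (hE : E ⊆ H75.TwoArm.BB (M - 1)) (hGM : G ⊆ H75.TwoArm.BB (M - 1)) (heE : e0 ∉ E)
    (heG : e0 ∉ G) (hO : O ⊆ E) (hf : Fac e0 f1 f2) (hx : Ends e0 x t)
    (hρ : 1 ≤ ρ) (hk : 4 ^ k * (ρ + 1) ≤ R)
    (hBd : ∀ v, Bd v → |v.1 - p.1| ≤ ρ ∧ |v.2 - p.2| ≤ ρ) (hxB : ¬ Bd x) (hf1 : Far R p f1)
    (hC : ∀ a b, IsUnit4 (b - a) → lbf a b ∈ H75.TwoArm.BB M → lbf a b ∉ E → lbf a b ∉ G →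
      lbf a b ≠ e0 → ¬ Dc M e0 (E ∪ G) f2 a → Far R p a) :
    Pr E (BadEv M e0 G W O f1 x t Bd) ≤ (1 - δ) ^ k := by
  have hodd : ∀ e ∈ E, (e.1 + e.2) % 2 = 1 := fun e he => (mem_Bx.1 (hE he)).2.2
  refine le_trans (Pr_mono ?_) (hδ.2.2.2 E hodd p (ρ + 1) (by omega) k)
  rintro ω hω ⟨hc, v, hv, -, hg⟩
  obtain ⟨g, hg1, hg2⟩ : ∃ g, Nb v g ∧ Dc M e0 (ω ∪ O ∪ G) f1 g := by
    rcases hg with rfl | hg
    · exact absurd hv hxB
    · exact hg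
  have hη : ω ∪ O ∪ G ⊆ H75.TwoArm.BB (M - 1) :=
    union_subset (union_subset (hω.trans hE) (hO.trans hE)) hGM
  have hen : e0 ∉ ω ∪ O ∪ G := by
    intro h
    rw [mem_union, mem_union] at h
    rcases h with (h | h) | h
    · exact heE (hω h)
    · exact heE (hO h)
    · exact heG h
  have hno : ¬ Dc M e0 (ω ∪ O ∪ G) f1 f2 := fun h =>
    (dual_iff' he0 he0M hη hen hf hx).2 h hc
  have hsub : ω ∪ O ∪ G ⊆ E ∪ G :=
    union_subset_union (union_subset hω hO) subset_rfl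
  -- follow the dual path from `g` to `f1`
  have key : ∀ b, Dc M e0 (ω ∪ O ∪ G) g b → (¬ Far R p b ∧ Co (du E ω) g b) ∨
      ∃ w, Far R p w ∧ Co (du E ω) g w := by
    intro b hb
    unfold Dc at hb
    induction hb with
    | refl =>
      by_cases h1 : Far R p g
      · exact Or.inr ⟨g, h1, Co.refl _ _⟩
      · exact Or.inl ⟨h1, Co.refl _ _⟩
    | @tail a b ha hab ih =>
      rcases ih with ⟨h1, h2⟩ | h1
      · have hab' := ad_dc.1 hab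
        have hnot := hab'.2.2.2
        rw [mem_union, mem_union, not_or, not_or] at hnot
        have hlE : lbf a b ∈ E := by
          by_contra h3
          refine h1 (hC a b hab'.1 hab'.2.1 h3 hnot.2 hab'.2.2.1 ?_)
          intro h4
          exact hno ((hg2.trans ha).trans (h4.anti hsub).symm)
        have h3 : Co (du E ω) g b := by
          refine Relation.ReflTransGen.tail h2 ⟨hab'.1, ?_⟩
          rw [mem_du']
          exact ⟨hlE, hnot.1.1⟩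
        by_cases h4 : Far R p b
        · exact Or.inr ⟨b, h4, h3⟩
        · exact Or.inl ⟨h4, h3⟩
      · exact Or.inr h1
  obtain ⟨w, hw1, hw2⟩ := (key f1 hg2.symm).resolve_left (fun h => h.1 hf1)
  have hB := hBd v hv
  unfold Nb at hg1
  refine ⟨g, w, ?_, ?_, hw1.imp hk.trans hk.trans, hw2⟩
  · simp only [abs_le] at hB hg1 ⊢; omega
  · simp only [abs_le] at hB hg1 ⊢; omega

end

end Pool.Agent.H21.Q1
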