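import Mathlib
import Pool.Agent.H21.Q1.CompTwo

set_option autoImplicit false
open Finset

/-! Module M3 of Q1: the comparison lemma, dual half, in abstract form.

`comp_open0`: opening the labels `O`, all exit vertices have isolated ties. `comp_dual`: closing the
labels `O`; every face of a label of `O` has an isolated dual tie. It is `comp_open0` in the dual
lattice. -/

namespace Pool.Agent.H21.Q1

open Pool.Agent.H75.Perc Pool.Agent.H75.TwoArm Pool.Agent.H75.Four Pool.Agent.H77.Q1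

section
variable {M : ℤ} {e0 : ℤ × ℤ} {E G W O : Finset (ℤ × ℤ)} {f1 f2 x t : ℤ × ℤ}

/-- **Comparison, open half**, without exceptional vertices. -/
theorem comp_open0 {δ : ℝ} (hδ : Dcy δ) {S : ℤ × ℤ → Prop} {k : ℕ}
    (he0 : (e0.1 + e0.2) % 2 = 1) (he0M : e0 ∈ H75.TwoArm.BB (M - 1))
    (hE : E ⊆ H75.TwoArm.BB (M - 1)) (hGM : G ⊆ H75.TwoArm.BB (M - 1)) (heE : e0 ∉ E)
    (heG : e0 ∉ G) (hO : O ⊆ E) (hWG : W ⊆ G) (hf : Fac e0 f1 f2) (hx : Ends e0 x t)
    (hW : ∀ w ∈ W, Co W (eu w) t) (hS2 : S f2)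
    (hS : ∀ g g', Dc M e0 G f2 g → ¬ Dc M e0 (E ∪ G) f1 g → IsUnit4 (g' - g) →
      lbf g g' ∉ E → lbf g g' ∉ G → lbf g g' ≠ e0 → S g)
    (hTie : ∀ v, Exit E G W O x v → ∃ T c r D, TieAt E O W t S k v T c r D) :
    Pr E (fun ω => Co (ω ∪ O ∪ G) x t ∧ ¬ Co (ω ∪ G) x t) ≤ (1 - δ) ^ k := by
  have h := comp_open hδ (Bd := fun _ => False) he0 he0M hE hGM heE heG hO hWG hf hx hW hS2 hS
    (fun v hv _ => hTie v hv)
  have h0 : Pr E (BadEv M e0 G W O f1 x t (fun _ => False)) = 0 := by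
    have : (fun ω => BadEv M e0 G W O f1 x t (fun _ => False) ω) = fun _ => False := by
      funext ω
      apply propext
      unfold BadEv
      simp
    unfold BadEv at this ⊢
    rw [this, Pr_eq]
    simp
  rw [h0, add_zero] at h
  exact h

end

/-! ### Translation to the dual lattice -/

/-- shift of vertices -/
def up (v : ℤ × ℤ) : ℤ × ℤ := v + (1, 1)

lemma lbf_up (v v' : ℤ × ℤ) : lbf (up v) (up v') = sh1 (v + v') := by
  unfold lbf up sh1
  simp only [Function.Embedding.coeFn_mk, Prod.ext_iff, Prod.fst_add, Prod.snd_add, Prod.fst_sub,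
    Prod.snd_sub]
  constructor <;> ring

lemma mem_sh {A : Finset (ℤ × ℤ)} {e : ℤ × ℤ} : sh1 e ∈ A.map sh1 ↔ e ∈ A := by
  rw [mem_map' sh1]

lemma du_eq_map (A : Finset (ℤ × ℤ)) : du A ∅ = A.map sh1 := by
  unfold du; rw [sdiff_empty]

lemma ad_dual {A : Finset (ℤ × ℤ)} {g g' : ℤ × ℤ} :
    Ad (A.map sh1) g g' ↔ IsUnit4 (g' - g) ∧ lbf g g' ∈ A := by
  unfold Ad
  refine and_congr_right fun _ => ?_
  have : g + g' = sh1 (lbf g g') := by
    unfold lbf sh1
    simp only [Function.Embedding.coeFn_mk, Prod.ext_iff, Prod.fst_add, Prod.snd_add,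
      Prod.fst_sub, Prod.snd_sub]
    constructor <;> ring
  rw [this, mem_sh]

lemma up_sub (v v' : ℤ × ℤ) : up v' - up v = v' - v := by
  unfold up; abel

lemma exists_up (g : ℤ × ℤ) : ∃ v, g = up v := ⟨g - (1, 1), by unfold up; abel⟩

lemma up_inj {v v' : ℤ × ℤ} (h : up v = up v') : v = v' := by
  unfold up at h; exact add_right_cancel h

/-- a path of the twice shifted labels -/
lemma coX_up {A : Finset (ℤ × ℤ)} {P : ℤ × ℤ → Prop} {z h : ℤ × ℤ}
    (H : CoX ((A.map sh1).map sh1) P z h) : ∀ v, z = up v → ∃ w, h = up w ∧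
      CoX A (fun u => P (up u)) v w := by
  intro v hv
  induction H with
  | refl => exact ⟨v, hv, Relation.ReflTransGen.refl⟩
  | @tail b c _ hbc ih =>
    obtain ⟨w, hw, hw2⟩ := ih
    obtain ⟨w', hw'⟩ := exists_up c
    refine ⟨w', hw', hw2.tail ⟨⟨?_, ?_⟩, by show P (up w'); rw [← hw']; exact hbc.2⟩⟩
    · have := hbc.1.1
      rw [hw, hw', up_sub] at this
      exact this
    · have := (ad_dual.1 hbc.1).2
      rw [hw, hw', lbf_up, mem_sh] at this
      exact this

/-- A dual tie of the face `g`: the labels `T ⊆ O` (closed) join `g` to `f2` (through the closed labels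
`C`), they are within `r` of the vertex `c`, and no path of labels of `E` inside the open square of
radius `D + 1` around `c` joins an end of a label of `T` to `S`. -/
structure DTieAt (E O C : Finset (ℤ × ℤ)) (f2 : ℤ × ℤ) (S : ℤ × ℤ → Prop) (k : ℕ) (g : ℤ × ℤ)
    (T : Finset (ℤ × ℤ)) (c : ℤ × ℤ) (r D : ℤ) : Prop where
  one : 1 ≤ r
  ratio : 4 ^ k * r ≤ D
  sub : T ⊆ O
  near : ∀ m ∈ T, |m.1 - 2 * c.1| ≤ 2 * r - 3 ∧ |m.2 - 2 * c.2| ≤ 2 * r - 3
  conn : Co (du (T ∪ C) ∅) g f2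
  iso : ∀ v v' h, IsUnit4 (v' - v) → v + v' ∈ T → CoX E (fun u => ¬ Far (D + 1) c u) v h → ¬ S h

section
variable {M : ℤ} {e0 : ℤ × ℤ} {E G C O : Finset (ℤ × ℤ)} {f1 f2 x t : ℤ × ℤ}

lemma ends_dual (he0 : (e0.1 + e0.2) % 2 = 1) (hf : Fac e0 f1 f2) : Ends (sh1 e0) f1 f2 := by
  obtain ⟨a, b⟩ := e0
  unfold Fac zu zv fi at hf
  unfold Ends eu ev sh1
  simp only [Function.Embedding.coeFn_mk] at *
  rcases Int.emod_two_eq_zero_or_one a with h | h
  · rw [if_pos h, if_pos h] at hf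
    rcases hf with ⟨rfl, rfl⟩ | ⟨rfl, rfl⟩
    · right; constructor <;> simp only [Prod.mk.injEq, true_and, and_true] <;> omega
    · left; constructor <;> simp only [Prod.mk.injEq, true_and, and_true] <;> omega
  · rw [if_neg (by omega), if_neg (by omega)] at hf
    rcases hf with ⟨rfl, rfl⟩ | ⟨rfl, rfl⟩
    · left; constructor <;> simp only [Prod.mk.injEq, true_and, and_true] <;> omega
    · right; constructor <;> simp only [Prod.mk.injEq, true_and, and_true] <;> omega

lemma fac_dual (he0 : (e0.1 + e0.2) % 2 = 1) (hx : Ends e0 x t) : Fac (sh1 e0) (up x) (up t) := by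
  obtain ⟨a, b⟩ := e0
  unfold Ends eu ev at hx
  unfold Fac zu zv fi sh1 up
  simp only [Function.Embedding.coeFn_mk] at *
  rcases Int.emod_two_eq_zero_or_one a with h | h
  · have h' : ¬ (a + 1) % 2 = 0 := by omega
    simp only [h', if_false]
    rcases hx with ⟨rfl, rfl⟩ | ⟨rfl, rfl⟩
    · left; constructor <;> (simp only [Prod.mk_add_mk, Prod.mk.injEq]; omega)
    · right; constructor <;> (simp only [Prod.mk_add_mk, Prod.mk.injEq]; omega)
  · have h' : (a + 1) % 2 = 0 := by omega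
    simp only [h', if_true]
    rcases hx with ⟨rfl, rfl⟩ | ⟨rfl, rfl⟩
    · right; constructor <;> (simp only [Prod.mk_add_mk, Prod.mk.injEq]; omega)
    · left; constructor <;> (simp only [Prod.mk_add_mk, Prod.mk.injEq]; omega)

/-- labels of the closed environment -/
noncomputable def Gd (M : ℤ) (e0 : ℤ × ℤ) (E G : Finset (ℤ × ℤ)) : Finset (ℤ × ℤ) :=
  (H75.TwoArm.BB M \ (insert e0 (E ∪ G))).map sh1

lemma gd_union {A : Finset (ℤ × ℤ)} (hE : E ⊆ H75.TwoArm.BB M) (hEG : Disjoint E G)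
    (heE : e0 ∉ E) (hA : A ⊆ E) :
    du E A ∪ Gd M e0 E G = du (H75.TwoArm.BB M) (insert e0 (A ∪ G)) := by
  unfold Gd du
  rw [← map_union]
  congr 1
  ext l
  rw [disjoint_left] at hEG
  simp only [mem_union, mem_sdiff, mem_insert, not_or]
  constructor
  · rintro (⟨h1, h2⟩ | ⟨h1, h2, h3, h4⟩)
    · exact ⟨hE h1, fun h => heE (h ▸ h1), h2, fun h => hEG h1 h⟩
    · exact ⟨h1, h2, fun h => h3 (hA h), h4⟩
  · rintro ⟨h1, h2, h3, h4⟩
    by_cases h5 : l ∈ E
    · exact Or.inl ⟨h5, h3⟩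
    · exact Or.inr ⟨h1, h2, h5, h4⟩

lemma BB_mono {r s : ℤ} (h : r ≤ s) : H75.TwoArm.BB r ⊆ H75.TwoArm.BB s := by
  intro l hl
  unfold H75.TwoArm.BB at hl ⊢
  rw [mem_Bx] at hl ⊢
  omega

lemma sh_BB {r : ℤ} {e : ℤ × ℤ} (h : e ∈ H75.TwoArm.BB r) : sh1 e ∈ H75.TwoArm.BB (r + 1) := by
  unfold H75.TwoArm.BB sh1 at *
  rw [mem_Bx] at h ⊢
  simp only [Function.Embedding.coeFn_mk]
  omega

/-- ends of labels of a box -/
lemma ends_box {r : ℤ} {v v' : ℤ × ℤ} (h : IsUnit4 (v' - v)) (hl : v + v' ∈ H75.TwoArm.BB r) :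
    inB (-r) r (-r) r v ∧ inB (-r) r (-r) r v' := by
  have h1 := unit_cases h
  unfold H75.TwoArm.BB at hl
  rw [mem_Bx] at hl
  simp only [Prod.fst_add, Prod.snd_add] at hl
  unfold inB
  omega

/-- **Comparison, dual half**: closing the labels of `O`. -/
theorem comp_dual {δ : ℝ} (hδ : Dcy δ) {S : ℤ × ℤ → Prop} {k : ℕ}
    (he0 : (e0.1 + e0.2) % 2 = 1) (he0M : e0 ∈ H75.TwoArm.BB (M - 1))
    (hE : E ⊆ H75.TwoArm.BB (M - 1)) (hGM : G ⊆ H75.TwoArm.BB (M - 1)) (hEG : Disjoint E G)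
    (heE : e0 ∉ E) (heG : e0 ∉ G) (hO : O ⊆ E)
    (hC : ∀ c ∈ C, c ∈ H75.TwoArm.BB M ∧ c ∉ E ∧ c ∉ G ∧ c ≠ e0)
    (hCf : ∀ g g', IsUnit4 (g' - g) → lbf g g' ∈ C → Co (du C ∅) g f2)
    (hf : Fac e0 f1 f2) (hx : Ends e0 x t) (hSt : S t)
    (hS : ∀ v v', Co (E ∪ G) t v → ¬ Co G x v → IsUnit4 (v' - v) → v + v' ∈ G → S v)
    (hTie : ∀ g g', IsUnit4 (g' - g) → lbf g g' ∈ O → ∃ T c r D, DTieAt E O C f2 S k g T c r D) :
    Pr E (fun ω => Co (ω ∪ G) x t ∧ ¬ Co ((ω \ O) ∪ G) x t) ≤ (1 - δ) ^ k := by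
  classical
  have hEM : E ⊆ H75.TwoArm.BB M := hE.trans (BB_mono (by omega))
  have hdis := disjoint_left.1 hEG
  set E' := E.map sh1 with hE'
  set O' := O.map sh1 with hO'
  set G' := Gd M e0 E G with hG'
  set W' := C.map sh1 with hW'
  have hG'M : G' ⊆ H75.TwoArm.BB (M + 2 - 1) := by
    intro l hl
    rw [hG', Gd, mem_map] at hl
    obtain ⟨e, he, rfl⟩ := hl
    have := sh_BB (mem_sdiff.1 he).1
    rwa [show M + 2 - 1 = M + 1 by ring]
  have hE'M : E' ⊆ H75.TwoArm.BB (M + 2 - 1) := by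
    intro l hl
    rw [hE', mem_map] at hl
    obtain ⟨e, he, rfl⟩ := hl
    have := sh_BB (hEM he)
    rwa [show M + 2 - 1 = M + 1 by ring]
  have hmG : ∀ e, sh1 e ∈ G' ↔ e ∈ H75.TwoArm.BB M ∧ e ≠ e0 ∧ e ∉ E ∧ e ∉ G := by
    intro e
    rw [hG', Gd, mem_sh, mem_sdiff, mem_insert, mem_union, not_or, not_or]
  have key := comp_open0 (M := M + 2) (e0 := sh1 e0) (E := E') (G := G') (W := W') (O := O')
    (f1 := up x) (f2 := up t) (x := f1) (t := f2) hδ (S := fun g => S (g - (1, 1))) (k := k)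
    (by unfold sh1; simp only [Function.Embedding.coeFn_mk]; omega)
    (by
      have := sh_BB he0M
      exact BB_mono (by omega) this) hE'M hG'M
    (by rw [hE', mem_sh]; exact heE) (by rw [hmG]; tauto) (map_subset_map.2 hO)
    (by
      intro l hl
      rw [hW', mem_map] at hl
      obtain ⟨e, he, rfl⟩ := hl
      rw [hmG]
      obtain ⟨h1, h2, h3, h4⟩ := hC e he
      exact ⟨h1, h4, h2, h3⟩)
    (fac_dual he0 hx) (ends_dual he0 hf) ?_ ?_ ?_ ?_
  · -- conclusion
    have e1 : Pr E (fun ω => Co (ω ∪ G) x t ∧ ¬ Co ((ω \ O) ∪ G) x t) =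
        Pr E' (fun ω => Co (ω ∪ O' ∪ G') f1 f2 ∧ ¬ Co (ω ∪ G') f1 f2) := by
      rw [hE', ← Pr_du]
      refine Pr_congr fun ω hω => ?_
      have a1 : du E ω ∪ G' = du (H75.TwoArm.BB M) (insert e0 (ω ∪ G)) := gd_union hEM hEG heE hω
      have a2 : du E ω ∪ O' = du E (ω \ O) := by
        rw [hO']
        unfold du
        rw [← map_union]
        congr 1
        ext l
        simp only [mem_union, mem_sdiff]
        constructor
        · rintro (⟨h1, h2⟩ | h1)
          · exact ⟨h1, fun h => h2 h.1⟩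
          · exact ⟨hO h1, fun h => h.2 h1⟩
        · rintro ⟨h1, h2⟩
          by_cases h3 : l ∈ O
          · exact Or.inr h3
          · exact Or.inl ⟨h1, fun h => h2 ⟨h, h3⟩⟩
      have a3 : du E ω ∪ O' ∪ G' = du (H75.TwoArm.BB M) (insert e0 ((ω \ O) ∪ G)) := by
        rw [a2]
        exact gd_union hEM hEG heE (sdiff_subset.trans hω)
      rw [a3, a1]
      have hη : ∀ A, A ⊆ E → A ∪ G ⊆ H75.TwoArm.BB (M - 1) := fun A hA =>
        union_subset (hA.trans hE) hGM
      have hen : ∀ A, A ⊆ E → e0 ∉ A ∪ G := fun A hA h => by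
        rcases mem_union.1 h with h | h
        · exact heE (hA h)
        · exact heG h
      have d1 := dual_iff' he0 he0M (hη _ hω) (hen _ hω) hf hx
      have d2 := dual_iff' he0 he0M (hη (ω \ O) (sdiff_subset.trans hω))
        (hen _ (sdiff_subset.trans hω)) hf hx
      unfold Dc at d1 d2
      rw [← d1, ← d2, not_not]
      tauto
    rw [e1]
    exact key
  · -- hW
    intro w hw
    rw [hW', mem_map] at hw
    obtain ⟨e, he, rfl⟩ := hw
    rw [hW', ← du_eq_map]
    have hodd : (e.1 + e.2) % 2 = 1 := (mem_Bx.1 (hC e he).1).2.2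
    refine hCf (eu (sh1 e)) (ev (sh1 e)) ?_ ?_
    · unfold sh1 eu ev IsUnit4
      simp only [Function.Embedding.coeFn_mk, Prod.mk_sub_mk, Prod.mk.injEq]
      omega
    · have : lbf (eu (sh1 e)) (ev (sh1 e)) = e := by
        unfold lbf sh1 eu ev
        obtain ⟨a, b⟩ := e
        simp only [Function.Embedding.coeFn_mk, Prod.mk_add_mk, Prod.mk_sub_mk, Prod.mk.injEq]
        omega
      rw [this]; exact he
  · -- S
    show S (up t - (1, 1))
    unfold up
    rw [add_sub_cancel_right]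
    exact hSt
  · -- hS
    intro g g' h1 h2 h3 h4 h5 h6
    obtain ⟨v, rfl⟩ := exists_up g
    obtain ⟨v', rfl⟩ := exists_up g'
    rw [up_sub] at h3
    rw [lbf_up] at h4 h5 h6
    rw [hE', mem_sh] at h4
    have h6' : v + v' ≠ e0 := fun h => h6 (by rw [h])
    have hEGM : E ∪ G ⊆ H75.TwoArm.BB (M - 1) := union_subset hE hGM
    -- vertices joined to `t`
    have hreach : ∀ z, Dc (M + 2) (sh1 e0) G' (up t) z → ∃ w, z = up w ∧ Co (E ∪ G) t w ∧
        inB (-(M - 1)) (M - 1) (-(M - 1)) (M - 1) w := by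
      intro z hz
      unfold Dc at hz
      induction hz with
      | refl =>
        refine ⟨t, rfl, Co.refl _ _, ?_⟩
        have hb := ends_box (r := M - 1) (PivAux.eu_ev he0).1 (by rw [(PivAux.eu_ev he0).2]; exact he0M)
        rcases hx with ⟨-, rfl⟩ | ⟨rfl, -⟩
        · exact hb.2
        · exact hb.1
      | @tail b c _ hbc ih =>
        obtain ⟨w, rfl, hw1, hw2⟩ := ih
        obtain ⟨w', rfl⟩ := exists_up c
        rw [ad_dc] at hbc
        obtain ⟨c1, c2, c3, c4⟩ := hbc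
        rw [up_sub] at c1
        rw [lbf_up] at c2 c3 c4
        rw [hmG] at c4
        have hlM : w + w' ∈ H75.TwoArm.BB M := by
          have h7 := unit_cases c1
          unfold inB at hw2
          unfold H75.TwoArm.BB
          rw [mem_Bx]
          simp only [Prod.fst_add, Prod.snd_add]
          omega
        have hl : w + w' ∈ E ∪ G := by
          by_contra hcon
          rw [mem_union, not_or] at hcon
          exact c4 ⟨hlM, fun h => c3 (by rw [h]), hcon.1, hcon.2⟩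
        exact ⟨w', rfl, hw1.tail ⟨c1, hl⟩, (ends_box c1 (hEGM hl)).2⟩
    obtain ⟨w, hw, hw1, hw2⟩ := hreach _ h1
    have hvw := up_inj hw
    subst hvw
    show S (up v - (1, 1))
    unfold up
    rw [add_sub_cancel_right]
    have hlM : v + v' ∈ H75.TwoArm.BB M := by
      have h7 := unit_cases h3
      unfold inB at hw2
      unfold H75.TwoArm.BB
      rw [mem_Bx]
      simp only [Prod.fst_add, Prod.snd_add]
      omega
    have hlG : v + v' ∈ G := by
      by_contra hcon
      exact h5 ((hmG _).2 ⟨hlM, h6', h4, hcon⟩)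
    refine hS v v' hw1 ?_ h3 hlG
    intro hxv
    apply h2
    -- a path of labels of `G` from `x`
    have : ∀ w, Co G x w → Dc (M + 2) (sh1 e0) (E' ∪ G') (up x) (up w) := by
      intro w hw
      induction hw with
      | refl => exact Dc.refl _
      | @tail b c _ hbc ih =>
        refine Relation.ReflTransGen.tail ih (ad_dc.2 ⟨?_, ?_, ?_, ?_⟩)
        · rw [up_sub]; exact hbc.1
        · rw [lbf_up]
          exact BB_mono (by omega) (sh_BB (hGM hbc.2))
        · rw [lbf_up]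
          intro h
          have := sh1.injective h
          exact heG (this ▸ hbc.2)
        · rw [lbf_up, mem_union, hE', mem_sh, hmG]
          rintro (h | ⟨-, -, -, h⟩)
          · exact hdis h hbc.2
          · exact h hbc.2
    exact this v hxv
  · -- ties
    rintro g ⟨⟨o, ho, hog⟩, -⟩
    rw [hO', mem_map] at ho
    obtain ⟨e, he, rfl⟩ := ho
    have hodd : (e.1 + e.2) % 2 = 1 := (mem_Bx.1 (hE (hO he))).2.2
    obtain ⟨g', hg1, hg2⟩ : ∃ g', IsUnit4 (g' - g) ∧ lbf g g' = e := by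
      rcases hog with rfl | rfl
      · refine ⟨ev (sh1 e), ?_, ?_⟩
        · unfold sh1 eu ev IsUnit4
          simp only [Function.Embedding.coeFn_mk, Prod.mk_sub_mk, Prod.mk.injEq]
          omega
        · unfold lbf sh1 eu ev
          obtain ⟨a, b⟩ := e
          simp only [Function.Embedding.coeFn_mk, Prod.mk_add_mk, Prod.mk_sub_mk, Prod.mk.injEq]
          omega
      · refine ⟨eu (sh1 e), ?_, ?_⟩
        · unfold sh1 eu ev IsUnit4
          simp only [Function.Embedding.coeFn_mk, Prod.mk_sub_mk, Prod.mk.injEq]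
          omega
        · unfold lbf sh1 eu ev
          obtain ⟨a, b⟩ := e
          simp only [Function.Embedding.coeFn_mk, Prod.mk_add_mk, Prod.mk_sub_mk, Prod.mk.injEq]
          omega
    obtain ⟨T, c, r, D, hT⟩ := hTie g g' hg1 (by rw [hg2]; exact he)
    refine ⟨T.map sh1, c, r, D, hT.one, hT.ratio, map_subset_map.2 hT.sub, ?_, ?_, ?_⟩
    · intro m hm
      rw [mem_map] at hm
      obtain ⟨l, hl, rfl⟩ := hm
      have h1 := hT.near l hl
      unfold sh1
      simp only [Function.Embedding.coeFn_mk, abs_le] at h1 ⊢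
      omega
    · have := hT.conn
      rw [du_eq_map, map_union] at this
      exact this
    · intro z z' h h1 h2 h3 h4
      obtain ⟨v, rfl⟩ := exists_up z
      obtain ⟨v', rfl⟩ := exists_up z'
      rw [up_sub] at h1
      rw [lbf_up, mem_sh] at h2
      rw [du_eq_map, hE'] at h3
      obtain ⟨w, rfl, hw⟩ := coX_up h3 v rfl
      refine hT.iso v v' w h1 h2 ?_ ?_
      · refine Relation.ReflTransGen.mono ?_ _ _ hw
        rintro a b ⟨hab, hb⟩
        refine ⟨hab, fun hfar => hb ?_⟩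
        unfold Far up at *
        simp only [Prod.fst_add, Prod.snd_add]
        rcases hfar with h | h
        · left
          rw [le_abs] at h ⊢
          omega
        · right
          rw [le_abs] at h ⊢
          omega
      · have h5 : S (up w - (1, 1)) := h4
        unfold up at h5
        rwa [add_sub_cancel_right] at h5

end

end Pool.Agent.H21.Q1
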