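import Mathlib
import Pool.Agent.H42.Q1.Nx
import Pool.Agent.H28.Q1.InvW

set_option autoImplicit false
open Finset

/-! Module M3 of Q1: the root edge of an environment relative to a solid set.

* `kp X K` : free and wired labels inside `K`; `Sol X K` : `K` is solid; `rc X K i` : corners of the
  ring (orbit of `pv (kp X K)` from `β`), `rl X K i` : its labels, `per X K` : period.
* `Root X K j0 t` : the label `rl X K j0` is wired, has one end in `K`, the other end `t` is joined to
  the tip by the wired labels `Wt X K` outside `star K`.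
* `root_tail` : the exploration with all labels inside `K` open follows the ring from the position
  `j0 + 1` to the end. -/

namespace Pool.Agent.H21.Q1

open Pool.Agent.H75.Perc Pool.Agent.H75.TwoArm Pool.Agent.H75.Four Pool.Agent.H99.NC
open Pool.Agent.H69.Q1 Pool.Agent.H39.Q1 Pool.Agent.H28.Q1 Pool.Agent.Q1.M3
open Pool.Agent.H42.Q1 (ends_add co_ends)
open Pool.Agent.H75.TwoArm.StrandAux hiding vx_nxC

/-! ### Corners -/

/-- the vertex of a corner is an end of its label `plab` -/
lemma end_plab' (c : ℤ × ℤ) : vx c = eu (plab c) ∨ vx c = ev (plab c) := by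
  have h1 : lab (pv ∅ c) = plab c := lab_pv ∅ c
  have h2 := (fi_of_closed (L := ∅) (x := c) (by simp)).1
  have h3 := (Pool.Agent.H42.Q1.vx_lab (pv ∅ c)).2
  rw [h1, ← h2] at h3
  exact h3

/-- the vertex of a corner is an end of its label `lab` -/
lemma end_lab' (c : ℤ × ℤ) : vx c = eu (lab c) ∨ vx c = ev (lab c) :=
  (Pool.Agent.H42.Q1.vx_lab c).2

lemma eu_ne_ev {e : ℤ × ℤ} (h : (e.1 + e.2) % 2 = 1) : eu e ≠ ev e := by
  intro h1
  have h2 := (Pool.Agent.H42.Q1.eu_ev_step h).1
  rw [h1, sub_self] at h2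
  unfold IsUnit4 at h2
  simp [Prod.ext_iff] at h2

lemma vx_opc_ne (c : ℤ × ℤ) : vx (opc c) ≠ vx c := by
  have hodd : ((lab c).1 + (lab c).2) % 2 = 1 := odd_lab c
  obtain ⟨o1, o2, -, -, hu, hv⟩ := opc_zu hodd
  rcases eq_zu_or_zv hodd rfl with h | h
  · have h2 : opc c = zv (lab c) := by rw [← o1]; exact congrArg opc h
    have h3 : vx c = vx (zu (lab c)) := congrArg vx h
    rw [h2, h3, hu, hv]
    exact (eu_ne_ev hodd).symm
  · have h2 : opc c = zu (lab c) := by rw [← o2]; exact congrArg opc h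
    have h3 : vx c = vx (zv (lab c)) := congrArg vx h
    rw [h2, h3, hu, hv]
    exact eu_ne_ev hodd

/-- no three corners with the same `plab` -/
lemma three_corners {x y z : ℤ × ℤ} (h1 : plab x = plab y) (h2 : plab z = plab y) (hxy : x ≠ y)
    (hzy : z ≠ y) (hxz : x ≠ z) : False := by
  have e1 := (plab_eq (L := ∅) h1).resolve_left hxy
  have e2 := (plab_eq (L := ∅) h2).resolve_left hzy
  exact hxz (pv_inj ∅ (e1.trans e2.symm))

/-- two corners with the same `plab`, one open step and one closed step -/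
lemma open_closed {L L' : Finset (ℤ × ℤ)} {p q : ℤ × ℤ} (h : plab p = plab q) (hne : p ≠ q)
    (hp : plab p ∈ L) (hq : plab p ∉ L') : pv L p = pv L' q := by
  have e1 := (plab_eq (L := L') h.symm).resolve_left (Ne.symm hne)
  have hl : lab (pv L p) = lab (pv L' p) := by rw [lab_pv, lab_pv]
  rcases lab_eq_iff.1 hl with h1 | h1
  · exfalso
    have h2 := (vx_of_open (L := L) hp).1
    have h3 := (fi_of_closed (L := L') hq).1
    rw [h1] at h2
    exact vx_opc_ne _ (h2.symm.trans h3)
  · rw [h1, e1]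

lemma odd_of_ad' {L : Finset (ℤ × ℤ)} {u v : ℤ × ℤ} (h : Ad L u v) :
    ((u + v).1 + (u + v).2) % 2 = 1 ∧
      ((eu (u + v) = u ∧ ev (u + v) = v) ∨ (eu (u + v) = v ∧ ev (u + v) = u)) := ends_add h.1

/-! ### Solid sets -/

/-- the free and wired labels inside `K` -/
noncomputable def kp (X : DEnv) (K : Finset (ℤ × ℤ)) : Finset (ℤ × ℤ) := kap K ∩ (X.E ∪ X.W)

/-- `K` is solid in `X`. -/
structure Sol (X : DEnv) (K : Finset (ℤ × ℤ)) : Prop where
  inv : Inv X
  conn : ∀ u ∈ K, ∀ v ∈ K, Co (kp X K) u v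
  beta : vx X.β ∈ K
  alpha : vx X.α ∉ K

variable {X : DEnv} {K : Finset (ℤ × ℤ)}

lemma kap_star : kap K ⊆ star K := filter_subset _ _

lemma kp_kap : kp X K ⊆ kap K := inter_subset_left

lemma kp_EW : kp X K ⊆ X.E ∪ X.W := inter_subset_right

lemma kp_star : kp X K ⊆ star K := kp_kap.trans kap_star

lemma perp_notkp {e : ℤ × ℤ} (h : e ∈ perp K) : e ∉ kp X K := fun h1 =>
  (mem_sdiff.1 h).2 (kp_kap h1)

lemma perp_star {e : ℤ × ℤ} (h : e ∈ perp K) : e ∈ star K := (mem_sdiff.1 h).1

lemma end_star {e v : ℤ × ℤ} (he : (e.1 + e.2) % 2 = 1) (hv : v ∈ K) (h : v = eu e ∨ v = ev e) :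
    e ∈ star K := by
  rw [mem_star_iff he]
  rcases h with h | h
  · left; rw [← h]; exact hv
  · right; rw [← h]; exact hv

/-- a path inside `K` stays in `K` -/
lemma mem_of_co {L : Finset (ℤ × ℤ)} (hL : L ⊆ kap K) {u v : ℤ × ℤ} (hu : u ∈ K) (h : Co L u v) :
    v ∈ K := by
  induction h with
  | refl => exact hu
  | @tail b c _ hbc ih =>
    obtain ⟨hodd, h2⟩ := odd_of_ad' hbc
    have h1 := (mem_kap_iff hodd).1 (hL hbc.2)
    rcases h2 with ⟨h2, h3⟩ | ⟨h2, h3⟩
    · rw [← h3]; exact h1.2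
    · rw [← h2]; exact h1.1

/-- a path outside `star K` stays outside `K` -/
lemma notMem_of_co {L : Finset (ℤ × ℤ)} (hL : ∀ e ∈ L, e ∉ star K) {u v : ℤ × ℤ} (hu : u ∉ K)
    (h : Co L u v) : v ∉ K := by
  induction h with
  | refl => exact hu
  | @tail b c _ hbc ih =>
    obtain ⟨hodd, h2⟩ := odd_of_ad' hbc
    have h1 := hL _ hbc.2
    rw [mem_star_iff hodd, not_or] at h1
    rcases h2 with ⟨h2, h3⟩ | ⟨h2, h3⟩
    · rw [← h3]; exact h1.2
    · rw [← h2]; exact h1.1

/-! ### The ring -/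

/-- corners of the ring -/
noncomputable def rc (X : DEnv) (K : Finset (ℤ × ℤ)) (i : ℕ) : ℤ × ℤ := (pv (kp X K))^[i] X.β

/-- labels of the ring -/
noncomputable def rl (X : DEnv) (K : Finset (ℤ × ℤ)) (i : ℕ) : ℤ × ℤ := plab (rc X K i)

lemma rc_succ (i : ℕ) : rc X K (i + 1) = pv (kp X K) (rc X K i) :=
  Function.iterate_succ_apply' _ _ _

@[simp] lemma rc_zero : rc X K 0 = X.β := rfl

lemma odd_rl (i : ℕ) : ((rl X K i).1 + (rl X K i).2) % 2 = 1 := odd_plab _

lemma lab_rc_succ (i : ℕ) : lab (rc X K (i + 1)) = rl X K i := by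
  rw [rc_succ, lab_pv]; rfl

/-- period of the ring -/
noncomputable def per (X : DEnv) (K : Finset (ℤ × ℤ)) : ℕ :=
  open Classical in Nat.find (VisAux.exists_period (kp X K) X.β)

lemma per_pos : 0 < per X K := by
  classical
  exact (Nat.find_spec (VisAux.exists_period (kp X K) X.β)).1

lemma rc_per : rc X K (per X K) = X.β := by
  classical
  exact (Nat.find_spec (VisAux.exists_period (kp X K) X.β)).2

lemma rc_ne {i : ℕ} (h0 : 0 < i) (hi : i < per X K) : rc X K i ≠ X.β := by
  classical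
  intro h
  exact Nat.find_min (VisAux.exists_period (kp X K) X.β) hi ⟨h0, h⟩

lemma per_le {i : ℕ} (h0 : 0 < i) (h : rc X K i = X.β) : per X K ≤ i := by
  by_contra hlt
  exact rc_ne h0 (not_le.1 hlt) h

lemma rc_add (i j : ℕ) : rc X K (i + j) = (pv (kp X K))^[i] (rc X K j) :=
  Function.iterate_add_apply _ _ _ _

lemma rc_inj {i j : ℕ} (hi : i < per X K) (hj : j < per X K) (h : rc X K i = rc X K j) : i = j := by
  have key : ∀ i j : ℕ, i < j → j < per X K → rc X K i = rc X K j → False := by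
    intro i j hij hj h
    have h1 : (pv (kp X K))^[i] X.β = (pv (kp X K))^[i] (rc X K (j - i)) := by
      rw [← rc_add, Nat.add_sub_cancel' hij.le]
      exact h
    exact rc_ne (by omega) (by omega) ((pv_inj _).iterate i h1).symm
  rcases lt_trichotomy i j with h1 | h1 | h1
  · exact (key i j h1 hj h).elim
  · exact h1
  · exact (key j i h1 hi h.symm).elim

/-- a corner of the orbit is reached within one period -/
lemma exists_rc {z : ℤ × ℤ} (h : InOrb (pv (kp X K)) X.β z) : ∃ i < per X K, rc X K i = z := by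
  obtain ⟨n, rfl⟩ := h
  refine ⟨n % per X K, Nat.mod_lt _ per_pos, ?_⟩
  have hm : ∀ m : ℕ, (pv (kp X K))^[per X K * m] X.β = X.β := by
    intro m
    rw [Function.iterate_mul]
    induction m with
    | zero => rfl
    | succ m ih =>
      rw [Function.iterate_succ_apply', ih]
      exact rc_per
  nth_rewrite 2 [← Nat.mod_add_div n (per X K)]
  rw [Function.iterate_add_apply, hm]
  rfl

namespace Sol

variable (hK : Sol X K)
include hK

lemma vx_rc (i : ℕ) : vx (rc X K i) ∈ K := by
  have h := Pool.Agent.H39.Q1.side_open (kp X K) X.β (Nat.zero_le i)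
  exact mem_of_co kp_kap hK.beta (h.mono inter_subset_left)

lemma rl_star (i : ℕ) : rl X K i ∈ star K := end_star (odd_rl i) (hK.vx_rc i) (end_plab' _)

/-- a label of `perp K` is met at most once -/
theorem rl_inj {i j : ℕ} (hi : i < per X K) (hj : j < per X K) (h : rl X K i = rl X K j)
    (hp : rl X K i ∈ perp K) : i = j := by
  apply rc_inj hi hj
  by_contra hne
  have hk : rl X K i ∉ kp X K := perp_notkp hp
  have h1 := (plab_eq (L := kp X K) (x := rc X K i) (y := rc X K j) h).resolve_left hne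
  have v1 := hK.vx_rc i
  have v2 := hK.vx_rc j
  have c1 := (fi_of_closed (L := kp X K) (x := rc X K i) hk).1
  have c2 := (fi_of_closed (L := kp X K) (x := rc X K j) (by
    have := hk; unfold rl at this h; rwa [h] at this)).1
  have hodd := odd_rl (X := X) (K := K) i
  have hl : lab (pv (kp X K) (rc X K j)) = rl X K i := by rw [lab_pv]; exact h.symm
  have hv1 : vx (rc X K i) = vx (opc (pv (kp X K) (rc X K j))) := by rw [c1, h1]
  have hne2 : vx (rc X K i) ≠ vx (rc X K j) := by
    rw [hv1, c2]; exact vx_opc_ne _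
  rcases (mem_perp_iff hodd).1 hp with ⟨p1, p2⟩ | ⟨p1, p2⟩
  · rcases end_plab' (rc X K i) with e1 | e1
    · rcases end_plab' (rc X K j) with e2 | e2
      · exact hne2 (e1.trans (by rw [e2]; exact congrArg eu h))
      · exact p2 (by unfold rl; unfold rl at h; rw [h, ← e2]; exact v2)
    · exact p2 (by unfold rl; rw [← e1]; exact v1)
  · rcases end_plab' (rc X K i) with e1 | e1
    · exact p1 (by unfold rl; rw [← e1]; exact v1)
    · rcases end_plab' (rc X K j) with e2 | e2
      · exact p1 (by unfold rl; unfold rl at h; rw [h, ← e2]; exact v2)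
      · exact hne2 (e1.trans (by rw [e2]; exact congrArg ev h))

/-- **A label of `perp K` one face of which is joined to the face of `β` off `kp` is on the ring.** -/
theorem on_ring {c : ℤ × ℤ} (hp : plab c ∈ perp K) {M : Finset (ℤ × ℤ)}
    (hM : Co (du M (kp X K)) (fi X.β) (fi c)) : ∃ i < per X K, rl X K i = plab c := by
  have hk : plab c ∉ kp X K := perp_notkp hp
  by_cases hn : vx c ∈ K
  · obtain ⟨i, hi, h7⟩ := exists_rc (inOrb_pv_iff.2 (inOrb_of_co _ (hK.conn _ hK.beta _ hn) hM))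
    exact ⟨i, hi, by unfold rl; rw [h7]⟩
  · set z := opc (pv (kp X K) c) with hz
    have h1 := fi_of_closed hk
    have hlz : lab z = plab c := by
      have : lab (opc (pv (kp X K) c)) = lab (pv (kp X K) c) := lab_eq_iff.2 (Or.inr rfl)
      rw [hz, this, lab_pv]
    have hvz : vx z ∈ K := by
      have hodd := odd_plab c
      have hne : vx z ≠ vx c := by rw [hz, h1.1]; exact vx_opc_ne _
      have hpp := (mem_perp_iff hodd).1 hp
      rcases end_plab' c with e1 | e1 <;> rcases end_lab' z with e2 | e2 <;> rw [hlz] at e2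
      · exact absurd (e2.trans e1.symm) hne
      · rw [e1] at hn; rw [e2]; tauto
      · rw [e1] at hn; rw [e2]; tauto
      · exact absurd (e2.trans e1.symm) hne
    have hfz : fi z = fi c := h1.2.symm
    rw [← hfz] at hM
    have h5 : InOrb (nx (kp X K)) X.β z := inOrb_of_co _ (hK.conn _ hK.beta _ hvz) hM
    have h6 : InOrb (nx (kp X K)) X.β (nx (kp X K) z) := inOrb_trans h5 (inOrb_nx _ _)
    obtain ⟨i, hi, h7⟩ := exists_rc (inOrb_pv_iff.2 h6)
    refine ⟨i, hi, ?_⟩
    unfold rl
    rw [h7, ← lab_pv (kp X K), pv_nx, hlz]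

end Sol

/-! ### The root -/

/-- the wired labels outside `star K` joined to the tip -/
noncomputable def Wt (X : DEnv) (K : Finset (ℤ × ℤ)) : Finset (ℤ × ℤ) :=
  open Classical in (X.W \ star K).filter fun w => Co (X.W \ star K) (vx X.α) (eu w)

lemma Wt_sub : Wt X K ⊆ X.W \ star K := by
  classical
  exact filter_subset _ _

lemma Wt_W : Wt X K ⊆ X.W := Wt_sub.trans sdiff_subset

lemma Wt_star {e : ℤ × ℤ} (h : e ∈ Wt X K) : e ∉ star K := (mem_sdiff.1 (Wt_sub h)).2

lemma co_Wt {v : ℤ × ℤ} (h : Co (X.W \ star K) (vx X.α) v) : Co (Wt X K) (vx X.α) v := by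
  classical
  induction h with
  | refl => exact Co.refl _ _
  | @tail b c hb hbc ih =>
    refine ih.tail ⟨hbc.1, ?_⟩
    unfold Wt
    rw [mem_filter]
    refine ⟨hbc.2, ?_⟩
    rcases (odd_of_ad' hbc).2 with ⟨h2, -⟩ | ⟨h2, -⟩
    · rw [h2]; exact hb
    · rw [h2]; exact Relation.ReflTransGen.tail hb hbc

lemma mem_Wt {e v : ℤ × ℤ} (he : (e.1 + e.2) % 2 = 1) (h : e ∈ X.W \ star K)
    (hv : v = eu e ∨ v = ev e) (hc : Co (X.W \ star K) (vx X.α) v) : e ∈ Wt X K := by
  classical
  unfold Wt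
  rw [mem_filter]
  refine ⟨h, ?_⟩
  rcases hv with rfl | rfl
  · exact hc
  · exact hc.trans (co_ends he h).symm

/-- The root. -/
structure Root (X : DEnv) (K : Finset (ℤ × ℤ)) (j0 : ℕ) (t : ℤ × ℤ) : Prop where
  lt : j0 < per X K
  perp : rl X K j0 ∈ perp K
  wir : rl X K j0 ∈ X.W
  ends : t = eu (rl X K j0) ∨ t = ev (rl X K j0)
  conn : Co (X.W \ star K) (vx X.α) t

lemma Root.notMem (hK : Sol X K) {j0 : ℕ} {t : ℤ × ℤ} (h : Root X K j0 t) : t ∉ K :=
  notMem_of_co (fun _ he => (mem_sdiff.1 he).2) hK.alpha h.conn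

/-- **Where the wired part enters `K`.** -/
theorem exists_root (hK : Sol X K) : ∃ j0 t, Root X K j0 t := by
  obtain ⟨m, h0, h1, -, h3, h4⟩ := hK.inv.back
  have hco : Co X.W (vx X.α) (vx X.β) := hK.inv.co_W.symm
  have key : ∀ v, Co X.W (vx X.α) v → (Co (X.W \ star K) (vx X.α) v ∧ v ∉ K) ∨
      ∃ s u, s ∈ X.W ∧ s ∈ Pool.Agent.Q1.M3.perp K ∧ (u = eu s ∨ u = ev s) ∧
        Co (X.W \ star K) (vx X.α) u := by
    intro v hv
    induction hv with
    | refl => exact Or.inl ⟨Co.refl _ _, hK.alpha⟩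
    | @tail b c hb hbc ih =>
      rcases ih with ⟨h5, h6⟩ | h
      · obtain ⟨hodd, h7⟩ := odd_of_ad' hbc
        by_cases hc : c ∈ K
        · refine Or.inr ⟨b + c, b, hbc.2, ?_, ?_, h5⟩
          · rw [mem_perp_iff hodd]
            rcases h7 with ⟨e1, e2⟩ | ⟨e1, e2⟩ <;> rw [e1, e2] <;> tauto
          · rcases h7 with ⟨e1, e2⟩ | ⟨e1, e2⟩
            · exact Or.inl e1.symm
            · exact Or.inr e2.symm
        · refine Or.inl ⟨h5.tail ⟨hbc.1, mem_sdiff.2 ⟨hbc.2, ?_⟩⟩, hc⟩
          rw [mem_star_iff hodd]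
          rcases h7 with ⟨e1, e2⟩ | ⟨e1, e2⟩ <;> rw [e1, e2] <;> tauto
      · exact Or.inr h
  rcases key _ hco with ⟨-, h⟩ | ⟨s, u, hs, hp, hu, hc⟩
  · exact absurd hK.beta h
  · obtain ⟨k, hk, rfl⟩ := h4 s hs
    have h5 := Pool.Agent.H39.Q1.side_dual X.W X.β (Nat.zero_le k)
    obtain ⟨j0, h6, h7⟩ := hK.on_ring (c := (pv X.W)^[k] X.β) hp
      (M := met X.W X.β 0 k) (by
        refine h5.mono (du_sub_of fun e he hn hkap => ?_)
        obtain ⟨l, ⟨-, hl⟩, rfl⟩ := mem_met.1 he
        rcases mem_union.1 (kp_EW hkap) with h | h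
        · exact h3 l (by omega) h
        · exact hn h)
    exact ⟨j0, u, h6, by rw [h7]; exact hp, by rw [h7]; exact hs, by rw [h7]; exact hu, hc⟩

section

variable {j0 : ℕ} {t : ℤ × ℤ}

/-- the labels which join the tip to `β` -/
noncomputable def Pj (X : DEnv) (K : Finset (ℤ × ℤ)) (j0 : ℕ) : Finset (ℤ × ℤ) :=
  Wt X K ∪ {rl X K j0} ∪ kp X K

lemma Root.co_end (hK : Sol X K) (hR : Root X K j0 t) {L : Finset (ℤ × ℤ)}
    (hL : rl X K j0 ∈ L) : Co L t (vx (rc X K j0)) := by
  have h := co_ends (odd_rl j0) hL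
  have ht := hR.notMem hK
  have hv := hK.vx_rc j0
  rcases hR.ends with h1 | h1 <;> rcases end_plab' (rc X K j0) with h2 | h2
  · exact absurd (by rw [h1]; unfold rl; rw [← h2]; exact hv) ht
  · rw [h1, h2]; exact h
  · rw [h1, h2]; exact h.symm
  · exact absurd (by rw [h1]; unfold rl; rw [← h2]; exact hv) ht

lemma Root.co_P (hK : Sol X K) (hR : Root X K j0 t) : Co (Pj X K j0) (vx X.α) (vx X.β) := by
  have h1 : Co (Pj X K j0) (vx X.α) t := (co_Wt hR.conn).mono (by
    unfold Pj; rw [union_assoc]; exact subset_union_left)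
  have h2 : Co (Pj X K j0) t (vx (rc X K j0)) := hR.co_end hK (by
    unfold Pj; simp)
  have h3 : Co (Pj X K j0) (vx (rc X K j0)) (vx X.β) :=
    (hK.conn _ (hK.vx_rc j0) _ hK.beta).mono (by unfold Pj; exact subset_union_right)
  exact h1.trans (h2.trans h3)

/-- the wired labels met by an exploration in which all labels inside `K` are open -/
lemma Root.wired (hK : Sol X K) (hR : Root X K j0 t) {ω : Finset (ℤ × ℤ)} (hω : ω ⊆ X.E)
    (hk : kp X K ⊆ ω ∪ X.W) {i : ℕ} (hi : i < X.len ω) (hw : plab (X.cor ω i) ∈ X.W) :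
    plab (X.cor ω i) ∈ Pj X K j0 := by
  refine hK.inv.no_wired' hω ?_ (hR.co_P hK) hi hw
  unfold Pj
  refine union_subset (union_subset (Wt_W.trans subset_union_right) ?_) hk
  rw [singleton_subset_iff]
  exact mem_union_right _ hR.wir

/-- vertices of the exploration before `star K` is met -/
lemma before_notMem (hK : Sol X K) {ω : Finset (ℤ × ℤ)} {τ : ℕ}
    (hfirst : ∀ j < τ, plab (X.cor ω j) ∉ star K) {i : ℕ} (hi : i ≤ τ) :
    vx (X.cor ω i) ∉ K := by
  have h := X.side_open ω (Nat.zero_le i)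
  refine notMem_of_co ?_ hK.alpha h
  intro e he
  obtain ⟨k, ⟨-, hk⟩, rfl⟩ := X.mem_metE.1 (mem_inter.1 he).2
  exact hfirst k (by omega)

/-- **Wired labels met before `star K`.** -/
theorem Root.wired_before (hK : Sol X K) (hR : Root X K j0 t) {ω : Finset (ℤ × ℤ)}
    (hω : ω ⊆ X.E) {τ : ℕ} (hfirst : ∀ j < τ, plab (X.cor ω j) ∉ star K) {i : ℕ} (hi : i < τ)
    (hw : plab (X.cor ω i) ∈ X.W) : plab (X.cor ω i) ∈ Wt X K := by
  set ω' := ω ∪ (kp X K ∩ X.E) with hω'
  have hω'E : ω' ⊆ X.E := union_subset hω inter_subset_right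
  have hcor := X.cor_congr hω hω'E (n := τ) (fun k hk _ => by
    rw [hω', mem_union]
    refine ⟨fun h => h.resolve_right fun h1 => ?_, Or.inl⟩
    exact hfirst k hk (kp_star (mem_inter.1 h1).1))
  have hlt : i < X.len ω' := by
    by_contra hcon
    rw [not_lt] at hcon
    have h1 := hcor (X.len ω') (by omega)
    rw [X.cor_len hω'E] at h1
    exact before_notMem hK hfirst (i := X.len ω') (by omega) (by rw [← h1]; exact hK.beta)
  have h2 := hcor i hi.le
  have h3 := hR.wired hK hω'E (by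
    intro e he
    rcases mem_union.1 (kp_EW he) with h | h
    · exact mem_union_left _ (mem_union_right _ (mem_inter.2 ⟨he, h⟩))
    · exact mem_union_right _ h) hlt (by rw [h2]; exact hw)
  rw [h2] at h3
  unfold Pj at h3
  rw [mem_union, mem_union, mem_singleton] at h3
  have h4 := hfirst i hi
  rcases h3 with (h3 | h3) | h3
  · exact h3
  · exact absurd (by rw [h3]; exact perp_star hR.perp) h4
  · exact absurd (kp_star h3) h4

/-! ### The exploration with all labels inside `K` open -/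

/-- the configuration in which exactly the free labels inside `K` are open -/
noncomputable def ωK (X : DEnv) (K : Finset (ℤ × ℤ)) : Finset (ℤ × ℤ) := kp X K ∩ X.E

lemma ωK_E : ωK X K ⊆ X.E := inter_subset_right

lemma ωK_W : ωK X K ∪ X.W = kp X K ∪ X.W := by
  ext e
  unfold ωK
  simp only [mem_union, mem_inter]
  constructor
  · rintro (h | h)
    · exact Or.inl h.1
    · exact Or.inr h
  · rintro (h | h)
    · rcases mem_union.1 (kp_EW h) with h1 | h1
      · exact Or.inl ⟨h, h1⟩
      · exact Or.inr h1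
    · exact Or.inr h

/-- vertex after an open step -/
lemma vx_open_step {L : Finset (ℤ × ℤ)} {c : ℤ × ℤ} (h : plab c ∈ L) :
    vx (pv L c) ≠ vx c ∧ (vx (pv L c) = eu (plab c) ∨ vx (pv L c) = ev (plab c)) := by
  have h1 := (vx_of_open h).1
  refine ⟨?_, ?_⟩
  · rw [h1]; exact (vx_opc_ne _).symm
  · have := end_lab' (pv L c)
    rwa [lab_pv] at this

/-- a corner of the back contour is not met by the exploration before `β` -/
lemma back_ne (hI : Inv X) {ω : Finset (ℤ × ℤ)} {m : ℕ}
    (h1 : (pv (ω ∪ X.W))^[m] X.β = X.α)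
    (h2 : ∀ k, 0 < k → k < m → (pv (ω ∪ X.W))^[k] X.β ≠ X.α) {k : ℕ} (hk : k < m) {i : ℕ}
    (hi : i < X.len ω) : (pv (ω ∪ X.W))^[k] X.β ≠ X.cor ω i := by
  set L := ω ∪ X.W with hL
  have hcor : ∀ t, X.cor ω t = (pv L)^[t + m] X.β := by
    intro t
    rw [Function.iterate_add_apply, h1]
    rfl
  intro h5
  rw [hcor i] at h5
  have h6 : (pv L)^[k] X.β = (pv L)^[k] ((pv L)^[i + m - k] X.β) := by
    rw [← Function.iterate_add_apply, h5]
    congr 1
    omega
  have h7 : X.β = (pv L)^[i + m - k] X.β := (pv_inj L).iterate k h6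
  by_cases h8 : k ≤ i
  · have h9 : i + m - k = (i - k) + m := by omega
    rw [h9, ← hcor] at h7
    exact X.cor_ne (by omega) h7.symm
  · push Not at h8
    have h9 : (pv L)^[k - i] X.β = X.α := by
      conv_lhs => rw [h7]
      rw [← Function.iterate_add_apply, ← h1]
      congr 1
      omega
    exact h2 (k - i) (by omega) (by omega) h9

/-- **The tail of the ring.** -/
theorem root_tail (hK : Sol X K) (hR : Root X K j0 t) : ∃ τ, 0 < τ ∧ τ ≤ X.len (ωK X K) ∧
    (∀ i < τ, vx (X.cor (ωK X K) i) ∉ K) ∧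
    (∀ i, τ + i ≤ X.len (ωK X K) → X.cor (ωK X K) (τ + i) = rc X K (j0 + 1 + i)) ∧
    (∀ i, τ ≤ i → i < X.len (ωK X K) → plab (X.cor (ωK X K) i) ∈ kp X K ∪ X.W →
      plab (X.cor (ωK X K) i) ∈ kp X K) ∧
    per X K = j0 + 1 + (X.len (ωK X K) - τ) ∧
    (∀ i < τ, plab (X.cor (ωK X K) i) ∈ kp X K ∪ X.W →
      plab (X.cor (ωK X K) i) ∈ Wt X K ∨ i + 1 = τ) ∧
    plab (X.cor (ωK X K) (τ - 1)) = rl X K j0 := by
  classical
  set ω := ωK X K with hωdef
  have hω : ω ⊆ X.E := ωK_E
  have hL : ω ∪ X.W = kp X K ∪ X.W := ωK_W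
  obtain ⟨m, hm0, hm⟩ := hK.inv.back'
  obtain ⟨hb0, hb1, hb2, hb3, hb4⟩ := hm ω hω
  -- first vertex in `K`
  have hex : ∃ i, vx (X.cor ω i) ∈ K := ⟨X.len ω, by rw [X.cor_len hω]; exact hK.beta⟩
  set τ := Nat.find hex with hτ
  have hτK : vx (X.cor ω τ) ∈ K := Nat.find_spec hex
  have hτmin : ∀ i < τ, vx (X.cor ω i) ∉ K := fun i hi => Nat.find_min hex hi
  have hτlen : τ ≤ X.len ω := Nat.find_min' hex (by rw [X.cor_len hω]; exact hK.beta)
  have hτ0 : 0 < τ := by
    rcases Nat.eq_zero_or_pos τ with h | h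
    · rw [h] at hτK
      exact absurd hτK hK.alpha
    · exact h
  have hwir : ∀ i < X.len ω, plab (X.cor ω i) ∈ X.W → plab (X.cor ω i) ∈ Pj X K j0 := fun i hi h =>
    hR.wired hK hω (by rw [hL]; exact subset_union_left) hi h
  -- open labels met before `τ`
  have hbef : ∀ i < τ, plab (X.cor ω i) ∈ kp X K ∪ X.W →
      plab (X.cor ω i) ∈ Wt X K ∨ (plab (X.cor ω i) = rl X K j0 ∧ i + 1 = τ) := by
    intro i hi h
    have hnk : plab (X.cor ω i) ∉ kp X K := by
      intro h1
      have h2 := (mem_kap_iff (odd_plab _)).1 (kp_kap h1)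
      rcases end_plab' (X.cor ω i) with h3 | h3
      · exact hτmin i hi (by rw [h3]; exact h2.1)
      · exact hτmin i hi (by rw [h3]; exact h2.2)
    have hW : plab (X.cor ω i) ∈ X.W := (mem_union.1 h).resolve_left hnk
    have hP := hwir i (by omega) hW
    unfold Pj at hP
    rw [mem_union, mem_union, mem_singleton] at hP
    rcases hP with (h1 | h1) | h1
    · exact Or.inl h1
    · right
      refine ⟨h1, ?_⟩
      -- the next vertex is in `K`
      have h2 := vx_open_step (L := ω ∪ X.W) (c := X.cor ω i) (mem_union_right _ hW)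
      rw [← X.cor_succ] at h2
      have h3 : vx (X.cor ω (i + 1)) ∈ K := by
        have hodd := odd_plab (X.cor ω i)
        have hpp := (mem_perp_iff hodd).1 (by rw [h1]; exact hR.perp)
        have hn := hτmin i hi
        rcases end_plab' (X.cor ω i) with e1 | e1 <;> rcases h2.2 with e2 | e2
        · exact absurd (e2.trans e1.symm) h2.1
        · rw [e2]; rw [e1] at hn; tauto
        · rw [e2]; rw [e1] at hn; tauto
        · exact absurd (e2.trans e1.symm) h2.1
      by_contra hne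
      exact hτmin (i + 1) (by omega) h3
    · exact absurd h1 hnk
  -- the step into `K`
  obtain ⟨s, hs⟩ : ∃ s, τ = s + 1 := ⟨τ - 1, by omega⟩
  have hstep : X.cor ω τ = pv (ω ∪ X.W) (X.cor ω s) := by rw [hs, X.cor_succ]
  have hsn : vx (X.cor ω s) ∉ K := hτmin s (by omega)
  have hsopen : plab (X.cor ω s) ∈ ω ∪ X.W := by
    by_contra h
    have h1 := (fi_of_closed h).1
    rw [hstep, ← h1] at hτK
    exact hsn hτK
  have hs0 : plab (X.cor ω s) = rl X K j0 := by
    rcases hbef s (by omega) (by rw [← hL]; exact hsopen) with h | h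
    · exfalso
      have h2 := vx_open_step hsopen
      rw [← hstep] at h2
      exact Wt_star h (end_star (odd_plab _) hτK h2.2)
    · exact h.1
  have hsk : rl X K j0 ∉ kp X K := perp_notkp hR.perp
  have hne1 : X.cor ω s ≠ rc X K j0 := fun h => hsn (by rw [h]; exact hK.vx_rc j0)
  have hc1 : X.cor ω τ = rc X K (j0 + 1) := by
    rw [hstep, rc_succ]
    exact open_closed hs0 hne1 hsopen (by rw [hs0]; exact hsk)
  -- the corner of the back contour
  obtain ⟨k, hk, hk'⟩ := hb4 _ hR.wir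
  -- after `τ`
  have haft : ∀ i, τ + i ≤ X.len ω → vx (X.cor ω (τ + i)) ∈ K ∧ (τ + i < X.len ω →
      plab (X.cor ω (τ + i)) ∈ kp X K ∪ X.W → plab (X.cor ω (τ + i)) ∈ kp X K) := by
    intro i
    induction i with
    | zero =>
      intro h
      refine ⟨hτK, fun h1 h2 => ?_⟩
      rcases mem_union.1 h2 with h3 | h3
      · exact h3
      · have hP := hwir _ h1 h3
        unfold Pj at hP
        rw [mem_union, mem_union, mem_singleton] at hP
        rcases hP with (h4 | h4) | h4
        · exact absurd (end_star (odd_plab _) hτK (end_plab' _)) (Wt_star h4)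
        · exfalso
          refine three_corners (x := (pv (ω ∪ X.W))^[k] X.β) (y := X.cor ω s)
            (z := X.cor ω (τ + 0)) (by rw [hk', hs0]) (by rw [h4, hs0])
            (back_ne hK.inv hb1 hb2 hk (by omega)) ?_ (back_ne hK.inv hb1 hb2 hk h1)
          intro h5
          exact absurd (X.cor_inj hω (by omega) (by omega) h5) (by omega)
        · exact h4
    | succ i ih =>
      intro h
      obtain ⟨ih1, ih2⟩ := ih (by omega)
      have ih2 := ih2 (by omega)
      have hv : vx (X.cor ω (τ + (i + 1))) ∈ K := by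
        rw [show τ + (i + 1) = (τ + i) + 1 by ring, X.cor_succ]
        by_cases h1 : plab (X.cor ω (τ + i)) ∈ ω ∪ X.W
        · have h2 := ih2 (by rw [← hL]; exact h1)
          have h3 := (mem_kap_iff (odd_plab _)).1 (kp_kap h2)
          rcases (vx_open_step h1).2 with h4 | h4 <;> rw [h4]
          · exact h3.1
          · exact h3.2
        · rw [← (fi_of_closed h1).1]
          exact ih1
      refine ⟨hv, fun h1 h2 => ?_⟩
      rcases mem_union.1 h2 with h3 | h3
      · exact h3
      · have hP := hwir _ h1 h3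
        unfold Pj at hP
        rw [mem_union, mem_union, mem_singleton] at hP
        rcases hP with (h4 | h4) | h4
        · exact absurd (end_star (odd_plab _) hv (end_plab' _)) (Wt_star h4)
        · exfalso
          refine three_corners (x := (pv (ω ∪ X.W))^[k] X.β) (y := X.cor ω s)
            (z := X.cor ω (τ + (i + 1))) (by rw [hk', hs0]) (by rw [h4, hs0])
            (back_ne hK.inv hb1 hb2 hk (by omega)) ?_ (back_ne hK.inv hb1 hb2 hk h1)
          intro h5
          exact absurd (X.cor_inj hω (by omega) (by omega) h5) (by omega)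
        · exact h4
  have hring : ∀ i, τ + i ≤ X.len ω → X.cor ω (τ + i) = rc X K (j0 + 1 + i) := by
    intro i
    induction i with
    | zero => intro _; exact hc1
    | succ i ih =>
      intro h
      have ih := ih (by omega)
      rw [show τ + (i + 1) = (τ + i) + 1 by ring, X.cor_succ,
        show j0 + 1 + (i + 1) = (j0 + 1 + i) + 1 by ring, rc_succ, ← ih]
      refine pv_eq_of ⟨fun h1 => ?_, fun h1 => ?_⟩
      · exact (haft i (by omega)).2 (by omega) (by rw [← hL]; exact h1)
      · rw [hL]; exact mem_union_left _ h1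
  refine ⟨τ, hτ0, hτlen, hτmin, hring, ?_, ?_, ?_, ?_⟩
  · intro i hi1 hi2 h
    have := (haft (i - τ) (by omega)).2
    rw [Nat.add_sub_cancel' hi1] at this
    exact this hi2 h
  · have h1 := hring (X.len ω - τ) (by omega)
    rw [Nat.add_sub_cancel' hτlen, X.cor_len hω] at h1
    apply le_antisymm
    · exact per_le (by omega) h1.symm
    · by_contra hlt
      rw [not_le] at hlt
      have h2 := hR.lt
      have h3 := rc_per (X := X) (K := K)
      obtain ⟨i, hi⟩ : ∃ i, per X K = j0 + 1 + i := ⟨per X K - (j0 + 1), by omega⟩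
      rw [hi] at h3
      have h4 := hring i (by omega)
      rw [h3] at h4
      exact X.cor_ne (ω := ω) (i := τ + i) (by omega) h4
  · intro i hi h
    rcases hbef i hi h with h1 | h1
    · exact Or.inl h1
    · exact Or.inr h1.2
  · rw [hs, Nat.add_sub_cancel]
    exact hs0

/-- the face before the root is joined to the face of the tip by closed boundary labels -/
theorem root_clJ (hK : Sol X K) (hR : Root X K j0 t) : ClJ X (fi X.α) (fi (rc X K j0)) := by
  obtain ⟨τ, hτ0, hτ1, hτ2, -, -, -, -, hs0⟩ := root_tail hK hR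
  obtain ⟨m, hm0, hm⟩ := hK.inv.back'
  obtain ⟨hb0, hb1, hb2, hb3, hb4⟩ := hm _ (ωK_E (X := X) (K := K))
  obtain ⟨k, hk, hk'⟩ := hb4 _ hR.wir
  have hsn := hτ2 (τ - 1) (by omega)
  have hne1 : X.cor (ωK X K) (τ - 1) ≠ rc X K j0 := fun h => hsn (by rw [h]; exact hK.vx_rc j0)
  have h1 : (pv (ωK X K ∪ X.W))^[k] X.β = rc X K j0 := by
    by_contra hne
    refine three_corners (x := (pv (ωK X K ∪ X.W))^[k] X.β) (y := X.cor (ωK X K) (τ - 1))
      (z := rc X K j0) (by rw [hk', hs0]) hs0.symm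
      (back_ne hK.inv hb1 hb2 hk (by omega)) (Ne.symm hne1) hne
  rw [← h1]
  have h2 := Pool.Agent.H39.Q1.side_dual (ωK X K ∪ X.W) X.β (i := k) (j := m) (by omega)
  rw [hb1] at h2
  refine ClJ.symm ⟨_, h2.mono (du_sub_of fun e he hW => ?_)⟩
  obtain ⟨l, ⟨-, hl⟩, rfl⟩ := mem_met.1 he
  rw [mem_union, not_or] at hW ⊢
  exact ⟨hb3 l hl, hW.2⟩

end

end Pool.Agent.H21.Q1
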