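import Mathlib
import Pool.Agent.H21.Q1.Root
import Pool.Agent.H77.Q1.Open

set_option autoImplicit false
open Finset

/-! Module M3 of Q1: faces next to the ring, exit positions.

* `InvL X` : every face of a label which is neither free nor wired is joined to the face of the tip by
  such labels; preserved by explorations.
* `face_ring`, `main_face` : the corners which can be seen from the closed side.
* `Ev X K j0 t y ω` : the root crossing event; `exit_iff` : exit position at least `y`; `not_ev` : dual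
  criterion. -/

namespace Pool.Agent.H21.Q1

open Pool.Agent.H75.Perc Pool.Agent.H75.TwoArm Pool.Agent.H75.Four Pool.Agent.H99.NC
open Pool.Agent.H69.Q1 Pool.Agent.H39.Q1 Pool.Agent.H28.Q1 Pool.Agent.Q1.M3
open Pool.Agent.H42.Q1 (ends_add co_ends)
open Pool.Agent.H77.Q1 (lbf mem_du')
open Pool.Agent.H75.TwoArm.StrandAux hiding vx_nxC

/-! ### Closed boundary labels -/

/-- Every face of a label which is neither free nor wired is joined to the face of the tip. -/
def InvL (X : DEnv) : Prop := ∀ g g' : ℤ × ℤ, IsUnit4 (g' - g) → lbf g g' ∉ X.E → lbf g g' ∉ X.W →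
  ClJ X (fi X.α) g

variable {X : DEnv} {K : Finset (ℤ × ℤ)}

/-- a face of the label before a closed step -/
lemma face_closed {L : Finset (ℤ × ℤ)} {c g g' : ℤ × ℤ} (hg : IsUnit4 (g' - g))
    (hl : lbf g g' = plab c) (hL : plab c ∉ L) : g = fi c ∨ g = fi (pv L c) := by
  obtain ⟨z, h1, h2⟩ := Pool.Agent.H42.Q1.corner_of_face hg
  have h3 : lab z = lab (pv L c) := by rw [h2, lab_pv]; exact hl
  rcases lab_eq_iff.1 h3 with h4 | h4
  · right; rw [← h1, h4]
  · left; rw [← h1, h4, ← (fi_of_closed hL).2]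

theorem InvL.after (hI : InvL X) {Q : ℕ → (ℕ → ℤ × ℤ) → Prop} (hQ : DEnv.Adapted Q)
    {ω : Finset (ℤ × ℤ)} (hω : ω ⊆ X.E) : InvL (X.after Q hQ ω hω) := by
  intro g g' hg hE hW
  rw [DEnv.after_E, mem_sdiff, not_and_or, not_not] at hE
  rw [DEnv.after_W, mem_union, mem_inter, not_or] at hW
  rw [DEnv.after_α]
  by_cases hlE : lbf g g' ∈ X.E
  · have hU := hE.resolve_left (fun h => h hlE)
    obtain ⟨-, k, hk, hk'⟩ := X.mem_exset.1 hU
    have hcl : plab (X.cor ω k) ∉ ω ∪ X.W := by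
      rw [hk', mem_union, not_or]
      exact ⟨fun h => hW.2 ⟨h, hU⟩, hW.1⟩
    rcases face_closed hg hk'.symm hcl with h | h
    · rw [h]
      exact (clJ_explored hQ hω hk.le le_rfl).symm
    · rw [h, ← X.cor_succ]
      exact (clJ_explored hQ hω hk le_rfl).symm
  · have h5 := hI g g' hg hlE hW.1
    exact (clJ_explored hQ hω (Nat.zero_le _) le_rfl).symm.trans (ClJ.after hQ hω h5)

/-! ### Faces seen from the closed side -/

/-- `g` is joined to the face of `β` by labels which are neither in `kp` nor wired. -/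
def Mn (X : DEnv) (K : Finset (ℤ × ℤ)) (g : ℤ × ℤ) : Prop :=
  ∃ M, Co (du M (kp X K ∪ X.W)) (fi X.β) g

lemma Mn.co {g g' : ℤ × ℤ} (h : Mn X K g) {F L : Finset (ℤ × ℤ)} (hL : kp X K ∪ X.W ⊆ L)
    (h' : Co (du F L) g g') : Mn X K g' := by
  obtain ⟨M, hM⟩ := h
  refine ⟨M ∪ F, (hM.mono (du_mono_left subset_union_left)).trans (h'.mono ?_)⟩
  exact (du_anti hL).trans (du_mono_left subset_union_right)

lemma Mn.step {g g' : ℤ × ℤ} (h : Mn X K g) (hg : IsUnit4 (g' - g))
    (hl : lbf g g' ∉ kp X K ∪ X.W) : Mn X K g' := by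
  refine h.co (F := {lbf g g'}) (subset_refl _) (Relation.ReflTransGen.single ⟨hg, ?_⟩)
  rw [mem_du']
  exact ⟨mem_singleton_self _, hl⟩

lemma ClJ.mn (hI : Inv X) {g : ℤ × ℤ} (h : ClJ X (fi X.α) g) : Mn X K g := by
  obtain ⟨F, hF⟩ := hI.clJ.trans h
  exact ⟨F, hF.mono (du_anti (union_subset kp_EW subset_union_right))⟩

lemma sol_ne (hK : Sol X K) : X.α ≠ X.β := fun h => hK.alpha (by rw [h]; exact hK.beta)

/-- the faces of the back contour -/
lemma back_clJ (hI : Inv X) {ω : Finset (ℤ × ℤ)} (hω : ω ⊆ X.E) {z : ℤ × ℤ}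
    (h : Back (ω ∪ X.W) X.α X.β z) : ClJ X (fi X.α) (fi z) := by
  obtain ⟨m, hm0, hm⟩ := hI.back'
  obtain ⟨hb0, hb1, hb2, hb3, hb4⟩ := hm _ hω
  obtain ⟨j, hj, h5, h6⟩ := h
  have hjm : j < m := by
    by_contra hcon
    push Not at hcon
    exact h6 m hm0 hcon hb1
  rw [← h5]
  have h2 := Pool.Agent.H39.Q1.side_dual (ω ∪ X.W) X.β (i := j) (j := m) (by omega)
  rw [hb1] at h2
  refine ClJ.symm ⟨_, h2.mono (du_sub_of fun e he hW => ?_)⟩
  obtain ⟨l, ⟨-, hl⟩, rfl⟩ := mem_met.1 he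
  rw [mem_union, not_or] at hW ⊢
  exact ⟨hb3 l hl, hW.2⟩

/-- a corner joined to `β` on both sides is visited or on the back contour -/
lemma corner_cases (hK : Sol X K) {z : ℤ × ℤ} (hv : Co (kp X K ∪ X.W) (vx X.β) (vx z))
    (hM : Mn X K (fi z)) : ClJ X (fi X.α) (fi z) ∨
      ∃ i ≤ X.len (ωK X K), X.cor (ωK X K) i = z := by
  have hω := ωK_E (X := X) (K := K)
  by_cases hb : Back (ωK X K ∪ X.W) X.α X.β z
  · exact Or.inl (back_clJ hK.inv hω hb)
  · right
    have hα : Co (kp X K ∪ X.W) (vx X.α) (vx z) :=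
      (hK.inv.co_W.symm.mono subset_union_right).trans hv
    have hf : Mn X K (fi z) := hM
    obtain ⟨M, hM⟩ := hM
    obtain ⟨F, hF⟩ := hK.inv.clJ
    have hfα : Co (du (F ∪ M) (kp X K ∪ X.W)) (fi X.α) (fi z) := by
      refine ((hF.mono ?_).symm).trans (hM.mono (du_mono_left subset_union_right))
      exact (du_anti (union_subset kp_EW subset_union_right)).trans
        (du_mono_left subset_union_left)
    have hO : InOrb (pv (ωK X K ∪ X.W)) X.α z := by
      rw [ωK_W]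
      exact inOrb_pv_iff.2 (inOrb_of_co _ hα hfα)
    exact (X.visited_iff hω (sol_ne hK)).2 ⟨hO, hb⟩

section

variable {j0 : ℕ} {t : ℤ × ℤ}

/-- **Corners at `K`.** -/
theorem face_ring (hK : Sol X K) (hR : Root X K j0 t) {z : ℤ × ℤ} (hz : vx z ∈ K)
    (hM : Mn X K (fi z)) :
    ClJ X (fi X.α) (fi z) ∨ ∃ i, j0 < i ∧ i < per X K ∧ rc X K i = z := by
  rcases corner_cases hK ((hK.conn _ hK.beta _ hz).mono subset_union_left) hM with h | h
  · exact Or.inl h
  · obtain ⟨i, hi, rfl⟩ := h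
    obtain ⟨τ, hτ0, hτ1, hτ2, hτ3, hτ4, hτ5, hτ6, -⟩ := root_tail hK hR
    have hτi : τ ≤ i := by
      by_contra hcon
      exact hτ2 i (by omega) hz
    rcases Nat.lt_or_ge i (X.len (ωK X K)) with h1 | h1
    · right
      have h2 := hτ3 (i - τ) (by omega)
      rw [Nat.add_sub_cancel' hτi] at h2
      exact ⟨j0 + 1 + (i - τ), by omega, by omega, h2.symm⟩
    · left
      have h2 : i = X.len (ωK X K) := by omega
      rw [h2, X.cor_len ωK_E]
      exact hK.inv.clJ.symm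

/-- **Corners outside `K`.** -/
theorem main_face (hK : Sol X K) (hR : Root X K j0 t) {z : ℤ × ℤ} (hz : vx z ∉ K)
    (hv : Co X.W (vx X.β) (vx z)) (hM : Mn X K (fi z)) :
    ClJ X (fi X.α) (fi z) ∨ Co (Wt X K) (vx X.α) (vx z) := by
  rcases corner_cases hK (hv.mono subset_union_right) hM with h | h
  · exact Or.inl h
  · right
    obtain ⟨i, hi, rfl⟩ := h
    obtain ⟨τ, hτ0, hτ1, hτ2, hτ3, hτ4, hτ5, hτ6, -⟩ := root_tail hK hR
    have hiτ : i < τ := by
      by_contra hcon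
      rw [not_lt] at hcon
      have h2 := hτ3 (i - τ) (by omega)
      rw [Nat.add_sub_cancel' hcon] at h2
      exact hz (by rw [h2]; exact hK.vx_rc _)
    have h1 := X.side_open (ωK X K) (Nat.zero_le i)
    refine h1.mono fun e he => ?_
    obtain ⟨k, hk, rfl⟩ := X.mem_metE.1 (mem_inter.1 he).2
    have h2 := (mem_inter.1 he).1
    rw [ωK_W] at h2
    rcases hτ6 k (by omega) h2 with h3 | h3
    · exact h3
    · omega

/-- positions of a label of `perp K` one face of which is visible -/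
theorem pos_of_face (hK : Sol X K) (hR : Root X K j0 t) {z : ℤ × ℤ} (hz : vx z ∈ K)
    (hM : Mn X K (fi z)) (hcl : ¬ ClJ X (fi X.α) (fi z)) {e : ℤ × ℤ}
    (he : e = plab z ∨ e = lab z) (hne : e ≠ rl X K j0) :
    ∃ i p, j0 < i ∧ i < per X K ∧ rc X K i = z ∧ j0 < p ∧ p < per X K ∧ rl X K p = e ∧
      (p = i ∨ p + 1 = i) := by
  obtain ⟨i, h1, h2, h3⟩ := (face_ring hK hR hz hM).resolve_left hcl
  rcases he with he | he
  · exact ⟨i, i, h1, h2, h3, h1, h2, by unfold rl; rw [h3, he], Or.inl rfl⟩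
  · obtain ⟨q, hq⟩ : ∃ q, i = q + 1 := ⟨i - 1, by omega⟩
    have h4 : rl X K q = e := by
      rw [he, ← h3, hq, lab_rc_succ]
    have h5 : q ≠ j0 := by
      rintro rfl
      exact hne h4.symm
    exact ⟨i, q, h1, h2, h3, by omega, by omega, h4, Or.inr hq.symm⟩

/-- no wired label of `perp K` after the root -/
theorem ring_notW (hK : Sol X K) (hR : Root X K j0 t) {p : ℕ} (h1 : j0 < p) (h2 : p < per X K)
    (h3 : rl X K p ∉ kp X K) : rl X K p ∉ X.W := by
  intro h
  obtain ⟨τ, hτ0, hτ1, hτ2, hτ3, hτ4, hτ5, hτ6, -⟩ := root_tail hK hR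
  have h4 := hτ3 (p - (j0 + 1)) (by omega)
  rw [show j0 + 1 + (p - (j0 + 1)) = p by omega] at h4
  have h5 := hτ4 (τ + (p - (j0 + 1))) (by omega) (by omega)
  rw [h4] at h5
  exact h3 (h5 (mem_union_right _ h))

/-! ### The root crossing event -/

/-- the free labels of `perp K` with position at least `y` -/
noncomputable def T2 (X : DEnv) (K : Finset (ℤ × ℤ)) (y : ℕ) : Finset (ℤ × ℤ) :=
  open Classical in (perp K ∩ X.E).filter fun e => ∃ i, y ≤ i ∧ i < per X K ∧ rl X K i = e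

lemma mem_T2 {y : ℕ} {e : ℤ × ℤ} : e ∈ T2 X K y ↔ e ∈ perp K ∧ e ∈ X.E ∧
    ∃ i, y ≤ i ∧ i < per X K ∧ rl X K i = e := by
  classical
  unfold T2
  rw [mem_filter, mem_inter, and_assoc]

lemma T2_star {y : ℕ} {e : ℤ × ℤ} (h : e ∈ T2 X K y) : e ∈ star K := perp_star (mem_T2.1 h).1

/-- the open labels of the root environment -/
noncomputable def Gy (X : DEnv) (K : Finset (ℤ × ℤ)) (y : ℕ) : Finset (ℤ × ℤ) :=
  Wt X K ∪ kp X K ∪ T2 X K y

lemma mem_Gy {y : ℕ} {e : ℤ × ℤ} : e ∈ Gy X K y ↔ e ∈ Wt X K ∨ e ∈ kp X K ∨ e ∈ T2 X K y := by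
  unfold Gy
  rw [mem_union, mem_union, or_assoc]

/-- The root crossing event: the exit position is at least `y`. -/
def Ev (X : DEnv) (K : Finset (ℤ × ℤ)) (j0 : ℕ) (t : ℤ × ℤ) (y : ℕ) (ω : Finset (ℤ × ℤ)) : Prop :=
  Co ((ω \ star K) ∪ Gy X K y) (vx (rc X K j0)) t

lemma T2_anti {y y' : ℕ} (h : y ≤ y') : T2 X K y' ⊆ T2 X K y := by
  intro e he
  obtain ⟨h1, h2, i, h3, h4⟩ := mem_T2.1 he
  exact mem_T2.2 ⟨h1, h2, i, by omega, h4⟩

lemma Gy_anti {y y' : ℕ} (h : y ≤ y') : Gy X K y' ⊆ Gy X K y :=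
  union_subset_union (subset_refl _) (T2_anti h)

lemma Ev.anti {y y' : ℕ} (h : y ≤ y') {ω : Finset (ℤ × ℤ)} (h1 : Ev X K j0 t y' ω) :
    Ev X K j0 t y ω := h1.mono (union_subset_union (subset_refl _) (Gy_anti h))

lemma Ev.mono {y : ℕ} {ω ω' : Finset (ℤ × ℤ)} (h : ω ⊆ ω') (h1 : Ev X K j0 t y ω) :
    Ev X K j0 t y ω' :=
  Co.mono (union_subset_union (sdiff_subset_sdiff h (subset_refl _)) (subset_refl _)) h1

lemma root_notGy (hK : Sol X K) (hR : Root X K j0 t) {y : ℕ} : rl X K j0 ∉ Gy X K y := by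
  rw [mem_Gy]
  rintro (h | h | h)
  · exact Wt_star h (perp_star hR.perp)
  · exact perp_notkp hR.perp h
  · exact disjoint_left.1 X.disj (mem_T2.1 h).2.1 hR.wir

/-- first entrance into `K` -/
lemma first_enter {L : Finset (ℤ × ℤ)} {u v : ℤ × ℤ} (hu : u ∉ K) (hv : v ∈ K) (h : Co L u v) :
    ∃ b c, Co (L \ star K) u b ∧ b ∉ K ∧ c ∈ K ∧ Ad L b c := by
  have key : ∀ w, Co L u w → (Co (L \ star K) u w ∧ w ∉ K) ∨
      ∃ b c, Co (L \ star K) u b ∧ b ∉ K ∧ c ∈ K ∧ Ad L b c := by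
    intro w hw
    induction hw with
    | refl => exact Or.inl ⟨Co.refl _ _, hu⟩
    | @tail b c hb hbc ih =>
      rcases ih with ⟨h5, h6⟩ | h
      · by_cases hc : c ∈ K
        · exact Or.inr ⟨b, c, h5, h6, hc, hbc⟩
        · obtain ⟨hodd, h7⟩ := odd_of_ad' hbc
          refine Or.inl ⟨h5.tail ⟨hbc.1, mem_sdiff.2 ⟨hbc.2, ?_⟩⟩, hc⟩
          rw [mem_star_iff hodd]
          rcases h7 with ⟨e1, e2⟩ | ⟨e1, e2⟩ <;> rw [e1, e2] <;> tauto
      · exact Or.inr h
  exact (key v h).resolve_left fun h1 => h1.2 hv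

/-- a label from outside into `K` is in `perp K` -/
lemma perp_of_ad {L : Finset (ℤ × ℤ)} {b c : ℤ × ℤ} (hb : b ∉ K) (hc : c ∈ K) (h : Ad L b c) :
    b + c ∈ perp K ∧ (b = eu (b + c) ∨ b = ev (b + c)) := by
  obtain ⟨hodd, h7⟩ := odd_of_ad' h
  rw [mem_perp_iff hodd]
  rcases h7 with ⟨e1, e2⟩ | ⟨e1, e2⟩
  · rw [e1, e2]; exact ⟨by tauto, Or.inl rfl⟩
  · rw [e1, e2]; exact ⟨by tauto, Or.inr rfl⟩

/-- the label through which the root event holds -/
lemma ev_label (hK : Sol X K) (hR : Root X K j0 t) {y : ℕ} {ω : Finset (ℤ × ℤ)}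
    (h : Ev X K j0 t y ω) : ∃ j u, y ≤ j ∧ j < per X K ∧ rl X K j ∈ perp K ∧ rl X K j ∈ X.E ∧
      (u = eu (rl X K j) ∨ u = ev (rl X K j)) ∧ Co ((ω ∪ Wt X K) \ star K) (vx X.α) u := by
  obtain ⟨b, c, h1, h2, h3, h4⟩ := first_enter (hR.notMem hK) (hK.vx_rc j0) h.symm
  obtain ⟨h5, h6⟩ := perp_of_ad h2 h3 h4
  have h7 := h4.2
  rw [mem_union, mem_Gy] at h7
  have h8 : b + c ∈ T2 X K y := by
    rcases h7 with h7 | h7 | h7 | h7
    · exact absurd (perp_star h5) (mem_sdiff.1 h7).2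
    · exact absurd (perp_star h5) (Wt_star h7)
    · exact absurd h7 (perp_notkp h5)
    · exact h7
  obtain ⟨-, h9, j, h10, h11, h12⟩ := mem_T2.1 h8
  refine ⟨j, b, h10, h11, by rw [h12]; exact h5, by rw [h12]; exact h9, by rw [h12]; exact h6, ?_⟩
  have h13 : Co ((ω ∪ Wt X K) \ star K) t b := by
    refine h1.mono fun e he => ?_
    obtain ⟨h14, h15⟩ := mem_sdiff.1 he
    rw [mem_union, mem_Gy] at h14
    rw [mem_sdiff, mem_union]
    refine ⟨?_, h15⟩
    rcases h14 with h14 | h14 | h14 | h14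
    · exact Or.inl (mem_sdiff.1 h14).1
    · exact Or.inr h14
    · exact absurd (kp_star h14) h15
    · exact absurd (T2_star h14) h15
  refine Co.trans ((co_Wt hR.conn).mono fun e he => ?_) h13
  rw [mem_sdiff, mem_union]
  exact ⟨Or.inr he, Wt_star he⟩

/-- primal criterion -/
lemma ev_of_label (hK : Sol X K) (hR : Root X K j0 t) {y : ℕ} {ω : Finset (ℤ × ℤ)} {j : ℕ}
    (hj : y ≤ j) (hj' : j < per X K) (hp : rl X K j ∈ perp K) (hE : rl X K j ∈ X.E) {u : ℤ × ℤ}
    (hu : u = eu (rl X K j) ∨ u = ev (rl X K j))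
    (hc : Co ((ω ∪ Wt X K) \ star K) (vx X.α) u) : Ev X K j0 t y ω := by
  have hsub : (ω ∪ Wt X K) \ star K ⊆ (ω \ star K) ∪ Gy X K y := by
    intro e he
    rw [mem_sdiff, mem_union] at he
    rw [mem_union, mem_Gy, mem_sdiff]
    tauto
  have hunK : u ∉ K := notMem_of_co (fun e he => (mem_sdiff.1 he).2) hK.alpha hc
  have hodd := odd_rl (X := X) (K := K) j
  have hsT : rl X K j ∈ (ω \ star K) ∪ Gy X K y := by
    rw [mem_union, mem_Gy]
    exact Or.inr (Or.inr (Or.inr (mem_T2.2 ⟨hp, hE, j, hj, hj', rfl⟩)))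
  have he := co_ends hodd hsT
  obtain ⟨w, hw, hw2⟩ : ∃ w ∈ K, Co ((ω \ star K) ∪ Gy X K y) u w := by
    rcases (mem_perp_iff hodd).1 hp with ⟨h1, h2⟩ | ⟨h1, h2⟩
    · rcases hu with rfl | rfl
      · exact absurd h1 hunK
      · exact ⟨_, h1, he.symm⟩
    · rcases hu with rfl | rfl
      · exact ⟨_, h2, he⟩
      · exact absurd h2 hunK
  have h1 : Co ((ω \ star K) ∪ Gy X K y) (vx (rc X K j0)) w :=
    (hK.conn _ (hK.vx_rc j0) _ hw).mono fun e he => by
      rw [mem_union, mem_Gy]; exact Or.inr (Or.inr (Or.inl he))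
  have h2 : Co ((ω \ star K) ∪ Gy X K y) (vx X.α) t := (co_Wt hR.conn).mono fun e he => by
    rw [mem_union, mem_Gy]; exact Or.inr (Or.inl he)
  exact h1.trans (hw2.symm.trans ((hc.mono hsub).symm.trans h2))

/-- a closed dual path between the two faces of a label, in the form of corners -/
lemma sep_corner' {M L : Finset (ℤ × ℤ)} {z : ℤ × ℤ}
    (h : Co (du M (insert (lab z) L)) (fi z) (fi (opc z))) :
    ¬ Co (L.erase (lab z)) (vx z) (vx (opc z)) := by
  have hodd : ((lab z).1 + (lab z).2) % 2 = 1 := odd_lab z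
  obtain ⟨o1, o2, -, -, -, -⟩ := Pool.Agent.H75.Four.opc_zu hodd
  rcases eq_zu_or_zv hodd rfl with h2 | h2
  · have h3 : opc z = zv (lab z) := by rw [← o1]; exact congrArg opc h2
    rw [h3] at h ⊢
    have h4 : fi z = fi (zu (lab z)) := congrArg fi h2
    have h5 : vx z = vx (zu (lab z)) := congrArg vx h2
    rw [h4] at h
    rw [h5]
    exact Pool.Agent.H81.NC.sep_of_dual hodd h
  · have h3 : opc z = zu (lab z) := by rw [← o2]; exact congrArg opc h2
    rw [h3] at h ⊢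
    have h4 : fi z = fi (zv (lab z)) := congrArg fi h2
    have h5 : vx z = vx (zv (lab z)) := congrArg vx h2
    rw [h4] at h
    rw [h5]
    intro h6
    exact Pool.Agent.H81.NC.sep_of_dual hodd h.symm h6.symm

/-- the root as a corner -/
lemma root_corner (hK : Sol X K) (hR : Root X K j0 t) :
    lab (rc X K (j0 + 1)) = rl X K j0 ∧ vx (rc X K (j0 + 1)) = vx (rc X K j0) ∧
      vx (opc (rc X K (j0 + 1))) = t ∧ fi (opc (rc X K (j0 + 1))) = fi (rc X K j0) := by
  have hk : plab (rc X K j0) ∉ kp X K := perp_notkp hR.perp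
  have h1 := fi_of_closed hk
  rw [← rc_succ] at h1
  refine ⟨lab_rc_succ j0, h1.1.symm, ?_, h1.2.symm⟩
  have h2 : lab (opc (rc X K (j0 + 1))) = rl X K j0 := by
    rw [← lab_rc_succ]; exact lab_eq_iff.2 (Or.inr rfl)
  have h3 := end_lab' (opc (rc X K (j0 + 1)))
  rw [h2] at h3
  have h4 := vx_opc_ne (rc X K (j0 + 1))
  rw [← h1.1] at h4
  have h5 := end_plab' (rc X K j0)
  have ht := hR.notMem hK
  have hv := hK.vx_rc j0
  have h6 := hR.ends
  unfold rl at h3 h6
  rcases h6 with h6 | h6 <;> rcases h5 with h5 | h5 <;> rcases h3 with h3 | h3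
  · rw [h3, h6]
  · exact absurd (by rw [h6, ← h5]; exact hv) ht
  · rw [h3, h6]
  · exact absurd (h3.trans h5.symm) h4
  · exact absurd (h3.trans h5.symm) h4
  · rw [h3, h6]
  · exact absurd (by rw [h6, ← h5]; exact hv) ht
  · rw [h3, h6]

/-- the ring between two positions after the root, as a dual path -/
lemma ring_dual (hK : Sol X K) {a b : ℕ} (ha : j0 < a) (hab : a ≤ b) (hb : b ≤ per X K) {y : ℕ}
    (hy : b ≤ y) {ω : Finset (ℤ × ℤ)} (hR : Root X K j0 t) :
    Co (du (met (kp X K) X.β a b) (insert (rl X K j0) ((ω \ star K) ∪ Gy X K y)))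
      (fi (rc X K a)) (fi (rc X K b)) := by
  have h := Pool.Agent.H39.Q1.side_dual (kp X K) X.β hab
  refine h.mono (du_sub_of fun e he hn => ?_)
  obtain ⟨k, ⟨h1, h2⟩, rfl⟩ := mem_met.1 he
  have hst : rl X K k ∈ star K := hK.rl_star k
  rw [mem_insert, mem_union, mem_Gy, mem_sdiff]
  rintro (h3 | ⟨-, h3⟩ | h3 | h3 | h3)
  · have h4 : rl X K j0 = rl X K k := h3.symm
    have := hK.rl_inj hR.lt (by omega) h4 hR.perp
    omega
  · exact h3 hst
  · exact Wt_star h3 hst
  · exact hn h3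
  · obtain ⟨h4, -, i, h5, h6, h7⟩ := mem_T2.1 h3
    have := hK.rl_inj h6 (by omega) (h7 : rl X K i = rl X K k) (by rw [h7]; exact h4)
    omega

/-- **Dual criterion.** -/
theorem not_ev (hK : Sol X K) (hR : Root X K j0 t) {y a : ℕ} (ha : j0 < a) (hay : a ≤ y)
    (hap : a ≤ per X K) {ω : Finset (ℤ × ℤ)} (hω : ω ⊆ X.E) {g : ℤ × ℤ}
    (hg : ClJ X (fi X.α) g) {M : Finset (ℤ × ℤ)}
    (hM : Co (du M (insert (rl X K j0) ((ω \ star K) ∪ Gy X K y))) g (fi (rc X K a))) :
    ¬ Ev X K j0 t y ω := by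
  obtain ⟨c1, c2, c3, c4⟩ := root_corner hK hR
  set L := (ω \ star K) ∪ Gy X K y with hL
  have hLE : insert (rl X K j0) L ⊆ X.E ∪ X.W := by
    intro e he
    rw [mem_insert, hL, mem_union, mem_Gy] at he
    rcases he with rfl | he | he | he | he
    · exact mem_union_right _ hR.wir
    · exact mem_union_left _ (hω (mem_sdiff.1 he).1)
    · exact mem_union_right _ (Wt_W he)
    · exact kp_EW he
    · exact mem_union_left _ (mem_T2.1 he).2.1
  have hnot : rl X K j0 ∉ L := by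
    rw [hL, mem_union, not_or]
    exact ⟨fun h => (mem_sdiff.1 h).2 (perp_star hR.perp), root_notGy hK hR⟩
  have h1 := ring_dual hK (j0 := j0) (t := t) (a := j0 + 1) (b := a) (y := y) (ω := ω) (by omega)
    (by omega) hap hay hR
  obtain ⟨F, hF⟩ := hg.symm.trans (root_clJ hK hR)
  have hF' := hF.mono (du_anti (E := F) hLE)
  have h2 : Co (du (met (kp X K) X.β (j0 + 1) a ∪ M ∪ F) (insert (rl X K j0) L))
      (fi (rc X K (j0 + 1))) (fi (rc X K j0)) := by
    refine (h1.mono (du_mono_left ?_)).trans ((hM.symm.mono (du_mono_left ?_)).trans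
      (hF'.mono (du_mono_left subset_union_right)))
    · exact subset_union_left.trans subset_union_left
    · exact subset_union_right.trans subset_union_left
  have h3 := sep_corner' (L := L) (z := rc X K (j0 + 1)) (M := met (kp X K) X.β (j0 + 1) a ∪ M ∪ F)
    (by rw [c1, c4]; exact h2)
  rw [c1, c2, c3, erase_eq_of_notMem hnot] at h3
  exact h3

/-! ### The exit -/

/-- **Core.** -/
lemma core' (hK : Sol X K) {ω : Finset (ℤ × ℤ)} {τ : ℕ}
    (hfirst : ∀ j < τ, plab (X.cor ω j) ∉ star K)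
    (hexit : plab (X.cor ω τ) ∈ star K) {i : ℕ} (hi : rl X K i = plab (X.cor ω τ))
    {s u : ℤ × ℤ} (hs : s ∈ perp K) (hse : s ≠ plab (X.cor ω τ)) (hu : u = eu s ∨ u = ev s)
    (huc : Co ((ω ∪ X.W) \ star K) (vx X.α) u) {M : Finset (ℤ × ℤ)}
    (hM : Co (du M (insert (plab (X.cor ω τ)) (insert s ((ω ∪ X.W) \ star K ∪ kp X K)))) (fi X.α)
      (fi (rc X K i))) : False := by
  classical
  set c := X.cor ω τ with hc
  set c' := rc X K i with hc'
  set e := plab c with he
  set L := insert s ((ω ∪ X.W) \ star K ∪ kp X K) with hL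
  have hcn : vx c ∉ K := before_notMem hK hfirst le_rfl
  have hp : e ∈ perp K := by
    unfold perp
    rw [mem_sdiff]
    refine ⟨hexit, fun h => hcn ?_⟩
    rw [mem_kap_iff (odd_plab _)] at h
    rcases end_plab' c with h2 | h2
    · rw [h2]; exact h.1
    · rw [h2]; exact h.2
  have hek : e ∉ kp X K := perp_notkp hp
  have heL : e ∉ L := by
    rw [hL, mem_insert, mem_union, mem_sdiff]
    rintro (h | ⟨-, h⟩ | h)
    · exact hse h.symm
    · exact h hexit
    · exact hek h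
  have hne : c' ≠ c := fun h => hcn (by rw [← h]; exact hK.vx_rc i)
  have t0 := (plab_eq (L := L) (x := c') (y := c) hi).resolve_left hne
  have hc'L : plab c' ∉ L := by
    have : plab c' = e := hi
    rw [this]; exact heL
  have t1 := fi_of_closed hc'L
  have t3 := fi_of_closed heL
  rw [t0] at t1
  rw [opc_opc] at t1
  set z := pv L c with hz
  have hlz : lab z = e := lab_pv L c
  have hd1 : Co (du (X.metE ω 0 τ) (insert e L)) (fi X.α) (fi c) := by
    have h := X.side_dual ω (Nat.zero_le τ)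
    refine h.mono (du_sub_of fun a ha hn => ?_)
    obtain ⟨k, ⟨-, hk⟩, rfl⟩ := X.mem_metE.1 ha
    have hks := hfirst k hk
    rw [mem_union, not_or] at hn
    rw [mem_insert, not_or, hL, mem_insert, not_or, mem_union, not_or, mem_sdiff, mem_union]
    refine ⟨fun h => hks (h ▸ hexit), fun h => hks ?_, ?_, fun h => hks (kp_star h)⟩
    · rw [h]; exact (mem_sdiff.1 hs).1
    · rintro ⟨h, -⟩
      exact h.elim hn.1 hn.2
  have hd : Co (du (M ∪ X.metE ω 0 τ) (insert (lab z) L)) (fi z) (fi (opc z)) := by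
    rw [hlz, ← t3.2, ← t1.2]
    exact (hM.symm.mono (du_mono_left subset_union_left)).trans
      (hd1.mono (du_mono_left subset_union_right))
  have hsep := sep_corner' hd
  apply hsep
  rw [hlz, ← t1.1, ← t3.1]
  have hLe : ∀ {A : Finset (ℤ × ℤ)}, A ⊆ L → A ⊆ L.erase e := fun {A} hA a ha =>
    mem_erase.2 ⟨fun h => heL (h ▸ hA ha), hA ha⟩
  have j1 : Co (L.erase e) (vx X.α) (vx c) := by
    have h := X.side_open ω (Nat.zero_le τ)
    refine h.mono fun a ha => hLe (subset_refl L) ?_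
    obtain ⟨h1, h2⟩ := mem_inter.1 ha
    obtain ⟨k, ⟨-, hk⟩, rfl⟩ := X.mem_metE.1 h2
    rw [hL, mem_insert, mem_union, mem_sdiff]
    exact Or.inr (Or.inl ⟨h1, hfirst k hk⟩)
  have j2 : Co (L.erase e) (vx X.α) u :=
    huc.mono (hLe fun a ha => by rw [hL]; exact mem_insert_of_mem (mem_union_left _ ha))
  have hodds : (s.1 + s.2) % 2 = 1 := odd_star (mem_sdiff.1 hs).1
  have hsL : s ∈ L.erase e := mem_erase.2 ⟨hse, by rw [hL]; exact mem_insert_self _ _⟩
  have j3 : Co (L.erase e) (eu s) (ev s) := co_ends hodds hsL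
  have hnu : u ∉ K := notMem_of_co (fun e he => (mem_sdiff.1 he).2) hK.alpha huc
  obtain ⟨w, hw, j4⟩ : ∃ w ∈ K, Co (L.erase e) u w := by
    rcases (mem_perp_iff hodds).1 hs with ⟨h1, h2⟩ | ⟨h1, h2⟩
    · rcases hu with rfl | rfl
      · exact absurd h1 hnu
      · exact ⟨_, h1, j3.symm⟩
    · rcases hu with rfl | rfl
      · exact ⟨_, h2, j3⟩
      · exact absurd h2 hnu
  have j5 : Co (L.erase e) w (vx c') :=
    (hK.conn w hw _ (hK.vx_rc i)).mono (hLe fun a ha => by
      rw [hL]; exact mem_insert_of_mem (mem_union_right _ ha))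
  exact j1.symm.trans (j2.trans (j4.trans j5))

/-- the exit label is on the ring -/
lemma exit_ring' (hK : Sol X K) {ω : Finset (ℤ × ℤ)} (hω : ω ⊆ X.E) {τ : ℕ}
    (hfirst : ∀ j < τ, plab (X.cor ω j) ∉ star K) (hexit : plab (X.cor ω τ) ∈ star K) :
    plab (X.cor ω τ) ∈ perp K ∧ ∃ i < per X K, rl X K i = plab (X.cor ω τ) := by
  have hcn : vx (X.cor ω τ) ∉ K := before_notMem hK hfirst le_rfl
  have hp : plab (X.cor ω τ) ∈ perp K := by
    unfold perp
    rw [mem_sdiff]
    refine ⟨hexit, fun h => hcn ?_⟩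
    rw [mem_kap_iff (odd_plab _)] at h
    rcases end_plab' (X.cor ω τ) with h2 | h2
    · rw [h2]; exact h.1
    · rw [h2]; exact h.2
  refine ⟨hp, ?_⟩
  obtain ⟨F, hF⟩ := hK.inv.clJ
  have h1 : Co (du (X.metE ω 0 τ) (kp X K)) (fi X.α) (fi (X.cor ω τ)) := by
    have h := X.side_dual ω (Nat.zero_le τ)
    refine h.mono (du_sub_of fun a ha hn => ?_)
    obtain ⟨k, ⟨-, hk⟩, rfl⟩ := X.mem_metE.1 ha
    exact fun h => hfirst k hk (kp_star h)
  refine hK.on_ring hp (M := F ∪ X.metE ω 0 τ) ?_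
  exact (hF.mono ((du_anti kp_EW).trans (du_mono_left subset_union_left))).trans
    (h1.mono (du_mono_left subset_union_right))

/-- **No position after the exit position is joined to the tip.** -/
theorem exit_max (hK : Sol X K) {ω : Finset (ℤ × ℤ)} (hω : ω ⊆ X.E) {τ : ℕ}
    (hfirst : ∀ j < τ, plab (X.cor ω j) ∉ star K) (hexit : plab (X.cor ω τ) ∈ star K)
    (hexE : plab (X.cor ω τ) ∈ X.E ∪ X.W) {i : ℕ} (hi : i < per X K)
    (he : rl X K i = plab (X.cor ω τ)) {j : ℕ} (hj : j < per X K) (hs : rl X K j ∈ perp K)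
    (hEW : rl X K j ∈ X.E ∪ X.W) {u : ℤ × ℤ} (hu : u = eu (rl X K j) ∨ u = ev (rl X K j))
    (huc : Co ((ω ∪ X.W) \ star K) (vx X.α) u) : j ≤ i := by
  by_contra hlt
  rw [not_le] at hlt
  obtain ⟨hp, -⟩ := exit_ring' hK hω hfirst hexit
  have hse : rl X K j ≠ plab (X.cor ω τ) := by
    intro h
    have := hK.rl_inj hi hj (he.trans h.symm) (he ▸ hp)
    omega
  set L := insert (plab (X.cor ω τ)) (insert (rl X K j) ((ω ∪ X.W) \ star K ∪ kp X K)) with hL
  obtain ⟨F, hF⟩ := hK.inv.clJ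
  have h1 : Co (du F L) (fi X.β) (fi X.α) := by
    refine hF.mono (du_anti ?_)
    intro a ha
    rw [hL, mem_insert, mem_insert, mem_union, mem_sdiff, mem_union] at ha
    rcases ha with rfl | rfl | ⟨h | h, -⟩ | h
    · exact hexE
    · exact hEW
    · exact mem_union_left _ (hω h)
    · exact mem_union_right _ h
    · exact kp_EW h
  have h2 : Co (du (met (kp X K) X.β 0 i) L) (fi X.β) (fi (rc X K i)) := by
    have h := Pool.Agent.H39.Q1.side_dual (kp X K) X.β (Nat.zero_le i)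
    refine h.mono (du_sub_of fun a ha hn => ?_)
    obtain ⟨r, ⟨-, hr⟩, rfl⟩ := mem_met.1 ha
    have hst : rl X K r ∈ star K := hK.rl_star r
    rw [hL, mem_insert, not_or, mem_insert, not_or, mem_union, not_or, mem_sdiff]
    refine ⟨fun h => ?_, fun h => ?_, fun h => h.2 hst, hn⟩
    · have h3 : rl X K i = rl X K r := he.trans h.symm
      have := hK.rl_inj hi (by omega) h3 (he ▸ hp)
      omega
    · have := hK.rl_inj (i := j) (j := r) hj (by omega) h.symm hs
      omega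
  refine core' hK hfirst hexit he hs hse hu huc (M := F ∪ met (kp X K) X.β 0 i) ?_
  exact (h1.symm.mono (du_mono_left subset_union_left)).trans
    (h2.mono (du_mono_left subset_union_right))

/-- the wired label met at the exit is the root -/
lemma exit_wired (hK : Sol X K) (hR : Root X K j0 t) {ω : Finset (ℤ × ℤ)} (hω : ω ⊆ X.E) {τ : ℕ}
    (hfirst : ∀ j < τ, plab (X.cor ω j) ∉ star K) (hexit : plab (X.cor ω τ) ∈ star K)
    (hW : plab (X.cor ω τ) ∈ X.W) : plab (X.cor ω τ) = rl X K j0 := by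
  set ω' := ω ∪ (kp X K ∩ X.E) with hω'
  have hω'E : ω' ⊆ X.E := union_subset hω inter_subset_right
  have hcor := X.cor_congr hω hω'E (n := τ) (fun k hk _ => by
    rw [hω', mem_union]
    refine ⟨fun h => h.resolve_right fun h1 => ?_, Or.inl⟩
    exact hfirst k hk (kp_star (mem_inter.1 h1).1))
  have hlt : τ < X.len ω' := by
    by_contra hcon
    rw [not_lt] at hcon
    have h1 := hcor (X.len ω') (by omega)
    rw [X.cor_len hω'E] at h1
    exact before_notMem hK hfirst (i := X.len ω') (by omega) (by rw [← h1]; exact hK.beta)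
  have h2 := hcor τ le_rfl
  have h3 := hR.wired hK hω'E (by
    intro e he
    rcases mem_union.1 (kp_EW he) with h | h
    · exact mem_union_left _ (mem_union_right _ (mem_inter.2 ⟨he, h⟩))
    · exact mem_union_right _ h) hlt (by rw [h2]; exact hW)
  rw [h2] at h3
  unfold Pj at h3
  rw [mem_union, mem_union, mem_singleton] at h3
  rcases h3 with (h3 | h3) | h3
  · exact absurd hexit (Wt_star h3)
  · exact h3
  · exact absurd h3 (perp_notkp (exit_ring' hK hω hfirst hexit).1)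

/-- **EXIT.** If the first label of `star K` met by the exploration is free, then its position `i` is
after the root and the root event at `y` says `y ≤ i`. -/
theorem exit_iff (hK : Sol X K) (hR : Root X K j0 t) {ω : Finset (ℤ × ℤ)} (hω : ω ⊆ X.E) {τ : ℕ}
    (hfirst : ∀ j < τ, plab (X.cor ω j) ∉ star K) (hexit : plab (X.cor ω τ) ∈ star K)
    (hexE : plab (X.cor ω τ) ∈ X.E) : ∃ i, j0 < i ∧ i < per X K ∧
      rl X K i = plab (X.cor ω τ) ∧ ∀ y, Ev X K j0 t y ω ↔ y ≤ i := by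
  obtain ⟨hp, i, hi, he⟩ := exit_ring' hK hω hfirst hexit
  have hEW := mem_union_left X.W hexE
  have hmax := fun {j : ℕ} (hj : j < per X K) => exit_max hK hω hfirst hexit hEW hi he hj
  have h0 : j0 ≤ i := hmax hR.lt hR.perp (mem_union_right _ hR.wir) hR.ends
    (hR.conn.mono (sdiff_subset_sdiff subset_union_right (subset_refl _)))
  have hne : j0 ≠ i := by
    intro h
    subst h
    have := hR.wir
    rw [he] at this
    exact disjoint_left.1 X.disj hexE this
  refine ⟨i, by omega, hi, he, fun y => ⟨fun h => ?_, fun h => ?_⟩⟩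
  · obtain ⟨j, u, h1, h2, h3, h4, h5, h6⟩ := ev_label hK hR h
    exact h1.trans (hmax h2 h3 (mem_union_left _ h4) h5
      (h6.mono (sdiff_subset_sdiff (union_subset_union (subset_refl _) Wt_W) (subset_refl _))))
  · refine ev_of_label hK hR h hi (he ▸ hp) (he ▸ hexE) (u := vx (X.cor ω τ))
      (by rw [he]; exact end_plab' _) ?_
    refine (X.side_open ω (Nat.zero_le τ)).mono fun e he' => ?_
    obtain ⟨h1, h2⟩ := mem_inter.1 he'
    obtain ⟨k, ⟨-, hk⟩, rfl⟩ := X.mem_metE.1 h2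
    rw [mem_sdiff, mem_union]
    refine ⟨?_, hfirst k hk⟩
    rcases mem_union.1 h1 with h3 | h3
    · exact Or.inl h3
    · exact Or.inr (hR.wired_before hK hω hfirst hk h3)

/-- **EXIT** at the root: no root event after it. -/
theorem exit_root (hK : Sol X K) (hR : Root X K j0 t) {ω : Finset (ℤ × ℤ)} (hω : ω ⊆ X.E) {τ : ℕ}
    (hfirst : ∀ j < τ, plab (X.cor ω j) ∉ star K) (hexit : plab (X.cor ω τ) ∈ star K)
    (hW : plab (X.cor ω τ) ∈ X.W) {y : ℕ} (hy : j0 < y) : ¬ Ev X K j0 t y ω := by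
  intro h
  have he := exit_wired hK hR hω hfirst hexit hW
  obtain ⟨j, u, h1, h2, h3, h4, h5, h6⟩ := ev_label hK hR h
  have := exit_max hK hω hfirst hexit (mem_union_right _ hW) hR.lt he.symm h2 h3
    (mem_union_left _ h4) h5
    (h6.mono (sdiff_subset_sdiff (union_subset_union (subset_refl _) Wt_W) (subset_refl _)))
  omega

/-- the exploration meets `star K` -/
lemma exists_exit (hK : Sol X K) {ω : Finset (ℤ × ℤ)} (hω : ω ⊆ X.E) : ∃ τ < X.len ω,
    (∀ j < τ, plab (X.cor ω j) ∉ star K) ∧ plab (X.cor ω τ) ∈ star K := by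
  classical
  have hex : ∃ i, plab (X.cor ω i) ∈ star K ∧ i < X.len ω := by
    by_contra hcon
    push Not at hcon
    have h1 : ∀ i ≤ X.len ω, vx (X.cor ω i) ∉ K := by
      intro i hi
      have h := X.side_open ω (Nat.zero_le i)
      refine notMem_of_co ?_ hK.alpha h
      intro e he
      obtain ⟨k, ⟨-, hk⟩, rfl⟩ := X.mem_metE.1 (mem_inter.1 he).2
      intro h2
      have := hcon k h2
      omega
    exact h1 _ le_rfl (by rw [X.cor_len hω]; exact hK.beta)
  refine ⟨Nat.find hex, (Nat.find_spec hex).2, fun j hj h => ?_, (Nat.find_spec hex).1⟩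
  exact Nat.find_min hex hj ⟨h, hj.trans (Nat.find_spec hex).2⟩

end

end Pool.Agent.H21.Q1
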