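import Mathlib
import Pool.Agent.H21.Q1.Root2
import Pool.Agent.H21.Q1.CompDual

set_option autoImplicit false
open Finset

/-! Module M3 of Q1: the comparison lemmas in the root environment.

`root_open` : opening the free labels `O` outside `star K` and the zone `Z` (labels of the zone open).
`root_dual` : closing them (labels of the zone closed). -/

namespace Pool.Agent.H21.Q1

open Pool.Agent.H75.Perc Pool.Agent.H75.TwoArm Pool.Agent.H75.Four Pool.Agent.H99.NC
open Pool.Agent.H69.Q1 Pool.Agent.H39.Q1 Pool.Agent.H28.Q1 Pool.Agent.Q1.M3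
open Pool.Agent.H42.Q1 (ends_add co_ends corner_of_face)
open Pool.Agent.H77.Q1 (lbf mem_du' Fac Ends Dc Exit ad_dc unit4_neg lbf_comm)
open Pool.Agent.H75.TwoArm.StrandAux hiding vx_nxC

/-! ### Elementary facts -/

lemma face_pair {g g' h h' : ℤ × ℤ} (h1 : IsUnit4 (g' - g)) (h2 : IsUnit4 (h' - h))
    (he : lbf g g' = lbf h h') : (g = h ∧ g' = h') ∨ (g = h' ∧ g' = h) := by
  have a := unit_cases h1
  have b := unit_cases h2
  unfold lbf at he
  have e1 := congrArg Prod.fst he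
  have e2 := congrArg Prod.snd he
  simp only [Prod.fst_sub, Prod.fst_add, Prod.snd_sub, Prod.snd_add] at e1 e2
  rw [Prod.ext_iff, Prod.ext_iff, Prod.ext_iff, Prod.ext_iff]
  omega

lemma odd_lbf {g g' : ℤ × ℤ} (h : IsUnit4 (g' - g)) : ((lbf g g').1 + (lbf g g').2) % 2 = 1 := by
  have a := unit_cases h
  unfold lbf
  simp only [Prod.fst_sub, Prod.fst_add, Prod.snd_sub, Prod.snd_add]
  omega

lemma exists_BB (U : Finset (ℤ × ℤ)) (hU : ∀ e ∈ U, (e.1 + e.2) % 2 = 1) :
    ∃ M : ℤ, U ⊆ H75.TwoArm.BB M := by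
  classical
  obtain ⟨M1, hM1⟩ := (U.image fun e => |e.1| + |e.2|).bddAbove
  refine ⟨M1, fun e he => ?_⟩
  have h1 : |e.1| + |e.2| ≤ M1 := hM1 (by simpa using ⟨e.1, e.2, he, rfl⟩)
  unfold H75.TwoArm.BB
  rw [mem_Bx]
  have h2 := abs_nonneg e.1
  have h3 := abs_nonneg e.2
  have h4 := abs_le.1 (show |e.1| ≤ M1 by omega)
  have h5 := abs_le.1 (show |e.2| ≤ M1 by omega)
  exact ⟨⟨by omega, by omega⟩, ⟨by omega, by omega⟩, hU e he⟩

open Classical in
/-- the labels of `U` reached from the face `f` by dual paths in `U` -/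
noncomputable def rch (U : Finset (ℤ × ℤ)) (f : ℤ × ℤ) : Finset (ℤ × ℤ) :=
  U.filter fun c => ∃ g g', IsUnit4 (g' - g) ∧ lbf g g' = c ∧ Co (du U ∅) f g

lemma rch_sub {U : Finset (ℤ × ℤ)} {f : ℤ × ℤ} : rch U f ⊆ U := by
  classical
  exact filter_subset _ _

lemma ad_du0 {A : Finset (ℤ × ℤ)} {g g' : ℤ × ℤ} :
    Ad (du A ∅) g g' ↔ IsUnit4 (g' - g) ∧ lbf g g' ∈ A := by
  rw [du_eq_map, ad_dual]

lemma rch_co {U : Finset (ℤ × ℤ)} {f g : ℤ × ℤ} (h : Co (du U ∅) f g) :
    Co (du (rch U f) ∅) f g := by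
  classical
  induction h with
  | refl => exact Co.refl _ _
  | @tail b c hb hbc ih =>
    rw [ad_du0] at hbc
    refine ih.tail (ad_du0.2 ⟨hbc.1, ?_⟩)
    unfold rch
    rw [mem_filter]
    exact ⟨hbc.2, b, c, hbc.1, rfl, hb⟩

lemma rch_face {U : Finset (ℤ × ℤ)} {f g g' : ℤ × ℤ} (hg : IsUnit4 (g' - g))
    (h : lbf g g' ∈ rch U f) : Co (du (rch U f) ∅) g f := by
  classical
  have h0 := h
  unfold rch at h
  obtain ⟨h1, a, a', h2, h3, h4⟩ := mem_filter.1 h
  have h5 := rch_co h4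
  rcases face_pair hg h2 h3.symm with ⟨rfl, -⟩ | ⟨rfl, rfl⟩
  · exact h5.symm
  · exact Co.trans (Relation.ReflTransGen.single (ad_du0.2 ⟨hg, h0⟩)) h5.symm

/-- the corner of a face at a given end of one of its labels -/
lemma face_corner {g g' v : ℤ × ℤ} (hg : IsUnit4 (g' - g))
    (hv : v = eu (lbf g g') ∨ v = ev (lbf g g')) :
    ∃ z, fi z = g ∧ vx z = v ∧ (lbf g g' = plab z ∨ lbf g g' = lab z) := by
  obtain ⟨c, h1, h2⟩ := corner_of_face hg
  have h2' : lab c = lbf g g' := h2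
  by_cases h3 : vx c = v
  · exact ⟨c, h1, h3, Or.inr h2'.symm⟩
  · refine ⟨nxO c, ?_, ?_, Or.inl ?_⟩
    · rw [fi_nxO, h1]
    · have h4 := vx_nxO c
      have h5 := end_lab' c
      rw [h2'] at h5
      have h6 := h4.2
      rw [h2'] at h6
      have h7 := odd_lbf hg
      have h8 := Pool.Agent.H42.Q1.eu_ev_step h7
      rcases h5 with h5 | h5 <;> rcases hv with hv | hv
      · exact absurd (h5.trans hv.symm) h3
      · rw [hv]
        rw [h5] at h6
        exact add_left_cancel (h6.trans h8.2.symm)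
      · rw [hv]
        rw [h5] at h6
        rw [add_comm] at h6
        exact add_right_cancel (h6.trans h8.2.symm)
      · exact absurd (h5.trans hv.symm) h3
    · have h4 : pv {lab c} (nx {lab c} c) = c := pv_nx _ _
      have h5 : nx {lab c} c = nxO c := by
        have := nx_pv {lab c} (nxO c)
        unfold nx
        rw [if_pos (mem_singleton_self _)]
      rw [h5] at h4
      have h6 := lab_pv {lab c} (nxO c)
      rw [h4] at h6
      rw [← h2', h6]

variable {X : DEnv} {K : Finset (ℤ × ℤ)} {j0 : ℕ} {t : ℤ × ℤ}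

/-- the free labels outside `star K` -/
noncomputable def EX0 (X : DEnv) (K : Finset (ℤ × ℤ)) : Finset (ℤ × ℤ) := X.E \ star K

/-- face of the root on the closed side -/
noncomputable def rf2 (X : DEnv) (K : Finset (ℤ × ℤ)) (j0 : ℕ) : ℤ × ℤ := fi (rc X K j0)

/-- face of the root on the side of the ring -/
noncomputable def rf1 (X : DEnv) (K : Finset (ℤ × ℤ)) (j0 : ℕ) : ℤ × ℤ := fi (rc X K (j0 + 1))

lemma root_fac (hK : Sol X K) (hR : Root X K j0 t) :
    Fac (rl X K j0) (rf1 X K j0) (rf2 X K j0) := by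
  obtain ⟨c1, c2, c3, c4⟩ := root_corner hK hR
  obtain ⟨o1, o2, -, -, -, -⟩ := opc_zu (odd_rl (X := X) (K := K) j0)
  unfold Fac rf1 rf2
  rcases eq_zu_or_zv (odd_rl (X := X) (K := K) j0) c1 with h | h
  · left
    refine ⟨congrArg fi h, ?_⟩
    rw [← c4, ← o1]
    exact congrArg (fun z => fi (opc z)) h
  · right
    refine ⟨?_, congrArg fi h⟩
    rw [← c4, ← o2]
    exact congrArg (fun z => fi (opc z)) h

lemma root_ends (hK : Sol X K) (hR : Root X K j0 t) :
    Ends (rl X K j0) (vx (rc X K j0)) t := by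
  have h1 : vx (rc X K j0) = eu (rl X K j0) ∨ vx (rc X K j0) = ev (rl X K j0) := end_plab' _
  have h2 := hR.ends
  have ht := hR.notMem hK
  have hv := hK.vx_rc j0
  unfold Ends
  rcases h1 with h1 | h1 <;> rcases h2 with h2 | h2
  · exact absurd (by rw [h2, ← h1]; exact hv) ht
  · exact Or.inl ⟨h1, h2⟩
  · exact Or.inr ⟨h2, h1⟩
  · exact absurd (by rw [h2, ← h1]; exact hv) ht

/-- **Closed labels next to a visible face.** -/
theorem root_hS (hK : Sol X K) (hR : Root X K j0 t) (hL : InvL X) {y : ℕ} {M : ℤ}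
    (hM : star K ⊆ H75.TwoArm.BB M) {E1 G1 : Finset (ℤ × ℤ)}
    (hE1 : ∀ e ∈ E1, e ∉ star K) (hG1 : ∀ e ∈ G1, e ∈ star K → e ∈ Gy X K y)
    (hcov : EX0 X K ∪ Gy X K y ⊆ E1 ∪ G1) {g g' : ℤ × ℤ} (hg : IsUnit4 (g' - g))
    (hMn : Mn X K g) (h1 : lbf g g' ∉ E1) (h2 : lbf g g' ∉ G1) (h0 : lbf g g' ≠ rl X K j0) :
    ClJ X (fi X.α) g ∨ Dc M (rl X K j0) (E1 ∪ G1) (rf1 X K j0) g := by
  have hodd := odd_lbf hg
  have hn : lbf g g' ∉ EX0 X K ∪ Gy X K y := fun h => by
    rcases mem_union.1 (hcov h) with h3 | h3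
    · exact h1 h3
    · exact h2 h3
  rw [mem_union, not_or, mem_Gy, not_or, not_or] at hn
  obtain ⟨hn1, hn2, hn3, hn4⟩ := hn
  by_cases hEW : lbf g g' ∈ X.E ∪ X.W
  · by_cases hst : lbf g g' ∈ star K
    · -- a label of `perp K`
      have hp : lbf g g' ∈ perp K := by
        unfold perp
        rw [mem_sdiff]
        exact ⟨hst, fun h => hn3 (mem_inter.2 ⟨h, hEW⟩)⟩
      obtain ⟨v, hv, hvK⟩ : ∃ v, (v = eu (lbf g g') ∨ v = ev (lbf g g')) ∧ v ∈ K := by
        rcases (mem_perp_iff hodd).1 hp with h | h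
        · exact ⟨_, Or.inl rfl, h.1⟩
        · exact ⟨_, Or.inr rfl, h.2⟩
      obtain ⟨z, z1, z2, z3⟩ := face_corner hg hv
      by_cases hcl : ClJ X (fi X.α) g
      · exact Or.inl hcl
      right
      obtain ⟨i, p, i1, i2, i3, p1, p2, p3, p4⟩ := pos_of_face hK hR (z := z) (by rw [z2]; exact hvK)
        (by rw [z1]; exact hMn) (by rw [z1]; exact hcl) z3 h0
      have hpE : lbf g g' ∈ X.E := by
        refine (mem_union.1 hEW).resolve_right ?_
        rw [← p3]
        exact ring_notW hK hR p1 p2 (by rw [p3]; exact hn3)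
      have hpy : p < y := by
        by_contra hcon
        exact hn4 (mem_T2.2 ⟨hp, hpE, p, by omega, p2, p3⟩)
      rw [← z1, ← i3]
      have h := Pool.Agent.H39.Q1.side_dual (kp X K) X.β (show j0 + 1 ≤ i by omega)
      unfold Dc rf1 rc
      refine h.mono ?_
      intro l hl
      rw [mem_du'] at hl ⊢
      obtain ⟨r, ⟨r1, r2⟩, hr⟩ := mem_met.1 hl.1
      have hr' : l - (1, 1) = rl X K r := hr.symm
      rw [hr'] at hl ⊢
      have hrst : rl X K r ∈ star K := hK.rl_star r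
      refine ⟨hM hrst, ?_⟩
      rw [mem_insert, mem_union]
      rintro (h3 | h3 | h3)
      · have := hK.rl_inj hR.lt (by omega) h3.symm hR.perp
        omega
      · exact hE1 _ h3 hrst
      · have h4 := hG1 _ h3 hrst
        rw [mem_Gy] at h4
        rcases h4 with h4 | h4 | h4
        · exact Wt_star h4 hrst
        · exact hl.2 h4
        · obtain ⟨h5, -, q, q1, q2, q3⟩ := mem_T2.1 h4
          have := hK.rl_inj q2 (by omega) q3 (by rw [q3]; exact h5)
          omega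
    · left
      have hW : lbf g g' ∈ X.W := by
        refine (mem_union.1 hEW).resolve_left fun h => hn1 ?_
        unfold EX0
        exact mem_sdiff.2 ⟨h, hst⟩
      obtain ⟨z, z1, z2, z3⟩ := face_corner hg (v := eu (lbf g g')) (Or.inl rfl)
      have hvK : vx z ∉ K := by
        rw [z2]
        intro h
        exact hst (end_star hodd h (Or.inl rfl))
      have hβ : Co X.W (vx X.β) (eu (lbf g g')) := by
        obtain ⟨k, -, h5⟩ : ∃ c : ℤ × ℤ, True ∧ plab c = lbf g g' := by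
          obtain ⟨m, -, -, -, -, h4⟩ := hK.inv.back
          obtain ⟨k, -, h5⟩ := h4 _ hW
          exact ⟨_, trivial, h5⟩
        have h6 := hK.inv.co_of_mem (c := k) (by rw [h5]; exact hW)
        have h7 := end_plab' k
        rw [h5] at h7
        rcases h7 with h7 | h7
        · rw [← h7]; exact h6
        · rw [h7] at h6
          exact h6.trans (co_ends hodd hW).symm
      rcases main_face hK hR hvK (by rw [z2]; exact hβ) (by rw [z1]; exact hMn) with h | h
      · rw [z1] at h; exact h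
      · exfalso
        rw [z2] at h
        exact hn2 (mem_Wt hodd (mem_sdiff.2 ⟨hW, hst⟩) (Or.inl rfl) (h.mono Wt_sub))
  · left
    rw [mem_union, not_or] at hEW
    exact hL g g' hg hEW.1 hEW.2

lemma odd_kp {e : ℤ × ℤ} (h : e ∈ kp X K) : (e.1 + e.2) % 2 = 1 := odd_star (kp_star h)

lemma odd_T2 {y : ℕ} {e : ℤ × ℤ} (h : e ∈ T2 X K y) : (e.1 + e.2) % 2 = 1 := odd_star (T2_star h)

lemma odd_W (hI : Inv X) {e : ℤ × ℤ} (h : e ∈ X.W) : (e.1 + e.2) % 2 = 1 := by
  obtain ⟨m, -, -, -, -, h4⟩ := hI.back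
  obtain ⟨k, -, h5⟩ := h4 _ h
  rw [← h5]
  exact odd_plab _

/-- **Opening labels in the root environment.** `Z` = zone (its labels are open). -/
theorem root_open {δ : ℝ} (hδ : Dcy δ) (hK : Sol X K) (hR : Root X K j0 t) (hL : InvL X)
    (hodd : ∀ e ∈ X.E, (e.1 + e.2) % 2 = 1) {y k : ℕ} {Z O : Finset (ℤ × ℤ)}
    (hO : O ⊆ EX0 X K \ Z) (hOM : ∀ z z', IsUnit4 (z' - z) → lbf z z' ∈ O → Mn X K z)
    (hTie : ∀ v, (∃ o ∈ O, v = eu o ∨ v = ev o) → ∃ (T : Finset (ℤ × ℤ)) (c : ℤ × ℤ) (r D : ℤ),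
      1 ≤ r ∧ 4 ^ k * r ≤ D ∧ T ⊆ O ∧
      (∀ m ∈ T, |m.1 - 2 * c.1| ≤ 2 * r - 2 ∧ |m.2 - 2 * c.2| ≤ 2 * r - 2) ∧
      Co (T ∪ Wt X K) v (vx X.α) ∧
      ∀ z z' g, IsUnit4 (z' - z) → lbf z z' ∈ T →
        CoX (du (EX0 X K \ Z) ∅) (fun u => ¬ Pool.Agent.H77.Q1.Far D c u) z g →
        ¬ ClJ X (fi X.α) g) :
    Pr (EX0 X K \ Z) (fun ω => Co (ω ∪ O ∪ (Gy X K y ∪ (EX0 X K ∩ Z))) (vx (rc X K j0)) t ∧
      ¬ Co (ω ∪ (Gy X K y ∪ (EX0 X K ∩ Z))) (vx (rc X K j0)) t) ≤ (1 - δ) ^ k := by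
  classical
  set E1 := EX0 X K \ Z with hE1
  set G1 := Gy X K y ∪ (EX0 X K ∩ Z) with hG1
  have hE1E : E1 ⊆ X.E := sdiff_subset.trans sdiff_subset
  have hE1st : ∀ e ∈ E1, e ∉ star K := fun e he => (mem_sdiff.1 (mem_sdiff.1 he).1).2
  have hoG : ∀ e ∈ G1, (e.1 + e.2) % 2 = 1 := by
    intro e he
    rw [hG1, mem_union, mem_Gy, mem_inter] at he
    rcases he with (he | he | he) | he
    · exact odd_W hK.inv (Wt_W he)
    · exact odd_kp he
    · exact odd_T2 he
    · exact hodd e (mem_sdiff.1 he.1).1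
  obtain ⟨M, hM⟩ := exists_BB (insert (rl X K j0) (E1 ∪ G1 ∪ star K)) (by
    intro e he
    rw [mem_insert, mem_union, mem_union] at he
    rcases he with rfl | (he | he) | he
    · exact odd_rl j0
    · exact hodd e (hE1E he)
    · exact hoG e he
    · exact odd_star he)
  have hM' : ∀ A, A ⊆ insert (rl X K j0) (E1 ∪ G1 ∪ star K) →
      A ⊆ H75.TwoArm.BB (M + 1 - 1) := fun A hA => by
    rw [add_sub_cancel_right]; exact hA.trans hM
  refine comp_open0 (M := M + 1) (W := Wt X K) (f1 := rf1 X K j0) (f2 := rf2 X K j0) hδ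
    (S := fun g => ClJ X (fi X.α) g ∨ ¬ Mn X K g) (odd_rl j0)
    (hM' _ (subset_refl _) (mem_insert_self _ _))
    (hM' _ (subset_union_left.trans (subset_union_left.trans (subset_insert _ _))))
    (hM' _ (subset_union_right.trans (subset_union_left.trans (subset_insert _ _)))) ?_ ?_ hO ?_
    (root_fac hK hR) (root_ends hK hR) ?_ (Or.inl (root_clJ hK hR)) ?_ ?_
  · intro h
    exact hE1st _ h (perp_star hR.perp)
  · rw [hG1, mem_union]
    rintro (h | h)
    · exact root_notGy hK hR h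
    · exact (mem_sdiff.1 (mem_inter.1 h).1).2 (perp_star hR.perp)
  · intro e he
    rw [hG1, mem_union, mem_Gy]
    exact Or.inl (Or.inl he)
  · intro w hw
    have h1 : Co (X.W \ star K) (vx X.α) (eu w) := by
      unfold Wt at hw
      exact (mem_filter.1 hw).2
    exact (co_Wt h1).symm.trans (co_Wt hR.conn)
  · intro g g' h1 h2 h3 h4 h5 h6
    by_cases hMn : Mn X K g
    · left
      refine (root_hS hK hR hL (M := M + 1) (y := y) ?_ hE1st ?_ ?_ h3 hMn h4 h5 h6).resolve_right h2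
      · exact (subset_union_right.trans (subset_insert _ _)).trans
          (hM.trans (BB_mono (by omega)))
      · intro e he hst
        rw [hG1, mem_union] at he
        rcases he with he | he
        · exact he
        · exact absurd hst (mem_sdiff.1 (mem_inter.1 he).1).2
      · intro e he
        rw [mem_union] at he
        rw [mem_union, hE1, hG1, mem_sdiff, mem_union, mem_inter]
        tauto
    · exact Or.inr hMn
  · intro v hv
    obtain ⟨T, c, r, D, h1, h2, h3, h4, h5, h6⟩ := hTie v hv.1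
    refine ⟨T, c, r, D, h1, h2, h3, h4, h5.trans (co_Wt hR.conn |>.mono subset_union_right), ?_⟩
    intro z z' g hz hzT hp hS
    rcases hS with hS | hS
    · exact h6 z z' g hz hzT hp hS
    · apply hS
      refine (hOM z z' hz (h3 hzT)).co (F := E1) (L := kp X K ∪ X.W) (subset_refl _) ?_
      refine Co.mono ?_ hp.co
      intro l hl
      rw [mem_du'] at hl ⊢
      refine ⟨hl.1, ?_⟩
      rw [mem_union]
      rintro (h | h)
      · exact hE1st _ hl.1 (kp_star h)
      · exact disjoint_left.1 X.disj (hE1E hl.1) h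

/-- **Closing labels in the root environment.** The labels of the zone `Z` are closed. -/
theorem root_dual {δ : ℝ} (hδ : Dcy δ) (hK : Sol X K) (hR : Root X K j0 t)
    (hodd : ∀ e ∈ X.E, (e.1 + e.2) % 2 = 1) {y k : ℕ} {Z O : Finset (ℤ × ℤ)}
    (hO : O ⊆ EX0 X K \ Z)
    (hTie : ∀ g g', IsUnit4 (g' - g) → lbf g g' ∈ O → ∃ (T : Finset (ℤ × ℤ)) (c : ℤ × ℤ) (r D : ℤ)
      (f : ℤ × ℤ), 1 ≤ r ∧ 4 ^ k * r ≤ D ∧ T ⊆ O ∧
      (∀ m ∈ T, |m.1 - 2 * c.1| ≤ 2 * r - 3 ∧ |m.2 - 2 * c.2| ≤ 2 * r - 3) ∧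
      Co (du T ∅) g f ∧ ClJ X (fi X.α) f ∧
      ∀ v v' h, IsUnit4 (v' - v) → v + v' ∈ T →
        CoX (EX0 X K \ Z) (fun u => ¬ Pool.Agent.H77.Q1.Far (D + 1) c u) v h →
        ¬ Co (Wt X K) (vx X.α) h) :
    Pr (EX0 X K \ Z) (fun ω => Co (ω ∪ Gy X K y) (vx (rc X K j0)) t ∧
      ¬ Co ((ω \ O) ∪ Gy X K y) (vx (rc X K j0)) t) ≤ (1 - δ) ^ k := by
  classical
  set E1 := EX0 X K \ Z with hE1
  set G1 := Gy X K y with hG1
  have hE1E : E1 ⊆ X.E := sdiff_subset.trans sdiff_subset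
  have hE1st : ∀ e ∈ E1, e ∉ star K := fun e he => (mem_sdiff.1 (mem_sdiff.1 he).1).2
  have hoG : ∀ e ∈ G1, (e.1 + e.2) % 2 = 1 := by
    intro e he
    rw [hG1, mem_Gy] at he
    rcases he with he | he | he
    · exact odd_W hK.inv (Wt_W he)
    · exact odd_kp he
    · exact odd_T2 he
  -- closed labels joining the ends of the ties
  have hTie' : ∀ g, (∃ g', IsUnit4 (g' - g) ∧ lbf g g' ∈ O) → ∃ (T : Finset (ℤ × ℤ)) (c : ℤ × ℤ)
      (r D : ℤ) (f : ℤ × ℤ) (F : Finset (ℤ × ℤ)), 1 ≤ r ∧ 4 ^ k * r ≤ D ∧ T ⊆ O ∧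
      (∀ m ∈ T, |m.1 - 2 * c.1| ≤ 2 * r - 3 ∧ |m.2 - 2 * c.2| ≤ 2 * r - 3) ∧
      Co (du T ∅) g f ∧ Co (du F (X.E ∪ X.W)) (rf2 X K j0) f ∧
      ∀ v v' h, IsUnit4 (v' - v) → v + v' ∈ T →
        CoX E1 (fun u => ¬ Pool.Agent.H77.Q1.Far (D + 1) c u) v h →
        ¬ Co (Wt X K) (vx X.α) h := by
    rintro g ⟨g', h1, h2⟩
    obtain ⟨T, c, r, D, f, a1, a2, a3, a4, a5, a6, a7⟩ := hTie g g' h1 h2
    obtain ⟨F, hF⟩ := (root_clJ hK hR).symm.trans a6
    exact ⟨T, c, r, D, f, F, a1, a2, a3, a4, a5, hF, a7⟩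
  choose! T c r D f F hT1 hT2 hT3 hT4 hT5 hT6 hT7 using hTie'
  set faces : Finset (ℤ × ℤ) := O.biUnion fun e => {eu (sh1 e), ev (sh1 e)} with hfaces
  have hmf : ∀ g g', IsUnit4 (g' - g) → lbf g g' ∈ O → g ∈ faces := by
    intro g g' h1 h2
    rw [hfaces, mem_biUnion]
    refine ⟨_, h2, ?_⟩
    have h3 := unit_cases h1
    obtain ⟨a, b⟩ := g
    obtain ⟨a', b'⟩ := g'
    unfold lbf eu ev sh1
    simp only [Function.Embedding.coeFn_mk, mem_insert, mem_singleton, Prod.mk_add_mk,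
      Prod.mk_sub_mk, Prod.mk.injEq]
    simp only at h3
    omega
  set U0 : Finset (ℤ × ℤ) := ((faces.biUnion F) \ (X.E ∪ X.W)).filter
    (fun e => (e.1 + e.2) % 2 = 1) with hU0
  obtain ⟨M, hM⟩ := exists_BB (insert (rl X K j0) (E1 ∪ G1 ∪ U0)) (by
    intro e he
    rw [mem_insert, mem_union, mem_union] at he
    rcases he with rfl | (he | he) | he
    · exact odd_rl j0
    · exact hodd e (hE1E he)
    · exact hoG e he
    · exact (mem_filter.1 he).2)
  have hM' : ∀ A, A ⊆ insert (rl X K j0) (E1 ∪ G1 ∪ U0) →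
      A ⊆ H75.TwoArm.BB (M + 1 - 1) := fun A hA => by
    rw [add_sub_cancel_right]; exact hA.trans hM
  set C := rch U0 (rf2 X K j0) with hC
  have hCU : C ⊆ U0 := rch_sub
  have hU0n : ∀ e ∈ U0, e ∉ X.E ∪ X.W := fun e he => (mem_sdiff.1 (mem_filter.1 he).1).2
  have hEG : Disjoint E1 G1 := by
    rw [disjoint_left]
    intro e h1 h2
    rw [hG1, mem_Gy] at h2
    rcases h2 with h2 | h2 | h2
    · exact disjoint_left.1 X.disj (hE1E h1) (Wt_W h2)
    · exact hE1st _ h1 (kp_star h2)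
    · exact hE1st _ h1 (T2_star h2)
  have hG1EW : G1 ⊆ X.E ∪ X.W := by
    intro e he
    rw [hG1, mem_Gy] at he
    rcases he with he | he | he
    · exact mem_union_right _ (Wt_W he)
    · exact kp_EW he
    · exact mem_union_left _ (mem_T2.1 he).2.1
  refine comp_dual (M := M + 1) (C := C) (f1 := rf1 X K j0) (f2 := rf2 X K j0) hδ
    (S := fun v => Co (Wt X K) (vx X.α) v) (odd_rl j0)
    (hM' _ (subset_refl _) (mem_insert_self _ _))
    (hM' _ (subset_union_left.trans (subset_union_left.trans (subset_insert _ _))))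
    (hM' _ (subset_union_right.trans (subset_union_left.trans (subset_insert _ _)))) hEG ?_
    (root_notGy hK hR) hO ?_ (fun g g' h1 h2 => rch_face h1 h2)
    (root_fac hK hR) (root_ends hK hR) (co_Wt hR.conn) ?_ ?_
  · intro h
    exact hE1st _ h (perp_star hR.perp)
  · intro e he
    have h1 := hU0n e (hCU he)
    refine ⟨BB_mono (by omega) (hM (mem_insert_of_mem (mem_union_right _ (hCU he)))), ?_, ?_, ?_⟩
    · exact fun h => h1 (mem_union_left _ (hE1E h))
    · exact fun h => h1 (hG1EW h)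
    · rintro rfl
      exact h1 (mem_union_right _ hR.wir)
  · intro v v' h1 h2 h3 h4
    have hends := ends_add h3
    rw [hG1, mem_Gy] at h4
    rcases h4 with h4 | h4 | h4
    · have h5 : Co (X.W \ star K) (vx X.α) (eu (v + v')) := by
        have h6 := h4
        unfold Wt at h6
        exact (mem_filter.1 h6).2
      have h6 := co_Wt h5
      rcases hends.2 with ⟨h7, h8⟩ | ⟨h7, h8⟩
      · rw [h7] at h6; exact h6
      · have h9 := co_ends hends.1 h4
        rw [h7, h8] at h9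
        rw [h7] at h6
        exact h6.trans h9
    · exfalso
      apply h2
      have h5 := (mem_kap_iff hends.1).1 (kp_kap h4)
      have hvK : v ∈ K := by
        rcases hends.2 with ⟨h7, h8⟩ | ⟨h7, h8⟩
        · rw [← h7]; exact h5.1
        · rw [← h8]; exact h5.2
      exact (hK.conn _ (hK.vx_rc j0) _ hvK).mono fun e he => by
        rw [hG1, mem_Gy]; exact Or.inr (Or.inl he)
    · exfalso
      apply h2
      have h4' : v + v' ∈ G1 := by rw [hG1, mem_Gy]; exact Or.inr (Or.inr h4)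
      have hstep : Co G1 v v' := Relation.ReflTransGen.single ⟨h3, h4'⟩
      have hin : ∀ w ∈ K, Co G1 (vx (rc X K j0)) w := fun w hw =>
        (hK.conn _ (hK.vx_rc j0) _ hw).mono fun e he => by
          rw [hG1, mem_Gy]; exact Or.inr (Or.inl he)
      rcases (mem_perp_iff hends.1).1 (mem_T2.1 h4).1 with ⟨h5, -⟩ | ⟨-, h5⟩ <;>
        rcases hends.2 with ⟨h7, h8⟩ | ⟨h7, h8⟩
      · rw [h7] at h5; exact hin _ h5
      · rw [h7] at h5; exact (hin _ h5).trans hstep.symm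
      · rw [h8] at h5; exact (hin _ h5).trans hstep.symm
      · rw [h8] at h5; exact hin _ h5
  · intro g g' h1 h2
    have hg : ∃ g', IsUnit4 (g' - g) ∧ lbf g g' ∈ O := ⟨g', h1, h2⟩
    refine ⟨T g, c g, r g, D g, hT1 g hg, hT2 g hg, hT3 g hg, hT4 g hg, ?_, ?_⟩
    · have h3 : Co (du U0 ∅) (rf2 X K j0) (f g) := by
        refine Relation.ReflTransGen.mono ?_ _ _ (hT6 g hg)
        intro a b hab
        obtain ⟨hab1, hab2⟩ := hab
        rw [mem_du'] at hab2
        refine ad_du0.2 ⟨hab1, ?_⟩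
        rw [hU0, mem_filter, mem_sdiff, mem_biUnion]
        exact ⟨⟨⟨g, hmf g g' h1 h2, hab2.1⟩, hab2.2⟩, odd_lbf hab1⟩
      have h4 := rch_co h3
      rw [← hC] at h4
      refine ((hT5 g hg).mono (du_mono_left subset_union_left)).trans
        (h4.symm.mono (du_mono_left subset_union_right))
    · intro v v' h a1 a2 a3
      exact hT7 g hg v v' h a1 a2 a3

end Pool.Agent.H21.Q1
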