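import Mathlib
import Pool.Agent.H21.Q1.Quad

set_option autoImplicit false
open Finset

/-! Module M3 of Q1: the root event does not depend on the labels of the zones.

`ev_open`, `ev_dual` : the comparison lemmas as statements about `Pr X.E`. `tip_ins` : zone at the tip
(one open arm). `zoneb_ins` : zone at the end point (the exploration does not meet it before
`star K`). `ev_zones` : both. -/

namespace Pool.Agent.H21.Q1

open Pool.Agent.H75.Perc Pool.Agent.H75.TwoArm Pool.Agent.H75.Four Pool.Agent.H99.NC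
open Pool.Agent.H69.Q1 Pool.Agent.H39.Q1 Pool.Agent.H28.Q1 Pool.Agent.Q1.M3
open Pool.Agent.H42.Q1 (ends_add co_ends)
open Pool.Agent.H77.Q1 (lbf mem_du' Far)
open Pool.Agent.H75.TwoArm.StrandAux hiding vx_nxC

variable {X : DEnv} {K : Finset (ℤ × ℤ)} {j0 : ℕ} {t : ℤ × ℤ}

/-! ### Transfer -/

/-- `ev_open` : opening labels outside the zone `Z`. -/
theorem ev_open {δ : ℝ} (hδ : Dcy δ) (hK : Sol X K) (hR : Root X K j0 t) (hL : InvL X)
    (hodd : ∀ e ∈ X.E, (e.1 + e.2) % 2 = 1) {y k : ℕ} {Z O : Finset (ℤ × ℤ)}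
    (hO : O ⊆ EX0 X K \ Z) (hOM : ∀ z z', IsUnit4 (z' - z) → lbf z z' ∈ O → Mn X K z)
    (hTie : ∀ v, (∃ o ∈ O, v = eu o ∨ v = ev o) → ∃ (T : Finset (ℤ × ℤ)) (c : ℤ × ℤ) (r D : ℤ),
      1 ≤ r ∧ 4 ^ k * r ≤ D ∧ T ⊆ O ∧
      (∀ m ∈ T, |m.1 - 2 * c.1| ≤ 2 * r - 2 ∧ |m.2 - 2 * c.2| ≤ 2 * r - 2) ∧
      Co (T ∪ Wt X K) v (vx X.α) ∧
      ∀ z z' g, IsUnit4 (z' - z) → lbf z z' ∈ T →
        CoX (du (EX0 X K \ Z) ∅) (fun u => ¬ Far D c u) z g → ¬ ClJ X (fi X.α) g) :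
    Pr X.E (fun ω => Ev X K j0 t y (ω ∪ (EX0 X K ∩ Z) ∪ O) ∧
      ¬ Ev X K j0 t y (ω ∪ (EX0 X K ∩ Z))) ≤ (1 - δ) ^ k := by
  classical
  refine le_trans ?_ (root_open (y := y) hδ hK hR hL hodd hO hOM hTie)
  have hsub : EX0 X K \ Z ⊆ X.E := sdiff_subset.trans sdiff_subset
  rw [← Pr_restrict hsub]
  refine Pr_mono ?_
  rintro ω hω ⟨h1, h2⟩
  refine ⟨Co.mono ?_ h1, fun h3 => h2 (Co.mono ?_ h3)⟩
  · intro e he
    simp only [EX0, mem_union, mem_sdiff, mem_inter] at he ⊢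
    rcases he with ⟨(h | h) | h, h'⟩ | h
    · have := hω h
      tauto
    · tauto
    · tauto
    · tauto
  · intro e he
    simp only [EX0, mem_union, mem_sdiff, mem_inter] at he ⊢
    tauto

/-- `ev_dual` : closing labels outside the zone `Z`. -/
theorem ev_dual {δ : ℝ} (hδ : Dcy δ) (hK : Sol X K) (hR : Root X K j0 t)
    (hodd : ∀ e ∈ X.E, (e.1 + e.2) % 2 = 1) {y k : ℕ} {Z O : Finset (ℤ × ℤ)}
    (hO : O ⊆ EX0 X K \ Z)
    (hTie : ∀ g g', IsUnit4 (g' - g) → lbf g g' ∈ O → ∃ (T : Finset (ℤ × ℤ)) (c : ℤ × ℤ) (r D : ℤ)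
      (f : ℤ × ℤ), 1 ≤ r ∧ 4 ^ k * r ≤ D ∧ T ⊆ O ∧
      (∀ m ∈ T, |m.1 - 2 * c.1| ≤ 2 * r - 3 ∧ |m.2 - 2 * c.2| ≤ 2 * r - 3) ∧
      Co (du T ∅) g f ∧ ClJ X (fi X.α) f ∧
      ∀ v v' h, IsUnit4 (v' - v) → v + v' ∈ T →
        CoX (EX0 X K \ Z) (fun u => ¬ Far (D + 1) c u) v h → ¬ Co (Wt X K) (vx X.α) h) :
    Pr X.E (fun ω => Ev X K j0 t y (ω \ Z) ∧ ¬ Ev X K j0 t y ((ω \ Z) \ O)) ≤ (1 - δ) ^ k := by
  classical
  refine le_trans ?_ (root_dual (y := y) hδ hK hR hodd hO hTie)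
  have hsub : EX0 X K \ Z ⊆ X.E := sdiff_subset.trans sdiff_subset
  rw [← Pr_restrict hsub]
  refine Pr_mono ?_
  rintro ω hω ⟨h1, h2⟩
  refine ⟨Co.mono ?_ h1, fun h3 => h2 (Co.mono ?_ h3)⟩
  · intro e he
    simp only [EX0, mem_union, mem_sdiff, mem_inter] at he ⊢
    rcases he with ⟨⟨h, h'⟩, h''⟩ | h
    · have := hω h
      tauto
    · tauto
  · intro e he
    simp only [EX0, mem_union, mem_sdiff, mem_inter] at he ⊢
    tauto

/-! ### The zone at the tip -/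

lemma co_exit {L L' : Finset (ℤ × ℤ)} {x v : ℤ × ℤ} (h : Co L' x v) (hn : ¬ Co L x v) :
    ∃ u u', Co L x u ∧ Ad L' u u' ∧ ¬ Co L x u' := by
  induction h with
  | refl => exact absurd (Co.refl _ _) hn
  | @tail b c hb hbc ih =>
    by_cases h1 : Co L x b
    · exact ⟨b, c, h1, hbc, hn⟩
    · exact ih h1

lemma ends_of_add {u u' : ℤ × ℤ} (h : IsUnit4 (u' - u)) :
    (u = eu (u + u') ∧ u' = ev (u + u')) ∨ (u = ev (u + u') ∧ u' = eu (u + u')) := by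
  rcases (ends_add h).2 with ⟨h1, h2⟩ | ⟨h1, h2⟩
  · exact Or.inl ⟨h1.symm, h2.symm⟩
  · exact Or.inr ⟨h2.symm, h1.symm⟩

/-- an open arm into the zone -/
lemma tip_arm (hR : Root X K j0 t) (hK : Sol X K) {y : ℕ} {D : ℤ} {c : ℤ × ℤ}
    {ω η Z F : Finset (ℤ × ℤ)} (hη : η ⊆ ω ∪ F) (hKf : ∀ v ∈ K, Far (D + 1) c v)
    (hF : ∀ e ∈ F, Far D c (eu e) ∧ Far D c (ev e))
    (h1 : Ev X K j0 t y (η ∪ Z)) (h2 : ¬ Ev X K j0 t y (η \ Z)) :
    ∃ u v, (∃ e ∈ Z, u = eu e ∨ u = ev e) ∧ Far D c v ∧ Co ω u v := by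
  classical
  unfold Ev at h1 h2
  set L := ((η \ Z) \ star K) ∪ Gy X K y with hL
  obtain ⟨u, u', h3, h4, h5⟩ := co_exit h1 h2
  have key : ∀ w, Co L (vx (rc X K j0)) w → ∃ v, Far D c v ∧ Co ω v w := by
    intro w hw
    have far1 : ∀ a b : ℤ × ℤ, IsUnit4 (b - a) → Far (D + 1) c a → Far D c b := by
      intro a b hab ha
      have h6 := unit_cases hab
      unfold Far at ha ⊢
      have e1 : |a.1 - c.1| ≤ |b.1 - c.1| + |b.1 - a.1| := by
        have := abs_sub_le a.1 b.1 c.1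
        rw [abs_sub_comm a.1 b.1] at this
        linarith
      have e2 : |a.2 - c.2| ≤ |b.2 - c.2| + |b.2 - a.2| := by
        have := abs_sub_le a.2 b.2 c.2
        rw [abs_sub_comm a.2 b.2] at this
        linarith
      have e3 : |b.1 - a.1| ≤ 1 := by rw [abs_le]; omega
      have e4 : |b.2 - a.2| ≤ 1 := by rw [abs_le]; omega
      rcases ha with ha | ha
      · left; linarith
      · right; linarith
    have farK : ∀ v ∈ K, Far D c v := fun v hv => by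
      have := hKf v hv
      unfold Far at this ⊢
      omega
    induction hw with
    | refl => exact ⟨_, farK _ (hK.vx_rc j0), Co.refl _ _⟩
    | @tail b b' hb hbb ih =>
      obtain ⟨v, hv1, hv2⟩ := ih
      obtain ⟨hb1, hb2⟩ := hbb
      have hends := ends_of_add hb1
      rw [hL, mem_union, mem_Gy] at hb2
      rcases hb2 with hb2 | hb2 | hb2 | hb2
      · have h6 := hη (mem_sdiff.1 (mem_sdiff.1 hb2).1).1
        rcases mem_union.1 h6 with h7 | h7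
        · exact ⟨v, hv1, Relation.ReflTransGen.tail hv2 ⟨hb1, h7⟩⟩
        · refine ⟨b', ?_, Co.refl _ _⟩
          rcases hends with ⟨h8, h9⟩ | ⟨h8, h9⟩
          · rw [h9]; exact (hF _ h7).2
          · rw [h9]; exact (hF _ h7).1
      · exfalso
        apply h2
        have h6 : Co (X.W \ star K) (vx X.α) (eu (b + b')) := by
          have h7 := hb2
          unfold Wt at h7
          exact (mem_filter.1 h7).2
        have h7 := co_Wt h6
        have hodd : ((b + b').1 + (b + b').2) % 2 = 1 := (ends_add hb1).1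
        have h8 : Co (Wt X K) (vx X.α) b := by
          rcases hends with ⟨h8, h9⟩ | ⟨h8, h9⟩
          · rw [h8]; exact h7
          · have h10 := co_ends hodd hb2
            rw [h8]
            exact h7.trans h10
        have h9 : Co (Wt X K) b t := h8.symm.trans (co_Wt hR.conn)
        have h10 : Wt X K ⊆ L := fun e he => mem_union_right _ (mem_Gy.2 (Or.inl he))
        exact Co.trans hb (h9.mono h10)
      · refine ⟨b', farK _ ?_, Co.refl _ _⟩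
        have h6 := (mem_kap_iff (ends_add hb1).1).1 (kp_kap hb2)
        rcases hends with ⟨h8, h9⟩ | ⟨h8, h9⟩
        · rw [h9]; exact h6.2
        · rw [h9]; exact h6.1
      · refine ⟨b', ?_, Co.refl _ _⟩
        have h6 := (mem_perp_iff (ends_add hb1).1).1 (mem_T2.1 hb2).1
        have h7 : b ∈ K ∨ b' ∈ K := by
          rcases hends with ⟨h8, h9⟩ | ⟨h8, h9⟩ <;> rw [← h8, ← h9] at h6 <;> tauto
        rcases h7 with h7 | h7
        · exact far1 _ _ hb1 (hKf _ h7)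
        · exact farK _ h7
  obtain ⟨v, hv1, hv2⟩ := key u h3
  refine ⟨u, v, ?_, hv1, hv2.symm⟩
  obtain ⟨h6, h7⟩ := h4
  have h8 : u + u' ∉ L := fun h => h5 (Relation.ReflTransGen.tail h3 ⟨h6, h⟩)
  have h9 : u + u' ∈ Z := by
    rw [hL] at h8
    simp only [mem_union, mem_sdiff] at h7 h8
    tauto
  refine ⟨_, h9, ?_⟩
  rcases ends_of_add h6 with ⟨h8, -⟩ | ⟨h8, -⟩
  · exact Or.inl h8
  · exact Or.inr h8

/-- **Tip zone.** `η ω` = modification of `ω` far from the zone. -/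
theorem tip_ins {δ : ℝ} (hδ : Dcy δ) (hK : Sol X K) (hR : Root X K j0 t)
    (hodd : ∀ e ∈ X.E, (e.1 + e.2) % 2 = 1) {y k : ℕ} {r : ℤ} (hr : 1 ≤ r) {c : ℤ × ℤ}
    {Z F : Finset (ℤ × ℤ)} (hZ : ∀ e ∈ Z, ¬ Far (r + 1) c (eu e) ∧ ¬ Far (r + 1) c (ev e))
    (hKf : ∀ v ∈ K, Far (4 ^ k * r + 1) c v)
    (hF : ∀ e ∈ F, Far (4 ^ k * r) c (eu e) ∧ Far (4 ^ k * r) c (ev e))
    (η : Finset (ℤ × ℤ) → Finset (ℤ × ℤ)) (hη : ∀ ω, ω ⊆ X.E → η ω ⊆ ω ∪ F) :
    Pr X.E (fun ω => Ev X K j0 t y (η ω ∪ Z) ∧ ¬ Ev X K j0 t y (η ω \ Z)) ≤ (1 - δ) ^ k := by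
  refine le_trans (Pr_mono ?_) (hδ.2.2.1 X.E hodd c r hr k)
  rintro ω hω ⟨h1, h2⟩
  obtain ⟨u, v, ⟨e, he, hu⟩, hv, huv⟩ := tip_arm hR hK (hη ω hω) hKf hF h1 h2
  have h3 : ¬ Far (r + 1) c u := by
    rcases hu with rfl | rfl
    · exact (hZ _ he).1
    · exact (hZ _ he).2
  unfold Far at h3 hv
  rw [not_or, not_le, not_le] at h3
  exact ⟨u, v, by omega, by omega, hv, huv⟩

/-! ### The zone at the end point -/

/-- **End zone**, deterministic part. -/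
theorem zoneb_ins (hK : Sol X K) (hR : Root X K j0 t) {y : ℕ} (hy : j0 < y) {NB : ℤ × ℤ → Prop}
    {Z : Finset (ℤ × ℤ)} (hZ : ∀ e ∈ Z, NB (eu e) ∧ NB (ev e)) (hZE : Z ⊆ X.E)
    (hcl : ∀ e ∈ star K, e ∉ X.E → e ∉ X.W → NB (eu e) ∧ NB (ev e))
    {ω : Finset (ℤ × ℤ)} (hω : ω ⊆ X.E)
    (hbad : ¬ ∃ i, (∀ j < i, plab (X.cor ω j) ∉ star K) ∧ NB (vx (X.cor ω i)))
    (h : Ev X K j0 t y (ω ∪ Z)) : Ev X K j0 t y (ω \ Z) := by
  classical
  obtain ⟨τ, -, h1, h2⟩ := exists_exit hK hω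
  have hNB : ∀ i ≤ τ, ¬ NB (vx (X.cor ω i)) := fun i hi h3 =>
    hbad ⟨i, fun j hj => h1 j (by omega), h3⟩
  have hnZ : ∀ i ≤ τ, plab (X.cor ω i) ∉ Z := by
    intro i hi h3
    rcases end_plab' (X.cor ω i) with h4 | h4
    · exact hNB i hi (by rw [h4]; exact (hZ _ h3).1)
    · exact hNB i hi (by rw [h4]; exact (hZ _ h3).2)
  have hu : ω ∪ Z ⊆ X.E := union_subset hω hZE
  have hd : ω \ Z ⊆ X.E := sdiff_subset.trans hω
  have c1 := X.cor_congr hω hu (n := τ) (fun k hk _ => by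
    rw [mem_union]
    exact ⟨fun h => h.resolve_right (hnZ k hk.le), Or.inl⟩)
  have c2 := X.cor_congr hω hd (n := τ) (fun k hk _ => by
    rw [mem_sdiff]
    exact ⟨fun h => h.1, fun h => ⟨h, hnZ k hk.le⟩⟩)
  have f1 : ∀ j < τ, plab (X.cor (ω ∪ Z) j) ∉ star K := fun j hj => by
    rw [c1 j hj.le]; exact h1 j hj
  have f2 : ∀ j < τ, plab (X.cor (ω \ Z) j) ∉ star K := fun j hj => by
    rw [c2 j hj.le]; exact h1 j hj
  have g1 : plab (X.cor (ω ∪ Z) τ) ∈ star K := by rw [c1 τ le_rfl]; exact h2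
  have g2 : plab (X.cor (ω \ Z) τ) ∈ star K := by rw [c2 τ le_rfl]; exact h2
  by_cases hW : plab (X.cor ω τ) ∈ X.W
  · exact absurd h (exit_root hK hR hu f1 g1 (by rw [c1 τ le_rfl]; exact hW) hy)
  by_cases hE : plab (X.cor ω τ) ∈ X.E
  · obtain ⟨i, -, i2, i3, i4⟩ := exit_iff hK hR hu f1 g1 (by rw [c1 τ le_rfl]; exact hE)
    obtain ⟨i', -, i2', i3', i4'⟩ := exit_iff hK hR hd f2 g2 (by rw [c2 τ le_rfl]; exact hE)
    rw [c1 τ le_rfl] at i3
    rw [c2 τ le_rfl] at i3'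
    have h5 := (exit_ring' hK hω h1 h2).1
    have h6 := hK.rl_inj i2 i2' (i3.trans i3'.symm) (by rw [i3]; exact h5)
    rw [i4'] 
    rw [i4] at h
    omega
  · exfalso
    have h3 := hcl _ h2 hE hW
    rcases end_plab' (X.cor ω τ) with h4 | h4
    · exact hNB τ le_rfl (by rw [h4]; exact h3.1)
    · exact hNB τ le_rfl (by rw [h4]; exact h3.2)

/-! ### Both zones -/

/-- **Zones.** The probability of the root event changes little if the labels of the zones are opened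
or closed. -/
theorem ev_zones {δ : ℝ} (hδ : Dcy δ) (hK : Sol X K) (hR : Root X K j0 t)
    (hodd : ∀ e ∈ X.E, (e.1 + e.2) % 2 = 1) {y k : ℕ} (hy : j0 < y) {r : ℤ} (hr : 1 ≤ r)
    {c : ℤ × ℤ} {Zt Zb : Finset (ℤ × ℤ)} {NB : ℤ × ℤ → Prop}
    (hZt : ∀ e ∈ Zt, ¬ Far (r + 1) c (eu e) ∧ ¬ Far (r + 1) c (ev e))
    (hKf : ∀ v ∈ K, Far (4 ^ k * r + 1) c v)
    (hZb : ∀ e ∈ Zb, NB (eu e) ∧ NB (ev e)) (hZbE : Zb ⊆ X.E)
    (hNBf : ∀ v, NB v → Far (4 ^ k * r) c v)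
    (hcl : ∀ e ∈ star K, e ∉ X.E → e ∉ X.W → NB (eu e) ∧ NB (ev e)) {ε : ℝ}
    (hbad : Pr X.E (fun ω => ∃ i, (∀ j < i, plab (X.cor ω j) ∉ star K) ∧
      NB (vx (X.cor ω i))) ≤ ε) :
    Pr X.E (fun ω => Ev X K j0 t y (ω ∪ (Zt ∪ Zb))) ≤
      Pr X.E (fun ω => Ev X K j0 t y ω) + ((1 - δ) ^ k + ε) ∧
    Pr X.E (fun ω => Ev X K j0 t y ω) ≤
      Pr X.E (fun ω => Ev X K j0 t y (ω \ (Zt ∪ Zb))) + ((1 - δ) ^ k + ε) := by
  classical
  have hF : ∀ e ∈ Zb, Far (4 ^ k * r) c (eu e) ∧ Far (4 ^ k * r) c (ev e) := fun e he =>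
    ⟨hNBf _ (hZb e he).1, hNBf _ (hZb e he).2⟩
  have b1 := tip_ins (y := y) hδ hK hR hodd hr hZt hKf hF (fun ω => ω ∪ Zb) (fun ω _ => subset_refl _)
  have b2 := tip_ins (y := y) (F := ∅) hδ hK hR hodd hr hZt hKf (by simp) (fun ω => ω \ Zb)
    (fun ω _ => sdiff_subset.trans subset_union_left)
  have b3 := fun (ω : Finset (ℤ × ℤ)) (hω : ω ⊆ X.E) hb =>
    zoneb_ins hK hR hy hZb hZbE hcl hω hb (y := y)
  constructor
  · have c1 : Pr X.E (fun ω => Ev X K j0 t y (ω ∪ (Zt ∪ Zb))) ≤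
        Pr X.E (fun ω => Ev X K j0 t y (ω ∪ Zb)) + (1 - δ) ^ k := by
      refine le_trans ?_ (add_le_add_right b1 _)
      refine le_trans (Pr_mono ?_) (Pr_or_le _ _ _)
      intro ω hω h1
      by_cases h2 : Ev X K j0 t y (ω ∪ Zb)
      · exact Or.inl h2
      · refine Or.inr ⟨?_, fun h3 => h2 (h3.mono sdiff_subset)⟩
        refine h1.mono ?_
        intro e he
        simp only [mem_union] at he ⊢
        tauto
    have c2 : Pr X.E (fun ω => Ev X K j0 t y (ω ∪ Zb)) ≤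
        Pr X.E (fun ω => Ev X K j0 t y ω) + ε := by
      refine le_trans ?_ (add_le_add_right hbad _)
      refine le_trans (Pr_mono ?_) (Pr_or_le _ _ _)
      intro ω hω h1
      by_cases h2 : ∃ i, (∀ j < i, plab (X.cor ω j) ∉ star K) ∧ NB (vx (X.cor ω i))
      · exact Or.inr h2
      · exact Or.inl ((b3 ω hω h2 h1).mono sdiff_subset)
    linarith
  · have c1 : Pr X.E (fun ω => Ev X K j0 t y ω) ≤
        Pr X.E (fun ω => Ev X K j0 t y (ω \ Zb)) + ε := by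
      refine le_trans ?_ (add_le_add_right hbad _)
      refine le_trans (Pr_mono ?_) (Pr_or_le _ _ _)
      intro ω hω h1
      by_cases h2 : ∃ i, (∀ j < i, plab (X.cor ω j) ∉ star K) ∧ NB (vx (X.cor ω i))
      · exact Or.inr h2
      · exact Or.inl (b3 ω hω h2 (h1.mono subset_union_left))
    have c2 : Pr X.E (fun ω => Ev X K j0 t y (ω \ Zb)) ≤
        Pr X.E (fun ω => Ev X K j0 t y (ω \ (Zt ∪ Zb))) + (1 - δ) ^ k := by
      refine le_trans ?_ (add_le_add_right b2 _)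
      refine le_trans (Pr_mono ?_) (Pr_or_le _ _ _)
      intro ω hω h1
      by_cases h2 : Ev X K j0 t y ((ω \ Zb) \ Zt)
      · left
        refine h2.mono ?_
        intro e he
        simp only [mem_union, mem_sdiff] at he ⊢
        tauto
      · exact Or.inr ⟨h1.mono subset_union_left, h2⟩
    linarith

end Pool.Agent.H21.Q1
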