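import Mathlib
import Pool.Agent.H21.Q1.Zone

set_option autoImplicit false
open Finset

/-! Module M3 of Q1: comparison of the root event with an event given by paths between ties.

`PTie` : primal tie of a vertex, `DTie` : dual tie of a face. `comp_I` : an event which produces an open
path from a tied vertex to a position `≥ y`. `comp_II` : an event which produces a closed dual path from a
tied face to the ring before the position `y`. -/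

namespace Pool.Agent.H21.Q1

open Pool.Agent.H75.Perc Pool.Agent.H75.TwoArm Pool.Agent.H75.Four Pool.Agent.H99.NC
open Pool.Agent.H69.Q1 Pool.Agent.H39.Q1 Pool.Agent.H28.Q1 Pool.Agent.Q1.M3
open Pool.Agent.H42.Q1 (ends_add co_ends)
open Pool.Agent.H77.Q1 (lbf mem_du' Far)
open Pool.Agent.H75.TwoArm.StrandAux hiding vx_nxC

variable {X : DEnv} {K : Finset (ℤ × ℤ)} {j0 : ℕ} {t : ℤ × ℤ}

/-- **Primal tie** of the vertex `v`. -/
def PTie (X : DEnv) (K Z : Finset (ℤ × ℤ)) (k : ℕ) (v : ℤ × ℤ) : Prop :=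
  ∃ (T : Finset (ℤ × ℤ)) (c : ℤ × ℤ) (r D : ℤ), 1 ≤ r ∧ 4 ^ k * r ≤ D ∧ T ⊆ EX0 X K \ Z ∧
    (∀ m ∈ T, |m.1 - 2 * c.1| ≤ 2 * r - 2 ∧ |m.2 - 2 * c.2| ≤ 2 * r - 2) ∧
    Co (T ∪ Wt X K) v (vx X.α) ∧
    (∀ z z', IsUnit4 (z' - z) → lbf z z' ∈ T → Mn X K z) ∧
    ∀ z z' g, IsUnit4 (z' - z) → lbf z z' ∈ T →
      CoX (du (EX0 X K \ Z) ∅) (fun u => ¬ Far D c u) z g → ¬ ClJ X (fi X.α) g

/-- **Dual tie** of the face `g0`. -/
def DTie (X : DEnv) (K Z : Finset (ℤ × ℤ)) (k : ℕ) (g0 : ℤ × ℤ) : Prop :=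
  ∃ (T : Finset (ℤ × ℤ)) (c : ℤ × ℤ) (r D : ℤ) (f : ℤ × ℤ), 1 ≤ r ∧ 4 ^ k * r ≤ D ∧
    T ⊆ EX0 X K \ Z ∧
    (∀ m ∈ T, |m.1 - 2 * c.1| ≤ 2 * r - 3 ∧ |m.2 - 2 * c.2| ≤ 2 * r - 3) ∧
    Co (du T ∅) g0 f ∧ ClJ X (fi X.α) f ∧
    ∀ v v' h, IsUnit4 (v' - v) → v + v' ∈ T →
      CoX (EX0 X K \ Z) (fun u => ¬ Far (D + 1) c u) v h → ¬ Co (Wt X K) (vx X.α) h

/-- the union of the primal ties -/
lemma exists_PO (hodd : ∀ e ∈ X.E, (e.1 + e.2) % 2 = 1) {Z : Finset (ℤ × ℤ)} {k : ℕ}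
    (VA : Finset (ℤ × ℤ))
    (hVA : ∀ v ∈ VA, PTie X K Z k v) : ∃ O : Finset (ℤ × ℤ), O ⊆ EX0 X K \ Z ∧
      (∀ z z', IsUnit4 (z' - z) → lbf z z' ∈ O → Mn X K z) ∧
      (∀ v, (∃ o ∈ O, v = eu o ∨ v = ev o) → ∃ (T : Finset (ℤ × ℤ)) (c : ℤ × ℤ) (r D : ℤ),
        1 ≤ r ∧ 4 ^ k * r ≤ D ∧ T ⊆ O ∧
        (∀ m ∈ T, |m.1 - 2 * c.1| ≤ 2 * r - 2 ∧ |m.2 - 2 * c.2| ≤ 2 * r - 2) ∧
        Co (T ∪ Wt X K) v (vx X.α) ∧
        ∀ z z' g, IsUnit4 (z' - z) → lbf z z' ∈ T →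
          CoX (du (EX0 X K \ Z) ∅) (fun u => ¬ Far D c u) z g → ¬ ClJ X (fi X.α) g) ∧
      ∀ v ∈ VA, Co (O ∪ Wt X K) v (vx X.α) := by
  classical
  choose! T c r D h1 h2 h3 h4 h5 h6 h7 using hVA
  set T' : ℤ × ℤ → Finset (ℤ × ℤ) := fun v =>
    (T v).filter fun l => Co (T v ∪ Wt X K) (eu l) (vx X.α) with hT'
  have hsub : ∀ v, T' v ⊆ T v := fun v => filter_subset _ _
  have hstr : ∀ v, v ∈ VA → ∀ w, Co (T v ∪ Wt X K) w (vx X.α) → Co (T' v ∪ Wt X K) w (vx X.α) :=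
    fun v _ w hw => Pool.Agent.H77.Q1.co_strong hw _ fun _ _ h => h
  refine ⟨VA.biUnion T', ?_, ?_, ?_, ?_⟩
  · intro e he
    obtain ⟨v, hv, he⟩ := mem_biUnion.1 he
    exact h3 v hv (hsub v he)
  · intro z z' hz he
    obtain ⟨v, hv, he⟩ := mem_biUnion.1 he
    exact h6 v hv z z' hz (hsub v he)
  · rintro w ⟨o, ho, hw⟩
    obtain ⟨v, hv, ho⟩ := mem_biUnion.1 ho
    have hoo : (o.1 + o.2) % 2 = 1 :=
      hodd _ (mem_sdiff.1 (mem_sdiff.1 (h3 v hv (hsub v ho))).1).1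
    refine ⟨T' v, c v, r v, D v, h1 v hv, h2 v hv, ?_, fun m hm => h4 v hv m (hsub v hm), ?_,
      fun z z' g a1 a2 a3 => h7 v hv z z' g a1 (hsub v a2) a3⟩
    · exact subset_biUnion_of_mem T' hv
    · have h8 : Co (T' v ∪ Wt X K) (eu o) (vx X.α) := hstr v hv _ (mem_filter.1 ho).2
      rcases hw with rfl | rfl
      · exact h8
      · exact (co_ends hoo (mem_union_left _ ho)).symm.trans h8
  · intro v hv
    exact (hstr v hv _ (h5 v hv)).mono (union_subset_union (subset_biUnion_of_mem T' hv)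
      (subset_refl _))

/-- **Comparison I.** -/
theorem comp_I {δ : ℝ} (hδ : Dcy δ) (hK : Sol X K) (hR : Root X K j0 t) (hL : InvL X)
    (hodd : ∀ e ∈ X.E, (e.1 + e.2) % 2 = 1) {y k : ℕ} {Z : Finset (ℤ × ℤ)}
    (VA : Finset (ℤ × ℤ)) (hVA : ∀ v ∈ VA, PTie X K Z k v) {A : Finset (ℤ × ℤ) → Prop}
    (hA : ∀ ω, ω ⊆ X.E → A ω → ∃ v ∈ VA, ∃ j u, y ≤ j ∧ j < per X K ∧ rl X K j ∈ perp K ∧
      rl X K j ∈ X.E ∧ (u = eu (rl X K j) ∨ u = ev (rl X K j)) ∧ Co (ω \ star K) v u) :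
    Pr X.E A ≤ Pr X.E (fun ω => Ev X K j0 t y (ω ∪ (EX0 X K ∩ Z))) + (1 - δ) ^ k := by
  classical
  obtain ⟨O, hO1, hO2, hO3, hO4⟩ := exists_PO hodd VA hVA
  refine le_trans ?_ (add_le_add_right (ev_open (y := y) hδ hK hR hL hodd hO1 hO2 hO3) _)
  refine le_trans (Pr_mono ?_) (Pr_or_le _ _ _)
  intro ω hω h1
  obtain ⟨v, hv, j, u, a1, a2, a3, a4, a5, a6⟩ := hA ω hω h1
  by_cases h2 : Ev X K j0 t y (ω ∪ (EX0 X K ∩ Z))
  · exact Or.inl h2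
  refine Or.inr ⟨?_, h2⟩
  refine ev_of_label hK hR a1 a2 a3 a4 a5 ?_
  have h3 : Co (((ω ∪ EX0 X K ∩ Z ∪ O) ∪ Wt X K) \ star K) (vx X.α) v := by
    refine (Co.mono ?_ (hO4 v hv)).symm
    intro e he
    rcases mem_union.1 he with h | h
    · exact mem_sdiff.2 ⟨mem_union_left _ (mem_union_right _ h),
        (mem_sdiff.1 (mem_sdiff.1 (hO1 h)).1).2⟩
    · exact mem_sdiff.2 ⟨mem_union_right _ h, Wt_star h⟩
  refine h3.trans (Co.mono ?_ a6)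
  refine sdiff_subset_sdiff ?_ (subset_refl _)
  exact fun e he => mem_union_left _ (mem_union_left _ (mem_union_left _ he))

/-- **Comparison II.** -/
theorem comp_II {δ : ℝ} (hδ : Dcy δ) (hK : Sol X K) (hR : Root X K j0 t)
    (hodd : ∀ e ∈ X.E, (e.1 + e.2) % 2 = 1) {y k : ℕ} {Z : Finset (ℤ × ℤ)}
    (FL : Finset (ℤ × ℤ)) (hFL : ∀ g ∈ FL, DTie X K Z k g) {A : Finset (ℤ × ℤ) → Prop}
    (hA : ∀ ω, ω ⊆ X.E → A ω → ∃ g ∈ FL, ∃ a, j0 < a ∧ a ≤ y ∧ a ≤ per X K ∧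
      Co (du (EX0 X K) ω) g (fi (rc X K a))) :
    Pr X.E A ≤ Pr X.E (fun ω => ¬ Ev X K j0 t y (ω \ Z)) + (1 - δ) ^ k := by
  classical
  choose! T c r D f h1 h2 h3 h4 h5 h6 h7 using hFL
  set T' : ℤ × ℤ → Finset (ℤ × ℤ) := fun g => rch (T g) g with hT'
  have hsub : ∀ g, T' g ⊆ T g := fun g => rch_sub
  set O := FL.biUnion T' with hO
  have hO1 : O ⊆ EX0 X K \ Z := by
    intro e he
    obtain ⟨g, hg, he⟩ := mem_biUnion.1 he
    exact h3 g hg (hsub g he)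
  refine le_trans ?_ (add_le_add_right (ev_dual (y := y) (O := O) hδ hK hR hodd hO1 ?_) _)
  · refine le_trans (Pr_mono ?_) (Pr_or_le _ _ _)
    intro ω hω h8
    obtain ⟨g, hg, a, a1, a2, a3, a4⟩ := hA ω hω h8
    by_cases h9 : Ev X K j0 t y (ω \ Z)
    · refine Or.inr ⟨h9, ?_⟩
      have key : Co (du (EX0 X K) (insert (rl X K j0)
          ((((ω \ Z) \ O) \ star K) ∪ Gy X K y))) (f g) (fi (rc X K a)) := by
        have b1 : ∀ e ∈ EX0 X K, e ≠ rl X K j0 ∧ e ∉ Gy X K y := by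
          intro e he
          obtain ⟨b2, b3⟩ := mem_sdiff.1 he
          refine ⟨fun h => b3 (h ▸ hK.rl_star j0), fun h => ?_⟩
          rcases mem_Gy.1 h with h | h | h
          · exact disjoint_left.1 X.disj b2 (Wt_W h)
          · exact b3 (kp_star h)
          · exact b3 (T2_star h)
        refine Co.trans (v := g) ?_ ?_
        · refine Co.mono ?_ (rch_co (h5 g hg)).symm
          intro l hl
          rw [mem_du'] at hl ⊢
          have b2 : l - (1, 1) ∈ O := mem_biUnion.2 ⟨g, hg, hl.1⟩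
          have b3 := (mem_sdiff.1 (hO1 b2)).1
          refine ⟨b3, ?_⟩
          rw [mem_insert, mem_union, mem_sdiff, mem_sdiff]
          have := b1 _ b3
          tauto
        · refine Co.mono ?_ a4
          intro l hl
          rw [mem_du'] at hl ⊢
          refine ⟨hl.1, ?_⟩
          rw [mem_insert, mem_union, mem_sdiff, mem_sdiff, mem_sdiff]
          have := b1 _ hl.1
          tauto
      refine not_ev hK hR a1 a2 a3 (ω := (ω \ Z) \ O) ((sdiff_subset.trans sdiff_subset).trans hω)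
        (h6 g hg) key
    · exact Or.inl h9
  · intro g0 g' hg0 he
    obtain ⟨g, hg, he⟩ := mem_biUnion.1 he
    refine ⟨T' g, c g, r g, D g, f g, h1 g hg, h2 g hg, subset_biUnion_of_mem T' hg,
      fun m hm => h4 g hg m (hsub g hm), ?_, h6 g hg,
      fun v v' h b1 b2 b3 => h7 g hg v v' h b1 (hsub g b2) b3⟩
    exact (rch_face hg0 he).trans (rch_co (h5 g hg))

end Pool.Agent.H21.Q1
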