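import Mathlib
import Pool.Agent.H21.Q1.Zone
import Pool.Agent.Q1.M5.Defs
import Pool.Agent.Q1.M4.DobG
import Pool.Agent.Q1.M3.Pg.Latt

set_option autoImplicit false
open Finset

/-! Module M3 of Q1: crossing events of a polygon do not depend on the labels of the zones.

`DPath` : closed dual path from the sides `i < n1` to the sides `n2 ≤ j < m` (`PDual` : it exists iff
`CI` fails). `Chan` : a channel from the tip to the side `pch`, far from the end point. `pi_b` : zone at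
the end point; `pi_t` : zone at the tip. -/

namespace Pool.Agent.H21.Q1

open Pool.Agent.H75.Perc Pool.Agent.H75.TwoArm Pool.Agent.H75.Four
open Pool.Agent.H49.Q1 (gs gcell mem_gs CJ)
open Pool.Agent.Q1.M4 (PType)
open Pool.Agent.Q1.M5 (EL WL CI CT TV sV sL)
open Pool.Agent.H77.Q1 (lbf mem_du' Far unit4_neg)

variable {P : PType} {X Y : ℤ → ℤ}

/-- outer face of the label `e` of a side with direction `k` -/
def ofk (k : ℤ) (e : ℤ × ℤ) : ℤ × ℤ :=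
  ((e.1 + (dir (k - 1)).1 + 1) / 2, (e.2 + (dir (k - 1)).2 + 1) / 2)

/-- labels of the sides `n1 ≤ n < n2` -/
noncomputable def JLk (P : PType) (X Y : ℤ → ℤ) (n1 n2 : ℕ) : Finset (ℤ × ℤ) :=
  (Ico n1 n2).biUnion fun n => sL X Y (P.side n)

/-- a closed dual path from the sides `i < n1` to the sides `n2 ≤ j < m` -/
def DPath (P : PType) (X Y : ℤ → ℤ) (n1 n2 : ℕ) (ω : Finset (ℤ × ℤ)) : Prop :=
  ∃ i < n1, ∃ e ∈ sL X Y (P.side i), ∃ j, n2 ≤ j ∧ j < P.m ∧ ∃ e' ∈ sL X Y (P.side j),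
    e ∉ ω ∪ WL P X Y ∧ e' ∉ ω ∪ WL P X Y ∧
    Co (du (gs X Y P.Q \ JLk P X Y n1 n2) (ω ∪ WL P X Y)) (ofk (P.side i).2 e)
      (ofk (P.side j).2 e')

/-- polygon duality for the sides `n1 ≤ n < n2` -/
def PDual (P : PType) (X Y : ℤ → ℤ) (n1 n2 : ℕ) : Prop :=
  ∀ ω, ω ⊆ gs X Y P.Q → (¬ CI P X Y n1 n2 ω ↔ DPath P X Y n1 n2 ω)

/-- near label -/
def Nl (D : ℤ) (c e : ℤ × ℤ) : Prop := ¬ Far D c (eu e) ∧ ¬ Far D c (ev e)

lemma EL_gs : EL P X Y ⊆ gs X Y P.Q := sdiff_subset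

lemma CI_mono {n1 n2 : ℕ} {ω ω' : Finset (ℤ × ℤ)} (h : ω ⊆ ω') (h1 : CI P X Y n1 n2 ω) :
    CI P X Y n1 n2 ω' := by
  obtain ⟨n, a, b, v, c, t, d, e⟩ := h1
  exact ⟨n, a, b, v, c, t, d, e.mono (union_subset_union h (subset_refl _))⟩

/-- `Far` changes by one at a step -/
lemma far_step {D : ℤ} {c a b : ℤ × ℤ} (hab : IsUnit4 (b - a)) (ha : Far (D + 1) c a) :
    Far D c b := by
  have h6 := unit_cases hab
  unfold Far at ha ⊢
  have e1 : |a.1 - c.1| ≤ |b.1 - c.1| + |b.1 - a.1| := by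
    have := abs_sub_le a.1 b.1 c.1
    rw [abs_sub_comm a.1 b.1] at this
    linarith
  have e2 : |a.2 - c.2| ≤ |b.2 - c.2| + |b.2 - a.2| := by
    have := abs_sub_le a.2 b.2 c.2
    rw [abs_sub_comm a.2 b.2] at this
    linarith
  have e3 : |b.1 - a.1| ≤ 1 := by rw [abs_le]; omega
  have e4 : |b.2 - a.2| ≤ 1 := by rw [abs_le]; omega
  rcases ha with ha | ha
  · left; linarith
  · right; linarith

/-- ends of the label between two faces -/
lemma nl_face {D : ℤ} {c g g' : ℤ × ℤ} (hg : IsUnit4 (g' - g)) (h : ¬ Far D c g) :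
    Nl (D + 1) c (lbf g g') := by
  have a := unit_cases hg
  unfold Nl Far at *
  unfold lbf eu ev
  simp only [Prod.fst_sub, Prod.fst_add, Prod.snd_sub, Prod.snd_add, not_or, not_le, abs_lt] at *
  omega

/-- a face of a label -/
lemma far_face {D : ℤ} {c g g' : ℤ × ℤ} (hg : IsUnit4 (g' - g)) (h : Nl D c (lbf g g')) :
    ¬ Far (D + 1) c g := by
  have a := unit_cases hg
  unfold Nl Far at *
  unfold lbf eu ev at h
  simp only [Prod.fst_sub, Prod.fst_add, Prod.snd_sub, Prod.snd_add, not_or, not_le, abs_lt] at *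
  omega

lemma dir_cases' (k : ℤ) : dir k = (1, 0) ∨ dir k = (0, 1) ∨ dir k = (-1, 0) ∨
    dir k = (0, -1) := by
  have := dir_cases k
  tauto

/-- The outer face of a label and the label. -/
lemma ofk_near {D k : ℤ} {c e : ℤ × ℤ} (he : (e.1 + e.2) % 2 = 1)
    (h : Nl D c e) : ¬ Far (D + 1) c (ofk k e) := by
  unfold Nl Far at *
  unfold eu ev at h
  unfold ofk
  simp only [not_or, not_le, abs_lt] at *
  rcases dir_cases' (k - 1) with h1 | h1 | h1 | h1 <;> rw [h1] <;> simp only <;> omega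

/-- A label of a side is near if its outer face is near. -/
lemma nl_ofk {D k : ℤ} {c e : ℤ × ℤ} (he : (e.1 + e.2) % 2 = 1)
    (h : ¬ Far D c (ofk k e)) : Nl (D + 2) c e := by
  unfold Nl Far at *
  unfold ofk at h
  unfold eu ev
  simp only [not_or, not_le, abs_lt] at *
  rcases dir_cases' (k - 1) with h1 | h1 | h1 | h1 <;> rw [h1] at h <;> simp only at h <;> omega

lemma Nl.mono {D D' : ℤ} (h : D ≤ D') {c e : ℤ × ℤ} (h1 : Nl D c e) : Nl D' c e := by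
  unfold Nl Far at *
  omega

/-! ### The channel -/

/-- A channel from the tip to the side `pch`: all its labels are far from `c`. -/
structure Chan (P : PType) (X Y : ℤ → ℤ) (h : ℕ) (c : ℤ × ℤ) (D : ℤ) (pch : ℕ) : Prop where
  lt : pch < h
  pr : ∃ (PC : Finset (ℤ × ℤ)) (v t : ℤ × ℤ), PC ⊆ gs X Y P.Q ∧ (∀ l ∈ PC, ¬ Nl D c l) ∧
    sV X Y (P.side pch) v ∧ TV P X Y t ∧ Co PC v t
  du : ∃ (DC : Finset (ℤ × ℤ)) (e e' : ℤ × ℤ) (j : ℕ), DC ⊆ gs X Y P.Q ∧ (∀ l ∈ DC, ¬ Nl D c l) ∧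
    Disjoint DC (WL P X Y) ∧ (∀ n, pch < n → Disjoint DC (JLk P X Y n h)) ∧
    e ∈ sL X Y (P.side pch) ∧ h ≤ j ∧ j < P.m ∧ e' ∈ sL X Y (P.side j) ∧
    e ∉ WL P X Y ∧ e' ∉ WL P X Y ∧ ¬ Nl D c e ∧ ¬ Nl D c e' ∧
    Co (H75.TwoArm.du DC ∅) (ofk (P.side pch).2 e) (ofk (P.side j).2 e')

variable {h : ℕ} {c : ℤ × ℤ} {D : ℤ} {pch : ℕ}

/-- primal channel: a local dual path is impossible -/
lemma Chan.no_dual (hch : Chan P X Y h c D pch) {n : ℕ} (hn : n ≤ pch) (hPD : PDual P X Y n h)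
    {i : ℕ} (hi : i < n) {e e' : ℤ × ℤ} {j : ℕ} (he : e ∈ sL X Y (P.side i)) (hj : h ≤ j)
    (hj' : j < P.m) (he' : e' ∈ sL X Y (P.side j)) (h1 : e ∉ WL P X Y) (h2 : e' ∉ WL P X Y)
    (h3 : Nl D c e) (h4 : Nl D c e') {J : Finset (ℤ × ℤ)} (hJ : J ⊆ gs X Y P.Q \ JLk P X Y n h)
    (hJW : Disjoint J (WL P X Y)) (hJn : ∀ l ∈ J, Nl D c l)
    (h5 : Co (H75.TwoArm.du J ∅) (ofk (P.side i).2 e) (ofk (P.side j).2 e')) : False := by
  classical
  obtain ⟨PC, v, t, a1, a2, a3, a4, a5⟩ := hch.pr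
  set ω : Finset (ℤ × ℤ) := (EL P X Y).filter fun l => ¬ Nl D c l with hω
  have hωg : ω ⊆ gs X Y P.Q := (filter_subset _ _).trans EL_gs
  have hnot : ∀ l, Nl D c l → l ∉ ω := fun l hl h => (mem_filter.1 h).2 hl
  have hno : ¬ CI P X Y n h ω := by
    rw [hPD ω hωg]
    refine ⟨i, hi, e, he, j, hj, hj', e', he', ?_, ?_, ?_⟩
    · rw [mem_union, not_or]; exact ⟨hnot _ h3, h1⟩
    · rw [mem_union, not_or]; exact ⟨hnot _ h4, h2⟩
    · refine h5.mono ?_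
      intro l hl
      rw [mem_du'] at hl ⊢
      refine ⟨hJ hl.1, ?_⟩
      rw [mem_union, not_or]
      exact ⟨hnot _ (hJn _ hl.1), fun h => disjoint_left.1 hJW hl.1 h⟩
  refine hno ⟨pch, hn, hch.lt, v, a3, t, a4, a5.mono ?_⟩
  intro l hl
  rw [mem_union, hω, mem_filter]
  by_cases hW : l ∈ WL P X Y
  · exact Or.inr hW
  · exact Or.inl ⟨mem_sdiff.2 ⟨a1 hl, hW⟩, a2 l hl⟩

/-- dual channel: a local open path is impossible -/
lemma Chan.no_primal (hch : Chan P X Y h c D pch) {n : ℕ} (hn : pch < n)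
    (hPD : PDual P X Y n h) {J : Finset (ℤ × ℤ)} (hJ : J ⊆ EL P X Y) (hJn : ∀ l ∈ J, Nl D c l)
    (hCI : CI P X Y n h J) : False := by
  classical
  obtain ⟨DC, e, e', j, a1, a2, a3, a4, a5, a6, a7, a8, a9, a10, a11, a12, a13⟩ := hch.du
  have hno : DPath P X Y n h J := by
    refine ⟨pch, hn, e, a5, j, a6, a7, e', a8, ?_, ?_, ?_⟩
    · rw [mem_union, not_or]; exact ⟨fun h => a11 (hJn _ h), a9⟩
    · rw [mem_union, not_or]; exact ⟨fun h => a12 (hJn _ h), a10⟩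
    · refine a13.mono ?_
      intro l hl
      rw [mem_du'] at hl ⊢
      refine ⟨mem_sdiff.2 ⟨a1 hl.1, fun h => disjoint_left.1 (a4 n hn) hl.1 h⟩, ?_⟩
      rw [mem_union, not_or]
      exact ⟨fun h => a2 _ hl.1 (hJn _ h), fun h => disjoint_left.1 a3 hl.1 h⟩
  rw [← hPD J (hJ.trans EL_gs)] at hno
  exact hno hCI

/-! ### Local clusters -/

/-- A cluster which contains a near vertex and no far arm is near. -/
lemma cluster_near {L ω : Finset (ℤ × ℤ)} {Nr Fr : ℤ × ℤ → Prop}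
    (hL : ∀ a b, Ad L a b → a + b ∈ ω ∨ Nr b) (hno : ∀ a b, Nr a → Fr b → ¬ Co ω a b)
    {u w : ℤ × ℤ} (hu : Nr u) (h : Co L u w) : ¬ Fr w := by
  have key : ∃ z, Nr z ∧ Co ω z w := by
    induction h with
    | refl => exact ⟨u, hu, Co.refl _ _⟩
    | @tail b b' hb hbb ih =>
      obtain ⟨z, hz1, hz2⟩ := ih
      rcases hL _ _ hbb with h1 | h1
      · exact ⟨z, hz1, Relation.ReflTransGen.tail hz2 ⟨hbb.1, h1⟩⟩
      · exact ⟨b', h1, Co.refl _ _⟩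
  obtain ⟨z, hz1, hz2⟩ := key
  exact fun hw => hno z w hz1 hw hz2

/-- restrict a path to the labels of its cluster -/
lemma co_cluster {L : Finset (ℤ × ℤ)} {Q : ℤ × ℤ → Prop} [DecidablePred Q] {u v w : ℤ × ℤ}
    (hQ : ∀ a b, Co L u a → Ad L a b → Q (a + b)) (huv : Co L u v) (hvw : Co L v w) :
    Co (L.filter Q) v w := by
  induction hvw with
  | refl => exact Co.refl _ _
  | @tail b b' hb hbb ih =>
    refine Relation.ReflTransGen.tail ih ⟨hbb.1, ?_⟩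
    rw [mem_filter]
    exact ⟨hbb.2, hQ _ _ (Co.trans huv hb) hbb⟩

/-! ### Arms of a configuration -/

/-- no open arm from the near vertices to the far vertices -/
def NoO (c : ℤ × ℤ) (r D : ℤ) (ω : Finset (ℤ × ℤ)) : Prop :=
  ∀ a b, ¬ Far (r + 1) c a → Far D c b → ¬ Co ω a b

/-- no closed dual arm -/
def NoC (c : ℤ × ℤ) (r D : ℤ) (E ω : Finset (ℤ × ℤ)) : Prop :=
  ∀ a b, ¬ Far (r + 1) c a → Far D c b → ¬ Co (H75.TwoArm.du E ω) a b

lemma pr_NoO {δ : ℝ} (hδ : Dcy δ) {E : Finset (ℤ × ℤ)} (hE : ∀ e ∈ E, (e.1 + e.2) % 2 = 1)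
    {r : ℤ} (hr : 1 ≤ r) (c : ℤ × ℤ) (k : ℕ) :
    Pr E (fun ω => ¬ NoO c r (4 ^ k * r) ω) ≤ (1 - δ) ^ k := by
  refine le_trans (Pr_mono ?_) (hδ.2.2.1 E hE c r hr k)
  intro ω _ h
  unfold NoO at h
  push Not at h
  obtain ⟨a, b, h1, h2, h3⟩ := h
  unfold Far at h1 h2
  rw [not_or, not_le, not_le] at h1
  exact ⟨a, b, by omega, by omega, h2, h3⟩

lemma pr_NoC {δ : ℝ} (hδ : Dcy δ) {E : Finset (ℤ × ℤ)} (hE : ∀ e ∈ E, (e.1 + e.2) % 2 = 1)
    {r : ℤ} (hr : 1 ≤ r) (c : ℤ × ℤ) (k : ℕ) :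
    Pr E (fun ω => ¬ NoC c r (4 ^ k * r) E ω) ≤ (1 - δ) ^ k := by
  refine le_trans (Pr_mono ?_) (hδ.2.2.2 E hE c r hr k)
  intro ω _ h
  unfold NoC at h
  push Not at h
  obtain ⟨a, b, h1, h2, h3⟩ := h
  unfold Far at h1 h2
  rw [not_or, not_le, not_le] at h1
  exact ⟨a, b, by omega, by omega, h2, h3⟩

lemma ad_du1 {A ω : Finset (ℤ × ℤ)} {g g' : ℤ × ℤ} :
    Ad (H75.TwoArm.du A ω) g g' ↔ IsUnit4 (g' - g) ∧ lbf g g' ∈ A ∧ lbf g g' ∉ ω := by
  unfold Ad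
  rw [mem_du']
  rfl

lemma mem_EL {l : ℤ × ℤ} : l ∈ EL P X Y ↔ l ∈ gs X Y P.Q ∧ l ∉ WL P X Y := by
  unfold EL
  rw [mem_sdiff]

section local_lemmas

variable {r D0 : ℤ} {n : ℕ} {Z ω : Finset (ℤ × ℤ)}

/-- a local dual path is impossible -/
lemma dual_local (hch : Chan P X Y h c (D0 + 2) pch) (hn : n ≤ pch) (hPD : PDual P X Y n h)
    (hodd : ∀ e ∈ gs X Y P.Q, (e.1 + e.2) % 2 = 1) (hZ : ∀ e ∈ Z, Nl r c e)
    (hno : NoC c r D0 (EL P X Y) ω) {ω' : Finset (ℤ × ℤ)}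
    (hω' : ∀ l ∈ EL P X Y, l ∉ ω' → l ∉ ω ∨ l ∈ Z)
    {i : ℕ} (hi : i < n) {e e' : ℤ × ℤ} {j : ℕ} (he : e ∈ sL X Y (P.side i)) (hj : h ≤ j)
    (hj' : j < P.m) (he' : e' ∈ sL X Y (P.side j)) (heg : e ∈ gs X Y P.Q)
    (heg' : e' ∈ gs X Y P.Q) (h1 : e ∉ ω' ∪ WL P X Y) (h2 : e' ∉ ω' ∪ WL P X Y)
    (h5 : Co (du (gs X Y P.Q \ JLk P X Y n h) (ω' ∪ WL P X Y)) (ofk (P.side i).2 e)
      (ofk (P.side j).2 e')) {u : ℤ × ℤ} (hu : ¬ Far (r + 1) c u)
    (hu' : Co (du (gs X Y P.Q \ JLk P X Y n h) (ω' ∪ WL P X Y)) (ofk (P.side i).2 e) u) :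
    False := by
  classical
  set L := du (gs X Y P.Q \ JLk P X Y n h) (ω' ∪ WL P X Y) with hL
  have key : ∀ w, Co L (ofk (P.side i).2 e) w → ¬ Far D0 c w := by
    intro w hw
    refine cluster_near (L := L) (ω := du (EL P X Y) ω) (Nr := fun g => ¬ Far (r + 1) c g)
      (Fr := fun g => Far D0 c g) ?_ hno hu (hu'.symm.trans hw)
    intro a b hab
    rw [hL, ad_du1] at hab
    obtain ⟨g1, g2, g3⟩ := hab
    rw [mem_union, not_or] at g3
    rcases hω' (lbf a b) (mem_EL.2 ⟨(mem_sdiff.1 g2).1, g3.2⟩) g3.1 with g4 | g4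
    · left
      exact (ad_du1.2 ⟨g1, mem_EL.2 ⟨(mem_sdiff.1 g2).1, g3.2⟩, g4⟩).2
    · right
      have g5 : lbf b a = lbf a b := by unfold lbf; abel
      exact far_face (g' := a) (unit4_neg g1) (by rw [g5]; exact hZ _ g4)
  rw [mem_union, not_or] at h1 h2
  refine hch.no_dual hn hPD hi he hj hj' he' h1.2 h2.2
    (nl_ofk (hodd _ heg) (key _ (Co.refl _ _))) (nl_ofk (hodd _ heg') (key _ h5))
    (J := (gs X Y P.Q \ JLk P X Y n h).filter fun l => l ∉ ω' ∪ WL P X Y ∧ Nl (D0 + 2) c l)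
    (filter_subset _ _) ?_ (fun l hl => (mem_filter.1 hl).2.2) ?_
  · rw [disjoint_left]
    intro l hl hl'
    exact (mem_filter.1 hl).2.1 (mem_union_right _ hl')
  · have h6 := co_cluster (L := L) (Q := fun l => Nl (D0 + 2) c (l - (1, 1))) ?_
      (Co.refl L (ofk (P.side i).2 e)) h5
    · refine h6.mono ?_
      intro l hl
      obtain ⟨g1, g2⟩ := mem_filter.1 hl
      rw [hL, mem_du'] at g1
      rw [mem_du', mem_filter]
      exact ⟨⟨g1.1, g1.2, g2⟩, notMem_empty _⟩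
    · intro a b ha hab
      exact (nl_face hab.1 (key a ha)).mono (by omega)

/-- a local open path is impossible -/
lemma primal_local (hch : Chan P X Y h c (D0 + 2) pch) (hn : pch < n) (hPD : PDual P X Y n h)
    (hZ : ∀ e ∈ Z, Nl r c e) (hno : NoO c r D0 ω) {A : Finset (ℤ × ℤ)} (hA : A ⊆ EL P X Y)
    (hAω : ∀ l ∈ A, l ∈ ω ∨ l ∈ Z) {i : ℕ} (hi : n ≤ i) (hi' : i < h) {v t : ℤ × ℤ}
    (hv : sV X Y (P.side i) v) (ht : TV P X Y t) (hvt : Co A v t) {u : ℤ × ℤ}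
    (hu : ¬ Far (r + 1) c u) (hu' : Co A v u) : False := by
  classical
  have key : ∀ w, Co A v w → ¬ Far D0 c w := by
    intro w hw
    refine cluster_near (L := A) (ω := ω) (Nr := fun g => ¬ Far (r + 1) c g)
      (Fr := fun g => Far D0 c g) ?_ hno hu (hu'.symm.trans hw)
    intro a b hab
    rcases hAω _ hab.2 with g4 | g4
    · exact Or.inl g4
    · right
      have h1 := hZ _ g4
      have h2 : ¬ Far r c b := by
        rcases ends_of_add hab.1 with ⟨-, h3⟩ | ⟨-, h3⟩ <;> rw [h3]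
        · exact h1.2
        · exact h1.1
      unfold Far at h2 ⊢
      omega
  refine hch.no_primal hn hPD (J := A.filter fun l => Nl (D0 + 2) c l)
    ((filter_subset _ _).trans hA) (fun l hl => (mem_filter.1 hl).2) ?_
  refine ⟨i, hi, hi', v, hv, t, ht, ?_⟩
  refine (co_cluster (L := A) (Q := fun l => Nl (D0 + 2) c l) ?_ (Co.refl A v) hvt).mono
    subset_union_left
  intro a b ha hab
  have h1 := key a ha
  have h2 := key b (Relation.ReflTransGen.tail ha hab)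
  unfold Nl
  rcases ends_of_add hab.1 with ⟨h3, h4⟩ | ⟨h3, h4⟩ <;> rw [← h3, ← h4] <;>
    unfold Far at * <;> omega

/-- the first vertex of the wired arc -/
lemma first_TV (hWL : ∀ e ∈ WL P X Y, TV P X Y (eu e) ∧ TV P X Y (ev e)) {A : Finset (ℤ × ℤ)}
    {v t : ℤ × ℤ} (ht : TV P X Y t) (hvt : Co (A ∪ WL P X Y) v t) :
    ∃ t1, TV P X Y t1 ∧ Co A v t1 := by
  have key : ∀ w, Co (A ∪ WL P X Y) v w → Co A v w ∨ ∃ t1, TV P X Y t1 ∧ Co A v t1 := by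
    intro w hw
    induction hw with
    | refl => exact Or.inl (Co.refl _ _)
    | @tail b b' hb hbb ih =>
      rcases ih with ih | ih
      · rcases mem_union.1 hbb.2 with h1 | h1
        · exact Or.inl (Relation.ReflTransGen.tail ih ⟨hbb.1, h1⟩)
        · right
          refine ⟨b, ?_, ih⟩
          rcases ends_of_add hbb.1 with ⟨h3, -⟩ | ⟨h3, -⟩ <;> rw [h3]
          · exact (hWL _ h1).1
          · exact (hWL _ h1).2
      · exact Or.inr ih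
  rcases key t hvt with h1 | h1
  · exact ⟨t, ht, h1⟩
  · exact h1

end local_lemmas

variable {k n : ℕ} {r : ℤ} {δ : ℝ}

/-- **End zone of the polygon.** -/
theorem pi_b (hδ : Dcy δ) (hr : 1 ≤ r) (hch : Chan P X Y h c (4 ^ k * r + 2) pch)
    (hPD : PDual P X Y n h) (hodd : ∀ e ∈ gs X Y P.Q, (e.1 + e.2) % 2 = 1)
    (hsL : ∀ i, ∀ e ∈ sL X Y (P.side i), e ∈ gs X Y P.Q)
    (hWL : ∀ e ∈ WL P X Y, TV P X Y (eu e) ∧ TV P X Y (ev e))
    {Z : Finset (ℤ × ℤ)} (hZ : ∀ e ∈ Z, Nl r c e) :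
    Pr (EL P X Y) (fun ω => CI P X Y n h (ω ∪ (Z ∩ EL P X Y)) ∧ ¬ CI P X Y n h (ω \ Z)) ≤
      2 * (1 - δ) ^ k := by
  classical
  have hoddE : ∀ e ∈ EL P X Y, (e.1 + e.2) % 2 = 1 := fun e he => hodd e (EL_gs he)
  have h2 : Pr (EL P X Y) (fun ω => ¬ NoO c r (4 ^ k * r) ω ∨
      ¬ NoC c r (4 ^ k * r) (EL P X Y) ω) ≤ 2 * (1 - δ) ^ k := by
    refine le_trans (Pr_or_le _ _ _) ?_
    have a := pr_NoO hδ hoddE hr c k
    have b := pr_NoC hδ hoddE hr c k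
    linarith
  refine le_trans (Pr_mono ?_) h2
  rintro ω hω ⟨hCI, hnot⟩
  by_contra hcon
  rw [not_or, not_not, not_not] at hcon
  obtain ⟨hO, hC⟩ := hcon
  rcases le_or_gt n pch with hn | hn
  · have hωg : ω \ Z ⊆ gs X Y P.Q := sdiff_subset.trans (hω.trans EL_gs)
    obtain ⟨i, hi, e, he, j, hj, hj', e', he', a1, a2, a3⟩ := (hPD _ hωg).1 hnot
    have hu : ∃ u, ¬ Far (r + 1) c u ∧
        Co (du (gs X Y P.Q \ JLk P X Y n h) ((ω \ Z) ∪ WL P X Y)) (ofk (P.side i).2 e) u := by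
      by_cases heZ : e ∈ Z
      · exact ⟨_, ofk_near (hodd _ (hsL i e he)) (hZ e heZ), Co.refl _ _⟩
      by_cases heZ' : e' ∈ Z
      · exact ⟨_, ofk_near (hodd _ (hsL j e' he')) (hZ e' heZ'), a3⟩
      have hωg2 : ω ∪ (Z ∩ EL P X Y) ⊆ gs X Y P.Q :=
        union_subset (hω.trans EL_gs) (inter_subset_right.trans EL_gs)
      have hnoD : ¬ DPath P X Y n h (ω ∪ (Z ∩ EL P X Y)) := by
        rw [← hPD _ hωg2]
        exact not_not.2 hCI
      have hnoC : ¬ Co (du (gs X Y P.Q \ JLk P X Y n h) ((ω ∪ (Z ∩ EL P X Y)) ∪ WL P X Y))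
          (ofk (P.side i).2 e) (ofk (P.side j).2 e') := by
        intro h
        refine hnoD ⟨i, hi, e, he, j, hj, hj', e', he', ?_, ?_, h⟩
        · simp only [mem_union, mem_inter, mem_sdiff] at a1 ⊢
          tauto
        · simp only [mem_union, mem_inter, mem_sdiff] at a2 ⊢
          tauto
      obtain ⟨u, u', b1, b2, b3⟩ := co_exit a3 hnoC
      refine ⟨u, ?_, b1.mono ?_⟩
      · rw [ad_du1] at b2
        obtain ⟨g1, g2, g3⟩ := b2
        have g4 : lbf u u' ∈ Z := by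
          by_contra g4
          refine b3 (Relation.ReflTransGen.tail b1 (ad_du1.2 ⟨g1, g2, ?_⟩))
          simp only [mem_union, mem_inter, mem_sdiff] at g3 ⊢
          tauto
        exact far_face g1 (hZ _ g4)
      · intro l hl
        rw [mem_du'] at hl ⊢
        refine ⟨hl.1, fun h => hl.2 ?_⟩
        simp only [mem_union, mem_inter, mem_sdiff] at h ⊢
        tauto
    obtain ⟨u, hu1, hu2⟩ := hu
    refine dual_local hch hn hPD hodd hZ hC (ω' := ω \ Z) ?_ hi he hj hj' he' (hsL _ _ he)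
      (hsL _ _ he') a1 a2 a3 hu1 hu2
    intro l _ hl
    rw [mem_sdiff] at hl
    tauto
  · obtain ⟨i, hi, hi', v, hv, t, ht, hvt⟩ := hCI
    obtain ⟨t1, ht1, hvt1⟩ := first_TV hWL ht hvt
    have hno : ¬ Co (ω \ Z) v t1 := fun h =>
      hnot ⟨i, hi, hi', v, hv, t1, ht1, h.mono subset_union_left⟩
    obtain ⟨u, u', b1, b2, b3⟩ := co_exit hvt1 hno
    have g4 : u + u' ∈ Z := by
      by_contra g4
      refine b3 (Relation.ReflTransGen.tail b1 ⟨b2.1, ?_⟩)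
      have := b2.2
      simp only [mem_union, mem_inter, mem_sdiff] at this ⊢
      tauto
    have hu1 : ¬ Far (r + 1) c u := by
      have h1 := hZ _ g4
      have h2 : ¬ Far r c u := by
        rcases ends_of_add b2.1 with ⟨h3, -⟩ | ⟨h3, -⟩ <;> rw [h3]
        · exact h1.1
        · exact h1.2
      unfold Far at h2 ⊢
      omega
    refine primal_local hch hn hPD hZ hO (A := ω ∪ (Z ∩ EL P X Y))
      (union_subset hω inter_subset_right) ?_ hi hi' hv ht1 hvt1 hu1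
      (b1.mono (sdiff_subset.trans subset_union_left))
    intro l hl
    simp only [mem_union, mem_inter] at hl
    tauto

/-- All sides before `n` are near the end point and the channel ends after them. -/
theorem pb_dual (hδ : Dcy δ) (hr : 1 ≤ r) (hch : Chan P X Y h c (4 ^ k * r + 2) pch)
    (hPD : PDual P X Y n h) (hodd : ∀ e ∈ gs X Y P.Q, (e.1 + e.2) % 2 = 1)
    (hsL : ∀ i, ∀ e ∈ sL X Y (P.side i), e ∈ gs X Y P.Q) (hn : n ≤ pch)
    (hnear : ∀ i < n, ∀ e ∈ sL X Y (P.side i), Nl r c e) :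
    Pr (EL P X Y) (fun ω => ¬ CI P X Y n h ω) ≤ (1 - δ) ^ k := by
  classical
  have hoddE : ∀ e ∈ EL P X Y, (e.1 + e.2) % 2 = 1 := fun e he => hodd e (EL_gs he)
  refine le_trans (Pr_mono ?_) (pr_NoC hδ hoddE hr c k)
  intro ω hω hnot hC
  obtain ⟨i, hi, e, he, j, hj, hj', e', he', a1, a2, a3⟩ := (hPD _ (hω.trans EL_gs)).1 hnot
  exact dual_local hch hn hPD hodd (Z := ∅) (by simp) hC (ω' := ω) (fun l _ hl => Or.inl hl) hi he
    hj hj' he' (hsL _ _ he) (hsL _ _ he') a1 a2 a3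
    (ofk_near (hodd _ (hsL i e he)) (hnear i hi e he)) (Co.refl _ _)

/-- All sides of the run from `n` on are near the end point and the channel ends before them. -/
theorem pb_primal (hδ : Dcy δ) (hr : 1 ≤ r) (hch : Chan P X Y h c (4 ^ k * r + 2) pch)
    (hPD : PDual P X Y n h) (hodd : ∀ e ∈ gs X Y P.Q, (e.1 + e.2) % 2 = 1)
    (hWL : ∀ e ∈ WL P X Y, TV P X Y (eu e) ∧ TV P X Y (ev e)) (hn : pch < n)
    (hnear : ∀ i, n ≤ i → i < h → ∀ v, sV X Y (P.side i) v → ¬ Far r c v) :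
    Pr (EL P X Y) (fun ω => CI P X Y n h ω) ≤ (1 - δ) ^ k := by
  classical
  have hoddE : ∀ e ∈ EL P X Y, (e.1 + e.2) % 2 = 1 := fun e he => hodd e (EL_gs he)
  refine le_trans (Pr_mono ?_) (pr_NoO hδ hoddE hr c k)
  rintro ω hω ⟨i, hi, hi', v, hv, t, ht, hvt⟩ hO
  obtain ⟨t1, ht1, hvt1⟩ := first_TV hWL ht hvt
  refine primal_local hch hn hPD (Z := ∅) (by simp) hO (A := ω) hω (fun l hl => Or.inl hl) hi hi'
    hv ht1 hvt1 (u := v) ?_ (Co.refl _ _)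
  have := hnear i hi hi' v hv
  unfold Far at this ⊢
  omega

/-- **Tip zone of the polygon.** `η ω` = modification of `ω` far from the zone. -/
theorem pi_t (hδ : Dcy δ) (hr : 1 ≤ r) (hodd : ∀ e ∈ gs X Y P.Q, (e.1 + e.2) % 2 = 1)
    (hWL : ∀ e ∈ WL P X Y, TV P X Y (eu e) ∧ TV P X Y (ev e)) {Z F : Finset (ℤ × ℤ)}
    (hZ : ∀ e ∈ Z, Nl (r + 1) c e) (hF : ∀ e ∈ F, Far (4 ^ k * r) c (eu e) ∧
      Far (4 ^ k * r) c (ev e))
    (hfar : ∀ i, n ≤ i → i < h → ∀ v, sV X Y (P.side i) v → Far (4 ^ k * r) c v)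
    (η : Finset (ℤ × ℤ) → Finset (ℤ × ℤ)) (hη : ∀ ω, ω ⊆ EL P X Y → η ω ⊆ ω ∪ F) :
    Pr (EL P X Y) (fun ω => CI P X Y n h (η ω ∪ Z) ∧ ¬ CI P X Y n h (η ω \ Z)) ≤
      (1 - δ) ^ k := by
  classical
  have hoddE : ∀ e ∈ EL P X Y, (e.1 + e.2) % 2 = 1 := fun e he => hodd e (EL_gs he)
  refine le_trans (Pr_mono ?_) (pr_NoO hδ hoddE hr c k)
  rintro ω hω ⟨⟨i, hi, hi', v, hv, t, ht, hvt⟩, hnot⟩ hO
  obtain ⟨t1, ht1, hvt1⟩ := first_TV hWL ht hvt
  have hno : ¬ Co (η ω \ Z) v t1 := fun h =>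
    hnot ⟨i, hi, hi', v, hv, t1, ht1, h.mono subset_union_left⟩
  obtain ⟨u, u', b1, b2, b3⟩ := co_exit hvt1 hno
  have g4 : u + u' ∈ Z := by
    by_contra g4
    refine b3 (Relation.ReflTransGen.tail b1 ⟨b2.1, ?_⟩)
    have := b2.2
    simp only [mem_union, mem_sdiff] at this ⊢
    tauto
  have hu1 : ¬ Far (r + 1) c u := by
    have h1 := hZ _ g4
    rcases ends_of_add b2.1 with ⟨h3, -⟩ | ⟨h3, -⟩ <;> rw [h3]
    · exact h1.1
    · exact h1.2
  have key : ∀ w, Co (η ω \ Z) v w → ∃ z, Far (4 ^ k * r) c z ∧ Co ω z w := by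
    intro w hw
    induction hw with
    | refl => exact ⟨v, hfar i hi hi' v hv, Co.refl _ _⟩
    | @tail b b' hb hbb ih =>
      obtain ⟨z, hz1, hz2⟩ := ih
      rcases mem_union.1 (hη ω hω (mem_sdiff.1 hbb.2).1) with h1 | h1
      · exact ⟨z, hz1, Relation.ReflTransGen.tail hz2 ⟨hbb.1, h1⟩⟩
      · refine ⟨b', ?_, Co.refl _ _⟩
        rcases ends_of_add hbb.1 with ⟨-, h3⟩ | ⟨-, h3⟩ <;> rw [h3]
        · exact (hF _ h1).2
        · exact (hF _ h1).1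
  obtain ⟨z, hz1, hz2⟩ := key u b1
  exact hO u z hu1 hz1 hz2.symm

end Pool.Agent.H21.Q1
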