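import Mathlib
import Pool.Agent.H21.Q1.Cmp
import Pool.Agent.H21.Q1.PolyZ

set_option autoImplicit false
open Finset

/-! Module M3 of Q1: comparison of the root event of an environment with the crossing event of a
polygon whose labels are free. -/

namespace Pool.Agent.H21.Q1

open Pool.Agent.H75.Perc Pool.Agent.H75.TwoArm Pool.Agent.H75.Four Pool.Agent.H99.NC
open Pool.Agent.H69.Q1 (DEnv)
open Pool.Agent.H28.Q1 Pool.Agent.Q1.M3
open Pool.Agent.H49.Q1 (gs gcell mem_gs CJ)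
open Pool.Agent.Q1.M4 (PType)
open Pool.Agent.Q1.M5 (EL WL CI CT TV sV sL lv)
open Pool.Agent.H77.Q1 (lbf mem_du' Far unit4_neg)

variable {E0 : DEnv} {K : Finset (ℤ × ℤ)} {j0 : ℕ} {t : ℤ × ℤ} {P : PType} {X Y : ℤ → ℤ}

/-- The polygon and the environment: `Z` = zones of the environment, `Z2` = zones of the polygon. -/
structure PCmp (E0 : DEnv) (K : Finset (ℤ × ℤ)) (j0 : ℕ) (P : PType) (X Y : ℤ → ℤ)
    (Z Z2 : Finset (ℤ × ℤ)) (k y n h : ℕ) : Prop where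
  hG : gs X Y P.Q ⊆ EX0 E0 K
  /-- wired vertices are tied -/
  tA : ∀ v, TV P X Y v → (∃ e ∈ EL P X Y \ Z2, v = eu e ∨ v = ev e) → PTie E0 K Z k v
  /-- free labels are tied -/
  tL : ∀ j, h ≤ j → j < P.m → ∀ e ∈ sL X Y (P.side j), e ∉ Z2 → e ∉ WL P X Y →
    DTie E0 K Z k (ofk (P.side j).2 e)
  /-- positions of the labels on the sides after the cut -/
  hI : ∀ i, n ≤ i → i < h → ∀ v, sV X Y (P.side i) v → v ≠ lv P X Y i → v ≠ lv P X Y (i + 1) →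
    (∃ e ∈ EL P X Y \ Z2, v = eu e ∨ v = ev e) → ∃ j, y ≤ j ∧ j < per E0 K ∧
      rl E0 K j ∈ perp K ∧ rl E0 K j ∈ E0.E ∧ (v = eu (rl E0 K j) ∨ v = ev (rl E0 K j))
  /-- faces behind the sides before the cut -/
  hL : ∀ i < n, ∀ e ∈ sL X Y (P.side i), e ∉ Z2 → e ∉ WL P X Y → ∃ a, j0 < a ∧ a ≤ y ∧
    a ≤ per E0 K ∧ fi (rc E0 K a) = ofk (P.side i).2 e
  /-- the sides of the run do not meet the wired arc -/
  dis : ∀ i, n ≤ i → i < h → ∀ v, sV X Y (P.side i) v → ¬ TV P X Y v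
  wl : ∀ e ∈ WL P X Y, TV P X Y (eu e) ∧ TV P X Y (ev e)
  sl : ∀ i, ∀ e ∈ sL X Y (P.side i), e ∈ gs X Y P.Q

variable {Z Z2 : Finset (ℤ × ℤ)} {k y n h : ℕ} {δ : ℝ}

lemma Pr_not' (E : Finset (ℤ × ℤ)) (A : Finset (ℤ × ℤ) → Prop) :
    Pr E (fun ω => ¬ A ω) = 1 - Pr E A := by
  classical
  rw [Pr_eq, Pr_eq, eq_sub_iff_add_eq, ← add_div, div_eq_one_iff_eq (by positivity)]
  have h := Finset.card_filter_add_card_filter_not (s := E.powerset) (fun ω => A ω)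
  rw [card_powerset] at h
  have h2 : ((E.powerset.filter (fun ω => ¬ A ω)).card + (E.powerset.filter (fun ω => A ω)).card : ℕ)
      = 2 ^ E.card := by omega
  exact_mod_cast h2

lemma last_step {L : Finset (ℤ × ℤ)} {v w : ℤ × ℤ} (h : Co L v w) (hne : v ≠ w) :
    ∃ b, Co L v b ∧ Ad L b w := by
  rcases Relation.ReflTransGen.cases_tail h with h1 | ⟨b, h1, h2⟩
  · exact absurd h1.symm hne
  · exact ⟨b, h1, h2⟩

lemma last_end {L : Finset (ℤ × ℤ)} {v w : ℤ × ℤ} (h : Co L v w) (hne : v ≠ w) :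
    ∃ e ∈ L, w = eu e ∨ w = ev e := by
  obtain ⟨b, -, h2⟩ := last_step h hne
  refine ⟨_, h2.2, ?_⟩
  rcases ends_of_add h2.1 with ⟨-, h3⟩ | ⟨-, h3⟩
  · exact Or.inr h3
  · exact Or.inl h3

/-- the exceptional event: a corner of the run is joined to the wired arc -/
def Cor (P : PType) (X Y : ℤ → ℤ) (n h : ℕ) (ω : Finset (ℤ × ℤ)) : Prop :=
  ∃ i, n ≤ i ∧ i ≤ h ∧ ∃ v, TV P X Y v ∧ Co ω (lv P X Y i) v

/-- **(I)** -/
theorem PCmp.one (hδ : Dcy δ) (hK : Sol E0 K) (hR : Root E0 K j0 t) (hInv : InvL E0)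
    (hodd : ∀ e ∈ E0.E, (e.1 + e.2) % 2 = 1) (H : PCmp E0 K j0 P X Y Z Z2 k y n h) :
    Pr (EL P X Y) (fun ω => CI P X Y n h (ω \ Z2)) ≤
      Pr E0.E (fun ω => Ev E0 K j0 t y (ω ∪ (EX0 E0 K ∩ Z))) + (1 - δ) ^ k +
        Pr (EL P X Y) (Cor P X Y n h) := by
  classical
  have hGE : gs X Y P.Q ⊆ E0.E := H.hG.trans sdiff_subset
  have hsub : EL P X Y ⊆ E0.E := EL_gs.trans hGE
  set VA : Finset (ℤ × ℤ) := ((EL P X Y \ Z2).biUnion fun e => {eu e, ev e}).filter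
    fun v => TV P X Y v with hVA
  have hVAt : ∀ v ∈ VA, PTie E0 K Z k v := by
    intro v hv
    obtain ⟨h1, h2⟩ := mem_filter.1 hv
    obtain ⟨e, h3, h4⟩ := mem_biUnion.1 h1
    rw [mem_insert, mem_singleton] at h4
    exact H.tA v h2 ⟨e, h3, h4⟩
  have key := comp_I (y := y) (k := k) (Z := Z) hδ hK hR hInv hodd VA hVAt
    (A := fun ω => CI P X Y n h ((ω ∩ EL P X Y) \ Z2) ∧ ¬ Cor P X Y n h (ω ∩ EL P X Y)) ?_
  · have h1 : Pr (EL P X Y) (fun ω => CI P X Y n h (ω \ Z2) ∧ ¬ Cor P X Y n h ω) ≤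
        Pr E0.E (fun ω => Ev E0 K j0 t y (ω ∪ (EX0 E0 K ∩ Z))) + (1 - δ) ^ k := by
      rw [← Pr_restrict hsub]
      exact key
    have h2 : Pr (EL P X Y) (fun ω => CI P X Y n h (ω \ Z2)) ≤
        Pr (EL P X Y) (fun ω => CI P X Y n h (ω \ Z2) ∧ ¬ Cor P X Y n h ω) +
          Pr (EL P X Y) (Cor P X Y n h) := by
      refine le_trans (Pr_mono ?_) (Pr_or_le _ _ _)
      intro ω _ hci
      by_cases h' : Cor P X Y n h ω
      · exact Or.inr h'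
      · exact Or.inl ⟨hci, h'⟩
    linarith
  · rintro ω hω ⟨⟨i, hi, hi', v, hv, t0, ht0, hvt⟩, hcor⟩
    obtain ⟨t1, ht1, hvt1⟩ := first_TV H.wl ht0 hvt
    have hne : v ≠ t1 := fun h => H.dis i hi hi' v hv (h ▸ ht1)
    have hsub2 : (ω ∩ EL P X Y) \ Z2 ⊆ EL P X Y \ Z2 :=
      sdiff_subset_sdiff inter_subset_right (subset_refl _)
    obtain ⟨e, he, hte⟩ := last_end hvt1 hne
    obtain ⟨e', he', hve⟩ := last_end hvt1.symm hne.symm
    have hc1 : v ≠ lv P X Y i := by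
      intro h
      exact hcor ⟨i, hi, hi'.le, t1, ht1, by rw [← h]; exact hvt1.mono sdiff_subset⟩
    have hc2 : v ≠ lv P X Y (i + 1) := by
      intro h
      exact hcor ⟨i + 1, by omega, by omega, t1, ht1, by rw [← h]; exact hvt1.mono sdiff_subset⟩
    obtain ⟨j, a1, a2, a3, a4, a5⟩ := H.hI i hi hi' v hv hc1 hc2 ⟨e', hsub2 he', hve⟩
    refine ⟨t1, ?_, j, v, a1, a2, a3, a4, a5, ?_⟩
    · rw [hVA, mem_filter, mem_biUnion]
      exact ⟨⟨e, hsub2 he, by rw [mem_insert, mem_singleton]; exact hte⟩, ht1⟩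
    · refine hvt1.symm.mono ?_
      intro l hl
      have h1 := hsub2 hl
      rw [mem_sdiff] at h1 hl
      exact mem_sdiff.2 ⟨(mem_inter.1 hl.1).1, (mem_sdiff.1 (H.hG (EL_gs h1.1))).2⟩

/-- **(II)** -/
theorem PCmp.two (hδ : Dcy δ) (hK : Sol E0 K) (hR : Root E0 K j0 t)
    (hodd : ∀ e ∈ E0.E, (e.1 + e.2) % 2 = 1) (H : PCmp E0 K j0 P X Y Z Z2 k y n h)
    (hPD : PDual P X Y n h) :
    Pr (EL P X Y) (fun ω => ¬ CI P X Y n h (ω ∪ (Z2 ∩ EL P X Y))) ≤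
      Pr E0.E (fun ω => ¬ Ev E0 K j0 t y (ω \ Z)) + (1 - δ) ^ k := by
  classical
  have hGE : gs X Y P.Q ⊆ E0.E := H.hG.trans sdiff_subset
  have hsub : EL P X Y ⊆ E0.E := EL_gs.trans hGE
  set FL : Finset (ℤ × ℤ) := (Ico h P.m).biUnion fun j =>
    ((sL X Y (P.side j)).filter fun e => e ∉ Z2 ∧ e ∉ WL P X Y).image (ofk (P.side j).2) with hFL
  have hFLt : ∀ g ∈ FL, DTie E0 K Z k g := by
    intro g hg
    obtain ⟨j, h1, h2⟩ := mem_biUnion.1 hg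
    obtain ⟨e, h3, rfl⟩ := mem_image.1 h2
    obtain ⟨h4, h5, h6⟩ := mem_filter.1 h3
    rw [mem_Ico] at h1
    exact H.tL j h1.1 h1.2 e h4 h5 h6
  have key := comp_II (y := y) (k := k) (Z := Z) hδ hK hR hodd FL hFLt
    (A := fun ω => ¬ CI P X Y n h ((ω ∩ EL P X Y) ∪ (Z2 ∩ EL P X Y))) ?_
  · rw [← Pr_restrict hsub]
    exact key
  · intro ω hω hnot
    have hg : (ω ∩ EL P X Y) ∪ (Z2 ∩ EL P X Y) ⊆ gs X Y P.Q :=
      union_subset (inter_subset_right.trans EL_gs) (inter_subset_right.trans EL_gs)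
    obtain ⟨i, hi, e, he, j, hj, hj', e', he', a1, a2, a3⟩ := (hPD _ hg).1 hnot
    have heE : e ∈ EL P X Y := mem_EL.2 ⟨H.sl i e he, fun h => a1 (mem_union_right _ h)⟩
    have heE' : e' ∈ EL P X Y := mem_EL.2 ⟨H.sl j e' he', fun h => a2 (mem_union_right _ h)⟩
    have heZ : e ∉ Z2 := by
      simp only [mem_union, mem_inter] at a1
      tauto
    have heZ' : e' ∉ Z2 := by
      simp only [mem_union, mem_inter] at a2
      tauto
    obtain ⟨a, b1, b2, b3, b4⟩ := H.hL i hi e he heZ (mem_EL.1 heE).2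
    refine ⟨ofk (P.side j).2 e', ?_, a, b1, b2, b3, ?_⟩
    · rw [hFL, mem_biUnion]
      exact ⟨j, mem_Ico.2 ⟨hj, hj'⟩, mem_image.2 ⟨e', mem_filter.2
        ⟨he', heZ', (mem_EL.1 heE').2⟩, rfl⟩⟩
    · rw [b4]
      refine a3.symm.mono ?_
      intro l hl
      rw [mem_du'] at hl ⊢
      obtain ⟨g1, g2⟩ := hl
      have g3 : l - (1, 1) ∈ gs X Y P.Q := (mem_sdiff.1 g1).1
      refine ⟨H.hG g3, fun h => g2 ?_⟩
      by_cases hW : l - (1, 1) ∈ WL P X Y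
      · exact mem_union_right _ hW
      · exact mem_union_left _ (mem_union_left _ (mem_inter.2 ⟨h, mem_EL.2 ⟨g3, hW⟩⟩))

/-- **Comparison for one cut.** -/
theorem PCmp.main (hδ : Dcy δ) (hK : Sol E0 K) (hR : Root E0 K j0 t) (hInv : InvL E0)
    (hodd : ∀ e ∈ E0.E, (e.1 + e.2) % 2 = 1) (H : PCmp E0 K j0 P X Y Z Z2 k y n h)
    (hPD : PDual P X Y n h) {ηX ηP ηC : ℝ}
    (hX1 : Pr E0.E (fun ω => Ev E0 K j0 t y (ω ∪ Z)) ≤
      Pr E0.E (fun ω => Ev E0 K j0 t y ω) + ηX)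
    (hX2 : Pr E0.E (fun ω => Ev E0 K j0 t y ω) ≤
      Pr E0.E (fun ω => Ev E0 K j0 t y (ω \ Z)) + ηX)
    (hP1 : Pr (EL P X Y) (fun ω => CI P X Y n h (ω ∪ (Z2 ∩ EL P X Y))) ≤
      Pr (EL P X Y) (fun ω => CI P X Y n h ω) + ηP)
    (hP2 : Pr (EL P X Y) (fun ω => CI P X Y n h ω) ≤
      Pr (EL P X Y) (fun ω => CI P X Y n h (ω \ Z2)) + ηP)
    (hC : Pr (EL P X Y) (Cor P X Y n h) ≤ ηC) :
    |Pr E0.E (fun ω => Ev E0 K j0 t y ω) - Pr (EL P X Y) (fun ω => CI P X Y n h ω)| ≤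
      ηX + ηP + ηC + (1 - δ) ^ k := by
  have h1 := H.one hδ hK hR hInv hodd
  have h2 := H.two hδ hK hR hodd hPD
  have h3 : Pr E0.E (fun ω => Ev E0 K j0 t y (ω ∪ (EX0 E0 K ∩ Z))) ≤
      Pr E0.E (fun ω => Ev E0 K j0 t y (ω ∪ Z)) :=
    Pr_mono fun ω _ h => h.mono (union_subset_union (subset_refl _) inter_subset_right)
  have h4 : Pr (EL P X Y) (fun ω => ¬ CI P X Y n h (ω ∪ (Z2 ∩ EL P X Y))) =
      1 - Pr (EL P X Y) (fun ω => CI P X Y n h (ω ∪ (Z2 ∩ EL P X Y))) := Pr_not' _ _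
  have h5 : Pr E0.E (fun ω => ¬ Ev E0 K j0 t y (ω \ Z)) =
      1 - Pr E0.E (fun ω => Ev E0 K j0 t y (ω \ Z)) := Pr_not' _ _
  have h6 : 0 ≤ ηC := (Pr_nonneg _ _).trans hC
  rw [abs_le]
  constructor <;> linarith

end Pool.Agent.H21.Q1
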