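import Mathlib
import Pool.Agent.H21.Q1.PolyCmp
import Pool.Agent.H48.Q1.M3.PConv
import Pool.Agent.H48.Q1.M3.RootLt

set_option autoImplicit false
open Finset

/-! Module M3 of Q1: the type of a step in the notation of the data `d : SD`. -/

namespace Pool.Agent.H21.Q1

open Pool.Agent.H75.Perc hiding WL
open Pool.Agent.H75.TwoArm Pool.Agent.H75.Four
open Pool.Agent.Q1.M3 Pool.Agent.Q1.M3.Pg
open Pool.Agent.H49.Q1 (gs gcell mem_gs CJ)
open Pool.Agent.Q1.M4 (PType IsSide nextSide isSide_iter tail)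
open Pool.Agent.Q1.M5 (EL WL CI CT TV sV sL lv)
open Pool.Agent.H5.Q1 (sp slen gp)
open Pool.Agent.H4.Q1 (Gap)

lemma gap_mono {X : ℤ → ℤ} (h : Gap X) : StrictMono X := by
  refine strictMono_int_of_lt_succ fun i => ?_
  have := h i
  omega

/-- duality in a polygon -/
theorem pDual (P : PType) {X Y : ℤ → ℤ} (hX : Gap X) (hY : Gap Y) {n1 n2 : ℕ} (h1 : 0 < n1)
    (h12 : n1 < n2) (h2 : n2 < P.m) : PDual P X Y n1 n2 := by
  intro ω hω
  constructor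
  · intro h
    obtain ⟨i, hi, j, hj, a1, i', hi', hi'', j', hj', a2, a3⟩ :=
      poly_dual P (gap_mono hX) (gap_mono hY) h1 h12 h2 hω h
    refine ⟨i, hi, _, sl'_mem (gap_mono hX) (gap_mono hY) _ hj, i', hi', hi'', _, sl'_mem (gap_mono hX) (gap_mono hY) _ hj',
      a1, a2, ?_⟩
    have e1 : ofk (P.side i).2 (sl' X Y (P.side i) j) = ofc X Y (P.side i) j := by
      rw [ofc_eq]; rfl
    have e2 : ofk (P.side i').2 (sl' X Y (P.side i') j') = ofc X Y (P.side i') j' := by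
      rw [ofc_eq]; rfl
    rw [e1, e2]
    exact a3
  · rintro ⟨i, hi, e, he, j, hj, hj', e', he', -, -, a3⟩
    exact Pool.Agent.H48.Q1.M3.poly_dual_rev hX hY hω hi he hj hj' he' a3

variable {d : SD} {o : ℂ} {δ : ℝ}

lemma gapX (hf : d.Fine o δ) : Gap (LX d.K o.re δ) := by
  intro i
  have h1 := LX_step (K := d.K) (o := o.re) hf.hδ (c := 2) (by
    have := hf.hm
    have := hf.hδ
    linarith) i
  have h2 : ((LX d.K o.re δ i + 2 : ℤ) : ℝ) ≤ (LX d.K o.re δ (i + 1) : ℤ) := by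
    push_cast
    linarith
  exact_mod_cast h2

lemma gapY (hf : d.Fine o δ) : Gap (LX d.K o.im δ) := by
  intro i
  have h1 := LX_step (K := d.K) (o := o.im) hf.hδ (c := 2) (by
    have := hf.hm
    have := hf.hδ
    linarith) i
  have h2 : ((LX d.K o.im δ i + 2 : ℤ) : ℝ) ≤ (LX d.K o.im δ (i + 1) : ℤ) := by
    push_cast
    linarith
  exact_mod_cast h2

lemma sid_N (h : d.Ok) (s : ℕ) : d.sid (s + d.N) = ((d.sid s).1, (d.sid s).2 + 4) :=
  iter_shift h.mark.walk s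

section

variable (h : d.Ok) (hr : d.n1 < d.n2)

lemma T_sd (n : ℕ) : (h.T hr).side n = d.sid (n + d.n1) := h.T_side hr n

lemma T_m : (h.T hr).m = d.N - d.n1 := rfl

lemma T_N : (h.T hr).N = d.N := rfl

lemma T_gs : gs (LX d.K o.re δ) (LX d.K o.im δ) (h.T hr).Q = d.G o δ := rfl

lemma wlT (hf : d.Fine o δ) : ∀ e ∈ WL (h.T hr) (LX d.K o.re δ) (LX d.K o.im δ),
    TV (h.T hr) (LX d.K o.re δ) (LX d.K o.im δ) (eu e) ∧
      TV (h.T hr) (LX d.K o.re δ) (LX d.K o.im δ) (ev e) := fun _ he =>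
  Pool.Agent.H4.Q1.WL_ends he

lemma slT (i : ℕ) : ∀ e ∈ sL (LX d.K o.re δ) (LX d.K o.im δ) ((h.T hr).side i),
    e ∈ d.G o δ := by
  intro e he
  have h1 : IsSide d.R (d.sid (i + d.n1)) := SD.isSide h _
  rw [T_sd] at he
  unfold sL at he
  exact mem_gs.2 ⟨_, h1.1, (mem_filter.1 he).1⟩

/-- points of a side with shifted direction -/
lemma sp_shift (X Y : ℤ → ℤ) (c : ℤ × ℤ) (k : ℤ) (j : ℕ) : sp X Y (c, k + 4) j = sp X Y (c, k) j := by
  unfold sp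
  have h1 : tail (c, k + 4) = tail (c, k) := by
    unfold tail
    simp only
    rw [show (k + 4) % 4 = k % 4 by omega]
  have h2 : dir (k + 4) = dir k := Pool.Agent.Q1.M4.dir_congr (by omega)
  rw [h1]
  simp only [h2]

lemma slen_shift (X Y : ℤ → ℤ) (c : ℤ × ℤ) (k : ℤ) : slen X Y (c, k + 4) = slen X Y (c, k) := by
  unfold slen
  simp only
  rw [show (k + 4) % 2 = k % 2 by omega]

/-- vertices of the wired arc -/
lemma TV_side (hf : d.Fine o δ) {v : ℤ × ℤ}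
    (hv : TV (h.T hr) (LX d.K o.re δ) (LX d.K o.im δ) v) :
    ∃ s < d.n1, ∃ j ≤ d.ln o δ s, v = d.pt' o δ s j := by
  obtain ⟨n, h1, h2, h3⟩ := hv
  rw [T_m] at h1
  rw [T_N] at h2
  have hle := h.mark.le
  have hle' := h.mark.le'
  rw [T_sd] at h3
  obtain ⟨s, rfl⟩ : ∃ s, n = s + (d.N - d.n1) := ⟨n - (d.N - d.n1), by omega⟩
  rw [show s + (d.N - d.n1) + d.n1 = s + d.N by omega, sid_N h] at h3
  obtain ⟨j, h4, h5⟩ := Pool.Agent.H29.Q1.sp_of_sV (gap_mono (gapX hf)) (gap_mono (gapY hf)) _ h3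
  rw [slen_shift] at h4
  rw [sp_shift] at h5
  exact ⟨s, by omega, j, h4, h5⟩

/-- labels of a side and their outer faces -/
lemma sL_side (hf : d.Fine o δ) {i : ℕ} {e : ℤ × ℤ}
    (he : e ∈ sL (LX d.K o.re δ) (LX d.K o.im δ) ((h.T hr).side i)) :
    ∃ j < d.ln o δ (i + d.n1), e = sl' (LX d.K o.re δ) (LX d.K o.im δ) (d.sid (i + d.n1)) j ∧
      ofk ((h.T hr).side i).2 e = d.of' o δ (i + d.n1) j := by
  have hodd : (e.1 + e.2) % 2 = 1 := odd_gs (slT h hr i e he)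
  obtain ⟨j, h1, h2⟩ := exists_sl' (gap_mono (gapX hf)) (gap_mono (gapY hf)) ((h.T hr).side i) hodd
    ((sL_iff' _ hodd).1 he)
  rw [T_sd] at h1 h2
  refine ⟨j, h1, h2.symm, ?_⟩
  rw [T_sd, ← h2]
  unfold SD.of'
  rw [ofc_eq]
  rfl

/-- vertices of a side which are not corners -/
lemma sV_side (hf : d.Fine o δ) {i : ℕ} {v : ℤ × ℤ}
    (hv : sV (LX d.K o.re δ) (LX d.K o.im δ) ((h.T hr).side i) v)
    (h1 : v ≠ lv (h.T hr) (LX d.K o.re δ) (LX d.K o.im δ) i)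
    (h2 : v ≠ lv (h.T hr) (LX d.K o.re δ) (LX d.K o.im δ) (i + 1)) :
    ∃ j, 0 < j ∧ j < d.ln o δ (i + d.n1) ∧ v = d.pt' o δ (i + d.n1) j := by
  rcases Pool.Agent.H48.Q1.M3.sV_cases (gapX hf) (gapY hf) hv with ⟨j, a, b, c⟩ | h3 | h3
  · rw [T_sd] at b c
    exact ⟨j, a, b, c⟩
  · exact absurd h3 h1
  · exact absurd h3 h2

/-- vertices of a side -/
lemma sV_side' (hf : d.Fine o δ) {i : ℕ} {v : ℤ × ℤ}
    (hv : sV (LX d.K o.re δ) (LX d.K o.im δ) ((h.T hr).side i) v) :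
    ∃ j ≤ d.ln o δ (i + d.n1), v = d.pt' o δ (i + d.n1) j := by
  rw [T_sd] at hv
  exact Pool.Agent.H29.Q1.sp_of_sV (gap_mono (gapX hf)) (gap_mono (gapY hf)) _ hv

end

end Pool.Agent.H21.Q1
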