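import Mathlib
import Pool.Agent.H21.Q1.Cmp
import Pool.Agent.H42.Q1.Route
import Pool.Agent.Q1.M3.Pg.MainF
import Pool.Agent.Q1.M3.Pg.Tie

set_option autoImplicit false
open Finset

/-! Module M3 of Q1: primal and dual ties with isolation from short connections and the absence of
small crosscuts (`NoCut`). -/

namespace Pool.Agent.H21.Q1

open Pool.Agent.H75.Perc Pool.Agent.H75.TwoArm Pool.Agent.H75.Four Pool.Agent.H99.NC
open Pool.Agent.H69.Q1 Pool.Agent.H39.Q1 Pool.Agent.H28.Q1 Pool.Agent.Q1.M3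
open Pool.Agent.H42.Q1 (ends_add co_ends RB)
open Pool.Agent.H77.Q1 (lbf mem_du' Far unit4_neg)
open Pool.Agent.Q1.M3.Pg (Cf lf2 cor_label mainFace MainFace)
open Pool.Agent.H75.TwoArm.StrandAux hiding vx_nxC

variable {X : DEnv} {K : Finset (ℤ × ℤ)} {j0 : ℕ} {t : ℤ × ℤ}

/-- No crosscut of free labels inside the rectangle joins the wired to the closed boundary. -/
def NoCut (X : DEnv) (p q r s : ℤ) : Prop := ∀ T ⊆ X.E, (∀ t ∈ T, RB p q r s (eu t) ∧
  RB p q r s (ev t)) → (∀ t ∈ T, Co (T ∪ X.W) (vx X.β) (eu t)) → ∀ z z' f : ℤ × ℤ,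
  IsUnit4 (z' - z) → z + z' - (1, 1) ∈ T → RB (p + 1) q (r + 1) s z →
  CoX (du X.E ∅) (RB (p + 1) q (r + 1) s) z f → ClJ X (fi X.α) f → False

lemma lbf_comm' (g g' : ℤ × ℤ) : lbf g' g = lbf g g' := by unfold lbf; abel

/-- faces of a label at an end -/
lemma cf_of_face {z z' u : ℤ × ℤ} (hz : IsUnit4 (z' - z)) (hu : u = eu (lbf z z') ∨
    u = ev (lbf z z')) : Cf z u := by
  have a := unit_cases hz
  unfold Cf
  unfold lbf eu ev at hu
  simp only [Prod.fst_sub, Prod.fst_add, Prod.snd_sub, Prod.snd_add] at hu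
  rcases hu with rfl | rfl <;> simp only <;> omega

/-- a label has faces -/
lemma exists_face {e u : ℤ × ℤ} (he : (e.1 + e.2) % 2 = 1) (hu : u = eu e ∨ u = ev e) :
    ∃ z z', IsUnit4 (z' - z) ∧ lbf z z' = e ∧ Cf z u := by
  obtain ⟨a, b⟩ := e
  simp only at he
  rcases (by omega : a % 2 = 0 ∨ a % 2 = 1) with h | h
  · refine ⟨(a / 2, (b + 1) / 2), (a / 2 + 1, (b + 1) / 2), Or.inl ?_, ?_, ?_⟩
    · ext <;> simp
    · unfold lbf
      ext <;> simp <;> omega
    · unfold eu ev at hu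
      unfold Cf
      rcases hu with hu | hu <;> rw [hu] <;> dsimp only <;> constructor <;> omega
  · refine ⟨((a + 1) / 2, b / 2), ((a + 1) / 2, b / 2 + 1), Or.inr (Or.inl ?_), ?_, ?_⟩
    · ext <;> simp
    · unfold lbf
      ext <;> simp <;> omega
    · unfold eu ev at hu
      unfold Cf
      rcases hu with hu | hu <;> rw [hu] <;> dsimp only <;> constructor <;> omega

/-- The faces around a vertex all labels of which are free are visible. -/
lemma mn_around {u : ℤ × ℤ} (hu : ∀ e ∈ star1 u, e ∉ kp X K ∪ X.W) {z z' : ℤ × ℤ} (hz : Cf z u)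
    (hz' : Cf z' u) (h : Mn X K z) : Mn X K z' := by
  obtain ⟨a, b⟩ := u
  obtain ⟨x, y⟩ := z
  obtain ⟨x', y'⟩ := z'
  unfold Cf at hz hz'
  simp only at hz hz'
  have h1 : Mn X K (x', y) := by
    by_cases hx : x' = x
    · rw [hx]; exact h
    refine h.step (g' := (x', y)) ?_ (hu _ ?_)
    · unfold IsUnit4
      rw [Prod.ext_iff, Prod.ext_iff, Prod.ext_iff, Prod.ext_iff]
      simp only [Prod.fst_sub, Prod.snd_sub]
      omega
    · unfold lbf star1
      simp only [mem_insert, mem_singleton, Prod.mk_add_mk, Prod.mk_sub_mk, Prod.mk.injEq]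
      omega
  by_cases hy : y' = y
  · rw [hy]; exact h1
  refine h1.step (g' := (x', y')) ?_ (hu _ ?_)
  · unfold IsUnit4
    rw [Prod.ext_iff, Prod.ext_iff, Prod.ext_iff, Prod.ext_iff]
    simp only [Prod.fst_sub, Prod.snd_sub]
    omega
  · unfold lbf star1
    simp only [mem_insert, mem_singleton, Prod.mk_add_mk, Prod.mk_sub_mk, Prod.mk.injEq]
    omega

/-- bounds for the ends of a label near `c` -/
lemma ends_bound {m c : ℤ × ℤ} {s : ℤ} (h : |m.1 - 2 * c.1| ≤ 2 * s ∧ |m.2 - 2 * c.2| ≤ 2 * s)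
    {u : ℤ × ℤ} (hu : u = eu m ∨ u = ev m) :
    c.1 - s ≤ u.1 ∧ u.1 ≤ c.1 + s ∧ c.2 - s ≤ u.2 ∧ u.2 ≤ c.2 + s := by
  rw [abs_le, abs_le] at h
  unfold eu ev at hu
  rcases hu with rfl | rfl <;> simp only <;> omega

lemma not_kpW {u : ℤ × ℤ} (hu : u ∉ K) {e : ℤ × ℤ} (he : e ∈ star1 u) (hE : e ∈ X.E) :
    e ∉ kp X K ∪ X.W := by
  rw [mem_union, not_or]
  refine ⟨fun h => ?_, fun h => disjoint_left.1 X.disj hE h⟩
  have h1 := (mem_kap_iff (odd_star1 he)).1 (kp_kap h)
  rcases (mem_star1_iff (odd_star1 he)).1 he with h2 | h2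
  · exact hu (h2 ▸ h1.1)
  · exact hu (h2 ▸ h1.2)

/-- **A primal tie from a connection.** -/
theorem ptie_of (hK : Sol X K) (hL : InvL X) (hodd : ∀ e ∈ X.E, (e.1 + e.2) % 2 = 1)
    {Z T : Finset (ℤ × ℤ)} {k : ℕ} {v c : ℤ × ℤ} {r D : ℤ} (hT : T ⊆ EX0 X K \ Z)
    (hv : v ∉ K) (hMn : ∀ g, Cf g v → Mn X K g) (hcon : Co (T ∪ Wt X K) v (vx X.α))
    (hr : 1 ≤ r) (hrD : 4 ^ k * r ≤ D)
    (hnear : ∀ m ∈ T, |m.1 - 2 * c.1| ≤ 2 * r - 2 ∧ |m.2 - 2 * c.2| ≤ 2 * r - 2)
    (hNC : NoCut X (c.1 - D) (c.1 + D) (c.2 - D) (c.2 + D)) : PTie X K Z k v := by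
  classical
  have hrD' : r ≤ D := by
    have : (1 : ℤ) ≤ 4 ^ k := one_le_pow₀ (by norm_num)
    nlinarith
  have hTE : T ⊆ X.E := fun e he => (mem_sdiff.1 (mem_sdiff.1 (hT he)).1).1
  have hTst : ∀ e ∈ T, e ∉ star K := fun e he => (mem_sdiff.1 (mem_sdiff.1 (hT he)).1).2
  -- strongly joined labels
  set T1 := T.filter fun l => Co (T ∪ Wt X K) (eu l) (vx X.α) with hT1
  have hc1 : Co (T1 ∪ Wt X K) v (vx X.α) := Pool.Agent.H77.Q1.co_strong hcon _ fun _ _ h => h
  have hs1 : ∀ l ∈ T1, Co (T1 ∪ Wt X K) (eu l) (vx X.α) := fun l hl =>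
    Pool.Agent.H77.Q1.co_strong (mem_filter.1 hl).2 _ fun _ _ h => h
  have hT1T : T1 ⊆ T := filter_subset _ _
  have toW : ∀ {A : Finset (ℤ × ℤ)} {w : ℤ × ℤ}, Co (A ∪ Wt X K) w (vx X.α) →
      Co (A ∪ X.W) (vx X.β) w := by
    intro A w h
    exact (hK.inv.co_W.mono subset_union_right).trans
      (h.symm.mono (union_subset_union (subset_refl _) Wt_W))
  -- no crosscut at a face next to `T1`
  have hcut : ∀ z z' f, IsUnit4 (z' - z) → lbf z z' ∈ T1 →
      CoX (du X.E ∅) (RB (c.1 - D + 1) (c.1 + D) (c.2 - D + 1) (c.2 + D)) z f →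
      ¬ ClJ X (fi X.α) f := by
    intro z z' f h1 h2 h3 h4
    refine hNC T1 (hT1T.trans hTE) ?_ (fun l hl => toW (hs1 l hl)) z z' f h1 h2 ?_ h3 h4
    · intro l hl
      have h5 := hnear l (hT1T hl)
      have h6 := ends_bound (s := r - 1) (by rw [show 2 * (r - 1) = 2 * r - 2 by ring]; exact h5)
        (Or.inl rfl : eu l = eu l ∨ eu l = ev l)
      have h7 := ends_bound (s := r - 1) (by rw [show 2 * (r - 1) = 2 * r - 2 by ring]; exact h5)
        (Or.inr rfl : ev l = eu l ∨ ev l = ev l)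
      unfold RB
      omega
    · have h5 := hnear _ (hT1T h2)
      have h6 := ends_bound (s := r - 1) (by rw [show 2 * (r - 1) = 2 * r - 2 by ring]; exact h5)
        (Or.inl rfl : eu (lbf z z') = eu (lbf z z') ∨ eu (lbf z z') = ev (lbf z z'))
      have h7 := cf_of_face h1 (Or.inl rfl)
      unfold Cf at h7
      unfold RB
      omega
  -- labels with visible faces
  set T2 := T1.filter fun l => ∀ z z', IsUnit4 (z' - z) → lbf z z' = l → Mn X K z with hT2
  have hT2T1 : T2 ⊆ T1 := filter_subset _ _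
  have hc2 : Co (T2 ∪ Wt X K) v (vx X.α) := by
    by_contra hcon2
    obtain ⟨u, u', b1, b2, b3⟩ := co_exit hc1 hcon2
    have hlT1 : u + u' ∈ T1 := by
      rcases mem_union.1 b2.2 with h | h
      · exact h
      · exact absurd (Relation.ReflTransGen.tail b1 ⟨b2.1, mem_union_right _ h⟩) b3
    have hends := ends_of_add b2.1
    have hnW : ∀ w, Co (T2 ∪ Wt X K) v w → ¬ Co (Wt X K) (vx X.α) w := fun w h1 h2 =>
      hcon2 (h1.trans (h2.symm.mono subset_union_right))
    -- the path does not use wired labels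
    have hpath : ∀ w, Co (T2 ∪ Wt X K) v w → Co T2 v w ∧
        (w = v ∨ ∃ l ∈ T2, w = eu l ∨ w = ev l) := by
      intro w hw
      induction hw with
      | refl => exact ⟨Co.refl _ _, Or.inl rfl⟩
      | @tail b b' hb hbb ih =>
        have hends' := ends_of_add hbb.1
        rcases mem_union.1 hbb.2 with h1 | h1
        · refine ⟨Relation.ReflTransGen.tail ih.1 ⟨hbb.1, h1⟩, Or.inr ⟨_, h1, ?_⟩⟩
          rcases hends' with ⟨-, h2⟩ | ⟨-, h2⟩
          · exact Or.inr h2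
          · exact Or.inl h2
        · exfalso
          have h2 : Co (X.W \ star K) (vx X.α) (eu (b + b')) := by
            have h3 := h1
            unfold Wt at h3
            exact (mem_filter.1 h3).2
          have h3 := co_Wt h2
          refine hnW b hb ?_
          rcases hends' with ⟨h4, -⟩ | ⟨h4, -⟩
          · rw [h4]; exact h3
          · rw [h4]
            exact h3.trans (co_ends (ends_add hbb.1).1 h1)
    have hu := hpath u b1
    have huK : u ∉ K := notMem_of_co (fun e he => hTst e (hT1T (hT2T1 he))) hv hu.1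
    -- all faces at `u` are visible
    have hall : ∀ g, Cf g u → Mn X K g := by
      rcases hu.2 with rfl | ⟨l, hl, hlu⟩
      · exact hMn
      have hlodd := hodd l (hTE (hT1T (hT2T1 hl)))
      obtain ⟨z0, z0', c1, c2, c3⟩ := exists_face hlodd hlu
      have hz0 : Mn X K z0 := (mem_filter.1 hl).2 z0 z0' c1 c2
      by_cases hst : star1 u ⊆ X.E
      · exact fun g hg => mn_around (fun e he => not_kpW huK he (hst he)) c3 hg hz0
      · exfalso
        obtain ⟨c', e', d1, d2, d3, d4⟩ := cor_label c3 hst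
        have hl1 : lbf z0 z0' ∈ T1 := by rw [c2]; exact hT2T1 hl
        have hMc : Mn X K (fi c') := by
          rcases d4 with d4 | ⟨d4, d5, -, -, d6⟩
          · rw [d4]; exact hz0
          · refine hz0.step d4 (not_kpW huK ?_ d5)
            exact (mem_star1_iff (hodd _ d5)).2 d6
        rcases mainFace hK hL c' e' (by rw [d1]; exact huK) d2 d3 hMc with ⟨-, h5⟩ | h5
        · rw [d1] at h5
          exact hnW u b1 h5
        · refine hcut z0 z0' (fi c') c1 hl1 ?_ h5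
          rcases d4 with d4 | ⟨d4, d5, -, -, -⟩
          · rw [d4]; exact Relation.ReflTransGen.refl
          · refine Relation.ReflTransGen.single ⟨(ad_du0.2 ⟨d4, d5⟩), ?_⟩
            have h6 := hnear l (hT1T (hT2T1 hl))
            have h7 := ends_bound (s := r - 1)
              (by rw [show 2 * (r - 1) = 2 * r - 2 by ring]; exact h6) hlu
            have h8 : Cf (fi c') u := by
              rw [← d1]
              have := Pool.Agent.Q1.M3.Pg.lab_corner c'
              have h9 := end_lab' c'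
              rcases h9 with h9 | h9
              · rw [h9]; exact this.1
              · rw [h9]; exact this.2.1
            unfold Cf at h8
            unfold RB
            omega
    refine b3 (Relation.ReflTransGen.tail b1 ⟨b2.1, mem_union_left _ ?_⟩)
    rw [hT2, mem_filter]
    refine ⟨hlT1, fun z z' g1 g2 => hall z ?_⟩
    refine cf_of_face g1 ?_
    rw [g2]
    rcases hends with ⟨h, -⟩ | ⟨h, -⟩
    · exact Or.inl h
    · exact Or.inr h
  -- the tie
  refine ⟨T2, c, r, D, hr, hrD, (hT2T1.trans hT1T).trans hT, fun m hm =>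
    hnear m (hT1T (hT2T1 hm)), hc2, fun z z' h1 h2 => (mem_filter.1 h2).2 z z' h1 rfl, ?_⟩
  intro z z' g h1 h2 h3
  refine hcut z z' g h1 (hT2T1 h2) ?_
  refine Relation.ReflTransGen.mono ?_ _ _ h3
  rintro a b ⟨⟨h4, h5⟩, h6⟩
  refine ⟨⟨h4, ?_⟩, ?_⟩
  · rw [mem_du'] at h5 ⊢
    exact ⟨(mem_sdiff.1 (mem_sdiff.1 h5.1).1).1, h5.2⟩
  · unfold Far at h6
    rw [not_or, not_le, not_le, abs_lt, abs_lt] at h6
    unfold RB
    omega

/-- **A dual tie from a connection.** -/
theorem dtie_of (hK : Sol X K) (hodd : ∀ e ∈ X.E, (e.1 + e.2) % 2 = 1)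
    {Z T : Finset (ℤ × ℤ)} {k : ℕ} {g0 f c : ℤ × ℤ} {r D : ℤ} (hT : T ⊆ EX0 X K \ Z)
    (hcon : Co (du T ∅) g0 f) (hf : ClJ X (fi X.α) f) (hr : 1 ≤ r) (hrD : 4 ^ k * r ≤ D)
    (hnear : ∀ m ∈ T, |m.1 - 2 * c.1| ≤ 2 * r - 3 ∧ |m.2 - 2 * c.2| ≤ 2 * r - 3)
    (hNC : NoCut X (c.1 - D) (c.1 + D) (c.2 - D) (c.2 + D)) : DTie X K Z k g0 := by
  classical
  have hrD' : r ≤ D := by
    have : (1 : ℤ) ≤ 4 ^ k := one_le_pow₀ (by norm_num)
    nlinarith
  have hTE : T ⊆ X.E := fun e he => (mem_sdiff.1 (mem_sdiff.1 (hT he)).1).1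
  set T1 := rch T g0 with hT1
  have hT1T : T1 ⊆ T := rch_sub
  have hc1 : Co (du T1 ∅) g0 f := rch_co hcon
  refine ⟨T1, c, r, D, f, hr, hrD, hT1T.trans hT, fun m hm => hnear m (hT1T hm), hc1, hf, ?_⟩
  intro v v' h h1 h2 h3 h4
  set l := v + v' with hl
  have hlodd : (l.1 + l.2) % 2 = 1 := hodd l (hTE (hT1T h2))
  have hlb : ∀ u, (u = eu l ∨ u = ev l) → c.1 - (r - 1) ≤ u.1 ∧ u.1 ≤ c.1 + (r - 1) ∧
      c.2 - (r - 1) ≤ u.2 ∧ u.2 ≤ c.2 + (r - 1) := fun u hu => by
    refine ends_bound (s := r - 1) ?_ hu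
    have := hnear l (hT1T h2)
    omega
  have hends := ends_of_add h1
  -- the labels of the box
  set B := X.E.filter fun e => RB (c.1 - D) (c.1 + D) (c.2 - D) (c.2 + D) (eu e) ∧
    RB (c.1 - D) (c.1 + D) (c.2 - D) (c.2 + D) (ev e) with hB
  have hRl : ∀ u, (u = eu l ∨ u = ev l) → RB (c.1 - D) (c.1 + D) (c.2 - D) (c.2 + D) u := by
    intro u hu
    have := hlb u hu
    unfold RB
    omega
  have hlB : l ∈ B := by
    rw [hB, mem_filter]
    exact ⟨hTE (hT1T h2), hRl _ (Or.inl rfl), hRl _ (Or.inr rfl)⟩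
  have hvl : v = eu l ∨ v = ev l := by
    rcases hends with ⟨h5, -⟩ | ⟨h5, -⟩
    · exact Or.inl h5
    · exact Or.inr h5
  have hpath : Co B v h ∧ RB (c.1 - D) (c.1 + D) (c.2 - D) (c.2 + D) h := by
    clear h4
    induction h3 with
    | refl => exact ⟨Co.refl _ _, hRl v hvl⟩
    | @tail a b _ hab ih =>
      obtain ⟨⟨h5, h6⟩, h7⟩ := hab
      have h8 : RB (c.1 - D) (c.1 + D) (c.2 - D) (c.2 + D) b := by
        unfold Far at h7
        rw [not_or, not_le, not_le, abs_lt, abs_lt] at h7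
        unfold RB
        omega
      refine ⟨Relation.ReflTransGen.tail ih.1 ⟨h5, ?_⟩, h8⟩
      rw [hB, mem_filter]
      refine ⟨(mem_sdiff.1 (mem_sdiff.1 h6).1).1, ?_⟩
      rcases ends_of_add h5 with ⟨g1, g2⟩ | ⟨g1, g2⟩
      · rw [← g1, ← g2]; exact ⟨ih.2, h8⟩
      · rw [← g1, ← g2]; exact ⟨h8, ih.2⟩
  have hvβ : Co (B ∪ X.W) v (vx X.β) :=
    ((hpath.1.mono subset_union_left).trans ((h4.mono Wt_W).mono subset_union_right).symm).trans
      (hK.inv.co_W.symm.mono subset_union_right)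
  set T0 := B.filter fun e => Co (B ∪ X.W) (eu e) (vx X.β) with hT0
  have hs0 : ∀ e ∈ T0, Co (T0 ∪ X.W) (vx X.β) (eu e) := fun e he =>
    (Pool.Agent.H77.Q1.co_strong (mem_filter.1 he).2 _ fun _ _ h => h).symm
  have hlT0 : l ∈ T0 := by
    rw [hT0, mem_filter]
    refine ⟨hlB, ?_⟩
    rcases hvl with h5 | h5
    · rw [← h5]; exact hvβ
    · have h6 := co_ends hlodd (mem_union_left X.W hlB)
      refine h6.trans ?_
      rw [← h5]
      exact hvβ
  obtain ⟨z, z', c1, c2, c3⟩ := exists_face hlodd hvl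
  have hzT : lbf z z' ∈ T1 := by rw [c2]; exact h2
  have hzf : Co (du T1 ∅) z f := (rch_face c1 hzT).trans hc1
  have hRz : RB (c.1 - D + 1) (c.1 + D) (c.2 - D + 1) (c.2 + D) z := by
    have h5 := hlb v hvl
    unfold Cf at c3
    unfold RB
    omega
  refine hNC T0 ((filter_subset _ _).trans (filter_subset _ _)) ?_ hs0 z z' f c1
    (by change lbf z z' ∈ T0; rw [c2]; exact hlT0) hRz ?_ hf
  · intro e he
    exact (mem_filter.1 ((filter_subset _ _) he)).2
  · have key : ∀ w, Co (du T1 ∅) z w →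
        CoX (du X.E ∅) (RB (c.1 - D + 1) (c.1 + D) (c.2 - D + 1) (c.2 + D)) z w := by
      intro w hw
      induction hw with
      | refl => exact Relation.ReflTransGen.refl
      | @tail a b ha hab ih =>
        rw [ad_du0] at hab
        refine Relation.ReflTransGen.tail ih ⟨ad_du0.2 ⟨hab.1, hTE (hT1T hab.2)⟩, ?_⟩
        have h5 := ends_bound (c := c) (s := r - 1) (by
          have := hnear _ (hT1T hab.2)
          omega) (Or.inl rfl : eu (lbf a b) = eu (lbf a b) ∨ eu (lbf a b) = ev (lbf a b))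
        have h6 : Cf b (eu (lbf a b)) := by
          refine cf_of_face (z' := a) (unit4_neg hab.1) (Or.inl ?_)
          rw [lbf_comm']
        unfold Cf at h6
        unfold RB
        omega
    exact key f hzf

end Pool.Agent.H21.Q1
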