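import Mathlib
import Pool.Agent.H21.Q1.PolyT
import Pool.Agent.H21.Q1.TieX

set_option autoImplicit false
open Finset

/-! Module M3 of Q1: real distances and lattice distances. -/

namespace Pool.Agent.H21.Q1

open Pool.Agent.H75.Perc hiding WL
open Pool.Agent.H75.TwoArm Pool.Agent.H75.Four
open Pool.Agent.Q1.M3 Pool.Agent.Q1.M3.Pg
open Pool.Agent.H77.Q1 (Far)
open Pool.Agent.H81.Q1 (pt)
open Pool.Agent.H42.Q1 (RB)

/-- lattice point near `p` -/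
noncomputable def flp (δ : ℝ) (p : ℂ) : ℤ × ℤ := (⌊p.re / δ⌋, ⌊p.im / δ⌋)

lemma abs_re_le_dist (z w : ℂ) : |z.re - w.re| ≤ dist z w := by
  rw [Complex.dist_eq, ← Complex.sub_re]
  exact Complex.abs_re_le_norm _

lemma abs_im_le_dist (z w : ℂ) : |z.im - w.im| ≤ dist z w := by
  rw [Complex.dist_eq, ← Complex.sub_im]
  exact Complex.abs_im_le_norm _

lemma dist_le_abs (z w : ℂ) : dist z w ≤ |z.re - w.re| + |z.im - w.im| := by
  rw [Complex.dist_eq, ← Complex.sub_re, ← Complex.sub_im]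
  exact Complex.norm_le_abs_re_add_abs_im _

variable {δ : ℝ}

lemma fl_bound (hδ : 0 < δ) (x : ℝ) : δ * ⌊x / δ⌋ ≤ x ∧ x < δ * ⌊x / δ⌋ + δ := by
  have h1 := Int.floor_le (x / δ)
  have h2 := Int.lt_floor_add_one (x / δ)
  rw [le_div_iff₀ hδ] at h1
  rw [div_lt_iff₀ hδ] at h2
  constructor <;> linarith

/-- near points -/
lemma near_of_dist (hδ : 0 < δ) {p : ℂ} {v : ℤ × ℤ} {ρ : ℝ} {m : ℤ} (h : dist (pt δ v) p < ρ)
    (hm : ρ + δ ≤ m * δ) : ¬ Far (m + 1) (flp δ p) v := by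
  have h1 := abs_re_le_dist (pt δ v) p
  have h2 := abs_im_le_dist (pt δ v) p
  have h3 := fl_bound hδ p.re
  have h4 := fl_bound hδ p.im
  unfold pt at h1 h2
  simp only at h1 h2
  unfold Far flp
  simp only
  rw [not_or, not_le, not_le, Int.lt_add_one_iff, Int.lt_add_one_iff, abs_le, abs_le]
  rw [abs_le] at h1 h2
  have key : ∀ {a b : ℤ} {x : ℝ}, -(dist (pt δ v) p) ≤ δ * a - x → δ * a - x ≤ dist (pt δ v) p →
      δ * b ≤ x → x < δ * b + δ → -m ≤ a - b ∧ a - b ≤ m := by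
    intro a b x g1 g2 g3 g4
    constructor
    · have : (-(m : ℝ)) * δ ≤ ((a - b : ℤ) : ℝ) * δ := by
        push_cast
        nlinarith
      have := le_of_mul_le_mul_right this hδ
      exact_mod_cast this
    · have : ((a - b : ℤ) : ℝ) * δ ≤ (m : ℝ) * δ := by
        push_cast
        nlinarith
      have := le_of_mul_le_mul_right this hδ
      exact_mod_cast this
  exact ⟨key h1.1 h1.2 h3.1 h3.2, key h2.1 h2.2 h4.1 h4.2⟩

/-- far points -/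
lemma far_of_dist (hδ : 0 < δ) {p : ℂ} {v : ℤ × ℤ} {ρ : ℝ} {m : ℤ} (h : ρ ≤ dist (pt δ v) p)
    (hm : 2 * ((m + 1) * δ) ≤ ρ) : Far m (flp δ p) v := by
  by_contra hcon
  unfold Far flp at hcon
  simp only at hcon
  rw [not_or, not_le, not_le, abs_lt, abs_lt] at hcon
  obtain ⟨⟨a1, a2⟩, a3, a4⟩ := hcon
  have h0 := dist_le_abs (pt δ v) p
  have h3 := fl_bound hδ p.re
  have h4 := fl_bound hδ p.im
  unfold pt at h0 h
  simp only at h0 h
  have key : ∀ {a b : ℤ} {x : ℝ}, -m < a - b → a - b < m → δ * b ≤ x → x < δ * b + δ →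
      |δ * a - x| < (m + 1) * δ := by
    intro a b x g1 g2 g3 g4
    have g5 : -(m : ℝ) + 1 ≤ a - b := by exact_mod_cast (by omega : -m + 1 ≤ a - b)
    have g6 : (a : ℝ) - b ≤ m - 1 := by exact_mod_cast (by omega : a - b ≤ m - 1)
    rw [abs_lt]
    constructor <;> nlinarith
  have k1 := key a1 a2 h3.1 h3.2
  have k2 := key a3 a4 h4.1 h4.2
  linarith

/-- lattice distance gives real distance -/
lemma dist_of_lat (hδ : 0 < δ) {u v : ℤ × ℤ} {a : ℝ} (h1 : |(u.1 : ℝ) - v.1| ≤ a)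
    (h2 : |(u.2 : ℝ) - v.2| ≤ a) : dist (pt δ u) (pt δ v) ≤ 2 * (a * δ) := by
  refine (dist_le_abs _ _).trans ?_
  unfold pt
  simp only
  rw [← mul_sub, ← mul_sub, abs_mul, abs_mul, abs_of_pos hδ]
  nlinarith

/-- boxes and lattice distance -/
lemma lat_of_box {K : ℕ} {o : ℂ} (hδ : 0 < δ) {u v : ℤ × ℤ} {r : ℤ} {c : ℤ × ℤ}
    {r' : ℤ} (h : NB r c (Pool.Agent.Q1.M3.box δ o K u))
    (h' : NB r' c (Pool.Agent.Q1.M3.box δ o K v)) :
    |(u.1 : ℝ) - v.1| ≤ (r + r' + 1) * (mesh (K + 1) / δ) ∧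
      |(u.2 : ℝ) - v.2| ≤ (r + r' + 1) * (mesh (K + 1) / δ) := by
  have hm := mesh_pos (K + 1)
  unfold NB Pool.Agent.Q1.M3.box pt at h h'
  simp only at h h'
  rw [abs_le, abs_le] at h h'
  have key : ∀ {a b x : ℝ} {e s s' : ℤ}, -s ≤ ⌊(δ * a - x) / mesh (K + 1)⌋ - e →
      ⌊(δ * a - x) / mesh (K + 1)⌋ - e ≤ s → -s' ≤ ⌊(δ * b - x) / mesh (K + 1)⌋ - e →
      ⌊(δ * b - x) / mesh (K + 1)⌋ - e ≤ s' → |a - b| ≤ (s + s' + 1) * (mesh (K + 1) / δ) := by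
    intro a b x e s s' g1 g2 g3 g4
    have f1 := Int.floor_le ((δ * a - x) / mesh (K + 1))
    have f2 := Int.lt_floor_add_one ((δ * a - x) / mesh (K + 1))
    have f3 := Int.floor_le ((δ * b - x) / mesh (K + 1))
    have f4 := Int.lt_floor_add_one ((δ * b - x) / mesh (K + 1))
    rw [le_div_iff₀ hm] at f1 f3
    rw [div_lt_iff₀ hm] at f2 f4
    have e1 : (⌊(δ * a - x) / mesh (K + 1)⌋ : ℝ) - ⌊(δ * b - x) / mesh (K + 1)⌋ ≤ s + s' := by
      exact_mod_cast (by omega : ⌊(δ * a - x) / mesh (K + 1)⌋ - ⌊(δ * b - x) / mesh (K + 1)⌋ ≤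
        s + s')
    have e2 : (⌊(δ * b - x) / mesh (K + 1)⌋ : ℝ) - ⌊(δ * a - x) / mesh (K + 1)⌋ ≤ s + s' := by
      exact_mod_cast (by omega : ⌊(δ * b - x) / mesh (K + 1)⌋ - ⌊(δ * a - x) / mesh (K + 1)⌋ ≤
        s + s')
    have e3 : |a - b| * δ = |(a - b) * δ| := by rw [abs_mul, abs_of_pos hδ]
    rw [← mul_div_assoc, le_div_iff₀ hδ, e3, abs_le]
    constructor <;> nlinarith
  exact ⟨key h.1.1 h.1.2 h'.1.1 h'.1.2, key h.2.1 h.2.2 h'.2.1 h'.2.2⟩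

/-- points of the box around `c` -/
lemma dist_RB (hδ : 0 < δ) {c u : ℤ × ℤ} {D : ℤ} (h : RB (c.1 - D) (c.1 + D) (c.2 - D) (c.2 + D) u) :
    dist (pt δ u) (pt δ c) ≤ 2 * (D * δ) := by
  unfold RB at h
  refine dist_of_lat hδ ?_ ?_
  · have : |u.1 - c.1| ≤ D := by rw [abs_le]; omega
    exact_mod_cast this
  · have : |u.2 - c.2| ≤ D := by rw [abs_le]; omega
    exact_mod_cast this

/-- distance of neighbours -/
lemma dist_unit (hδ : 0 < δ) {u v : ℤ × ℤ} (h : IsUnit4 (v - u)) :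
    dist (pt δ u) (pt δ v) ≤ 2 * δ := by
  have h1 := unit_cases h
  have h2 := dist_of_lat (a := 1) hδ (u := u) (v := v) (by
    have : |u.1 - v.1| ≤ 1 := by rw [abs_le]; omega
    exact_mod_cast this) (by
    have : |u.2 - v.2| ≤ 1 := by rw [abs_le]; omega
    exact_mod_cast this)
  linarith

lemma dist_ends (hδ : 0 < δ) {e : ℤ × ℤ} (he : (e.1 + e.2) % 2 = 1) :
    dist (pt δ (eu e)) (pt δ (ev e)) ≤ 2 * δ := by
  refine dist_unit hδ ?_
  have := (Pool.Agent.H42.Q1.eu_ev_step he).1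
  exact this

end Pool.Agent.H21.Q1
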