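import Mathlib
import Pool.Agent.H21.Q1.Met
import Pool.Agent.H48.Q1.M3.ChanC

set_option autoImplicit false
open Finset

/-! Module M3 of Q1: hypotheses of the comparison for a state. -/

namespace Pool.Agent.H21.Q1

open Pool.Agent.H75.Perc hiding WL
open Pool.Agent.H75.TwoArm Pool.Agent.H75.Four
open Pool.Agent.H69.Q1 Pool.Agent.H28.Q1
open Pool.Agent.Q1.M3 Pool.Agent.Q1.M3.Pg
open Pool.Agent.H81.Q1 (pt)
open Pool.Agent.H42.Q1 (RB)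

/-- Hypotheses of the comparison for a state: `p` = the tip, `b` = the end point. -/
structure StD (d : SD) (o : ℂ) (δ : ℝ) (X Y : DEnv) (Kv τ A : Finset (ℤ × ℤ)) (p0 : ℕ) (p b : ℂ)
    (ρ ρK εN : ℝ) (k : ℕ) (r : ℤ) : Prop where
  td : Tied d o δ X Y Kv τ A p0
  YW : Y.W ⊆ X.W
  mn : ∀ f, Mn Y Kv f → Mn X Kv f
  sol : Sol X Kv
  invL : InvL X
  odd : ∀ e ∈ X.E, (e.1 + e.2) % 2 = 1
  n2N : d.n2 < d.N
  r14 : 14 * (mesh (d.K + 1) / δ) + 6 ≤ r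
  marg : 100 * (4 ^ k * r * δ) ≤ ρ
  far : 32 * 4 ^ k * ρ ≤ ρK
  pb : 2 * ρK ≤ dist p b
  /-- the solid set is far from the tip -/
  Kp : ∀ v ∈ Kv, ρK ≤ dist (pt δ v) p
  /-- closed labels at the solid set are near `b` -/
  clo : ∀ e ∈ star Kv, e ∉ X.E → e ∉ X.W → dist (pt δ (eu e)) b < ρ ∧ dist (pt δ (ev e)) b < ρ
  flat : ∀ v, box δ o d.K v ∈ flat d.K d.C → v ∈ Kv ∧ star1 v ⊆ X.E
  /-- the sides of the run which are not at the coarse family are near `b` -/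
  runb : ∀ s, d.n1 ≤ s → s < d.n2 → d.oc' s ∉ Pg.flat d.K d.C → ∀ j ≤ d.ln o δ s,
    dist (pt δ (d.pt' o δ s j)) b < ρ
  tip : ∀ j ≤ d.ln o δ 0, dist (pt δ (d.pt' o δ 0 j)) p < ρ
  /-- the other sides which are not near the tip or `b` -/
  fr : ∀ s, 0 < s → s < d.N → ¬ (d.n1 ≤ s ∧ s < d.n2) → ∀ j ≤ d.ln o δ s,
    ρ ≤ dist (pt δ (d.pt' o δ s j)) p → ρ ≤ dist (pt δ (d.pt' o δ s j)) b →
    Fr d.K o δ d.P Kv τ A X.E (d.oc' s)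
  /-- the lemma at `b` -/
  bad : Pr X.E (fun ω => ∃ i, (∀ l < i, plab (X.cor ω l) ∉ star Kv) ∧
    dist (pt δ (vx (X.cor ω i))) b < ρ) ≤ εN
  /-- no small crosscuts -/
  cut : ∀ c : ℤ × ℤ, (∀ u, RB (c.1 - 4 ^ k * r) (c.1 + 4 ^ k * r) (c.2 - 4 ^ k * r)
    (c.2 + 4 ^ k * r) u → ρ ≤ dist (pt δ u) p ∧ ρ ≤ dist (pt δ u) b) →
    NoCut X (c.1 - 4 ^ k * r) (c.1 + 4 ^ k * r) (c.2 - 4 ^ k * r) (c.2 + 4 ^ k * r)
  /-- a channel from the tip to the run, far from `b` -/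
  ch : ∃ (S : Set (ℤ × ℤ)) (n : ℕ), d.n1 ≤ n ∧ n < d.n2 ∧ d.s.1 ∈ S ∧
    J4 (S ∩ (d.R : Set (ℤ × ℤ))) d.s.1 (d.sid n).1 ∧
    ∀ v, (∃ q ∈ S, |(box δ o d.K v).1 - q.1| ≤ 3 ∧ |(box δ o d.K v).2 - q.2| ≤ 3) →
      ρK ≤ dist (pt δ v) b

end Pool.Agent.H21.Q1
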