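import Mathlib
import Pool.Agent.H21.Q1.StD

set_option autoImplicit false
open Finset

/-! Module M3 of Q1: the ties of a state. -/

namespace Pool.Agent.H21.Q1

open Pool.Agent.H75.Perc hiding WL
open Pool.Agent.H75.TwoArm Pool.Agent.H75.Four
open Pool.Agent.H69.Q1 Pool.Agent.H28.Q1
open Pool.Agent.Q1.M3 Pool.Agent.Q1.M3.Pg
open Pool.Agent.H81.Q1 (pt)
open Pool.Agent.H42.Q1 (RB)
open Pool.Agent.H75.TwoArm.StrandAux hiding vx_nxC
open Pool.Agent.H49.Q1 (gs gcell mem_gs CJ)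
open Pool.Agent.H77.Q1 (lbf mem_du' Far unit4_neg)
open Pool.Agent.H5.Q1 (sp slen gp oc SS)

/-- labels with both ends within `ρ` of `p` or both ends within `ρ` of `b` -/
noncomputable def zn (E : Finset (ℤ × ℤ)) (δ : ℝ) (p : ℂ) (ρ : ℝ) : Finset (ℤ × ℤ) := by
  classical
  exact E.filter fun e => dist (pt δ (eu e)) p < ρ ∧ dist (pt δ (ev e)) p < ρ

lemma mem_zn {E : Finset (ℤ × ℤ)} {δ : ℝ} {p : ℂ} {ρ : ℝ} {e : ℤ × ℤ} :
    e ∈ zn E δ p ρ ↔ e ∈ E ∧ dist (pt δ (eu e)) p < ρ ∧ dist (pt δ (ev e)) p < ρ := by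
  unfold zn
  rw [mem_filter]

variable {d : SD} {o : ℂ} {δ : ℝ} {X Y : DEnv} {Kv τ A : Finset (ℤ × ℤ)} {p0 : ℕ} {p b : ℂ}
  {ρ ρK εN : ℝ} {k : ℕ} {r : ℤ}

namespace StD

variable (H : StD d o δ X Y Kv τ A p0 p b ρ ρK εN k r)

include H

lemma hδ : 0 < δ := H.td.fine.hδ

/-- numerical facts -/
lemma nums : 0 < mesh (d.K + 1) ∧ 1 ≤ r ∧ δ ≤ ρ / 600 ∧ mesh (d.K + 1) ≤ ρ / 1400 ∧ 0 < ρ ∧
    (4 ^ k * r : ℝ) * δ ≤ ρ / 100 ∧ 32 * ρ ≤ ρK ∧ (1 : ℝ) ≤ 4 ^ k ∧ (r : ℝ) * δ ≤ ρ / 100 := by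
  have hδ := H.hδ
  have hM := mesh_pos (d.K + 1)
  have h1 := H.r14
  have h2 := H.marg
  have h3 := H.far
  have h4 : (1 : ℝ) ≤ 4 ^ k := one_le_pow₀ (by norm_num)
  have h5 : 0 < mesh (d.K + 1) / δ := by positivity
  have h6 : (6 : ℝ) < r := by linarith
  have h7 : 14 * mesh (d.K + 1) + 6 * δ ≤ r * δ := by
    have : (14 * (mesh (d.K + 1) / δ) + 6) * δ ≤ r * δ := mul_le_mul_of_nonneg_right h1 hδ.le
    have e : (14 * (mesh (d.K + 1) / δ) + 6) * δ = 14 * mesh (d.K + 1) + 6 * δ := by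
      field_simp
    linarith
  have h8 : (r : ℝ) * δ ≤ 4 ^ k * r * δ := by
    have : 0 ≤ (r : ℝ) * δ := by positivity
    nlinarith
  have h9 : (r : ℝ) * δ ≤ ρ / 100 := by linarith
  have h10 : 0 < ρ := by nlinarith
  refine ⟨hM, ?_, by linarith, by linarith, h10, by linarith, by nlinarith, h4, h9⟩
  have : (1 : ℝ) ≤ r := by linarith
  exact_mod_cast this

/-- points of a side are near the outer cell -/
lemma pt_near {s j : ℕ} (hj : j ≤ d.ln o δ s) : NB 2 (d.oc' s) (box δ o d.K (d.pt' o δ s j)) := by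
  obtain ⟨nh, h1, h2, h3⟩ := H.td.run
  exact (H.td.stp h1 h2 h3).sp_near hj

/-- distance of two points of a side -/
lemma dist_side {s i j : ℕ} (hi : i ≤ d.ln o δ s) (hj : j ≤ d.ln o δ s) :
    dist (pt δ (d.pt' o δ s i)) (pt δ (d.pt' o δ s j)) ≤ ρ / 100 := by
  have hδ := H.hδ
  obtain ⟨h1, h2⟩ := lat_of_box hδ (H.pt_near hi) (H.pt_near hj)
  have h3 := dist_of_lat hδ h1 h2
  obtain ⟨hM, -, -, h4, -⟩ := H.nums
  have e : (((2 : ℤ) : ℝ) + ((2 : ℤ) : ℝ) + 1) * (mesh (d.K + 1) / δ) * δ = 5 * mesh (d.K + 1) := by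
    field_simp; norm_num
  rw [e] at h3
  linarith

/-- a vertex of a side is a vertex of the region -/
lemma exists_CC {s j : ℕ} (hj : j ≤ d.ln o δ s) : ∃ q, vx (d.Cn o δ q) = d.pt' o δ s j := by
  have hX := LX_mono (K := d.K) (o := o.re) H.hδ H.td.fine.hm3
  have hY := LX_mono (K := d.K) (o := o.im) H.hδ H.td.fine.hm3
  have h3 := SD.three_ln H.td.fine s
  rcases Nat.lt_or_ge j (d.ln o δ s) with h1 | h1
  · have h2 := CC_second (Q := d.R) hX hY H.td.ok.side s (j := j) h1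
    refine ⟨SS d.R (LX d.K o.re δ) (LX d.K o.im δ) d.s s + 2 * j, ?_⟩
    unfold SD.Cn
    rw [h2, Pool.Agent.H5.Q1.vx_oc]
    rfl
  · obtain ⟨i, rfl⟩ : ∃ i, j = i + 1 := ⟨j - 1, by omega⟩
    have h2 := CC_first (Q := d.R) hX hY H.td.ok.side s (j := i) (by
      unfold SD.ln at hj; exact hj)
    refine ⟨SS d.R (LX d.K o.re δ) (LX d.K o.im δ) d.s s + (2 * i + 1), ?_⟩
    unfold SD.Cn
    rw [h2, Pool.Agent.H5.Q1.vx_oc]
    rfl

/-- **The faces around the boundary points of the region are visible.** -/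
theorem mn_pt {s j : ℕ} (hj : j ≤ d.ln o δ s) : d.pt' o δ s j ∉ Kv ∧
    ∀ g, Cf g (d.pt' o δ s j) → Mn X Kv g := by
  obtain ⟨q, hq⟩ := H.exists_CC hj
  have hL := SD.lpol H.td.ok H.td.fine H.td.p0pos H.td.p0le H.td.out
  have hX := hL.monoX
  have hY := hL.monoY
  have hvl : Vl (d.G o δ) (d.pt' o δ s j) := by
    rw [← hq]
    exact CC_vl H.td.ok.good hX hY H.td.ok.side q
  have hK : d.pt' o δ s j ∉ Kv := H.td.ctx.vl_notMem hvl
  have hst := H.td.ctx.fresh _ hvl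
  refine ⟨hK, fun g hg => H.mn g ?_⟩
  -- the face of the contour
  have hlen := hL.len
  have h1 := H.td.ctx.face_contour (q + SS d.R (LX d.K o.re δ) (LX d.K o.im δ) d.s d.N - p0)
    (fun t => by
      unfold SD.G SD.Cn
      rw [ca_CC]; exact CC_vl H.td.ok.good hX hY H.td.ok.side _)
  have h2 : ca (d.G o δ) (d.Cn o δ p0) (q + SS d.R (LX d.K o.re δ) (LX d.K o.im δ) d.s d.N - p0) =
      d.Cn o δ q := by
    unfold SD.G SD.Cn
    rw [ca_CC, show p0 + (q + SS d.R (LX d.K o.re δ) (LX d.K o.im δ) d.s d.N - p0) =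
      q + SS d.R (LX d.K o.re δ) (LX d.K o.im δ) d.s d.N by omega]
    exact CC_add H.td.ok.good hX hY H.td.ok.side hL.per q
  rw [h2] at h1
  have h3 : Mn Y Kv (fi (d.Cn o δ q)) := h1
  refine mn_around (fun e he => not_kpW hK he (hst he)) ?_ hg h3
  rw [← hq]
  have h9 := lab_corner (d.Cn o δ q)
  rcases end_lab' (d.Cn o δ q) with h10 | h10
  · rw [h10]; exact h9.1
  · rw [h10]; exact h9.2.1

/-- the ends of the labels near `c` -/
def _root_.Pool.Agent.H21.Q1.NrC (d : SD) (δ : ℝ) (c : ℤ × ℤ) (T : Finset (ℤ × ℤ)) : Prop :=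
  ∀ e ∈ T, ∀ u, (u = eu e ∨ u = ev e) → |(u.1 : ℝ) - c.1| ≤ 12 * (mesh (d.K + 1) / δ) + 4 ∧
    |(u.2 : ℝ) - c.2| ≤ 12 * (mesh (d.K + 1) / δ) + 4

/-- facts on a set of labels near a point far from the tip and from `b` -/
lemma tie_data {c : ℤ × ℤ} (hp : 5 / 4 * ρ ≤ dist (pt δ c) p) (hb : 5 / 4 * ρ ≤ dist (pt δ c) b)
    {T : Finset (ℤ × ℤ)} (hT : T ⊆ X.E) (hst : ∀ e ∈ T, e ∉ star Kv) (hN : NrC d δ c T) :
    T ⊆ EX0 X Kv \ (zn X.E δ p ρ ∪ zn X.E δ b ρ) ∧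
    (∀ m ∈ T, |m.1 - 2 * c.1| ≤ 2 * r - 3 ∧ |m.2 - 2 * c.2| ≤ 2 * r - 3) ∧
    NoCut X (c.1 - 4 ^ k * r) (c.1 + 4 ^ k * r) (c.2 - 4 ^ k * r) (c.2 + 4 ^ k * r) := by
  have hδ := H.hδ
  obtain ⟨hM, hr1, hδρ, hMρ, hρ, hD, hK, h4, hrρ⟩ := H.nums
  have key : ∀ e ∈ T, ∀ u, (u = eu e ∨ u = ev e) → dist (pt δ u) (pt δ c) ≤ ρ / 20 := by
    intro e he u hu
    have h1 := hN e he u hu
    have h2 := dist_of_lat hδ h1.1 h1.2
    have e : (12 * (mesh (d.K + 1) / δ) + 4) * δ = 12 * mesh (d.K + 1) + 4 * δ := by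
      field_simp
    rw [e] at h2
    linarith
  refine ⟨?_, ?_, ?_⟩
  · intro e he
    rw [mem_sdiff, mem_union, not_or]
    refine ⟨mem_sdiff.2 ⟨hT he, hst e he⟩, fun h => ?_, fun h => ?_⟩
    · have h1 := (mem_zn.1 h).2.1
      have h2 := key e he (eu e) (Or.inl rfl)
      have h3 := dist_triangle (pt δ c) (pt δ (eu e)) p
      rw [dist_comm] at h2
      linarith
    · have h1 := (mem_zn.1 h).2.1
      have h2 := key e he (eu e) (Or.inl rfl)
      have h3 := dist_triangle (pt δ c) (pt δ (eu e)) b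
      rw [dist_comm] at h2
      linarith
  · intro m hm
    have h1 := hN m hm (eu m) (Or.inl rfl)
    have h2 := hN m hm (ev m) (Or.inr rfl)
    have h3 := (Pool.Agent.H42.Q1.eu_ev_step (H.odd m (hT hm))).2
    have h5 := H.r14
    have h6 : 0 < mesh (d.K + 1) / δ := by positivity
    have e1 : (m.1 : ℝ) = (eu m).1 + (ev m).1 := by
      have : m.1 = (eu m).1 + (ev m).1 := by rw [← Prod.fst_add, h3]
      exact_mod_cast this
    have e2 : (m.2 : ℝ) = (eu m).2 + (ev m).2 := by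
      have : m.2 = (eu m).2 + (ev m).2 := by rw [← Prod.snd_add, h3]
      exact_mod_cast this
    rw [abs_le, abs_le] at h1 h2
    have g1 : |(m.1 : ℝ) - 2 * c.1| ≤ 2 * r - 3 := by
      rw [e1, abs_le]; constructor <;> linarith
    have g2 : |(m.2 : ℝ) - 2 * c.2| ≤ 2 * r - 3 := by
      rw [e2, abs_le]; constructor <;> linarith
    exact ⟨by exact_mod_cast g1, by exact_mod_cast g2⟩
  · refine H.cut c fun u hu => ?_
    have h1 := dist_RB (D := 4 ^ k * r) hδ hu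
    push_cast at h1
    have h2 := dist_triangle (pt δ c) (pt δ u) p
    have h3 := dist_triangle (pt δ c) (pt δ u) b
    rw [dist_comm] at h1
    constructor <;> linarith

/-- labels near the outer cell of a side are near the points of the side -/
lemma nrC_of {s j : ℕ} (hj : j ≤ d.ln o δ s) {T : Finset (ℤ × ℤ)}
    (hT : Nr d.K o δ Kv X.E (d.oc' s) T) : NrC d δ (d.pt' o δ s j) T := by
  intro e he u hu
  have h1 := hT.near e he
  have h2 := H.pt_near hj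
  have h3 : NB 9 (d.oc' s) (box δ o d.K u) := by
    rcases hu with rfl | rfl
    · exact h1.1
    · exact h1.2
  have h4 := lat_of_box H.hδ h3 h2
  have e : (((9 : ℤ) : ℝ) + ((2 : ℤ) : ℝ) + 1) * (mesh (d.K + 1) / δ) =
      12 * (mesh (d.K + 1) / δ) := by norm_num
  rw [e] at h4
  exact ⟨by linarith [h4.1], by linarith [h4.2]⟩

lemma n12 : 0 < d.n1 ∧ d.n1 ≤ d.n2 ∧ d.n2 < d.N :=
  ⟨H.td.ok.mark.pos, H.td.ok.mark.le, H.n2N⟩

/-- a point of a side which is not near the tip is not on the tip side -/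
lemma s_ne {s j : ℕ} (hj : j ≤ d.ln o δ s) (hp : ρ ≤ dist (pt δ (d.pt' o δ s j)) p) : 0 < s := by
  rcases Nat.eq_zero_or_pos s with h | h
  · subst h
    exact absurd (H.tip j hj) (not_lt.2 hp)
  · exact h

/-- **Primal ties of the wired side.** -/
theorem ptie {s j : ℕ} (hs : s < d.n1) (hj : j ≤ d.ln o δ s)
    (hp : 5 / 4 * ρ ≤ dist (pt δ (d.pt' o δ s j)) p)
    (hb : 5 / 4 * ρ ≤ dist (pt δ (d.pt' o δ s j)) b) :
    PTie X Kv (zn X.E δ p ρ ∪ zn X.E δ b ρ) k (d.pt' o δ s j) := by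
  obtain ⟨hM, hr1, hδρ, hMρ, hρ, hD, hK, h4, hrρ⟩ := H.nums
  obtain ⟨h1, h2, h3⟩ := H.n12
  have hs0 := H.s_ne hj (by linarith)
  have hF := H.fr s hs0 (by omega) (by omega) j hj (by linarith) (by linarith)
  obtain ⟨T, hT, hco⟩ := H.td.TA hs0 hs hF hj
  obtain ⟨a1, a2, a3⟩ := H.tie_data hp hb hT.sub hT.st (H.nrC_of hj hT)
  obtain ⟨b1, b2⟩ := H.mn_pt hj
  exact ptie_of H.sol H.invL H.odd a1 b1 b2 hco hr1 le_rfl (fun m hm => by
    have := a2 m hm
    constructor <;> omega) a3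

/-- **Dual ties of the free side.** -/
theorem dtie {s j : ℕ} (hs : d.n2 ≤ s) (hsN : s < d.N) (hj : j < d.ln o δ s)
    (hp : 5 / 4 * ρ ≤ dist (pt δ (d.pt' o δ s j)) p)
    (hb : 5 / 4 * ρ ≤ dist (pt δ (d.pt' o δ s j)) b) :
    DTie X Kv (zn X.E δ p ρ ∪ zn X.E δ b ρ) k (d.of' o δ s j) := by
  obtain ⟨hM, hr1, hδρ, hMρ, hρ, hD, hK, h4, hrρ⟩ := H.nums
  obtain ⟨h1, h2, h3⟩ := H.n12
  have hs0 := H.s_ne hj.le (by linarith)
  have hF := H.fr s hs0 (by omega) (by omega) j hj.le (by linarith) (by linarith)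
  obtain ⟨T, hT, g, hg, hcl⟩ := H.td.TL hs hsN hF hj
  obtain ⟨a1, a2, a3⟩ := H.tie_data hp hb hT.sub hT.st (H.nrC_of hj.le hT)
  exact dtie_of H.sol H.odd a1 hg hcl hr1 le_rfl a2 a3

/-- the labels of a side -/
lemma sl_G (s : ℕ) {j : ℕ} (hj : j < d.ln o δ s) :
    sl' (LX d.K o.re δ) (LX d.K o.im δ) (d.sid s) j ∈ d.G o δ := by
  have hX := LX_mono (K := d.K) (o := o.re) H.hδ H.td.fine.hm3
  have hY := LX_mono (K := d.K) (o := o.im) H.hδ H.td.fine.hm3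
  have h1 := sl'_mem hX hY (d.sid s) hj
  unfold Pool.Agent.Q1.M5.sL at h1
  exact mem_gs.2 ⟨_, (SD.isSide H.td.ok s).1, (mem_filter.1 h1).1⟩

/-- **The first point of the run is tied** (the corner is not near `b`). -/
theorem ptie_corner (hp : 5 / 4 * ρ ≤ dist (pt δ (d.pt' o δ d.n1 0)) p)
    (hb : 5 / 4 * ρ ≤ dist (pt δ (d.pt' o δ d.n1 0)) b) :
    PTie X Kv (zn X.E δ p ρ ∪ zn X.E δ b ρ) k (d.pt' o δ d.n1 1) := by
  classical
  have hδ := H.hδ
  obtain ⟨hM, hr1, hδρ, hMρ, hρ, hD, hK, h4, hrρ⟩ := H.nums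
  obtain ⟨h1, h2, h3⟩ := H.n12
  have hln := SD.three_ln H.td.fine d.n1
  obtain ⟨s, hs⟩ : ∃ s, d.n1 = s + 1 := ⟨d.n1 - 1, by omega⟩
  have hc : d.pt' o δ s (d.ln o δ s) = d.pt' o δ d.n1 0 := by
    rw [hs]; exact SD.pt_next H.td.fine s
  have hs0 := H.s_ne (le_refl (d.ln o δ s)) (by rw [hc]; linarith)
  have hF := H.fr s hs0 (by omega) (by omega) _ le_rfl (by rw [hc]; linarith)
    (by rw [hc]; linarith)
  obtain ⟨T, hT, hco⟩ := H.td.TA hs0 (by omega) hF (le_refl (d.ln o δ s))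
  have hN := H.nrC_of le_rfl hT
  rw [hc] at hN hco
  set l := sl' (LX d.K o.re δ) (LX d.K o.im δ) (d.sid d.n1) 0 with hl
  have hlG : l ∈ d.G o δ := H.sl_G d.n1 (by omega)
  obtain ⟨g1, g2⟩ := H.td.G_nr
  obtain ⟨l1, l2⟩ := sl'_ends (LX d.K o.re δ) (LX d.K o.im δ) (d.sid d.n1) 0
  have hlc : l = d.pt' o δ d.n1 0 + d.pt' o δ d.n1 1 := rfl
  have hun : IsUnit4 (d.pt' o δ d.n1 1 - d.pt' o δ d.n1 0) := sp_unit _ _ _ _
  have key := H.tie_data hp hb (T := insert l T) ?_ ?_ ?_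
  · obtain ⟨a1, a2, a3⟩ := key
    obtain ⟨b1, b2⟩ := H.mn_pt (s := d.n1) (j := 1) (by omega)
    refine ptie_of H.sol H.invL H.odd a1 b1 b2 ?_ hr1 le_rfl (fun m hm => by
      have := a2 m hm
      constructor <;> omega) a3
    have h5 : Co (insert l T ∪ Wt X Kv) (d.pt' o δ d.n1 0) (d.pt' o δ d.n1 1) :=
      Relation.ReflTransGen.single ⟨hun, mem_union_left _ (by
        rw [← hlc]; exact mem_insert_self _ _)⟩
    exact h5.symm.trans (hco.mono (union_subset_union (subset_insert _ _) (subset_refl _)))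
  · exact insert_subset (g1 hlG) hT.sub
  · intro e he
    rcases mem_insert.1 he with rfl | he
    · exact g2 _ hlG
    · exact hT.st e he
  · intro e he
    rcases mem_insert.1 he with rfl | he
    · intro u hu
      have h5 : u = d.pt' o δ d.n1 0 ∨ u = d.pt' o δ d.n1 1 := by
        rcases l2 with ⟨e1, e2⟩ | ⟨e1, e2⟩
        · rcases hu with h | h
          · left; rw [h]; exact e1.symm
          · right; rw [h]; exact e2.symm
        · rcases hu with h | h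
          · right; rw [h]; exact e2.symm
          · left; rw [h]; exact e1.symm
      have h6 : 0 < mesh (d.K + 1) / δ := by positivity
      have h7 := unit_cases hun
      have h8 : |u.1 - (d.pt' o δ d.n1 0).1| ≤ 1 ∧ |u.2 - (d.pt' o δ d.n1 0).2| ≤ 1 := by
        rcases h5 with h | h <;> rw [h] <;> rw [abs_le, abs_le] <;> omega
      constructor
      · have : |(u.1 : ℝ) - (d.pt' o δ d.n1 0).1| ≤ 1 := by exact_mod_cast h8.1
        linarith
      · have : |(u.2 : ℝ) - (d.pt' o δ d.n1 0).2| ≤ 1 := by exact_mod_cast h8.2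
        linarith
    · exact hN e he

/-- **The last face of the run is tied** (the corner is not near `b`). -/
theorem dtie_corner {s : ℕ} (hs : s + 1 = d.n2) (hp : 5 / 4 * ρ ≤ dist (pt δ (d.pt' o δ d.n2 0)) p)
    (hb : 5 / 4 * ρ ≤ dist (pt δ (d.pt' o δ d.n2 0)) b) :
    DTie X Kv (zn X.E δ p ρ ∪ zn X.E δ b ρ) k (d.of' o δ s (d.ln o δ s - 1)) := by
  classical
  have hδ := H.hδ
  obtain ⟨hM, hr1, hδρ, hMρ, hρ, hD, hK, h4, hrρ⟩ := H.nums
  obtain ⟨h1, h2, h3⟩ := H.n12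
  have hln := SD.three_ln H.td.fine d.n2
  have hc : d.pt' o δ s (d.ln o δ s) = d.pt' o δ d.n2 0 := by
    rw [← hs]; exact SD.pt_next H.td.fine s
  have hF := H.fr d.n2 (by omega) (by omega) (by omega) 0 (by omega) (by linarith) (by linarith)
  obtain ⟨T, hT, g, hg, hcl⟩ := H.td.TL le_rfl (by omega) hF (j := 0) (by omega)
  have hN := H.nrC_of (j := 0) (by omega) hT
  obtain ⟨g1, g2⟩ := H.td.G_nr
  have hcor := SD.corner H.td.ok H.td.fine s
  rw [hc, hs] at hcor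
  have key := H.tie_data hp hb (T := (d.G o δ ∩ star1 (d.pt' o δ d.n2 0)) ∪ T) ?_ ?_ ?_
  · obtain ⟨a1, a2, a3⟩ := key
    refine dtie_of H.sol H.odd a1 ?_ hcl hr1 le_rfl a2 a3
    refine (hcor.mono (du_mono_left subset_union_left)).trans
      (hg.mono (du_mono_left subset_union_right))
  · exact union_subset (inter_subset_left.trans g1) hT.sub
  · intro e he
    rcases mem_union.1 he with he | he
    · exact g2 _ (mem_inter.1 he).1
    · exact hT.st e he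
  · intro e he
    rcases mem_union.1 he with he | he
    · intro u hu
      have he1 := (mem_inter.1 he).2
      have hodd := odd_star1 he1
      have h5 := (mem_star1_iff hodd).1 he1
      have hun := (Pool.Agent.H42.Q1.eu_ev_step hodd).1
      have h6 : 0 < mesh (d.K + 1) / δ := by positivity
      have h7 := unit_cases hun
      have h8 : |u.1 - (d.pt' o δ d.n2 0).1| ≤ 1 ∧ |u.2 - (d.pt' o δ d.n2 0).2| ≤ 1 := by
        rcases hu with h | h <;> rcases h5 with h5 | h5 <;> rw [h, h5] <;>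
          rw [abs_le, abs_le] <;> omega
      constructor
      · have : |(u.1 : ℝ) - (d.pt' o δ d.n2 0).1| ≤ 1 := by exact_mod_cast h8.1
        linarith
      · have : |(u.2 : ℝ) - (d.pt' o δ d.n2 0).2| ≤ 1 := by exact_mod_cast h8.2
        linarith
    · exact hN e he

end StD

end Pool.Agent.H21.Q1
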