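import Mathlib
import Pool.Agent.H21.Q1.StA
import Pool.Agent.Q1.M3.Asm.Sides

set_option autoImplicit false
open Finset

/-! Module M3 of Q1: positions on the ring of the run of a state; the structure `PCmp`. -/

namespace Pool.Agent.H21.Q1

open Pool.Agent.H75.Perc hiding WL
open Pool.Agent.H75.TwoArm Pool.Agent.H75.Four
open Pool.Agent.H69.Q1 Pool.Agent.H28.Q1
open Pool.Agent.Q1.M3 Pool.Agent.Q1.M3.Pg
open Pool.Agent.H81.Q1 (pt)
open Pool.Agent.H42.Q1 (RB)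
open Pool.Agent.H75.TwoArm.StrandAux hiding vx_nxC
open Pool.Agent.H49.Q1 (gs gcell mem_gs CJ)
open Pool.Agent.H77.Q1 (lbf mem_du' Far unit4_neg)
open Pool.Agent.H5.Q1 (sp slen gp oc SS)
open Pool.Agent.Q1.M5 (EL WL CI CT TV sV sL lv)

variable {d : SD} {o : ℂ} {δ : ℝ} {X Y : DEnv} {Kv τ A : Finset (ℤ × ℤ)} {p0 : ℕ} {p b : ℂ}
  {ρ ρK εN : ℝ} {k : ℕ} {r : ℤ}

lemma EL_G (h : d.Ok) (hr : d.n1 < d.n2) {e : ℤ × ℤ}
    (he : e ∈ EL (h.T hr) (LX d.K o.re δ) (LX d.K o.im δ)) : e ∈ d.G o δ := by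
  have h1 := EL_gs he
  rw [T_gs] at h1
  exact h1

namespace StD

variable (H : StD d o δ X Y Kv τ A p0 p b ρ ρK εN k r)

include H

lemma hr12 : d.n1 < d.n2 := by
  obtain ⟨n, h1, h2, -⟩ := H.td.run
  omega

/-- the label across a side and its ends -/
lemma ol_ends (s j : ℕ) : ((d.ol o δ s j).1 + (d.ol o δ s j).2) % 2 = 1 ∧
    (d.pt' o δ s j = eu (d.ol o δ s j) ∨ d.pt' o δ s j = ev (d.ol o δ s j)) ∧
    (d.pt' o δ s j + dir ((d.sid s).2 - 1) = eu (d.ol o δ s j) ∨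
      d.pt' o δ s j + dir ((d.sid s).2 - 1) = ev (d.ol o δ s j)) := by
  have hu : IsUnit4 (d.pt' o δ s j + dir ((d.sid s).2 - 1) - d.pt' o δ s j) := by
    rw [add_sub_cancel_left]; exact isUnit4_dir _
  obtain ⟨h3, h4⟩ := Pool.Agent.Q1.M3.Pg.ends_add hu
  have e : d.ol o δ s j = d.pt' o δ s j + (d.pt' o δ s j + dir ((d.sid s).2 - 1)) :=
    outl_eq _ _
  rw [e]
  refine ⟨h3, ?_, ?_⟩
  · rcases h4 with h4 | h4
    · exact Or.inl h4.1
    · exact Or.inr h4.1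
  · rcases h4 with h4 | h4
    · exact Or.inr h4.2
    · exact Or.inl h4.2

/-- labels across a side at the coarse family -/
lemma ol_flat {s j : ℕ} (hs : d.oc' s ∈ Pg.flat d.K d.C) (hj : 0 < j) (hj' : j < d.ln o δ s) :
    d.ol o δ s j ∈ perp Kv ∧ d.ol o δ s j ∈ X.E ∧
      ρK ≤ dist (pt δ (d.pt' o δ s j + dir ((d.sid s).2 - 1))) p := by
  obtain ⟨b1, b2⟩ := SD.side_box' H.td.ok H.td.fine hj hj'
  obtain ⟨h1, h2, h3⟩ := H.ol_ends s j
  obtain ⟨f1, f2⟩ := H.flat _ (by rw [b2]; exact hs)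
  refine ⟨SD.perp_of_flat H.td.ok H.td.fine H.td.free hj hj' fun v hv => (H.flat v (by
    rw [hv]; exact hs)).1, f2 ((mem_star1_iff h1).2 h3), H.Kp _ f1⟩

/-- the run is far from the tip -/
lemma run_far {s j : ℕ} (h1 : d.n1 ≤ s) (h2 : s < d.n2) (hj : j ≤ d.ln o δ s) :
    ρK - ρ ≤ dist (pt δ (d.pt' o δ s j)) p := by
  have hδ := H.hδ
  obtain ⟨hM, hr1, hδρ, hMρ, hρ, hD, hK, h4, hrρ⟩ := H.nums
  have hln := SD.three_ln H.td.fine s
  by_cases hs : d.oc' s ∈ Pg.flat d.K d.C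
  · obtain ⟨-, -, h3⟩ := H.ol_flat hs (j := 1) one_pos (by omega)
    have h5 := H.dist_side (s := s) (i := 1) (j := j) (by omega) hj
    have hu : IsUnit4 (d.pt' o δ s 1 + dir ((d.sid s).2 - 1) - d.pt' o δ s 1) := by
      rw [add_sub_cancel_left]; exact isUnit4_dir _
    have h6 := dist_unit hδ hu
    have h7 := dist_triangle (pt δ (d.pt' o δ s 1 + dir ((d.sid s).2 - 1))) (pt δ (d.pt' o δ s 1)) p
    have h8 := dist_triangle (pt δ (d.pt' o δ s 1)) (pt δ (d.pt' o δ s j)) p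
    rw [dist_comm] at h6
    linarith
  · have h3 := H.runb s h1 h2 hs j hj
    have h5 := H.pb
    have h6 := dist_triangle p (pt δ (d.pt' o δ s j)) b
    rw [dist_comm p (pt δ (d.pt' o δ s j))] at h6
    linarith

/-- the root edge is before the labels across the sides -/
lemma j0_lt {j0 : ℕ} {t : ℤ × ℤ} (hR : Root X Kv j0 t) {s j : ℕ} (hs0 : 0 < s) (hs : s < d.N)
    (hj : 0 < j) (hj' : j < d.ln o δ s) (hp : d.ol o δ s j ∈ perp Kv) {i : ℕ} (hi : i < per X Kv)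
    (h1 : rl X Kv i = d.ol o δ s j) : j0 < i := by
  obtain ⟨j0', t', hY⟩ := exists_root H.td.sol
  have hX := H.td.root H.YW hY
  have h2 := H.td.root_lt hY hs0 hs hj hj' hp hi h1
  rcases lt_trichotomy j0 j0' with h3 | h3 | h3
  · exact absurd hX.wir (ring_notW H.sol hR h3 hX.lt (perp_notkp hX.perp))
  · rw [h3]; exact h2
  · exact absurd hR.wir (ring_notW H.sol hX h3 hR.lt (perp_notkp hR.perp))

/-- **Faces behind the sides of the run.** -/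
lemma ring_face {s j : ℕ} (hs : d.oc' s ∈ Pg.flat d.K d.C) (hj : j < d.ln o δ s) :
    ∃ jj i, 0 < jj ∧ jj < d.ln o δ s ∧ i < per X Kv ∧ rl X Kv i = d.ol o δ s jj ∧
      ∃ a, (a = i ∨ a = i + 1) ∧ fi (rc X Kv a) = d.of' o δ s j := by
  have hln := SD.three_ln H.td.fine s
  have key : ∀ jj g', 0 < jj → jj < d.ln o δ s → IsUnit4 (g' - d.of' o δ s j) →
      lbf (d.of' o δ s j) g' = d.ol o δ s jj → ∃ i, i < per X Kv ∧ rl X Kv i = d.ol o δ s jj ∧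
      ∃ a, (a = i ∨ a = i + 1) ∧ fi (rc X Kv a) = d.of' o δ s j := by
    intro jj g' h1 h2 h3 h4
    obtain ⟨h5, -, -⟩ := H.ol_flat hs h1 h2
    obtain ⟨i, h6, h7⟩ := H.td.exists_ring h1 h2 h5
    refine ⟨i, h6, h7, ?_⟩
    have h8 : lbf (d.of' o δ s j) g' = plab (rc X Kv i) := by rw [h4, ← h7]; rfl
    rcases face_closed (L := kp X Kv) h3 h8 (by
      rw [← h8, h4]; exact perp_notkp h5) with h9 | h9
    · exact ⟨i, Or.inl rfl, h9.symm⟩
    · exact ⟨i + 1, Or.inr rfl, by rw [rc_succ]; exact h9.symm⟩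
  rcases Nat.lt_or_ge (j + 1) (d.ln o δ s) with h1 | h1
  · obtain ⟨h2, h3⟩ := ofc_succ (LX d.K o.re δ) (LX d.K o.im δ) (d.sid s) j
    obtain ⟨i, h4, h5, h6⟩ := key (j + 1) _ (by omega) h1 h2 h3
    exact ⟨j + 1, i, by omega, h1, h4, h5, h6⟩
  · obtain ⟨j', rfl⟩ : ∃ j', j = j' + 1 := ⟨j - 1, by omega⟩
    obtain ⟨h2, h3⟩ := ofc_succ (LX d.K o.re δ) (LX d.K o.im δ) (d.sid s) j'
    obtain ⟨i, h4, h5, h6⟩ := key (j' + 1) _ (by omega) hj (unit4_neg h2) (by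
      rw [lbf_comm']; exact h3)
    exact ⟨j' + 1, i, by omega, hj, h4, h5, h6⟩

/-- an end of a label outside the zones of the polygon -/
lemma far_end {e v : ℤ × ℤ} (he : e ∈ d.G o δ) (hZ : e ∉ zn (d.G o δ) δ p (2 * ρ) ∪
    zn (d.G o δ) δ b (2 * ρ)) (hv : v = eu e ∨ v = ev e) :
    3 / 2 * ρ ≤ dist (pt δ v) p ∧ 3 / 2 * ρ ≤ dist (pt δ v) b := by
  have hδ := H.hδ
  obtain ⟨hM, hr1, hδρ, hMρ, hρ, hD, hK, h4, hrρ⟩ := H.nums
  have h1 := dist_ends hδ (odd_gs he)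
  have h1' := h1
  rw [dist_comm] at h1'
  rw [mem_union, not_or, mem_zn, mem_zn] at hZ
  have key : ∀ q : ℂ, ¬ (e ∈ d.G o δ ∧ dist (pt δ (eu e)) q < 2 * ρ ∧
      dist (pt δ (ev e)) q < 2 * ρ) → 3 / 2 * ρ ≤ dist (pt δ v) q := by
    intro q hq
    by_contra hcon
    rw [not_le] at hcon
    apply hq
    have h2 := dist_triangle (pt δ (eu e)) (pt δ (ev e)) q
    have h3 := dist_triangle (pt δ (ev e)) (pt δ (eu e)) q
    rcases hv with rfl | rfl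
    · exact ⟨he, by linarith, by linarith⟩
    · exact ⟨he, by linarith, by linarith⟩
  exact ⟨key p hZ.1, key b hZ.2⟩

/-- a run side with a point far from `b` is at the coarse family -/
lemma run_flat {s j : ℕ} (h1 : d.n1 ≤ s) (h2 : s < d.n2) (hj : j ≤ d.ln o δ s)
    (hb : 3 / 2 * ρ ≤ dist (pt δ (d.pt' o δ s j)) b) : d.oc' s ∈ Pg.flat d.K d.C := by
  by_contra hcon
  have h3 := H.runb s h1 h2 hcon j hj
  obtain ⟨-, -, -, -, hρ, -⟩ := H.nums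
  linarith

/-- **The polygon and the environment.** -/
theorem pcmp {j0 : ℕ} {t : ℤ × ℤ} (hR : Root X Kv j0 t) {y n : ℕ} (hn : 0 < n)
    (cI : ∀ s, d.n1 + n ≤ s → s < d.n2 → d.oc' s ∈ Pg.flat d.K d.C →
      (∃ j ≤ d.ln o δ s, 3 / 2 * ρ ≤ dist (pt δ (d.pt' o δ s j)) b) → ∀ j, 0 < j →
      j < d.ln o δ s → ∀ i < per X Kv, rl X Kv i = d.ol o δ s j → y ≤ i)
    (cL : ∀ s, d.n1 ≤ s → s < d.n1 + n → s < d.n2 → d.oc' s ∈ Pg.flat d.K d.C →
      (∃ j ≤ d.ln o δ s, 3 / 2 * ρ ≤ dist (pt δ (d.pt' o δ s j)) b) → ∀ j, 0 < j →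
      j < d.ln o δ s → ∀ i < per X Kv, rl X Kv i = d.ol o δ s j → i < y) (hnh : n ≤ d.h) :
    PCmp X Kv j0 (H.td.ok.T H.hr12) (LX d.K o.re δ) (LX d.K o.im δ)
      (zn X.E δ p ρ ∪ zn X.E δ b ρ)
      (zn (d.G o δ) δ p (2 * ρ) ∪ zn (d.G o δ) δ b (2 * ρ)) k y n d.h := by
  have hδ := H.hδ
  obtain ⟨hM, hr1, hδρ, hMρ, hρ, hD, hK, h4, hrρ⟩ := H.nums
  obtain ⟨n1, n2, n3⟩ := H.n12
  have hr := H.hr12
  obtain ⟨g1, g2⟩ := H.td.G_nr
  have hh : d.h = d.n2 - d.n1 := rfl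
  have hf := H.td.fine
  have hXg := gapX hf
  have hYg := gapY hf
  refine ⟨?_, ?_, ?_, ?_, ?_, ?_, wlT H.td.ok hr hf, slT H.td.ok hr⟩
  · intro e he
    exact mem_sdiff.2 ⟨g1 he, g2 e he⟩
  · intro v hv ⟨e, he, hve⟩
    obtain ⟨s, hs, j, hj, rfl⟩ := TV_side H.td.ok hr hf hv
    obtain ⟨he1, he2⟩ := mem_sdiff.1 he
    obtain ⟨a1, a2⟩ := H.far_end (EL_G H.td.ok hr he1) he2 hve
    exact H.ptie hs hj (by linarith) (by linarith)
  · intro j hj hjm e he heZ _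
    rw [T_m] at hjm
    obtain ⟨jj, h1, h2, h3⟩ := sL_side H.td.ok hr hf he
    rw [h3]
    obtain ⟨-, l2⟩ := sl'_ends (LX d.K o.re δ) (LX d.K o.im δ) (d.sid (j + d.n1)) jj
    have hve : d.pt' o δ (j + d.n1) jj = eu e ∨ d.pt' o δ (j + d.n1) jj = ev e := by
      rw [h2]
      rcases l2 with l2 | l2
      · exact Or.inl l2.1
      · exact Or.inr l2.1
    obtain ⟨a1, a2⟩ := H.far_end (slT H.td.ok hr j e he) heZ hve
    exact H.dtie (by omega) (by omega) h1 (by linarith) (by linarith)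
  · intro i hi hih v hv hv1 hv2 ⟨e, he, hve⟩
    obtain ⟨j, hj0, hj, rfl⟩ := sV_side H.td.ok hr hf hv hv1 hv2
    obtain ⟨he1, he2⟩ := mem_sdiff.1 he
    obtain ⟨a1, a2⟩ := H.far_end (EL_G H.td.ok hr he1) he2 hve
    have hfl := H.run_flat (s := i + d.n1) (by omega) (by omega) hj.le a2
    obtain ⟨c1, c2, -⟩ := H.ol_flat hfl hj0 hj
    obtain ⟨q, q1, q2⟩ := H.td.exists_ring hj0 hj c1
    have hq := cI (i + d.n1) (by omega) (by omega) hfl ⟨j, hj.le, a2⟩ j hj0 hj q q1 q2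
    refine ⟨q, hq, q1, ?_, ?_, ?_⟩
    · rw [q2]; exact c1
    · rw [q2]; exact c2
    · rw [q2]; exact (H.ol_ends (i + d.n1) j).2.1
  · intro i hi e he heZ _
    obtain ⟨j, h1, h2, h3⟩ := sL_side H.td.ok hr hf he
    rw [h3]
    obtain ⟨-, l2⟩ := sl'_ends (LX d.K o.re δ) (LX d.K o.im δ) (d.sid (i + d.n1)) j
    have hve : d.pt' o δ (i + d.n1) j = eu e ∨ d.pt' o δ (i + d.n1) j = ev e := by
      rw [h2]
      rcases l2 with l2 | l2
      · exact Or.inl l2.1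
      · exact Or.inr l2.1
    obtain ⟨a1, a2⟩ := H.far_end (slT H.td.ok hr i e he) heZ hve
    have hfl := H.run_flat (s := i + d.n1) (by omega) (by omega) h1.le a2
    obtain ⟨jj, q, b1, b2, b3, b4, a, b5, b6⟩ := H.ring_face hfl h1
    have c1 := cL (i + d.n1) (by omega) (by omega) (by omega) hfl ⟨j, h1.le, a2⟩ jj b1 b2 q b3 b4
    have c2 := H.j0_lt hR (s := i + d.n1) (by omega) (by omega) b1 b2 (H.ol_flat hfl b1 b2).1 b3 b4
    exact ⟨a, by omega, by omega, by omega, b6⟩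
  · intro i hi hih v hv
    refine Pool.Agent.H48.Q1.M3.TVs hXg hYg (by omega) ?_ hv
    rw [T_m]
    omega

end StD

end Pool.Agent.H21.Q1
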