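import Mathlib
import Pool.Agent.H21.Q1.StB
import Pool.Agent.H4.Q1.C3Geo

set_option autoImplicit false
open Finset

/-! Module M3 of Q1: the comparison theorem for a state. -/

namespace Pool.Agent.H21.Q1

open Pool.Agent.H75.Perc hiding WL
open Pool.Agent.H75.TwoArm Pool.Agent.H75.Four Pool.Agent.H99.NC
open Pool.Agent.H69.Q1 Pool.Agent.H28.Q1
open Pool.Agent.Q1.M3 Pool.Agent.Q1.M3.Pg
open Pool.Agent.H81.Q1 (pt)
open Pool.Agent.H42.Q1 (RB)
open Pool.Agent.H75.TwoArm.StrandAux hiding vx_nxC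
open Pool.Agent.H49.Q1 (gs gcell mem_gs CJ)
open Pool.Agent.H77.Q1 (lbf mem_du' Far unit4_neg)
open Pool.Agent.H5.Q1 (sp slen gp oc SS)
open Pool.Agent.Q1.M4 (PType)
open Pool.Agent.Q1.M5 (EL WL CI CT TV sV sL lv)

variable {d : SD} {o : ℂ} {δ : ℝ} {X Y : DEnv} {Kv τ A : Finset (ℤ × ℤ)} {p0 : ℕ} {p b : ℂ}
  {ρ ρK εN : ℝ} {k : ℕ} {r : ℤ}

lemma Far_mono {D D' : ℤ} (h : D' ≤ D) {c v : ℤ × ℤ} (h1 : Far D c v) : Far D' c v := by
  unfold Far at h1 ⊢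
  omega

lemma Pr_bU {ι α : Type*} [DecidableEq α] (E : Finset α) (Y : Finset ι)
    (P : ι → Finset α → Prop) : Pr E (fun ω => ∃ y ∈ Y, P y ω) ≤ ∑ y ∈ Y, Pr E (P y) := by
  classical
  induction Y using Finset.induction_on with
  | empty =>
    rw [Finset.sum_empty, Pr_eq]
    simp
  | insert y Y hy ih =>
    rw [Finset.sum_insert hy]
    refine le_trans (Pr_mono fun ω _ h => ?_)
      ((Pr_or_le E (P y) (fun ω => ∃ y ∈ Y, P y ω)).trans (add_le_add_right ih _))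
    obtain ⟨z, hz, hz'⟩ := h
    rcases Finset.mem_insert.1 hz with rfl | hz
    · exact Or.inl hz'
    · exact Or.inr ⟨z, hz, hz'⟩

/-! ### Corners of the run -/

/-- **Corners.** -/
theorem pr_cor {δ0 : ℝ} (hδ0 : Dcy δ0) {P : PType} {X Y : ℤ → ℤ} {k2 : ℕ} (hX : Pool.Agent.H4.Q1.GapD X (4 ^ k2 + 2))
    (hY : Pool.Agent.H4.Q1.GapD Y (4 ^ k2 + 2)) (hodd : ∀ e ∈ EL P X Y, (e.1 + e.2) % 2 = 1) {n h : ℕ}
    (hn : 0 < n) (hh : h < P.m) :
    Pr (EL P X Y) (Cor P X Y n h) ≤ (h + 1) * (1 - δ0) ^ k2 := by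
  classical
  have hD : (2 : ℤ) ≤ 4 ^ k2 + 2 := by
    have : (0 : ℤ) < 4 ^ k2 := by positivity
    omega
  have key : ∀ i ∈ range (h + 1), Pr (EL P X Y) (fun ω => n ≤ i ∧ ∃ v, TV P X Y v ∧
      Co ω (lv P X Y i) v) ≤ (1 - δ0) ^ k2 := by
    intro i hi
    rw [mem_range] at hi
    refine le_trans (Pr_mono ?_) (hδ0.2.2.1 (EL P X Y) hodd (lv P X Y i) 1 le_rfl k2)
    rintro ω _ ⟨h1, v, hv, hco⟩
    have h2 := Pool.Agent.H4.Q1.T_far' hX hY hD (n := i) (by omega) (by omega) hv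
    rw [← Pool.Agent.H48.Q1.M3.lv_eq] at h2
    unfold Pool.Agent.H49.Q1.far at h2
    refine ⟨lv P X Y i, v, by simp, by simp, ?_, hco⟩
    rw [mul_one, abs_sub_comm v.1, abs_sub_comm v.2]
    rcases h2 with h2 | h2
    · left; omega
    · right; omega
  have h1 : Pr (EL P X Y) (Cor P X Y n h) ≤ Pr (EL P X Y) (fun ω => ∃ i ∈ range (h + 1),
      n ≤ i ∧ ∃ v, TV P X Y v ∧ Co ω (lv P X Y i) v) := by
    refine Pr_mono ?_
    rintro ω _ ⟨i, h1, h2, h3⟩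
    exact ⟨i, mem_range.2 (by omega), h1, h3⟩
  refine h1.trans ((Pr_bU _ _ _).trans ?_)
  refine (sum_le_sum key).trans ?_
  rw [sum_const, card_range, nsmul_eq_mul]
  push_cast
  exact le_rfl

namespace StD

variable (H : StD d o δ X Y Kv τ A p0 p b ρ ρK εN k r)

include H

/-- lattice radius of the zones -/
lemma exists_rz : ∃ m : ℤ, 1 ≤ m ∧ 2 * ρ + δ ≤ m * δ ∧ m * δ ≤ 3 * ρ := by
  have hδ := H.hδ
  obtain ⟨hM, hr1, hδρ, hMρ, hρ, hD, hK, h4, hrρ⟩ := H.nums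
  have h1 := Int.le_ceil (2 * ρ / δ)
  have h2 := Int.ceil_lt_add_one (2 * ρ / δ)
  have h3 : (0 : ℤ) ≤ ⌈2 * ρ / δ⌉ := Int.ceil_nonneg (by positivity)
  refine ⟨⌈2 * ρ / δ⌉ + 1, by omega, ?_, ?_⟩
  · rw [div_le_iff₀ hδ] at h1
    push_cast
    linarith
  · have h4 : (⌈2 * ρ / δ⌉ : ℝ) * δ ≤ (2 * ρ / δ + 1) * δ := by
      exact mul_le_mul_of_nonneg_right h2.le hδ.le
    have e : (2 * ρ / δ + 1) * δ = 2 * ρ + δ := by field_simp
    push_cast
    linarith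

/-- points far from `q` in lattice distance -/
lemma farK {m : ℤ} (hm' : m * δ ≤ 3 * ρ) {q : ℂ} {v : ℤ × ℤ} (h : ρK - 2 * ρ ≤ dist (pt δ v) q) :
    Far (4 ^ k * (m + 1) + 3) (flp δ q) v := by
  have hδ := H.hδ
  obtain ⟨hM, hr1, hδρ, hMρ, hρ, hD, hK, h4, hrρ⟩ := H.nums
  refine far_of_dist hδ h ?_
  push_cast
  have h1 : (4 : ℝ) ^ k * ((m + 1) * δ) ≤ 4 ^ k * (3 * ρ + ρ / 600) :=
    mul_le_mul_of_nonneg_left (by linarith) (by positivity)
  have h2 := H.far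
  nlinarith

/-- **Zones of the environment.** -/
theorem zones_X {δ0 : ℝ} (hδ0 : Dcy δ0) {j0 : ℕ} {t : ℤ × ℤ} (hR : Root X Kv j0 t) {y : ℕ}
    (hy : j0 < y) :
    Pr X.E (fun ω => Ev X Kv j0 t y (ω ∪ (zn X.E δ p ρ ∪ zn X.E δ b ρ))) ≤
      Pr X.E (fun ω => Ev X Kv j0 t y ω) + ((1 - δ0) ^ k + εN) ∧
    Pr X.E (fun ω => Ev X Kv j0 t y ω) ≤
      Pr X.E (fun ω => Ev X Kv j0 t y (ω \ (zn X.E δ p ρ ∪ zn X.E δ b ρ))) +
        ((1 - δ0) ^ k + εN) := by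
  have hδ := H.hδ
  obtain ⟨hM, hr1, hδρ, hMρ, hρ, hD, hK, h4, hrρ⟩ := H.nums
  obtain ⟨m, m1, m2, m3⟩ := H.exists_rz
  have h4' : (1 : ℤ) ≤ 4 ^ k := one_le_pow₀ (by norm_num)
  have near : ∀ {q : ℂ} {v : ℤ × ℤ}, dist (pt δ v) q < ρ → ¬ Far (m + 1) (flp δ q) v :=
    fun h => near_of_dist hδ (lt_trans h (by linarith : ρ < 2 * ρ)) m2
  refine ev_zones hδ0 H.sol hR H.odd hy m1 (c := flp δ p)
    (NB := fun v => dist (pt δ v) b < ρ) ?_ ?_ ?_ ?_ ?_ H.clo H.bad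
  · intro e he
    obtain ⟨-, h1, h2⟩ := mem_zn.1 he
    exact ⟨near h1, near h2⟩
  · intro v hv
    exact Far_mono (by nlinarith) (H.farK m3 (by have := H.Kp v hv; linarith))
  · intro e he
    exact (mem_zn.1 he).2
  · intro e he
    exact (mem_zn.1 he).1
  · intro v hv
    refine Far_mono (by nlinarith) (H.farK m3 ?_)
    have h1 := dist_triangle p (pt δ v) b
    rw [dist_comm p (pt δ v)] at h1
    have h2 := H.pb
    linarith

/-- **Zones of the polygon.** -/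
theorem zones_P {δ0 : ℝ} (hδ0 : Dcy δ0) {n : ℕ} (hn : 0 < n) (hnh : n < d.h) :
    Pr (EL (H.td.ok.T H.hr12) (LX d.K o.re δ) (LX d.K o.im δ))
      (fun ω => CI (H.td.ok.T H.hr12) (LX d.K o.re δ) (LX d.K o.im δ) n d.h
        (ω ∪ ((zn (d.G o δ) δ p (2 * ρ) ∪ zn (d.G o δ) δ b (2 * ρ)) ∩
          EL (H.td.ok.T H.hr12) (LX d.K o.re δ) (LX d.K o.im δ)))) ≤
    Pr (EL (H.td.ok.T H.hr12) (LX d.K o.re δ) (LX d.K o.im δ))
      (fun ω => CI (H.td.ok.T H.hr12) (LX d.K o.re δ) (LX d.K o.im δ) n d.h ω) +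
        3 * (1 - δ0) ^ k ∧
    Pr (EL (H.td.ok.T H.hr12) (LX d.K o.re δ) (LX d.K o.im δ))
      (fun ω => CI (H.td.ok.T H.hr12) (LX d.K o.re δ) (LX d.K o.im δ) n d.h ω) ≤
    Pr (EL (H.td.ok.T H.hr12) (LX d.K o.re δ) (LX d.K o.im δ))
      (fun ω => CI (H.td.ok.T H.hr12) (LX d.K o.re δ) (LX d.K o.im δ) n d.h
        (ω \ (zn (d.G o δ) δ p (2 * ρ) ∪ zn (d.G o δ) δ b (2 * ρ)))) +
        3 * (1 - δ0) ^ k := by
  classical
  have hδ := H.hδ
  obtain ⟨hM, hr1, hδρ, hMρ, hρ, hD, hK, h4, hrρ⟩ := H.nums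
  obtain ⟨m, m1, m2, m3⟩ := H.exists_rz
  obtain ⟨n1, n2, n3⟩ := H.n12
  have hr := H.hr12
  have hf := H.td.fine
  have h4' : (1 : ℤ) ≤ 4 ^ k := one_le_pow₀ (by norm_num)
  have hh : d.h = d.n2 - d.n1 := rfl
  set P := H.td.ok.T H.hr12 with hP
  set LXx := LX d.K o.re δ with hLX
  set LYy := LX d.K o.im δ with hLY
  set Zt := zn (d.G o δ) δ p (2 * ρ) with hZt
  set Zb := zn (d.G o δ) δ b (2 * ρ) with hZb
  have near : ∀ {q : ℂ} {v : ℤ × ℤ}, dist (pt δ v) q < 2 * ρ → ¬ Far (m + 1) (flp δ q) v :=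
    fun h => near_of_dist hδ h m2
  have hPD : PDual P LXx LYy n d.h := pDual P (gapX hf) (gapY hf) hn hnh (by
    rw [hP, T_m]; omega)
  have hodd : ∀ e ∈ gs LXx LYy P.Q, (e.1 + e.2) % 2 = 1 := fun e he => odd_gs he
  have hWL : ∀ e ∈ WL P LXx LYy, TV P LXx LYy (eu e) ∧ TV P LXx LYy (ev e) := wlT H.td.ok hr hf
  have hsL : ∀ i, ∀ e ∈ sL LXx LYy (P.side i), e ∈ gs LXx LYy P.Q := by
    intro i e he
    have := slT H.td.ok hr i e he
    rw [← T_gs H.td.ok hr] at this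
    exact this
  obtain ⟨S, s, c1, c2, c3, c4, c5⟩ := H.ch
  have hch : Chan P LXx LYy d.h (flp δ b) (4 ^ k * (m + 1) + 2) (s - d.n1) :=
    SD.chan H.td.ok hf hr H.n2N c1 c2 c3 c4 fun v hv => Far_mono (by omega)
      (H.farK m3 (by have := c5 v hv; linarith))
  have hb := pi_b hδ0 (r := m + 1) (by omega) hch hPD hodd hsL hWL (Z := Zb) (fun e he => by
    obtain ⟨-, h1, h2⟩ := mem_zn.1 he
    exact ⟨near h1, near h2⟩)
  have ht := pi_t hδ0 (k := k) (n := n) (h := d.h) (c := flp δ p) (r := m) m1 hodd hWL (Z := Zt)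
    (F := Zb) (fun e he => by
      obtain ⟨-, h1, h2⟩ := mem_zn.1 he
      exact ⟨near h1, near h2⟩)
    (fun e he => by
      obtain ⟨-, h1, h2⟩ := mem_zn.1 he
      have key : ∀ v : ℤ × ℤ, dist (pt δ v) b < 2 * ρ → Far (4 ^ k * m) (flp δ p) v := by
        intro v hv
        refine Far_mono (by nlinarith) (H.farK m3 ?_)
        have h3 := dist_triangle p (pt δ v) b
        rw [dist_comm p (pt δ v)] at h3
        have h5 := H.pb
        linarith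
      exact ⟨key _ h1, key _ h2⟩)
    (fun i hi hih v hv => by
      obtain ⟨j, hj, rfl⟩ := sV_side' H.td.ok hr hf hv
      refine Far_mono (by nlinarith) (H.farK m3 ?_)
      have := H.run_far (s := i + d.n1) (by omega) (by omega) hj
      linarith)
  constructor
  · have e1 : Pr (EL P LXx LYy) (fun ω => CI P LXx LYy n d.h (ω ∪ ((Zt ∪ Zb) ∩ EL P LXx LYy))) ≤
        Pr (EL P LXx LYy) (fun ω => CI P LXx LYy n d.h (ω ∪ (Zb ∩ EL P LXx LYy))) +
          (1 - δ0) ^ k := by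
      refine le_trans ?_ (add_le_add_right (ht (fun ω => ω ∪ (Zb ∩ EL P LXx LYy))
        (fun ω hω => union_subset_union (subset_refl _) inter_subset_left)) _)
      refine le_trans (Pr_mono ?_) (Pr_or_le _ _ _)
      intro ω hω h1
      by_cases h2 : CI P LXx LYy n d.h (ω ∪ (Zb ∩ EL P LXx LYy))
      · exact Or.inl h2
      · refine Or.inr ⟨CI_mono ?_ h1, fun h3 => h2 (CI_mono sdiff_subset h3)⟩
        intro e he
        simp only [mem_union, mem_inter] at he ⊢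
        tauto
    have e2 : Pr (EL P LXx LYy) (fun ω => CI P LXx LYy n d.h (ω ∪ (Zb ∩ EL P LXx LYy))) ≤
        Pr (EL P LXx LYy) (fun ω => CI P LXx LYy n d.h ω) + 2 * (1 - δ0) ^ k := by
      refine le_trans ?_ (add_le_add_right hb _)
      refine le_trans (Pr_mono ?_) (Pr_or_le _ _ _)
      intro ω hω h1
      by_cases h2 : CI P LXx LYy n d.h ω
      · exact Or.inl h2
      · exact Or.inr ⟨h1, fun h3 => h2 (CI_mono sdiff_subset h3)⟩
    linarith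
  · have e1 : Pr (EL P LXx LYy) (fun ω => CI P LXx LYy n d.h ω) ≤
        Pr (EL P LXx LYy) (fun ω => CI P LXx LYy n d.h (ω \ Zb)) + 2 * (1 - δ0) ^ k := by
      refine le_trans ?_ (add_le_add_right hb _)
      refine le_trans (Pr_mono ?_) (Pr_or_le _ _ _)
      intro ω hω h1
      by_cases h2 : CI P LXx LYy n d.h (ω \ Zb)
      · exact Or.inl h2
      · exact Or.inr ⟨CI_mono subset_union_left h1, h2⟩
    have e2 : Pr (EL P LXx LYy) (fun ω => CI P LXx LYy n d.h (ω \ Zb)) ≤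
        Pr (EL P LXx LYy) (fun ω => CI P LXx LYy n d.h (ω \ (Zt ∪ Zb))) + (1 - δ0) ^ k := by
      refine le_trans ?_ (add_le_add_right (ht (fun ω => ω \ Zb)
        (fun ω hω => sdiff_subset.trans subset_union_left)) _)
      refine le_trans (Pr_mono ?_) (Pr_or_le _ _ _)
      intro ω hω h1
      by_cases h2 : CI P LXx LYy n d.h ((ω \ Zb) \ Zt)
      · left
        refine CI_mono ?_ h2
        intro e he
        simp only [mem_union, mem_sdiff] at he ⊢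
        tauto
      · exact Or.inr ⟨CI_mono subset_union_left h1, h2⟩
    linarith

end StD

end Pool.Agent.H21.Q1
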