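import Mathlib
import Pool.Agent.H21.Q1.StC

set_option autoImplicit false
open Finset

/-! Module M3 of Q1: the comparison theorem for a state. -/

namespace Pool.Agent.H21.Q1

open Pool.Agent.H75.Perc hiding WL
open Pool.Agent.H75.TwoArm Pool.Agent.H75.Four Pool.Agent.H99.NC
open Pool.Agent.H69.Q1 Pool.Agent.H28.Q1
open Pool.Agent.Q1.M3 Pool.Agent.Q1.M3.Pg
open Pool.Agent.H81.Q1 (pt)
open Pool.Agent.H42.Q1 (RB)
open Pool.Agent.H75.TwoArm.StrandAux hiding vx_nxC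
open Pool.Agent.H49.Q1 (gs gcell mem_gs CJ)
open Pool.Agent.H77.Q1 (lbf mem_du' Far unit4_neg)
open Pool.Agent.H5.Q1 (sp slen gp oc SS)
open Pool.Agent.Q1.M4 (PType)
open Pool.Agent.Q1.M5 (EL WL CI CT TV sV sL lv)

variable {d : SD} {o : ℂ} {δ : ℝ} {X Y : DEnv} {Kv τ A : Finset (ℤ × ℤ)} {p0 : ℕ} {p b : ℂ}
  {ρ ρK εN : ℝ} {k : ℕ} {r : ℤ}

lemma Pr_true (E : Finset (ℤ × ℤ)) : Pr E (fun _ => True) = 1 := by
  classical
  rw [Pr_eq, filter_true_of_mem (fun _ _ => trivial), card_powerset, div_eq_one_iff_eq (by positivity)]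
  push_cast
  rfl

/-- the side `s` has a point far from `b` -/
def FS (d : SD) (o : ℂ) (δ : ℝ) (b : ℂ) (ρ : ℝ) (s : ℕ) : Prop :=
  ∃ j ≤ d.ln o δ s, 3 / 2 * ρ ≤ dist (pt δ (d.pt' o δ s j)) b

namespace StD

variable (H : StD d o δ X Y Kv τ A p0 p b ρ ρK εN k r)

include H

/-- **Comparison for one cut.** -/
theorem cmp_n {δ0 : ℝ} (hδ0 : Dcy δ0) {j0 : ℕ} {t : ℤ × ℤ} (hR : Root X Kv j0 t) {y n : ℕ}
    (hy : j0 < y) (hn : 0 < n) (hnh : n < d.h)
    (cI : ∀ s, d.n1 + n ≤ s → s < d.n2 → d.oc' s ∈ Pg.flat d.K d.C → FS d o δ b ρ s →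
      ∀ j, 0 < j → j < d.ln o δ s → ∀ i < per X Kv, rl X Kv i = d.ol o δ s j → y ≤ i)
    (cL : ∀ s, d.n1 ≤ s → s < d.n1 + n → s < d.n2 → d.oc' s ∈ Pg.flat d.K d.C →
      FS d o δ b ρ s → ∀ j, 0 < j →
      j < d.ln o δ s → ∀ i < per X Kv, rl X Kv i = d.ol o δ s j → i < y) {k2 : ℕ}
    (hk2 : 2 * 4 ^ k2 + 4 ≤ mesh (d.K + 1) / δ) :
    |Pr X.E (fun ω => Ev X Kv j0 t y ω) - Pr (EL (H.td.ok.T H.hr12) (LX d.K o.re δ)
      (LX d.K o.im δ)) (fun ω => CI (H.td.ok.T H.hr12) (LX d.K o.re δ) (LX d.K o.im δ) n d.h ω)| ≤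
      εN + 5 * (1 - δ0) ^ k + (d.h + 1) * (1 - δ0) ^ k2 := by
  have hδ := H.hδ
  have hf := H.td.fine
  obtain ⟨n1, n2, n3⟩ := H.n12
  have hh : d.h = d.n2 - d.n1 := rfl
  have hm : d.h < (H.td.ok.T H.hr12).m := by rw [T_m]; omega
  have hPD := pDual (H.td.ok.T H.hr12) (gapX hf) (gapY hf) hn hnh hm
  have hk2' : (4 ^ k2 + 2 + 2 : ℝ) * δ ≤ mesh (d.K + 1) := by
    rw [le_div_iff₀ hδ] at hk2
    have : (0 : ℝ) < 4 ^ k2 := by positivity
    nlinarith
  have gx : Pool.Agent.H4.Q1.GapD (LX d.K o.re δ) (4 ^ k2 + 2) := by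
    intro i
    have h1 := LX_step (K := d.K) (o := o.re) hδ (c := 4 ^ k2 + 2) hk2' i
    have h2 : ((LX d.K o.re δ i + (4 ^ k2 + 2) : ℤ) : ℝ) ≤ (LX d.K o.re δ (i + 1) : ℤ) := by
      push_cast; linarith
    exact_mod_cast h2
  have gy : Pool.Agent.H4.Q1.GapD (LX d.K o.im δ) (4 ^ k2 + 2) := by
    intro i
    have h1 := LX_step (K := d.K) (o := o.im) hδ (c := 4 ^ k2 + 2) hk2' i
    have h2 : ((LX d.K o.im δ i + (4 ^ k2 + 2) : ℤ) : ℝ) ≤ (LX d.K o.im δ (i + 1) : ℤ) := by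
      push_cast; linarith
    exact_mod_cast h2
  have hC := pr_cor hδ0 gx gy (P := H.td.ok.T H.hr12) (n := n) (h := d.h)
    (fun e he => odd_gs (EL_gs he)) hn hm
  obtain ⟨x1, x2⟩ := H.zones_X hδ0 hR hy
  obtain ⟨z1, z2⟩ := H.zones_P hδ0 hn hnh
  have key := (H.pcmp hR hn cI cL hnh.le).main hδ0 H.sol hR H.invL H.odd hPD x1 x2 z1 z2 hC
  refine key.trans (le_of_eq ?_)
  ring

/-- all points of a side far from `b` -/
lemma fs_all {s i : ℕ} (hi : i ≤ d.ln o δ s) (h : FS d o δ b ρ s) :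
    5 / 4 * ρ ≤ dist (pt δ (d.pt' o δ s i)) b := by
  obtain ⟨j, hj, h1⟩ := h
  obtain ⟨hM, hr1, hδρ, hMρ, hρ, hD, hK, h4, hrρ⟩ := H.nums
  have h2 := H.dist_side hj hi
  have h3 := dist_triangle (pt δ (d.pt' o δ s j)) (pt δ (d.pt' o δ s i)) b
  linarith

lemma fs_flat {s : ℕ} (h1 : d.n1 ≤ s) (h2 : s < d.n2) (h : FS d o δ b ρ s) :
    d.oc' s ∈ Pg.flat d.K d.C := by
  obtain ⟨j, hj, h3⟩ := h
  exact H.run_flat h1 h2 hj h3

/-- **The channel.** -/
theorem chan {m : ℤ} (m1 : 1 ≤ m) (m3 : m * δ ≤ 3 * ρ) : ∃ s, d.n1 ≤ s ∧ s < d.n2 ∧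
    FS d o δ b ρ s ∧ Chan (H.td.ok.T H.hr12) (LX d.K o.re δ) (LX d.K o.im δ) d.h (flp δ b)
      (4 ^ k * (m + 1) + 2) (s - d.n1) := by
  obtain ⟨hM, hr1, hδρ, hMρ, hρ, hD, hK, h4, hrρ⟩ := H.nums
  obtain ⟨S, s, c1, c2, c3, c4, c5⟩ := H.ch
  refine ⟨s, c1, c2, ⟨1, ?_, ?_⟩, SD.chan H.td.ok H.td.fine H.hr12 H.n2N c1 c2 c3 c4
    fun v hv => Far_mono (by omega) (H.farK m3 (by have := c5 v hv; linarith))⟩
  · have := SD.three_ln H.td.fine s
    omega
  · have hs : (d.sid s).1 ∈ S := by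
      have h1 := c4
      exact (J4.mem h1 ⟨c3, by exact_mod_cast H.td.ok.side.1⟩).1
    have hln := SD.three_ln H.td.fine s
    obtain ⟨b1, -⟩ := SD.side_box' H.td.ok H.td.fine (n := s) (j := 1) one_pos (by omega)
    have h2 := c5 (d.pt' o δ s 1) ⟨_, hs, by rw [b1]; simp, by rw [b1]; simp⟩
    linarith

/-- **The comparison theorem for a state.** -/
theorem cmp {δ0 : ℝ} (hδ0 : Dcy δ0) {j0 : ℕ} {t : ℤ × ℤ} (hR : Root X Kv j0 t) {y m : ℕ}
    (hy : j0 < y) (hyp : y ≤ per X Kv) (hm : m ≤ d.h) (hcut : Asm.Cut d o δ X Kv y m) {k2 : ℕ}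
    (hk2 : 2 * 4 ^ k2 + 4 ≤ mesh (d.K + 1) / δ) :
    |Pr X.E (fun ω => Ev X Kv j0 t y ω) - d.gg (LX d.K o.re δ) (LX d.K o.im δ) m| ≤
      εN + 6 * (1 - δ0) ^ k + (d.h + 1) * (1 - δ0) ^ k2 := by
  classical
  have hδ := H.hδ
  have hf := H.td.fine
  obtain ⟨n1, n2, n3⟩ := H.n12
  have hr := H.hr12
  obtain ⟨hM, hr1, hδρ, hMρ, hρ, hD, hK, h4, hrρ⟩ := H.nums
  have hh : d.h = d.n2 - d.n1 := rfl
  have hmT : d.h < (H.td.ok.T H.hr12).m := by rw [T_m]; omega
  have hpk : 0 ≤ (1 - δ0) ^ k := pow_nonneg (by linarith [hδ0.2.1]) _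
  have hpk2 : 0 ≤ (1 - δ0) ^ k2 := pow_nonneg (by linarith [hδ0.2.1]) _
  have hεN : 0 ≤ εN := (Pr_nonneg _ _).trans H.bad
  have hh0 : (0 : ℝ) ≤ d.h := Nat.cast_nonneg _
  have hprod : 0 ≤ ((d.h : ℝ) + 1) * (1 - δ0) ^ k2 := by positivity
  have hPr1 : Pr X.E (fun ω => Ev X Kv j0 t y ω) ≤ 1 := Pr_le_one _ _
  have hPr0 : 0 ≤ Pr X.E (fun ω => Ev X Kv j0 t y ω) := Pr_nonneg _ _
  obtain ⟨rz, m1, m2, m3⟩ := H.exists_rz
  obtain ⟨s0, s1, s2, s3, hch⟩ := H.chan m1 m3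
  obtain ⟨x1, x2⟩ := H.zones_X hδ0 hR hy
  have near : ∀ {v : ℤ × ℤ}, dist (pt δ v) b < 3 / 2 * ρ → ¬ Far (rz + 1) (flp δ b) v :=
    fun h => near_of_dist hδ (lt_trans h (by linarith : 3 / 2 * ρ < 2 * ρ)) m2
  have hnfs : ∀ s, ¬ FS d o δ b ρ s → ∀ j ≤ d.ln o δ s,
      dist (pt δ (d.pt' o δ s j)) b < 3 / 2 * ρ := by
    intro s hs j hj
    by_contra hcon
    exact hs ⟨j, hj, not_lt.1 hcon⟩
  have hWL : ∀ e ∈ WL (H.td.ok.T H.hr12) (LX d.K o.re δ) (LX d.K o.im δ),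
      TV (H.td.ok.T H.hr12) (LX d.K o.re δ) (LX d.K o.im δ) (eu e) ∧
        TV (H.td.ok.T H.hr12) (LX d.K o.re δ) (LX d.K o.im δ) (ev e) := wlT H.td.ok hr hf
  have hodd : ∀ e ∈ gs (LX d.K o.re δ) (LX d.K o.im δ) (H.td.ok.T H.hr12).Q,
      (e.1 + e.2) % 2 = 1 := fun e he => odd_gs he
  have hsL : ∀ i, ∀ e ∈ sL (LX d.K o.re δ) (LX d.K o.im δ) ((H.td.ok.T H.hr12).side i),
      e ∈ gs (LX d.K o.re δ) (LX d.K o.im δ) (H.td.ok.T H.hr12).Q := by
    intro i e he
    have := slT H.td.ok hr i e he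
    rw [← T_gs H.td.ok hr] at this
    exact this
  rcases Nat.eq_zero_or_pos m with hm0 | hm0
  · -- all sides of the run have positions at least `y`
    subst hm0
    have hgg : d.gg (LX d.K o.re δ) (LX d.K o.im δ) 0 = 1 := by
      unfold SD.gg; rw [if_pos rfl]
    rw [hgg, abs_le]
    refine ⟨?_, by linarith⟩
    by_cases hF : FS d o δ b ρ d.n1
    · have hln := SD.three_ln hf d.n1
      have hfl := H.fs_flat le_rfl hr hF
      have hp1 : 5 / 4 * ρ ≤ dist (pt δ (d.pt' o δ d.n1 0)) p := by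
        have := H.run_far (s := d.n1) (j := 0) le_rfl hr (by omega)
        linarith
      have htie := H.ptie_corner hp1 (H.fs_all (by omega) hF)
      obtain ⟨c1, c2, -⟩ := H.ol_flat hfl (j := 1) one_pos (by omega)
      obtain ⟨q, q1, q2⟩ := H.td.exists_ring (j := 1) one_pos (by omega) c1
      have hyq := (hcut d.n1 le_rfl hr hfl 1 one_pos (by omega) q q1 q2).2 (by omega)
      have key := comp_I (y := y) (k := k) (Z := zn X.E δ p ρ ∪ zn X.E δ b ρ) hδ0 H.sol hR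
        H.invL H.odd {d.pt' o δ d.n1 1} (by
          intro v hv
          rw [mem_singleton] at hv
          rw [hv]; exact htie) (A := fun _ => True) (by
          intro ω _ _
          refine ⟨d.pt' o δ d.n1 1, mem_singleton_self _, q, d.pt' o δ d.n1 1, hyq, q1,
            by rw [q2]; exact c1, by rw [q2]; exact c2, by rw [q2]; exact (H.ol_ends _ _).2.1,
            Co.refl _ _⟩)
      rw [Pr_true] at key
      have h5 : Pr X.E (fun ω => Ev X Kv j0 t y (ω ∪ (EX0 X Kv ∩ (zn X.E δ p ρ ∪ zn X.E δ b ρ)))) ≤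
          Pr X.E (fun ω => Ev X Kv j0 t y (ω ∪ (zn X.E δ p ρ ∪ zn X.E δ b ρ))) :=
        Pr_mono fun ω _ h => h.mono (union_subset_union (subset_refl _) inter_subset_right)
      linarith
    · -- the first side far from `b`
      have hex : ∃ n, FS d o δ b ρ (d.n1 + n) :=
        ⟨s0 - d.n1, by rw [show d.n1 + (s0 - d.n1) = s0 by omega]; exact s3⟩
      set n := Nat.find hex with hn
      have hn1 : FS d o δ b ρ (d.n1 + n) := Nat.find_spec hex
      have hn2 : ∀ i < n, ¬ FS d o δ b ρ (d.n1 + i) := fun i hi => Nat.find_min hex hi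
      have hn3 : n ≤ s0 - d.n1 := Nat.find_min' hex (by
        rw [show d.n1 + (s0 - d.n1) = s0 by omega]; exact s3)
      have hn0 : 0 < n := by
        rcases Nat.eq_zero_or_pos n with h | h
        · rw [h] at hn1; exact absurd hn1 hF
        · exact h
      have hPD := pDual (H.td.ok.T H.hr12) (gapX hf) (gapY hf) hn0 (by omega : n < d.h) hmT
      have c1 := H.cmp_n hδ0 hR hy hn0 (by omega : n < d.h)
        (fun s a1 a2 a3 _ j a5 a6 i a7 a8 => (hcut s (by omega) a2 a3 j a5 a6 i a7 a8).2 (by omega))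
        (fun s a1 a2 _ _ a4 => absurd a4 (by
          have := hn2 (s - d.n1) (by omega)
          rwa [show d.n1 + (s - d.n1) = s by omega] at this)) hk2
      have c2 := pb_dual hδ0 (r := rz + 1) (by omega) hch hPD hodd hsL hn3 (by
        intro i hi e he
        obtain ⟨j, h1, h2, -⟩ := sL_side H.td.ok hr hf he
        obtain ⟨-, l2⟩ := sl'_ends (LX d.K o.re δ) (LX d.K o.im δ) (d.sid (i + d.n1)) j
        have hns := hn2 i hi
        rw [add_comm] at hns
        have g1 := near (hnfs _ hns j h1.le)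
        have g2 := near (hnfs _ hns (j + 1) h1)
        unfold Nl
        rw [h2]
        rcases l2 with ⟨e1, e2⟩ | ⟨e1, e2⟩
        · rw [← e1, ← e2]; exact ⟨g1, g2⟩
        · rw [← e1, ← e2]; exact ⟨g2, g1⟩)
      rw [Pr_not'] at c2
      rw [abs_le] at c1
      linarith [c1.1]
  · rcases Nat.lt_or_ge m d.h with hmh | hmh
    · have hgg : d.gg (LX d.K o.re δ) (LX d.K o.im δ) m = Pr (EL (H.td.ok.T H.hr12)
          (LX d.K o.re δ) (LX d.K o.im δ)) (fun ω => CI (H.td.ok.T H.hr12) (LX d.K o.re δ)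
            (LX d.K o.im δ) m d.h ω) := by
        unfold SD.gg
        rw [if_neg (by omega), if_neg (by omega), dif_pos ⟨H.td.ok, hr, H.n2N⟩]
      rw [hgg]
      have c1 := H.cmp_n hδ0 hR hy hm0 hmh
        (fun s a1 a2 a3 _ j a5 a6 i a7 a8 => (hcut s (by omega) a2 a3 j a5 a6 i a7 a8).2 a1)
        (fun s a1 a2 a2' a3 _ j a5 a6 i a7 a8 => by
          by_contra hcon
          have := (hcut s a1 a2' a3 j a5 a6 i a7 a8).1 (by omega)
          omega) hk2
      linarith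
    · -- all sides of the run have positions less than `y`
      have hme : m = d.h := le_antisymm hm hmh
      have hgg : d.gg (LX d.K o.re δ) (LX d.K o.im δ) m = 0 := by
        unfold SD.gg; rw [if_neg (by omega), if_pos hmh]
      rw [hgg, sub_zero, abs_of_nonneg hPr0]
      obtain ⟨sl, hsl⟩ : ∃ sl, sl + 1 = d.n2 := ⟨d.n2 - 1, by omega⟩
      by_cases hF : FS d o δ b ρ sl
      · have hln := SD.three_ln hf sl
        have hfl := H.fs_flat (by omega) (by omega) hF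
        have hc : d.pt' o δ sl (d.ln o δ sl) = d.pt' o δ d.n2 0 := by
          rw [← hsl]; exact SD.pt_next hf sl
        have hp1 : 5 / 4 * ρ ≤ dist (pt δ (d.pt' o δ d.n2 0)) p := by
          have := H.run_far (s := sl) (j := d.ln o δ sl) (by omega) (by omega) le_rfl
          rw [hc] at this
          linarith
        have hb1 := H.fs_all le_rfl hF
        rw [hc] at hb1
        have htie := H.dtie_corner hsl hp1 hb1
        obtain ⟨jj, q, b1, b2, b3, b4, a, b5, b6⟩ := H.ring_face (s := sl)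
          (j := d.ln o δ sl - 1) hfl (by omega)
        have hq : q < y := by
          by_contra hcon
          have := (hcut sl (by omega) (by omega) hfl jj b1 b2 q b3 b4).1 (by omega)
          omega
        have hj0 := H.j0_lt hR (s := sl) (by omega) (by omega) b1 b2 (H.ol_flat hfl b1 b2).1 b3 b4
        have key := comp_II (y := y) (k := k) (Z := zn X.E δ p ρ ∪ zn X.E δ b ρ) hδ0 H.sol hR
          H.odd {d.of' o δ sl (d.ln o δ sl - 1)} (by
            intro v hv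
            rw [mem_singleton] at hv
            rw [hv]; exact htie) (A := fun _ => True) (by
            intro ω _ _
            refine ⟨_, mem_singleton_self _, a, by omega, by omega, by omega, ?_⟩
            rw [b6]
            exact Co.refl _ _)
        rw [Pr_true, Pr_not'] at key
        linarith
      · -- after the last side far from `b`
        have hex : ∃ n, ∀ s, d.n1 + n ≤ s → s < d.n2 → ¬ FS d o δ b ρ s :=
          ⟨d.h - 1, fun s a1 a2 => by
            have : s = sl := by omega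
            rw [this]; exact hF⟩
        set n := Nat.find hex with hn
        have hn1 : ∀ s, d.n1 + n ≤ s → s < d.n2 → ¬ FS d o δ b ρ s := Nat.find_spec hex
        have hn2 : n ≤ d.h - 1 := Nat.find_min' hex fun s a1 a2 => by
          have : s = sl := by omega
          rw [this]; exact hF
        have hn3 : s0 - d.n1 < n := by
          by_contra hcon
          exact hn1 s0 (by omega) s2 s3
        have hPD := pDual (H.td.ok.T H.hr12) (gapX hf) (gapY hf) (by omega : 0 < n)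
          (by omega : n < d.h) hmT
        have c1 := H.cmp_n hδ0 hR hy (by omega : 0 < n) (by omega : n < d.h)
          (fun s a1 a2 _ a4 => absurd a4 (hn1 s a1 a2))
          (fun s a1 a2 a2' a3 _ j a5 a6 i a7 a8 => by
            by_contra hcon
            have := (hcut s a1 a2' a3 j a5 a6 i a7 a8).1 (by omega)
            omega) hk2
        have c2 := pb_primal hδ0 (r := rz + 1) (by omega) hch hPD hodd hWL hn3 (by
          intro i hi hih v hv
          obtain ⟨j, hj, rfl⟩ := sV_side' H.td.ok hr hf hv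
          exact near (hnfs _ (hn1 (i + d.n1) (by omega) (by omega)) j hj))
        rw [abs_le] at c1
        linarith [c1.2]

end StD

end Pool.Agent.H21.Q1
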