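import Mathlib
import Pool.Agent.Q1.M3.Pg.SDC
import Pool.Agent.Q1.M3.Pg.Ok
import Pool.Agent.Q1.M3.State

set_option autoImplicit false
open Finset

/-! Module M3 of Q1: the number of the sides of a region is bounded by a constant which depends only on
the levels. -/

namespace Pool.Agent.H21.Q1

open Pool.Agent.H75.Perc Pool.Agent.H75.TwoArm Pool.Agent.H75.Four
open Pool.Agent.H69.Q1 Pool.Agent.H28.Q1
open Pool.Agent.Q1.M3 Pool.Agent.Q1.M3.Pg
open Pool.Agent.H81.Q1 (pt Approx)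

/-- The number of sides. -/
theorem N_le {d : SD} (h : d.Ok) : d.N ≤ 4 * d.R.card := by
  classical
  have hw := h.mark.walk
  set f : ℕ → (ℤ × ℤ) × ℤ := fun n => ((d.sid n).1, (d.sid n).2 % 4) with hf
  have h1 : Set.InjOn f (range d.N : Finset ℕ) := by
    intro n hn n' hn' he
    rw [coe_range, Set.mem_Iio] at hn hn'
    rw [hf] at he
    simp only [Prod.mk.injEq] at he
    exact hw.inj n hn n' hn' he.1 (by
      have := he.2
      change ((d.sid n).2 - (d.sid n').2) % 4 = 0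
      omega)
  have h2 : (range d.N).image f ⊆ d.R ×ˢ (Ico (0 : ℤ) 4) := by
    intro x hx
    obtain ⟨n, -, rfl⟩ := mem_image.1 hx
    rw [hf, mem_product, mem_Ico]
    exact ⟨(SD.isSide h n).1, by simp only; omega⟩
  have h3 := card_le_card h2
  rw [card_image_of_injOn h1, card_range, card_product, Int.card_Ico] at h3
  simp only [sub_zero] at h3
  have h4 : (4 : ℤ).toNat = 4 := rfl
  rw [h4] at h3
  omega

lemma h_le_N {d : SD} (h : d.Ok) : d.h ≤ d.N := by
  have h1 := h.mark.le'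
  have hh : d.h = d.n2 - d.n1 := rfl
  omega

variable {D : Set ℂ} {a b : ℂ} {A₁ A₂ : Set ℂ} {A : Approx D a b A₁ A₂} {r0 : ℝ} (B : Base A r0)

/-- **Uniform bound for the number of sides.** -/
theorem h_bound (hDb : Bornology.IsBounded D) (K M : ℕ) : ∃ Nm : ℕ, ∀ (δ : ℝ)
    (E : Finset (ℤ × ℤ)) (C : Finset Cell), (∀ q ∈ C, q.1 ≤ K ∧ cfat B.o q ⊆ D) → ∀ (BB : Cell) (z : ℂ)
    (s : (ℤ × ℤ) × ℤ), (mkSD B K δ E C M BB z s).Ok → (mkSD B K δ E C M BB z s).h ≤ Nm := by
  classical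
  refine ⟨4 * (fill (flat K (cellsLe D B.o 0 K ∪ B.Q M))).card, ?_⟩
  intro δ E C hC BB z s hok
  refine (h_le_N hok).trans ((N_le hok).trans (Nat.mul_le_mul_left 4 (card_le_card ?_)))
  have h1 : (mkSD B K δ E C M BB z s).R ⊆ fill (flat K (Uk D δ B.o B.qb K E ∪ (C ∪ B.Q M))) :=
    SD.R_sub.trans sdiff_subset
  refine h1.trans (fill_mono (flat_mono ?_))
  refine union_subset ?_ (union_subset ?_ subset_union_right)
  · intro q hq
    obtain ⟨h2, h3⟩ := mem_filter.1 hq
    have h4 := (mem_cells hDb).1 h2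
    exact mem_union_left _ ((mem_cellsLe hDb).2 ⟨Nat.zero_le _, h4.1.le, h4.2⟩)
  · intro q hq
    exact mem_union_left _ ((mem_cellsLe hDb).2 ⟨Nat.zero_le _, (hC q hq).1, (hC q hq).2⟩)

end Pool.Agent.H21.Q1
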